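import Pool.Agent.Lib.MP_666dc0_nt.Mg.G058

/-!
# EP, C1b: transposes
-/

namespace Pool.Agent.Lib.MP_666dc0_nt.EP

variable {R : Type} {A : Type} [CommRing R] [Group A] {W X Y Z : Type} [MulAction A W]
  [MulAction A X] [MulAction A Y] [MulAction A Z]

variable {L V : Type} [Field L] [Algebra R L] [AddCommGroup V] [Module L V]

/-- The `R`-linear extension of `f : Z → V` to `R[Z]`, evaluated at `c m`: transposition. -/
theorem pull_sum (c : (Y →₀ R) →ₗ[R] (Z →₀ R)) (f : Z → V) (m : Y →₀ R) :
    (m.sum fun y r => algebraMap R L r • pull L V c f y) =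
      (c m).sum fun z r => algebraMap R L r • f z := by
  induction m using Finsupp.induction_linear with
  | zero => rw [map_zero, Finsupp.sum_zero_index, Finsupp.sum_zero_index]
  | add m m' hm hm' =>
    rw [Finsupp.sum_add_index' (fun y => by rw [map_zero, zero_smul])
      (fun y r s => by rw [map_add, add_smul]), hm, hm', map_add,
      Finsupp.sum_add_index' (fun y => by rw [map_zero, zero_smul])
      (fun y r s => by rw [map_add, add_smul])]
  | single y r =>
    have h1 : Finsupp.single y r = r • Finsupp.single y (1 : R) := by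
      rw [Finsupp.smul_single, smul_eq_mul, mul_one]
    rw [Finsupp.sum_single_index (by rw [map_zero, zero_smul]), h1, map_smul,
      Finsupp.sum_smul_index (fun z => by rw [map_zero, zero_smul])]
    show algebraMap R L r • (c (Finsupp.single y 1)).sum (fun z r => algebraMap R L r • f z) = _
    rw [Finsupp.smul_sum]
    refine Finsupp.sum_congr fun z _ => ?_
    rw [map_mul, mul_smul]

theorem pull_comp (c' : (Z →₀ R) →ₗ[R] (W →₀ R)) (c : (Y →₀ R) →ₗ[R] (Z →₀ R)) :
    pull L V (c' ∘ₗ c) = pull L V c ∘ₗ pull L V c' := by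
  refine LinearMap.ext fun f => funext fun y => ?_
  exact (pull_sum c' f (c (Finsupp.single y 1))).symm

theorem pull_id : pull L V (LinearMap.id : (Y →₀ R) →ₗ[R] (Y →₀ R)) = LinearMap.id := by
  refine LinearMap.ext fun f => funext fun y => ?_
  show (Finsupp.single y (1 : R)).sum (fun z r => algebraMap R L r • f z) = f y
  rw [Finsupp.sum_single_index (by rw [map_zero, zero_smul]), map_one, one_smul]

theorem pull_zero : pull L V (0 : (Y →₀ R) →ₗ[R] (Z →₀ R)) = 0 := by
  refine LinearMap.ext fun f => funext fun y => ?_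
  show (0 : Z →₀ R).sum (fun z r => algebraMap R L r • f z) = 0
  exact Finsupp.sum_zero_index

theorem pull_add (c c' : (Y →₀ R) →ₗ[R] (Z →₀ R)) :
    pull L V (c + c') = pull L V c + pull L V c' := by
  refine LinearMap.ext fun f => funext fun y => ?_
  show (c (Finsupp.single y 1) + c' (Finsupp.single y 1)).sum
    (fun z r => algebraMap R L r • f z) = (c (Finsupp.single y 1)).sum
    (fun z r => algebraMap R L r • f z) + (c' (Finsupp.single y 1)).sum
    (fun z r => algebraMap R L r • f z)
  rw [Finsupp.sum_add_index' (fun y => by rw [map_zero, zero_smul])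
      (fun y r s => by rw [map_add, add_smul])]

theorem pull_sub (c c' : (Y →₀ R) →ₗ[R] (Z →₀ R)) :
    pull L V (c - c') = pull L V c - pull L V c' := by
  rw [eq_sub_iff_add_eq, ← pull_add]
  congr 1
  exact sub_add_cancel c c'

theorem pull_smul (r : R) (c : (Y →₀ R) →ₗ[R] (Z →₀ R)) :
    pull L V (r • c) = algebraMap R L r • pull L V c := by
  refine LinearMap.ext fun f => funext fun y => ?_
  show (r • c (Finsupp.single y 1)).sum (fun z r => algebraMap R L r • f z) =
    algebraMap R L r • (c (Finsupp.single y 1)).sum (fun z r => algebraMap R L r • f z)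
  rw [Finsupp.sum_smul_index (fun z => by rw [map_zero, zero_smul]), Finsupp.smul_sum]
  refine Finsupp.sum_congr fun z _ => ?_
  rw [map_mul, mul_smul]

theorem pull_mem_Fun (ρ : Representation L A V) {c : (Y →₀ R) →ₗ[R] (Z →₀ R)} (hc : Equi A c)
    {f : Z → V} (hf : f ∈ Fun ρ Z) : pull L V c f ∈ Fun ρ Y := by
  intro a y
  show (c (Finsupp.single (a • y) 1)).sum (fun z r => algebraMap R L r • f z) =
    ρ a ((c (Finsupp.single y 1)).sum (fun z r => algebraMap R L r • f z))
  rw [hc.single a y, Finsupp.sum_mapDomain_index (fun z => by rw [map_zero, zero_smul])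
      (fun z r s => by rw [map_add, add_smul]), map_finsuppSum]
  refine Finsupp.sum_congr fun z _ => ?_
  rw [hf a z, map_smul]

end Pool.Agent.Lib.MP_666dc0_nt.EP
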