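import Pool.Agent.Lib.MP_666dc0_nt.EP.Defs

/-!
# EP, C2a: resolutions
-/

namespace Pool.Agent.Lib.MP_666dc0_nt.EP

variable {R : Type} {A : Type} [CommRing R] [Group A] {E X : Type} [MulAction A E] [MulAction A X]

/-- A resolution of `R[X]` by the free `R`-modules on free `A`-sets. -/
structure Res (R A : Type) [CommRing R] [Group A] (X : Type) [MulAction A X] where
  /-- the `A`-sets -/
  Y : ℕ → Type
  /-- the actions -/
  act : ∀ n, MulAction A (Y n)
  /-- the augmentation -/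
  ε : (Y 0 →₀ R) →ₗ[R] (X →₀ R)
  /-- the differentials -/
  d : ∀ n, (Y (n + 1) →₀ R) →ₗ[R] (Y n →₀ R)
  free : ∀ n (a : A) (y : Y n), a • y = y → a = 1
  equi_ε : Equi A ε
  equi_d : ∀ n, Equi A (d n)
  surj : Function.Surjective ε
  exact_zero : LinearMap.ker ε = LinearMap.range (d 0)
  exact : ∀ n, LinearMap.ker (d n) = LinearMap.range (d (n + 1))

attribute [instance] Res.act

theorem Res.ε_comp_d (P : Res R A X) : P.ε ∘ₗ P.d 0 = 0 :=
  LinearMap.range_le_ker_iff.1 P.exact_zero.ge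

theorem Res.d_comp_d (P : Res R A X) (n : ℕ) : P.d n ∘ₗ P.d (n + 1) = 0 :=
  LinearMap.range_le_ker_iff.1 (P.exact n).ge

/-- The augmentation of the standard resolution. -/
noncomputable def aug (R E X : Type) [CommRing R] : (Simp E X 0 →₀ R) →ₗ[R] (X →₀ R) :=
  Finsupp.lmapDomain R R Prod.snd

theorem bd_single (n : ℕ) (s : Simp E X (n + 1)) : bd R E X n (Finsupp.single s 1) =
    ∑ i : Fin (n + 2), Finsupp.single ((fun j => s.1 (i.succAbove j)), s.2) ((-1) ^ (i : ℕ)) := by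
  unfold bd
  rw [Finsupp.linearCombination_single, one_smul]

/-- The cone over the vertex `e₀`: `(e_0, …, e_n; x) ↦ (e₀, e_0, …, e_n; x)`. -/
noncomputable def cone (R X : Type) {E : Type} [CommRing R] (e₀ : E) (n : ℕ) :
    (Simp E X n →₀ R) →ₗ[R] (Simp E X (n + 1) →₀ R) :=
  Finsupp.lmapDomain R R fun s => (Fin.cons e₀ s.1, s.2)

end Pool.Agent.Lib.MP_666dc0_nt.EP
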