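import Mathlib

/-!
# EP, RA0: reduction of positive definite matrices: definitions
-/

namespace Pool.Agent.Lib.MP_666dc0_nt.EP

open Matrix

/-- The Schur complement of the first diagonal entry. -/
noncomputable def schur {N : ℕ} (Q : Matrix (Fin (N + 1)) (Fin (N + 1)) ℝ) :
    Matrix (Fin N) (Fin N) ℝ :=
  fun i j => Q i.succ j.succ - Q i.succ 0 * Q 0 j.succ / Q 0 0

/-- The lengths of the Gram-Schmidt vectors. -/
noncomputable def al : ∀ {N : ℕ}, Matrix (Fin N) (Fin N) ℝ → Fin N → ℝ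
  | 0, _ => Fin.elim0
  | _ + 1, Q => Fin.cons (Real.sqrt (Q 0 0)) (al (schur Q))

/-- The upper unipotent matrix of the Gram-Schmidt coefficients. -/
noncomputable def up : ∀ {N : ℕ}, Matrix (Fin N) (Fin N) ℝ → Matrix (Fin N) (Fin N) ℝ
  | 0, _ => 0
  | _ + 1, Q => fun i j => Fin.cases (motive := fun _ => ℝ)
      (Fin.cases (motive := fun _ => ℝ) 1 (fun j' => Q 0 j'.succ / Q 0 0) j)
      (fun i' => Fin.cases (motive := fun _ => ℝ) 0 (fun j' => up (schur Q) i' j') j) i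

theorem al_zero {N : ℕ} (Q : Matrix (Fin (N + 1)) (Fin (N + 1)) ℝ) :
    al Q 0 = Real.sqrt (Q 0 0) := rfl

theorem al_succ {N : ℕ} (Q : Matrix (Fin (N + 1)) (Fin (N + 1)) ℝ) (i : Fin N) :
    al Q i.succ = al (schur Q) i := rfl

theorem up_zero_zero {N : ℕ} (Q : Matrix (Fin (N + 1)) (Fin (N + 1)) ℝ) : up Q 0 0 = 1 := rfl

theorem up_zero_succ {N : ℕ} (Q : Matrix (Fin (N + 1)) (Fin (N + 1)) ℝ) (j : Fin N) :
    up Q 0 j.succ = Q 0 j.succ / Q 0 0 := rfl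

theorem up_succ_zero {N : ℕ} (Q : Matrix (Fin (N + 1)) (Fin (N + 1)) ℝ) (i : Fin N) :
    up Q i.succ 0 = 0 := rfl

theorem up_succ_succ {N : ℕ} (Q : Matrix (Fin (N + 1)) (Fin (N + 1)) ℝ) (i j : Fin N) :
    up Q i.succ j.succ = up (schur Q) i j := rfl

variable {N : ℕ}

/-- `Q` is `C`-reduced. -/
def Red (C : ℝ) (Q : Matrix (Fin N) (Fin N) ℝ) : Prop :=
  (∀ i j, i < j → |up Q i j| ≤ C) ∧ ∀ i j : Fin N, (j : ℕ) = i + 1 → al Q i ≤ C * al Q j

/-- `Q` is strictly `C`-reduced. -/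
def RedS (C : ℝ) (Q : Matrix (Fin N) (Fin N) ℝ) : Prop :=
  (∀ i j, i < j → |up Q i j| < C) ∧ ∀ i j : Fin N, (j : ℕ) = i + 1 → al Q i < C * al Q j

end Pool.Agent.Lib.MP_666dc0_nt.EP
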