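import Pool.Agent.Lib.MP_666dc0_nt.EP.RA0

/-!
# EP, RA1: the decomposition `Q = uᵀ A² u`
-/

namespace Pool.Agent.Lib.MP_666dc0_nt.EP

open Matrix

/-- The Schur complement of a positive definite matrix is positive definite.
Proof: symmetric; for `x ≠ 0` let `v = (t, x)` with `t = - (∑ Q 0 j.succ x_j) / Q 0 0`: then
`xᵀ (schur Q) x = vᵀ Q v > 0`. -/
theorem posDef_schur {N : ℕ} {Q : Matrix (Fin (N + 1)) (Fin (N + 1)) ℝ} (hQ : Q.PosDef) :
    (schur Q).PosDef := by
  have hq : 0 < Q 0 0 := hQ.diag_pos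
  have hsym : ∀ i j, Q i j = Q j i := fun i j => by
    have := hQ.isHermitian.apply i j
    rw [← this, star_trivial]
  refine PosDef.of_dotProduct_mulVec_pos ?_ ?_
  · ext i j
    rw [conjTranspose_apply, star_trivial]
    simp only [schur]
    rw [hsym j.succ i.succ, hsym j.succ 0, hsym 0 i.succ]
    ring
  · intro x hx
    set t : ℝ := -(∑ j, Q 0 j.succ * x j) / Q 0 0 with ht
    have hv : (Fin.cons t x : Fin (N + 1) → ℝ) ≠ 0 := by
      intro h
      apply hx
      funext i
      have := congrFun h i.succ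
      rwa [Fin.cons_succ] at this
    have h1 := hQ.dotProduct_mulVec_pos hv
    have h2 : Q 0 0 * t + ∑ j, Q 0 j.succ * x j = 0 := by
      rw [ht]
      field_simp
      ring
    have h3 : star (Fin.cons t x : Fin (N + 1) → ℝ) ⬝ᵥ (Q *ᵥ (Fin.cons t x : Fin (N + 1) → ℝ)) =
        star x ⬝ᵥ (schur Q *ᵥ x) := by
      simp only [dotProduct, mulVec, Pi.star_apply, star_trivial, Fin.sum_univ_succ, Fin.cons_zero,
        Fin.cons_succ, schur]
      rw [h2, mul_zero, zero_add]
      have h4 : ∀ i : Fin N, x i * (Q i.succ 0 * t + ∑ j : Fin N, Q i.succ j.succ * x j) =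
          x i * Q i.succ 0 * t + x i * ∑ j : Fin N, Q i.succ j.succ * x j := fun i => by ring
      have h5 : ∀ i : Fin N, x i * ∑ j : Fin N,
          (Q i.succ j.succ - Q i.succ 0 * Q 0 j.succ / Q 0 0) * x j =
          x i * Q i.succ 0 * t + x i * ∑ j : Fin N, Q i.succ j.succ * x j := by
        intro i
        have h6 : ∑ j : Fin N, (Q i.succ j.succ - Q i.succ 0 * Q 0 j.succ / Q 0 0) * x j =
            ∑ j : Fin N, Q i.succ j.succ * x j + Q i.succ 0 * t := by
          rw [ht, neg_div, mul_neg, ← sub_eq_add_neg, Finset.sum_div, Finset.mul_sum,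
            ← Finset.sum_sub_distrib]
          apply Finset.sum_congr rfl
          intro j _
          ring
        rw [h6]
        ring
      rw [Finset.sum_congr rfl (fun i _ => h4 i), Finset.sum_congr rfl (fun i _ => h5 i)]
    rwa [h3] at h1

variable {N : ℕ}

theorem al_pos {Q : Matrix (Fin N) (Fin N) ℝ} (hQ : Q.PosDef) (i : Fin N) : 0 < al Q i := by
  induction N with
  | zero => exact i.elim0
  | succ N ih =>
    refine Fin.cases ?_ (fun i => ?_) i
    · rw [al_zero]
      exact Real.sqrt_pos.mpr hQ.diag_pos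
    · rw [al_succ]
      exact ih (posDef_schur hQ) i

theorem up_diag (Q : Matrix (Fin N) (Fin N) ℝ) (i : Fin N) : up Q i i = 1 := by
  induction N with
  | zero => exact i.elim0
  | succ N ih =>
    refine Fin.cases ?_ (fun i => ?_) i
    · exact up_zero_zero Q
    · rw [up_succ_succ]
      exact ih (schur Q) i

theorem up_lower (Q : Matrix (Fin N) (Fin N) ℝ) (i j : Fin N) (h : j < i) : up Q i j = 0 := by
  induction N with
  | zero => exact i.elim0
  | succ N ih =>
    rcases Fin.eq_zero_or_eq_succ i with rfl | ⟨i, rfl⟩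
    · exact absurd h (Fin.not_lt_zero j)
    · rcases Fin.eq_zero_or_eq_succ j with rfl | ⟨j, rfl⟩
      · exact up_succ_zero Q i
      · rw [up_succ_succ]
        exact ih (schur Q) i j (Fin.succ_lt_succ_iff.mp h)

theorem det_up (Q : Matrix (Fin N) (Fin N) ℝ) : (up Q).det = 1 := by
  rw [det_of_isUpperTriangular (fun i j h => up_lower Q i j h)]
  simp only [up_diag, Finset.prod_const_one]

/-- `Q = uᵀ A² u`. Proof: induction on `N`, by entries (`Fin.sum_univ_succ`). -/
theorem up_al_up {Q : Matrix (Fin N) (Fin N) ℝ} (hQ : Q.PosDef) :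
    (up Q)ᵀ * Matrix.diagonal (fun i => al Q i ^ 2) * up Q = Q := by
  have hentry : ∀ {N : ℕ} (Q : Matrix (Fin N) (Fin N) ℝ) (i j : Fin N),
      ((up Q)ᵀ * Matrix.diagonal (fun i => al Q i ^ 2) * up Q) i j =
        ∑ k, up Q k i * al Q k ^ 2 * up Q k j := by
    intro N Q i j
    rw [Matrix.mul_apply]
    simp only [Matrix.mul_diagonal, transpose_apply]
  induction N with
  | zero =>
    ext i j
    exact i.elim0
  | succ N ih =>
    have hq : 0 < Q 0 0 := hQ.diag_pos
    have hsym : ∀ i j, Q i j = Q j i := fun i j => by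
      have := hQ.isHermitian.apply i j
      rw [← this, star_trivial]
    ext i j
    rw [hentry, Fin.sum_univ_succ, al_zero, Real.sq_sqrt hq.le]
    rcases Fin.eq_zero_or_eq_succ i with rfl | ⟨i, rfl⟩
    · have h0 : ∑ k : Fin N, up Q k.succ 0 * al Q k.succ ^ 2 * up Q k.succ j = 0 := by
        apply Finset.sum_eq_zero
        intro k _
        rw [up_succ_zero]
        ring
      rw [h0, up_zero_zero]
      rcases Fin.eq_zero_or_eq_succ j with rfl | ⟨j, rfl⟩
      · rw [up_zero_zero]
        ring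
      · rw [up_zero_succ]
        field_simp
        ring
    · rcases Fin.eq_zero_or_eq_succ j with rfl | ⟨j, rfl⟩
      · have h0 : ∑ k : Fin N, up Q k.succ i.succ * al Q k.succ ^ 2 * up Q k.succ 0 = 0 := by
          apply Finset.sum_eq_zero
          intro k _
          rw [up_succ_zero]
          ring
        rw [h0, up_zero_zero, up_zero_succ, hsym i.succ 0]
        field_simp
        ring
      · have h0 : ∑ k : Fin N, up Q k.succ i.succ * al Q k.succ ^ 2 * up Q k.succ j.succ =
            schur Q i j := by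
          rw [← ih (posDef_schur hQ), hentry]
          simp only [up_succ_succ, al_succ]
        rw [h0, up_zero_succ, up_zero_succ, schur, hsym i.succ 0]
        field_simp
        ring

/-- In coordinates: `vᵀ Q v = ∑ α_i² (u v)_i²`. -/
theorem dot_mulVec_eq {Q : Matrix (Fin N) (Fin N) ℝ} (hQ : Q.PosDef) (v : Fin N → ℝ) :
    v ⬝ᵥ Q.mulVec v = ∑ i, al Q i ^ 2 * ((up Q).mulVec v i) ^ 2 := by
  have h1 : Q.mulVec v = (up Q)ᵀ.mulVec
      ((Matrix.diagonal (fun i => al Q i ^ 2)).mulVec ((up Q).mulVec v)) := by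
    rw [mulVec_mulVec, mulVec_mulVec, up_al_up hQ]
  rw [h1, dotProduct_mulVec, vecMul_transpose]
  simp only [dotProduct, mulVec_diagonal]
  apply Finset.sum_congr rfl
  intro i _
  ring

private theorem RA1_schur : ContinuousOn (fun Q : Matrix (Fin (N + 1)) (Fin (N + 1)) ℝ => schur Q)
    {Q | Q.PosDef} := by
  refine continuousOn_pi.mpr fun i => continuousOn_pi.mpr fun j => ?_
  exact (continuous_id.matrix_elem i.succ j.succ).continuousOn.sub
    (((continuous_id.matrix_elem i.succ 0).mul (continuous_id.matrix_elem 0 j.succ)).continuousOn.div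
      (continuous_id.matrix_elem 0 0).continuousOn
      (fun Q (hQ : Q.PosDef) => (hQ.diag_pos (i := 0)).ne'))

/-- Continuity. Proof: induction on `N`; `schur` is continuous where `Q 0 0 ≠ 0` and preserves
positive definiteness. -/
theorem continuousOn_al (i : Fin N) :
    ContinuousOn (fun Q : Matrix (Fin N) (Fin N) ℝ => al Q i) {Q | Q.PosDef} := by
  induction N with
  | zero => exact i.elim0
  | succ N ih =>
    rcases Fin.eq_zero_or_eq_succ i with rfl | ⟨i, rfl⟩
    · simp only [al_zero]
      exact (Real.continuous_sqrt.comp (continuous_id.matrix_elem 0 0)).continuousOn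
    · simp only [al_succ]
      exact (ih i).comp RA1_schur (fun Q hQ => posDef_schur hQ)

theorem continuousOn_up (i j : Fin N) :
    ContinuousOn (fun Q : Matrix (Fin N) (Fin N) ℝ => up Q i j) {Q | Q.PosDef} := by
  induction N with
  | zero => exact i.elim0
  | succ N ih =>
    rcases Fin.eq_zero_or_eq_succ i with rfl | ⟨i, rfl⟩
    · rcases Fin.eq_zero_or_eq_succ j with rfl | ⟨j, rfl⟩
      · simp only [up_zero_zero]
        exact continuousOn_const
      · simp only [up_zero_succ]
        exact (continuous_id.matrix_elem 0 j.succ).continuousOn.div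
          (continuous_id.matrix_elem 0 0).continuousOn
          (fun Q (hQ : Q.PosDef) => (hQ.diag_pos (i := 0)).ne')
    · rcases Fin.eq_zero_or_eq_succ j with rfl | ⟨j, rfl⟩
      · simp only [up_succ_zero]
        exact continuousOn_const
      · simp only [up_succ_succ]
        exact (ih i j).comp RA1_schur (fun Q hQ => posDef_schur hQ)

private theorem RA1_pair : ContinuousOn (fun Q : Matrix (Fin N) (Fin N) ℝ =>
    ((fun i j => up Q i j, fun i => al Q i) : (Fin N → Fin N → ℝ) × (Fin N → ℝ)))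
    {Q | Q.PosDef} :=
  (continuousOn_pi.mpr fun i => continuousOn_pi.mpr fun j => continuousOn_up i j).prodMk
    (continuousOn_pi.mpr fun i => continuousOn_al i)

/-- Consequence: `C`-reducedness is a closed condition and strict `C`-reducedness an open one. -/
theorem exists_isClosed_red (C : ℝ) : ∃ S : Set (Matrix (Fin N) (Fin N) ℝ), IsClosed S ∧
    ∀ Q, Q.PosDef → (Q ∈ S ↔ Red C Q) := by
  have ht : IsClosed {p : (Fin N → Fin N → ℝ) × (Fin N → ℝ) |
      (∀ i j, i < j → |p.1 i j| ≤ C) ∧ ∀ i j : Fin N, (j : ℕ) = i + 1 → p.2 i ≤ C * p.2 j} := by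
    simp only [Set.ofPred_and, Set.ofPred_forall]
    refine IsClosed.inter ?_ ?_
    · refine isClosed_iInter fun i => isClosed_iInter fun j => isClosed_iInter fun _ => ?_
      exact isClosed_le (by fun_prop) continuous_const
    · refine isClosed_iInter fun i => isClosed_iInter fun j => isClosed_iInter fun _ => ?_
      exact isClosed_le (by fun_prop) (by fun_prop)
  obtain ⟨S, hS, hS'⟩ := continuousOn_iff_isClosed.mp (RA1_pair (N := N)) _ ht
  refine ⟨S, hS, fun Q hQ => ?_⟩
  have h := Set.ext_iff.mp hS' Q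
  simp only [Set.mem_inter_iff, Set.mem_preimage, Set.mem_ofPred_eq] at h
  constructor
  · intro hQS
    exact (h.mpr ⟨hQS, hQ⟩).1
  · intro hR
    exact (h.mp ⟨hR, hQ⟩).1

theorem exists_isOpen_redS (C : ℝ) : ∃ S : Set (Matrix (Fin N) (Fin N) ℝ), IsOpen S ∧
    ∀ Q, Q.PosDef → (Q ∈ S ↔ RedS C Q) := by
  have ht : IsOpen {p : (Fin N → Fin N → ℝ) × (Fin N → ℝ) |
      (∀ i j, i < j → |p.1 i j| < C) ∧ ∀ i j : Fin N, (j : ℕ) = i + 1 → p.2 i < C * p.2 j} := by
    simp only [Set.ofPred_and, Set.ofPred_forall]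
    refine IsOpen.inter ?_ ?_
    · refine isOpen_iInter_of_finite fun i => isOpen_iInter_of_finite fun j =>
        isOpen_iInter_of_finite fun _ => ?_
      exact isOpen_lt (by fun_prop) continuous_const
    · refine isOpen_iInter_of_finite fun i => isOpen_iInter_of_finite fun j =>
        isOpen_iInter_of_finite fun _ => ?_
      exact isOpen_lt (by fun_prop) (by fun_prop)
  obtain ⟨S, hS, hS'⟩ := continuousOn_iff'.mp (RA1_pair (N := N)) _ ht
  refine ⟨S, hS, fun Q hQ => ?_⟩
  have h := Set.ext_iff.mp hS' Q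
  simp only [Set.mem_inter_iff, Set.mem_preimage, Set.mem_ofPred_eq] at h
  constructor
  · intro hQS
    exact (h.mpr ⟨hQS, hQ⟩).1
  · intro hR
    exact (h.mp ⟨hR, hQ⟩).1

theorem Red.redS {C C' : ℝ} {Q : Matrix (Fin N) (Fin N) ℝ} (hQ : Q.PosDef) (h : Red C Q)
    (hC : C < C') : RedS C' Q :=
  ⟨fun i j hij => (h.1 i j hij).trans_lt hC, fun i j hij =>
    (h.2 i j hij).trans_lt (mul_lt_mul_of_pos_right hC (al_pos hQ j))⟩

theorem RedS.red {C : ℝ} {Q : Matrix (Fin N) (Fin N) ℝ} (h : RedS C Q) : Red C Q :=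
  ⟨fun i j hij => (h.1 i j hij).le, fun i j hij => (h.2 i j hij).le⟩

end Pool.Agent.Lib.MP_666dc0_nt.EP
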