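import Pool.Agent.Lib.MP_666dc0_nt.EP.C2e

/-!
# EP, C2f: the standard resolution
-/

namespace Pool.Agent.Lib.MP_666dc0_nt.EP

variable {R : Type} {A : Type} [CommRing R] [Group A] {E X : Type} [MulAction A E] [MulAction A X]

/-- The standard resolution. -/
noncomputable def Res.std (R A E X : Type) [CommRing R] [Group A] [MulAction A E] [MulAction A X]
    [Nonempty E] (hfree : ∀ (a : A) (e : E) (x : X), a • e = e → a • x = x → a = 1) :
    Res R A X where
  Y n := Simp E X n
  act n := inferInstance
  ε := aug R E X
  d := bd R E X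
  free n a y h := hfree a (y.1 0) y.2 (congrFun (congrArg Prod.fst h) 0) (congrArg Prod.snd h)
  equi_ε := equi_aug
  equi_d := equi_bd
  surj := aug_surj
  exact_zero := ker_aug
  exact := ker_bd

end Pool.Agent.Lib.MP_666dc0_nt.EP
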