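import Pool.Agent.Lib.MP_666dc0_nt.Mg.G058

/-!
# EP, C3a: the lifting lemma
-/

namespace Pool.Agent.Lib.MP_666dc0_nt.EP

variable {R : Type} {A : Type} [CommRing R] [Group A] {X : Type} [MulAction A X]

/-- Lifting lemma: equivariant maps from `R[Y]`, `Y` a free `A`-set, lift along equivariant maps. -/
theorem exists_lift_free {Y Z Z' : Type} [MulAction A Y] [MulAction A Z] [MulAction A Z']
    (hfree : ∀ (a : A) (y : Y), a • y = y → a = 1) {D : (Z →₀ R) →ₗ[R] (Z' →₀ R)} (hD : Equi A D)
    {w : (Y →₀ R) →ₗ[R] (Z' →₀ R)} (hw : Equi A w) (h : ∀ m, w m ∈ LinearMap.range D) :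
    ∃ c : (Y →₀ R) →ₗ[R] (Z →₀ R), Equi A c ∧ D ∘ₗ c = w := by
  let rep : Y → Y := fun y => (Quotient.mk (MulAction.orbitRel A Y) y).out
  have hrep : ∀ y, ∃ a : A, a • rep y = y := by
    intro y
    have h1 : (MulAction.orbitRel A Y) y (rep y) :=
      Quotient.exact (Quotient.out_eq (Quotient.mk (MulAction.orbitRel A Y) y)).symm
    rw [MulAction.orbitRel_apply] at h1
    exact MulAction.mem_orbit_iff.1 h1
  have hrep2 : ∀ (b : A) (y : Y), rep (b • y) = rep y := by
    intro b y
    have h1 : Quotient.mk (MulAction.orbitRel A Y) (b • y) =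
        Quotient.mk (MulAction.orbitRel A Y) y := by
      apply Quotient.sound
      show (MulAction.orbitRel A Y) (b • y) y
      rw [MulAction.orbitRel_apply]
      exact MulAction.mem_orbit y b
    show (Quotient.mk (MulAction.orbitRel A Y) (b • y)).out = _
    rw [h1]
  choose a ha using hrep
  have ha2 : ∀ (b : A) (y : Y), a (b • y) = b * a y := by
    intro b y
    have h1 : a (b • y) • rep y = b • y := by
      have := ha (b • y)
      rwa [hrep2] at this
    have h2 : ((b * a y)⁻¹ * a (b • y)) • rep y = rep y := by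
      rw [mul_smul, h1, inv_smul_eq_iff, mul_smul, ha]
    have h3 := hfree _ _ h2
    rw [inv_mul_eq_one] at h3
    exact h3.symm
  have hz : ∀ y, ∃ z, D z = w (Finsupp.single y 1) := fun y => h _
  choose z hz using hz
  refine ⟨Finsupp.linearCombination R fun y =>
    Finsupp.mapDomain (fun x => a y • x) (z (rep y)), ?_, ?_⟩
  · apply Equi.of_single
    intro b y
    rw [Finsupp.linearCombination_single, Finsupp.linearCombination_single, one_smul, one_smul,
      hrep2, ha2, ← Finsupp.mapDomain_comp]
    congr 1
    funext x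
    exact mul_smul b (a y) x
  · apply Finsupp.lhom_ext'
    intro y
    apply LinearMap.ext_ring
    show D (Finsupp.linearCombination R (fun y =>
      Finsupp.mapDomain (fun x => a y • x) (z (rep y))) (Finsupp.single y 1)) =
        w (Finsupp.single y 1)
    rw [Finsupp.linearCombination_single, one_smul, hD, hz, ← hw.single, ha]

end Pool.Agent.Lib.MP_666dc0_nt.EP
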