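import Pool.Agent.Lib.MP_666dc0_nt.EP.C2a
import Pool.Agent.Lib.MP_666dc0_nt.EP.C3a

/-!
# EP, C3b: existence of lifts
-/

namespace Pool.Agent.Lib.MP_666dc0_nt.EP

variable {R : Type} {A : Type} [CommRing R] [Group A] {X : Type} [MulAction A X]

/-- A chain map between two resolutions that lifts the endomorphism `c` of `R[X]`. -/
structure IsLift (P P' : Res R A X) (c : (X →₀ R) →ₗ[R] (X →₀ R))
    (f : ∀ n, (P.Y n →₀ R) →ₗ[R] (P'.Y n →₀ R)) : Prop where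
  equi : ∀ n, Equi A (f n)
  comm_ε : P'.ε ∘ₗ f 0 = c ∘ₗ P.ε
  comm_d : ∀ n, P'.d n ∘ₗ f (n + 1) = f n ∘ₗ P.d n

/-- Two consecutive terms of a lift. -/
private def LiftPair (P P' : Res R A X) (n : ℕ) : Type :=
  {p : ((P.Y n →₀ R) →ₗ[R] (P'.Y n →₀ R)) × ((P.Y (n + 1) →₀ R) →ₗ[R] (P'.Y (n + 1) →₀ R)) //
    Equi A p.2 ∧ P'.d n ∘ₗ p.2 = p.1 ∘ₗ P.d n}

private theorem exists_step (P P' : Res R A X) (n : ℕ) (p : LiftPair P P' n) :
    ∃ q : (P.Y (n + 2) →₀ R) →ₗ[R] (P'.Y (n + 2) →₀ R), Equi A q ∧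
      P'.d (n + 1) ∘ₗ q = p.1.2 ∘ₗ P.d (n + 1) := by
  refine exists_lift_free (P.free (n + 2)) (P'.equi_d (n + 1))
    (p.2.1.comp (P.equi_d (n + 1))) ?_
  intro m
  rw [← P'.exact n, LinearMap.mem_ker]
  have h1 := LinearMap.congr_fun p.2.2 (P.d (n + 1) m)
  have h2 := LinearMap.congr_fun (P.d_comp_d n) m
  simp only [LinearMap.comp_apply, LinearMap.zero_apply] at h1 h2 ⊢
  rw [h1, h2, map_zero]

theorem exists_isLift (P P' : Res R A X) {c : (X →₀ R) →ₗ[R] (X →₀ R)} (hc : Equi A c) :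
    ∃ f, IsLift P P' c f := by
  obtain ⟨f0, hf0, hf0c⟩ := exists_lift_free (P.free 0) P'.equi_ε (hc.comp P.equi_ε)
    (fun m => P'.surj _)
  obtain ⟨f1, hf1, hf1c⟩ := exists_lift_free (P.free 1) (P'.equi_d 0) (hf0.comp (P.equi_d 0)) (by
    intro m
    rw [← P'.exact_zero, LinearMap.mem_ker]
    have h1 := LinearMap.congr_fun hf0c (P.d 0 m)
    have h2 := LinearMap.congr_fun P.ε_comp_d m
    simp only [LinearMap.comp_apply, LinearMap.zero_apply] at h1 h2 ⊢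
    rw [h1, h2, map_zero])
  let S : ∀ n, LiftPair P P' n := fun n => Nat.rec (motive := fun n => LiftPair P P' n)
    ⟨(f0, f1), hf1, hf1c⟩
    (fun n p => ⟨(p.1.2, (exists_step P P' n p).choose), (exists_step P P' n p).choose_spec⟩) n
  have hS : ∀ n, (S (n + 1)).1.1 = (S n).1.2 := fun n => rfl
  refine ⟨fun n => (S n).1.1, ?_, hf0c, ?_⟩
  · intro n
    cases n with
    | zero => exact hf0
    | succ n => rw [hS n]; exact (S n).2.1
  · intro n
    rw [hS n]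
    exact (S n).2.2

end Pool.Agent.Lib.MP_666dc0_nt.EP
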