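import Pool.Agent.Lib.MP_666dc0_nt.EP.C1b
import Pool.Agent.Lib.MP_666dc0_nt.EP.C3b

/-!
# EP, C4a: the cohomology of a resolution
-/

namespace Pool.Agent.Lib.MP_666dc0_nt.EP

variable {R : Type} {A : Type} [CommRing R] [Group A] {X : Type} [MulAction A X]
  {L V : Type} [Field L] [Algebra R L] [AddCommGroup V] [Module L V] (ρ : Representation L A V)

/-- The cocycles of degree `n` of the resolution `P` with values in `ρ`. -/
noncomputable def Res.cocyc (P : Res R A X) (n : ℕ) : Submodule L (P.Y n → V) :=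
  Fun ρ (P.Y n) ⊓ LinearMap.ker (pull L V (P.d n))

/-- The coboundaries of degree `n`. -/
noncomputable def Res.cobd (P : Res R A X) : ∀ n : ℕ, Submodule L (P.Y n → V)
  | 0 => ⊥
  | n + 1 => (Fun ρ (P.Y n)).map (pull L V (P.d n))

theorem Res.cobd_le (P : Res R A X) (n : ℕ) : P.cobd ρ n ≤ P.cocyc ρ n := by
  cases n with
  | zero => exact bot_le
  | succ n =>
    rintro _ ⟨u, hu, rfl⟩
    refine ⟨pull_mem_Fun ρ (P.equi_d n) hu, ?_⟩
    have h1 : P.d n ∘ₗ P.d (n + 1) = 0 := by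
      refine LinearMap.ext fun m => ?_
      have h2 : P.d (n + 1) m ∈ LinearMap.ker (P.d n) := by
        rw [P.exact n]
        exact LinearMap.mem_range_self _ _
      exact h2
    show pull L V (P.d (n + 1)) (pull L V (P.d n) u) = 0
    have h3 : pull L V (P.d (n + 1)) (pull L V (P.d n) u) = pull L V (P.d n ∘ₗ P.d (n + 1)) u := by
      rw [pull_comp]
      rfl
    rw [h3, h1, pull_zero]
    rfl

/-- The cohomology of degree `n`. -/
abbrev Res.H (P : Res R A X) (n : ℕ) : Type :=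
  P.cocyc ρ n ⧸ (P.cobd ρ n).submoduleOf (P.cocyc ρ n)

variable {P P' P'' : Res R A X} {c c' : (X →₀ R) →ₗ[R] (X →₀ R)}

theorem IsLift.pull_mem_cocyc {f : ∀ n, (P.Y n →₀ R) →ₗ[R] (P'.Y n →₀ R)} (hf : IsLift P P' c f)
    (n : ℕ) {u : P'.Y n → V} (hu : u ∈ P'.cocyc ρ n) : pull L V (f n) u ∈ P.cocyc ρ n := by
  refine ⟨pull_mem_Fun ρ (hf.equi n) hu.1, ?_⟩
  show pull L V (P.d n) (pull L V (f n) u) = 0
  have h3 : pull L V (P.d n) (pull L V (f n) u) = pull L V (f n ∘ₗ P.d n) u := by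
    rw [pull_comp]
    rfl
  have h4 : pull L V (f (n + 1)) (pull L V (P'.d n) u) = pull L V (P'.d n ∘ₗ f (n + 1)) u := by
    rw [pull_comp]
    rfl
  have h5 : pull L V (P'.d n) u = 0 := hu.2
  rw [h3, ← hf.comm_d n, ← h4, h5, map_zero]

theorem IsLift.pull_mem_cobd {f : ∀ n, (P.Y n →₀ R) →ₗ[R] (P'.Y n →₀ R)} (hf : IsLift P P' c f)
    (n : ℕ) {u : P'.Y n → V} (hu : u ∈ P'.cobd ρ n) : pull L V (f n) u ∈ P.cobd ρ n := by
  cases n with
  | zero =>
    have h0 : u = 0 := hu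
    rw [h0, map_zero]
    exact Submodule.zero_mem _
  | succ n =>
    obtain ⟨w, hw, rfl⟩ := hu
    refine ⟨pull L V (f n) w, pull_mem_Fun ρ (hf.equi n) hw, ?_⟩
    have h3 : pull L V (P.d n) (pull L V (f n) w) = pull L V (f n ∘ₗ P.d n) w := by
      rw [pull_comp]
      rfl
    have h4 : pull L V (f (n + 1)) (pull L V (P'.d n) w) = pull L V (P'.d n ∘ₗ f (n + 1)) w := by
      rw [pull_comp]
      rfl
    rw [h3, ← hf.comm_d n, h4]

/-- The map induced on cohomology by a chain map. -/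
noncomputable def IsLift.onH {f : ∀ n, (P.Y n →₀ R) →ₗ[R] (P'.Y n →₀ R)} (hf : IsLift P P' c f)
    (n : ℕ) : P'.H ρ n →ₗ[L] P.H ρ n :=
  Submodule.mapQ _ _ ((pull L V (f n)).restrict fun _ hu => hf.pull_mem_cocyc ρ n hu)
    fun _ hu => hf.pull_mem_cobd ρ n hu

end Pool.Agent.Lib.MP_666dc0_nt.EP
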