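import Pool.Agent.Lib.MP_666dc0_nt.EP.C3b

/-!
# EP, FD1: finitely dominated sets: definitions
-/

namespace Pool.Agent.Lib.MP_666dc0_nt.EP

/-- A complex of free `R`-modules on `A`-sets, with an augmentation to `R[X]` (not necessarily
exact). -/
structure Cx (R A : Type) [CommRing R] [Group A] (X : Type) [MulAction A X] where
  /-- the `A`-sets -/
  Y : ℕ → Type
  /-- the actions -/
  act : ∀ n, MulAction A (Y n)
  /-- the augmentation -/
  ε : (Y 0 →₀ R) →ₗ[R] (X →₀ R)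
  /-- the differentials -/
  d : ∀ n, (Y (n + 1) →₀ R) →ₗ[R] (Y n →₀ R)
  equi_ε : Equi A ε
  equi_d : ∀ n, Equi A (d n)
  ε_comp_d : ε ∘ₗ d 0 = 0
  d_comp_d : ∀ n, d n ∘ₗ d (n + 1) = 0

attribute [instance] Cx.act

variable {R A X : Type} [CommRing R] [Group A] [MulAction A X]

/-- The complex underlying a resolution. -/
def Res.toCx (P : Res R A X) : Cx R A X where
  Y := P.Y
  act := P.act
  ε := P.ε
  d := P.d
  equi_ε := P.equi_ε
  equi_d := P.equi_d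
  ε_comp_d := P.ε_comp_d
  d_comp_d := P.d_comp_d

/-- A chain map over the endomorphism `c` of `R[X]`. -/
structure IsMap (C C' : Cx R A X) (c : (X →₀ R) →ₗ[R] (X →₀ R))
    (f : ∀ n, (C.Y n →₀ R) →ₗ[R] (C'.Y n →₀ R)) : Prop where
  equi : ∀ n, Equi A (f n)
  comm_ε : C'.ε ∘ₗ f 0 = c ∘ₗ C.ε
  comm_d : ∀ n, C'.d n ∘ₗ f (n + 1) = f n ∘ₗ C.d n

/-- A bounded complex of finitely generated free modules. -/
structure Cx.IsFin (C : Cx R A X) (N : ℕ) : Prop where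
  exists_equiv : ∀ n, ∃ (r : ℕ) (e : C.Y n ≃ FreeSet A r), ∀ (a : A) (y : C.Y n), e (a • y) = a • e y
  isEmpty : ∀ n, N ≤ n → IsEmpty (C.Y n)

/-- The `A`-set `X` is finitely dominated over `R`, up to a constant: there is a chain map over the
multiplication of `R[X]` by a positive integer from a resolution to a bounded complex of finitely
generated free `R[A]`-modules. -/
def IsFD (R A : Type) [CommRing R] [Group A] (X : Type) [MulAction A X] : Prop :=
  ∃ (P : Res R A X) (C : Cx R A X) (N m : ℕ) (i : ∀ n, (P.toCx.Y n →₀ R) →ₗ[R] (C.Y n →₀ R)),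
    0 < m ∧ C.IsFin N ∧ IsMap P.toCx C ((m : R) • LinearMap.id) i

theorem IsLift.toMap {P P' : Res R A X} {c : (X →₀ R) →ₗ[R] (X →₀ R)}
    {f : ∀ n, (P.Y n →₀ R) →ₗ[R] (P'.Y n →₀ R)} (hf : IsLift P P' c f) :
    IsMap P.toCx P'.toCx c f :=
  ⟨hf.equi, hf.comm_ε, hf.comm_d⟩

theorem IsMap.toLift {P P' : Res R A X} {c : (X →₀ R) →ₗ[R] (X →₀ R)}
    {f : ∀ n, (P.Y n →₀ R) →ₗ[R] (P'.Y n →₀ R)} (hf : IsMap P.toCx P'.toCx c f) :
    IsLift P P' c f :=
  ⟨hf.equi, hf.comm_ε, hf.comm_d⟩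

theorem IsMap.comp {C C' C'' : Cx R A X} {c c' : (X →₀ R) →ₗ[R] (X →₀ R)}
    {f : ∀ n, (C.Y n →₀ R) →ₗ[R] (C'.Y n →₀ R)} {f' : ∀ n, (C'.Y n →₀ R) →ₗ[R] (C''.Y n →₀ R)}
    (hf' : IsMap C' C'' c' f') (hf : IsMap C C' c f) :
    IsMap C C'' (c' ∘ₗ c) fun n => f' n ∘ₗ f n := by
  refine ⟨fun n => (hf'.equi n).comp (hf.equi n), ?_, fun n => ?_⟩
  · rw [← LinearMap.comp_assoc, hf'.comm_ε, LinearMap.comp_assoc, hf.comm_ε, LinearMap.comp_assoc]
  · rw [← LinearMap.comp_assoc, hf'.comm_d, LinearMap.comp_assoc, hf.comm_d, LinearMap.comp_assoc]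

/-- Freeness of the action on the sets of a bounded complex of finitely generated free modules. -/
theorem Cx.IsFin.free {C : Cx R A X} {N : ℕ} (hC : C.IsFin N) (n : ℕ) (a : A) (y : C.Y n)
    (h : a • y = y) : a = 1 := by
  obtain ⟨r, e, he⟩ := hC.exists_equiv n
  have h1 := he a y
  rw [h] at h1
  have h2 : a * (e y).g = (e y).g := congrArg FreeSet.g h1.symm
  exact mul_eq_right.1 h2

end Pool.Agent.Lib.MP_666dc0_nt.EP
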