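import Pool.Agent.Lib.MP_666dc0_nt.EP.T1

/-!
# EP, T2a: the Hecke operators on `ℤ_(ℓ)[G(𝔸_f) / U]`
-/

open NumberField IsDedekindDomain
open scoped NumberField

namespace Pool.Agent.Lib.MP_666dc0_nt.EP

open WL

variable {F : Type} [Field F] [NumberField F] {n : ℕ} {D : Datum F n} {ℓ : ℕ} [Fact ℓ.Prime]
  (L : Level D ℓ)

/-- Proof: `x⁻¹ y ∈ U`. -/
theorem Level.cls_mul_of_mk_eq {v : HeightOneSpectrum (𝓞 F)} (g : D.Ad) {x y : locSub D v}
    (h : (QuotientGroup.mk x : locSub D v ⧸ L.U.subgroupOf (locSub D v)) = QuotientGroup.mk y) :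
    L.cls (g * (x : D.Ad)) = L.cls (g * (y : D.Ad)) := by
  rw [L.cls_eq_iff]
  have h1 : x⁻¹ * y ∈ L.U.subgroupOf (locSub D v) := QuotientGroup.eq.1 h
  have h2 : ((x⁻¹ * y : locSub D v) : D.Ad) ∈ L.U := Subgroup.mem_subgroupOf.1 h1
  have h3 : (g * (x : D.Ad))⁻¹ * (g * (y : D.Ad)) = ((x⁻¹ * y : locSub D v) : D.Ad) := by
    rw [Subgroup.coe_mul, Subgroup.coe_inv]
    group
  rw [h3]
  exact h2

/-- The Hecke operator can be computed with any representative of the class.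
Proof: let `g₀ = Quotient.out (L.cls g)`, `g = g₀ u`, `u ∈ U`, and `u = a u'` with `a ∈ U ∩ G(F_v)` and
`u' = a⁻¹ u` trivial at `v` (`hv.split`). Then `g x = g₀ a u' x = g₀ (a x) u'` for `x ∈ G(F_v)`
(`mul_comm_of_disjoint`), so `cls (g x) = cls (g₀ (a x))`, and for `x = out c` the class of `a x` is
`a • c`, so `cls (g (out c)) = cls (g₀ (out (a • c)))` (`cls_mul_of_mk_eq`). Substitute `c' = a • c` in
the sum and use `h (a • c) = h c` (`h.2`). -/
theorem Level.op_single {v : HeightOneSpectrum (𝓞 F)} (hv : L.IsGoodAt v) (h : L.Hecke v)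
    (g : D.Ad) : L.op h (Finsupp.single (L.cls g) 1) = h.1.sum fun c a =>
      Finsupp.single (L.cls (g * ((Quotient.out c : locSub D v) : D.Ad))) a := by
  obtain ⟨g₀, hg₀⟩ : ∃ g₀ : D.Ad, g₀ = (Quotient.out (L.cls g) : D.Ad) := ⟨_, rfl⟩
  have hcls : L.cls g₀ = L.cls g := by rw [hg₀, L.cls_out]
  have hu : g₀⁻¹ * g ∈ L.U := L.cls_eq_iff.1 hcls
  obtain ⟨a, haU, hav, htr⟩ := hv.split _ hu
  let a' : locSub D v := ⟨a, hav⟩
  have ha' : a' ∈ L.U.subgroupOf (locSub D v) := Subgroup.mem_subgroupOf.2 haU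
  have hkey : ∀ c : locSub D v ⧸ L.U.subgroupOf (locSub D v),
      L.cls (g * ((Quotient.out c : locSub D v) : D.Ad)) =
        L.cls (g₀ * ((Quotient.out (a' • c) : locSub D v) : D.Ad)) := by
    intro c
    obtain ⟨x, hx⟩ : ∃ x : locSub D v, x = Quotient.out c := ⟨_, rfl⟩
    rw [← hx]
    have h1 : (QuotientGroup.mk (a' * x) : locSub D v ⧸ L.U.subgroupOf (locSub D v)) =
        QuotientGroup.mk (Quotient.out (a' • c)) := by
      have h2 : (QuotientGroup.mk (Quotient.out (a' • c)) :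
          locSub D v ⧸ L.U.subgroupOf (locSub D v)) = a' • c := QuotientGroup.out_eq' _
      have h3 : (QuotientGroup.mk x : locSub D v ⧸ L.U.subgroupOf (locSub D v)) = c := by
        rw [hx]
        exact QuotientGroup.out_eq' _
      rw [h2, ← h3]
      rfl
    rw [← L.cls_mul_of_mk_eq g₀ h1, L.cls_eq_iff]
    have hcomm : a⁻¹ * (g₀⁻¹ * g) * (x : D.Ad) = (x : D.Ad) * (a⁻¹ * (g₀⁻¹ * g)) := by
      apply mul_comm_of_disjoint
      intro w
      by_cases hw : w = v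
      · rw [hw]
        exact Or.inl htr
      · exact Or.inr (x.2 w hw)
    have h4 : g = g₀ * (a * (a⁻¹ * (g₀⁻¹ * g))) := by group
    have h5 : (g * (x : D.Ad))⁻¹ * (g₀ * ((a' * x : locSub D v) : D.Ad)) =
        (a⁻¹ * (g₀⁻¹ * g))⁻¹ := by
      have h6 : g * (x : D.Ad) = g₀ * (a * (x * (a⁻¹ * (g₀⁻¹ * g)))) := by
        rw [← hcomm]
        group
      have h7 : (a' : D.Ad) = a := rfl
      rw [h6, Subgroup.coe_mul, h7]
      group
    rw [h5]
    exact L.U.inv_mem (L.U.mul_mem (L.U.inv_mem haU) hu)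
  rw [Level.op, Finsupp.linearCombination_single, one_smul, ← hg₀, Finsupp.sum, Finsupp.sum]
  symm
  refine Finset.sum_equiv (MulAction.toPerm a') ?_ ?_
  · intro c
    rw [MulAction.toPerm_apply, Finsupp.mem_support_iff, Finsupp.mem_support_iff, h.2 a' ha' c]
  · intro c _
    rw [MulAction.toPerm_apply, h.2 a' ha' c, hkey c]

end Pool.Agent.Lib.MP_666dc0_nt.EP
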