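import Pool.Agent.Lib.MP_666dc0_nt.Mg.G058

/-!
# EP, G3a: the action of the polynomial ring
-/

namespace Pool.Agent.Lib.MP_666dc0_nt.EP

variable {R : Type} {A : Type} [CommRing R] [Group A] {E X : Type} [MulAction A E] [MulAction A X]
  {I : Type}

open scoped IsMulCommutative in
private theorem g3a_aux {R B I : Type} [CommRing R] [Ring B] [Algebra R B] (c : I → B)
    (hcomm : ∀ i j, c i * c j = c j * c i) :
    ∃ θ : MvPolynomial I R →ₐ[R] B, ∀ i, θ (MvPolynomial.X i) = c i := by
  have hcomm' : ∀ a ∈ Set.range c, ∀ b ∈ Set.range c, a * b = b * a := by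
    rintro _ ⟨i, rfl⟩ _ ⟨j, rfl⟩
    exact hcomm i j
  have hS : IsMulCommutative (Algebra.adjoin R (Set.range c)) :=
    Algebra.isMulCommutative_adjoin R hcomm'
  let φ : MvPolynomial I R →ₐ[R] Algebra.adjoin R (Set.range c) :=
    MvPolynomial.aeval (R := R) (S₁ := Algebra.adjoin R (Set.range c))
      (fun i => (⟨c i, Algebra.subset_adjoin (Set.mem_range_self i)⟩ :
        Algebra.adjoin R (Set.range c)))
  refine ⟨(Algebra.adjoin R (Set.range c)).val.comp φ, fun i => ?_⟩
  show ((φ (MvPolynomial.X i) : Algebra.adjoin R (Set.range c)) : B) = c i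
  have h1 : φ (MvPolynomial.X i) = ⟨c i, Algebra.subset_adjoin (Set.mem_range_self i)⟩ :=
    MvPolynomial.aeval_X _ i
  rw [h1]

/-- Commuting equivariant endomorphisms `c i` of `R[X]` give an action of the polynomial ring.
Proof: `Algebra.adjoin R (Set.range c)` is commutative (`Algebra.adjoinCommRingOfComm`). -/
theorem exists_action (c : I → Module.End R (X →₀ R)) (hc : ∀ i, Equi A (c i))
    (hcomm : ∀ i j, Commute (c i) (c j)) :
    ∃ θ : MvPolynomial I R →ₐ[R] Module.End R (X →₀ R), (∀ i, θ (MvPolynomial.X i) = c i) ∧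
      ∀ t, Equi A (θ t) := by
  obtain ⟨θ, hX⟩ := g3a_aux (R := R) c fun i j => (hcomm i j).eq
  refine ⟨θ, hX, fun t => ?_⟩
  induction t using MvPolynomial.induction_on with
  | C r =>
    have h1 : θ (MvPolynomial.C r) = r • LinearMap.id := by
      rw [← MvPolynomial.algebraMap_eq, AlgHom.commutes, Algebra.algebraMap_eq_smul_one]
      rfl
    rw [h1]
    exact Equi.smul r Equi.id
  | add p q hp hq =>
    rw [map_add]
    exact hp.add hq
  | mul_X p i hp =>
    rw [map_mul, hX]
    exact hp.comp (hc i)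

end Pool.Agent.Lib.MP_666dc0_nt.EP
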