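import Pool.Agent.Lib.MP_666dc0_nt.EP.T2a
import Pool.Agent.Lib.MP_666dc0_nt.Mg.G058

/-!
# EP, T2b: the Hecke operators are equivariant
-/

open NumberField IsDedekindDomain
open scoped NumberField

namespace Pool.Agent.Lib.MP_666dc0_nt.EP

open WL

variable {F : Type} [Field F] [NumberField F] {n : ℕ} {D : Datum F n} {ℓ : ℕ} [Fact ℓ.Prime]
  (L : Level D ℓ)

/-- Proof: `Equi.of_single`. By `op_single` both sides are sums over `c` with the coefficients `h c`;
`a • cls g = cls (γ g k⁻¹)` and `γ g k⁻¹ x = γ (g x) k⁻¹` for `x = out c ∈ G(F_v)`, since `k` is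
trivial at `v` (`L.level.supp`, `v` does not divide `ℓ`) and `x` is trivial outside `v`
(`mul_comm_of_disjoint`). -/
theorem Level.equi_op {v : HeightOneSpectrum (𝓞 F)} (hv : L.IsGoodAt v)
    (hvl : (ℓ : 𝓞 F) ∉ v.asIdeal) (h : L.Hecke v) : Equi (D.Rat × L.K) (L.op h) := by
  refine Equi.of_single fun a y => ?_
  obtain ⟨g, rfl⟩ := L.exists_cls y
  rw [L.smul_cls, L.op_single hv, L.op_single hv]
  unfold Finsupp.sum
  rw [Finsupp.mapDomain_finsetSum]
  refine Finset.sum_congr rfl fun c _ => ?_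
  beta_reduce
  rw [Finsupp.mapDomain_single, L.smul_cls]
  have hcomm : (a.2 : D.Ad)⁻¹ * ((Quotient.out c : locSub D v) : D.Ad) =
      ((Quotient.out c : locSub D v) : D.Ad) * (a.2 : D.Ad)⁻¹ := by
    refine mul_comm_of_disjoint fun w => ?_
    by_cases hw : w = v
    · subst hw
      exact Or.inl (L.level.supp _ (L.K.inv_mem a.2.2) w hvl)
    · exact Or.inr ((Quotient.out c : locSub D v).2 w hw)
  have h1 : D.toAd a.1 * g * (a.2 : D.Ad)⁻¹ * ((Quotient.out c : locSub D v) : D.Ad) =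
      D.toAd a.1 * (g * ((Quotient.out c : locSub D v) : D.Ad)) * (a.2 : D.Ad)⁻¹ := by
    rw [mul_assoc (D.toAd a.1 * g), hcomm]
    simp only [mul_assoc]
  rw [h1]

end Pool.Agent.Lib.MP_666dc0_nt.EP
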