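import Pool.Agent.Lib.MP_666dc0_nt.EP.T2a

/-!
# EP, T2c: the Hecke operators commute
-/

open NumberField IsDedekindDomain
open scoped NumberField

namespace Pool.Agent.Lib.MP_666dc0_nt.EP

open WL

variable {F : Type} [Field F] [NumberField F] {n : ℕ} {D : Datum F n} {ℓ : ℕ} [Fact ℓ.Prime]
  (L : Level D ℓ)

/-- Proof: check on `single (cls g) 1` (`Finsupp.lhom_ext'`); by `op_single` both compositions are the
double sum of `h c * h' c' • single (cls (g x x'))`, `x = out c`, `x' = out c'`, because `x x' = x' x`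
(`mul_comm_of_disjoint`). (`L.op h (single y r) = r • L.op h (single y 1)`.) -/
theorem Level.op_comm {v v' : HeightOneSpectrum (𝓞 F)} (hne : v ≠ v') (hv : L.IsGoodAt v)
    (hv' : L.IsGoodAt v') (h : L.Hecke v) (h' : L.Hecke v') :
    L.op h ∘ₗ L.op h' = L.op h' ∘ₗ L.op h := by
  classical
  have key : ∀ {v v' : HeightOneSpectrum (𝓞 F)} (hv : L.IsGoodAt v) (hv' : L.IsGoodAt v')
      (h : L.Hecke v) (h' : L.Hecke v') (g : D.Ad),
      L.op h (L.op h' (Finsupp.single (L.cls g) 1)) = h'.1.sum fun c' a' => h.1.sum fun c a =>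
        Finsupp.single (L.cls (g * ((Quotient.out c' : locSub D v') : D.Ad) *
          ((Quotient.out c : locSub D v) : D.Ad))) (a' * a) := by
    intro v v' hv hv' h h' g
    rw [L.op_single hv' h' g]
    unfold Finsupp.sum
    rw [map_sum]
    refine Finset.sum_congr rfl fun c' _ => ?_
    have h1 : (Finsupp.single (L.cls (g * ((Quotient.out c' : locSub D v') : D.Ad))) (h'.1 c') :
        L.X →₀ Zl ℓ) = h'.1 c' •
          Finsupp.single (L.cls (g * ((Quotient.out c' : locSub D v') : D.Ad))) 1 := by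
      rw [Finsupp.smul_single, smul_eq_mul, mul_one]
    change L.op h (Finsupp.single (L.cls (g * ((Quotient.out c' : locSub D v') : D.Ad)))
      (h'.1 c')) = _
    rw [h1, map_smul, L.op_single hv h]
    unfold Finsupp.sum
    rw [Finset.smul_sum]
    refine Finset.sum_congr rfl fun c _ => ?_
    rw [Finsupp.smul_single, smul_eq_mul]
  apply Finsupp.lhom_ext'
  intro x
  apply LinearMap.ext_ring
  obtain ⟨g, rfl⟩ : ∃ g, L.cls g = x := QuotientGroup.mk_surjective x
  change L.op h (L.op h' (Finsupp.single (L.cls g) 1)) =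
    L.op h' (L.op h (Finsupp.single (L.cls g) 1))
  rw [key hv hv' h h' g, key hv' hv h' h g, Finsupp.sum_comm]
  unfold Finsupp.sum
  refine Finset.sum_congr rfl fun c _ => Finset.sum_congr rfl fun c' _ => ?_
  have hcomm : ((Quotient.out c' : locSub D v') : D.Ad) * ((Quotient.out c : locSub D v) : D.Ad) =
      ((Quotient.out c : locSub D v) : D.Ad) * ((Quotient.out c' : locSub D v') : D.Ad) := by
    refine mul_comm_of_disjoint fun w => ?_
    by_cases hw : w = v'
    · right
      exact (Quotient.out c : locSub D v).2 w (by rw [hw]; exact hne.symm)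
    · left
      exact (Quotient.out c' : locSub D v').2 w hw
  change Finsupp.single (L.cls (g * ((Quotient.out c' : locSub D v') : D.Ad) *
      ((Quotient.out c : locSub D v) : D.Ad))) (h'.1 c' * h.1 c) =
    Finsupp.single (L.cls (g * ((Quotient.out c : locSub D v) : D.Ad) *
      ((Quotient.out c' : locSub D v') : D.Ad))) (h.1 c * h'.1 c')
  rw [mul_assoc g, hcomm, ← mul_assoc, mul_comm (h'.1 c')]

theorem Level.commute_idx (S : Finset (HeightOneSpectrum (𝓞 F)))
    (hgood : ∀ v, v ∉ S → L.IsGoodAt v) (i j : Idx L S) :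
    Commute (L.op i.2 : Module.End (Zl ℓ) (L.X →₀ Zl ℓ)) (L.op j.2) := by
  obtain ⟨⟨v, hv⟩, h⟩ := i
  obtain ⟨⟨v', hv'⟩, h'⟩ := j
  by_cases hne : v = v'
  · subst hne
    exact (hgood v hv).comm h h'
  · exact L.op_comm hne (hgood v hv) (hgood v' hv') h h'

end Pool.Agent.Lib.MP_666dc0_nt.EP
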