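import Pool.Agent.Lib.MP_666dc0_nt.EP.RA1

/-!
# EP, RA4: the Siegel property: auxiliary bounds
-/

namespace Pool.Agent.Lib.MP_666dc0_nt.EP

open Matrix

variable {N : ℕ} {C : ℝ} {Q : Matrix (Fin N) (Fin N) ℝ}

private theorem RA4_posDef (hQ : Q.PosDef) {g : Matrix (Fin N) (Fin N) ℝ} (hg : IsUnit g.det) :
    (gᵀ * Q * g).PosDef := by
  have h1 := hQ.conjTranspose_mul_mul_same (B := g) (Matrix.mulVec_injective_of_isUnit
    ((Matrix.isUnit_iff_isUnit_det g).2 hg))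
  rwa [Matrix.conjTranspose_eq_transpose_of_trivial] at h1

/-- A column with index `≤ j` has a non-zero entry with index `≥ j`. -/
private theorem RA4_exists_entry {g : Matrix (Fin N) (Fin N) ℝ} (hg : IsUnit g.det) (j : Fin N) :
    ∃ l, l ≤ j ∧ ∃ i, j ≤ i ∧ g i l ≠ 0 := by
  by_contra hno
  push Not at hno
  apply hg.ne_zero
  rw [Matrix.det_apply]
  refine Finset.sum_eq_zero fun σ _ => ?_
  have h1 : ∃ l, l ≤ j ∧ j ≤ σ l := by
    by_contra h2
    push Not at h2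
    have h3 : (Finset.Iic j).card ≤ (Finset.Iio j).card :=
      Finset.card_le_card_of_injOn σ (fun l hl => by
        have hl' := Finset.mem_Iic.1 (Finset.mem_coe.1 hl)
        exact Finset.mem_coe.2 (Finset.mem_Iio.2 (h2 l hl'))) (σ.injective.injOn)
    rw [Fin.card_Iic, Fin.card_Iio] at h3
    omega
  obtain ⟨l, hl, hσ⟩ := h1
  have h4 : ∏ i, g (σ i) i = 0 := Finset.prod_eq_zero (Finset.mem_univ l) (hno l hl (σ l) hσ)
  rw [h4, smul_zero]

/-- For `i ≤ j`: `α_i ≤ C^N α_j`. -/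
theorem Red.al_le (h : Red C Q) (hC : 1 ≤ C) (hQ : Q.PosDef) {i j : Fin N} (hij : i ≤ j) :
    al Q i ≤ C ^ N * al Q j := by
  have key : ∀ d : ℕ, ∀ i j : Fin N, (j : ℕ) = i + d → al Q i ≤ C ^ d * al Q j := by
    intro d
    induction d with
    | zero =>
      intro i j e
      have : j = i := Fin.ext (by omega)
      rw [this, pow_zero, one_mul]
    | succ d ih =>
      intro i j e
      have hi : (i : ℕ) + 1 < N := by have := j.2; omega
      have h1 := h.2 i ⟨i + 1, hi⟩ rfl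
      have h2 := ih ⟨i + 1, hi⟩ j (by rw [e]; show (i : ℕ) + (d + 1) = (i : ℕ) + 1 + d; omega)
      calc al Q i ≤ C * al Q ⟨i + 1, hi⟩ := h1
        _ ≤ C * (C ^ d * al Q j) := mul_le_mul_of_nonneg_left h2 (by linarith)
        _ = C ^ (d + 1) * al Q j := by ring
  have h1 := key ((j : ℕ) - i) i j (by have : (i : ℕ) ≤ j := hij; omega)
  refine h1.trans (mul_le_mul_of_nonneg_right ?_ (al_pos hQ j).le)
  exact pow_le_pow_right₀ hC (by have := j.2; omega)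

/-- The diagonal entries: `Q_jj = ∑ α_i² u_ij² ≤ N C^(2N+2) α_j²`. -/
theorem Red.diag_le (h : Red C Q) (hC : 1 ≤ C) (hQ : Q.PosDef) (j : Fin N) :
    Q j j ≤ N * C ^ (2 * N + 2) * al Q j ^ 2 := by
  have hC0 : 0 ≤ C := by linarith
  have h1 := dot_mulVec_eq hQ (Pi.single j 1)
  have h2 : (Pi.single j (1 : ℝ)) ⬝ᵥ Q.mulVec (Pi.single j 1) = Q j j := by
    rw [Matrix.mulVec_single_one, single_one_dotProduct]
    rfl
  rw [h2] at h1
  rw [h1]
  have hterm : ∀ i : Fin N, al Q i ^ 2 * ((up Q).mulVec (Pi.single j 1) i) ^ 2 ≤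
      C ^ (2 * N + 2) * al Q j ^ 2 := by
    intro i
    have h3 : (up Q).mulVec (Pi.single j 1) i = up Q i j := by
      rw [Matrix.mulVec_single_one]
      rfl
    rw [h3]
    have hj0 := al_pos hQ j
    have hi0 := al_pos hQ i
    have hCp : (1 : ℝ) ≤ C ^ (2 * N + 2) := one_le_pow₀ hC
    rcases lt_trichotomy i j with hij | hij | hij
    · have h4 := h.1 i j hij
      have h5 := h.al_le hC hQ hij.le
      have h6 : al Q i ^ 2 ≤ (C ^ N * al Q j) ^ 2 := pow_le_pow_left₀ hi0.le h5 2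
      have h7 : (up Q i j) ^ 2 ≤ C ^ 2 := by
        rw [← sq_abs]
        exact pow_le_pow_left₀ (abs_nonneg _) h4 2
      calc al Q i ^ 2 * up Q i j ^ 2 ≤ (C ^ N * al Q j) ^ 2 * C ^ 2 :=
            mul_le_mul h6 h7 (sq_nonneg _) (sq_nonneg _)
        _ = C ^ (2 * N + 2) * al Q j ^ 2 := by ring
    · rw [hij, up_diag, one_pow, mul_one]
      exact le_mul_of_one_le_left (sq_nonneg _) hCp
    · rw [up_lower Q i j hij]
      have : 0 ≤ C ^ (2 * N + 2) * al Q j ^ 2 := by positivity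
      simpa using this
  calc ∑ i, al Q i ^ 2 * ((up Q).mulVec (Pi.single j 1) i) ^ 2
      ≤ ∑ _i : Fin N, C ^ (2 * N + 2) * al Q j ^ 2 := Finset.sum_le_sum fun i _ => hterm i
    _ = N * C ^ (2 * N + 2) * al Q j ^ 2 := by
      rw [Finset.sum_const, Finset.card_univ, Fintype.card_fin, nsmul_eq_mul]
      ring

/-- Lower bound: if `v_k = 0` for `k > i` then `vᵀ Q v ≥ α_i² v_i²`. -/
theorem le_dot_mulVec (hQ : Q.PosDef) (v : Fin N → ℝ) (i : Fin N) (hv : ∀ k, i < k → v k = 0) :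
    al Q i ^ 2 * v i ^ 2 ≤ v ⬝ᵥ Q.mulVec v := by
  rw [dot_mulVec_eq hQ v]
  have h1 : (up Q).mulVec v i = v i := by
    rw [Matrix.mulVec, dotProduct, Finset.sum_eq_single i]
    · rw [up_diag, one_mul]
    · intro k _ hk
      rcases lt_or_gt_of_ne hk with h2 | h2
      · rw [up_lower Q i k h2, zero_mul]
      · rw [hv k h2, mul_zero]
    · intro h2
      exact absurd (Finset.mem_univ i) h2
  have h2 := Finset.single_le_sum (f := fun i => al Q i ^ 2 * ((up Q).mulVec v i) ^ 2)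
    (fun k _ => mul_nonneg (sq_nonneg _) (sq_nonneg _)) (Finset.mem_univ i)
  rw [h1] at h2
  exact h2

/-- The entries of `u` and `u⁻¹` are bounded (`det u = 1`, so the entries of `u⁻¹` are minors). -/
theorem exists_up_bound (N : ℕ) (C : ℝ) : ∃ B : ℝ, 1 ≤ B ∧ ∀ Q : Matrix (Fin N) (Fin N) ℝ, Red C Q →
    (∀ i j, |up Q i j| ≤ B) ∧ ∀ i j, |(up Q)⁻¹ i j| ≤ B := by
  obtain ⟨B₀, hB₀, hB1, hBC⟩ : ∃ B₀ : ℝ, B₀ = max 1 C ∧ 1 ≤ B₀ ∧ C ≤ B₀ :=
    ⟨_, rfl, le_max_left _ _, le_max_right _ _⟩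
  have hB00 : 0 ≤ B₀ := by linarith
  refine ⟨B₀ + (N.factorial : ℝ) * B₀ ^ N, ?_, ?_⟩
  · have : 0 ≤ (N.factorial : ℝ) * B₀ ^ N := by positivity
    linarith
  intro Q h
  have hup : ∀ i j, |up Q i j| ≤ B₀ := by
    intro i j
    rcases lt_trichotomy i j with hij | hij | hij
    · exact (h.1 i j hij).trans hBC
    · rw [hij, up_diag, abs_one]
      exact hB1
    · rw [up_lower Q i j hij, abs_zero]
      exact hB00
  constructor
  · intro i j
    have : 0 ≤ (N.factorial : ℝ) * B₀ ^ N := by positivity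
    linarith [hup i j]
  · intro i j
    rw [Matrix.inv_def, det_up, Ring.inverse_one, one_smul, Matrix.adjugate_apply]
    have h1 : ∀ k l, (AbsoluteValue.abs : AbsoluteValue ℝ ℝ)
        ((up Q).updateRow j (Pi.single i 1) k l) ≤ B₀ := by
      intro k l
      rw [AbsoluteValue.abs_apply, Matrix.updateRow_apply]
      split_ifs with e1
      · rw [Pi.single_apply]
        split_ifs
        · rw [abs_one]
          exact hB1
        · rw [abs_zero]
          exact hB00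
      · exact hup k l
    have h2 := Matrix.det_le h1
    rw [AbsoluteValue.abs_apply, Fintype.card_fin, nsmul_eq_mul] at h2
    linarith

/-- The inverse of `u` is upper triangular. -/
theorem up_inv_lower (Q : Matrix (Fin N) (Fin N) ℝ) (i j : Fin N) (h : j < i) :
    (up Q)⁻¹ i j = 0 := by
  have h1 : IsUnit (up Q).det := by rw [det_up]; exact isUnit_one
  let _ : Invertible (up Q) := Matrix.invertibleOfIsUnitDet _ h1
  have h2 : (up Q).BlockTriangular id := fun i j hij => up_lower Q i j hij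
  exact Matrix.blockTriangular_inv_of_blockTriangular h2 h

/-- Comparison of the Gram-Schmidt lengths of two reduced bases of commensurable lattices.
Proof: the columns `0, …, j` of `g` are linearly independent, so one of them, `l ≤ j`, has a
non-zero coordinate at an index `≥ j`; let `i ≥ j` be the last non-zero index of the column `l`. Then
`|g i l| ≥ 1/m`, so `(gᵀQg)_ll ≥ α_i²/m² ≥ (C^{-N} α_j)²/m²` (`le_dot_mulVec`, `al_le`), and
`(gᵀQg)_ll ≤ N C^{2N+2} α'_l² ≤ N C^{2N+2} C^{2N} α'_j²` (`diag_le`, `al_le`). -/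
theorem exists_al_le (N : ℕ) (C : ℝ) (hC : 1 ≤ C) (m : ℕ) (hm : 0 < m) : ∃ B : ℝ, 1 ≤ B ∧
    ∀ (g Q : Matrix (Fin N) (Fin N) ℝ), IsUnit g.det → (∀ i j, ∃ z : ℤ, m * g i j = z) →
      Q.PosDef → Red C Q → Red C (gᵀ * Q * g) → ∀ j, al Q j ≤ B * al (gᵀ * Q * g) j := by
  have hm' : (1 : ℝ) ≤ m := by exact_mod_cast hm
  have hC0 : 0 ≤ C := by linarith
  refine ⟨((N : ℝ) + 1) * m * C ^ (3 * N + 1), ?_, ?_⟩
  · have h1 : (1 : ℝ) ≤ (N : ℝ) + 1 := by
      have : (0 : ℝ) ≤ N := Nat.cast_nonneg N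
      linarith
    have h2 : (1 : ℝ) ≤ C ^ (3 * N + 1) := one_le_pow₀ hC
    exact one_le_mul_of_one_le_of_one_le (one_le_mul_of_one_le_of_one_le h1 hm') h2
  intro g Q hg hint hQ hr hr' j
  have hQ' : (gᵀ * Q * g).PosDef := RA4_posDef hQ hg
  obtain ⟨l, hlj, i₀, hji, hne⟩ := RA4_exists_entry hg j
  -- the last non-zero entry of the column
  obtain ⟨i, hi, hmax⟩ := (Finset.univ.filter fun i : Fin N => g i l ≠ 0).exists_max_image id
    ⟨i₀, by simpa using hne⟩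
  have hgi : g i l ≠ 0 := by simpa using hi
  have hii : i₀ ≤ i := hmax i₀ (by simpa using hne)
  have hlast : ∀ k, i < k → g k l = 0 := by
    intro k hk
    by_contra hne'
    exact absurd (hmax k (by simpa using hne')) (not_le.2 hk)
  have h1 := le_dot_mulVec hQ (fun k => g k l) i hlast
  have h2 : (fun k => g k l) ⬝ᵥ Q.mulVec (fun k => g k l) = (gᵀ * Q * g) l l := by
    rw [Matrix.mul_assoc, Matrix.mul_apply]
    rfl
  rw [h2] at h1
  have h3 := hr'.diag_le hC hQ' l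
  have h4 := hr.al_le hC hQ (hji.trans hii)
  have h5 := hr'.al_le hC hQ' hlj
  -- the entry is at least `1 / m`
  have h6 : 1 ≤ (m : ℝ) ^ 2 * g i l ^ 2 := by
    obtain ⟨z, hz⟩ := hint i l
    have hz0 : z ≠ 0 := by
      rintro rfl
      rw [Int.cast_zero] at hz
      rcases mul_eq_zero.1 hz with e | e
      · linarith
      · exact hgi e
    have hz1 : (1 : ℤ) ≤ z ^ 2 := by
      have : 0 < z ^ 2 := by positivity
      omega
    have hz2 : (1 : ℝ) ≤ (z : ℝ) ^ 2 := by exact_mod_cast hz1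
    rw [← mul_pow, hz]
    exact hz2
  have aj := al_pos hQ j
  have ai := al_pos hQ i
  have al' := al_pos hQ' l
  have aj' := al_pos hQ' j
  set α := al Q j with hα
  set β := al Q i with hβ
  set γ := al (gᵀ * Q * g) l with hγ
  set ε := al (gᵀ * Q * g) j with hε
  have e1 : α ^ 2 ≤ (C ^ N * β) ^ 2 := pow_le_pow_left₀ aj.le h4 2
  have e2 : γ ^ 2 ≤ (C ^ N * ε) ^ 2 := pow_le_pow_left₀ al'.le h5 2
  have e3 : β ^ 2 ≤ (m : ℝ) ^ 2 * (N * C ^ (2 * N + 2) * γ ^ 2) := by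
    calc β ^ 2 = β ^ 2 * 1 := (mul_one _).symm
      _ ≤ β ^ 2 * ((m : ℝ) ^ 2 * g i l ^ 2) := mul_le_mul_of_nonneg_left h6 (sq_nonneg _)
      _ = (m : ℝ) ^ 2 * (β ^ 2 * g i l ^ 2) := by ring
      _ ≤ (m : ℝ) ^ 2 * (N * C ^ (2 * N + 2) * γ ^ 2) :=
        mul_le_mul_of_nonneg_left (h1.trans h3) (sq_nonneg _)
  have hN1 : (1 : ℝ) ≤ N := by
    have : 0 < N := j.pos
    exact_mod_cast this
  have e4 : α ^ 2 ≤ (((N : ℝ) + 1) * m * C ^ (3 * N + 1) * ε) ^ 2 := by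
    have c1 : 0 ≤ C ^ (2 * N) := by positivity
    calc α ^ 2 ≤ (C ^ N * β) ^ 2 := e1
      _ = C ^ (2 * N) * β ^ 2 := by ring
      _ ≤ C ^ (2 * N) * ((m : ℝ) ^ 2 * (N * C ^ (2 * N + 2) * γ ^ 2)) :=
        mul_le_mul_of_nonneg_left e3 c1
      _ ≤ C ^ (2 * N) * ((m : ℝ) ^ 2 * (N * C ^ (2 * N + 2) * (C ^ N * ε) ^ 2)) := by
        refine mul_le_mul_of_nonneg_left (mul_le_mul_of_nonneg_left
          (mul_le_mul_of_nonneg_left e2 ?_) (sq_nonneg _)) c1
        positivity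
      _ = N * ((m : ℝ) * C ^ (3 * N + 1) * ε) ^ 2 := by ring
      _ ≤ ((N : ℝ) + 1) ^ 2 * ((m : ℝ) * C ^ (3 * N + 1) * ε) ^ 2 := by
        refine mul_le_mul_of_nonneg_right ?_ (sq_nonneg _)
        nlinarith
      _ = _ := by ring
  exact (pow_le_pow_iff_left₀ aj.le (by positivity) two_ne_zero).1 e4

/-- The orthogonal matrix `κ = A u g u'⁻¹ A'⁻¹`. -/
noncomputable def kap (g Q : Matrix (Fin N) (Fin N) ℝ) : Matrix (Fin N) (Fin N) ℝ :=
  Matrix.diagonal (al Q) * up Q * g * (up (gᵀ * Q * g))⁻¹ *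
    Matrix.diagonal (fun i => (al (gᵀ * Q * g) i)⁻¹)

theorem kap_orthogonal (hQ : Q.PosDef) {g : Matrix (Fin N) (Fin N) ℝ} (hg : IsUnit g.det) :
    (kap g Q)ᵀ * kap g Q = 1 ∧ kap g Q * (kap g Q)ᵀ = 1 := by
  have hQ' : (gᵀ * Q * g).PosDef := RA4_posDef hQ hg
  obtain ⟨A, hA⟩ : ∃ A : Matrix (Fin N) (Fin N) ℝ, A = Matrix.diagonal (al Q) := ⟨_, rfl⟩
  obtain ⟨A', hA'⟩ : ∃ A' : Matrix (Fin N) (Fin N) ℝ,
      A' = Matrix.diagonal (fun i => (al (gᵀ * Q * g) i)⁻¹) := ⟨_, rfl⟩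
  obtain ⟨D, hD⟩ : ∃ D : Matrix (Fin N) (Fin N) ℝ,
      D = Matrix.diagonal (fun i => al (gᵀ * Q * g) i ^ 2) := ⟨_, rfl⟩
  obtain ⟨u, hu⟩ : ∃ u : Matrix (Fin N) (Fin N) ℝ, u = up Q := ⟨_, rfl⟩
  obtain ⟨u', hu'⟩ : ∃ u' : Matrix (Fin N) (Fin N) ℝ, u' = up (gᵀ * Q * g) := ⟨_, rfl⟩
  have hdet : IsUnit u'.det := by rw [hu', det_up]; exact isUnit_one
  have e1 : uᵀ * (A * A) * u = Q := by
    have h1 := up_al_up hQ
    rw [hA, hu, Matrix.diagonal_mul_diagonal]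
    have h2 : (fun i => al Q i * al Q i) = fun i => al Q i ^ 2 := by
      funext i; ring
    rw [h2]
    exact h1
  have e2 : u'ᵀ * D * u' = gᵀ * Q * g := by
    rw [hu', hD]
    exact up_al_up hQ'
  have e3 : A' * D * A' = 1 := by
    rw [hA', hD, Matrix.diagonal_mul_diagonal, Matrix.diagonal_mul_diagonal, ← Matrix.diagonal_one]
    congr 1
    funext i
    have := (al_pos hQ' i).ne'
    field_simp
  have e4 : A'ᵀ = A' := by rw [hA', Matrix.diagonal_transpose]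
  have e5 : Aᵀ = A := by rw [hA, Matrix.diagonal_transpose]
  have e6 : u' * u'⁻¹ = 1 := Matrix.mul_nonsing_inv _ hdet
  have e7 : u'⁻¹ᵀ * u'ᵀ = 1 := by
    rw [← Matrix.transpose_mul, e6, Matrix.transpose_one]
  have hk : kap g Q = A * u * g * u'⁻¹ * A' := by
    unfold kap
    rw [hA, hA', hu, hu']
  have main : (kap g Q)ᵀ * kap g Q = 1 := by
    rw [hk]
    calc (A * u * g * u'⁻¹ * A')ᵀ * (A * u * g * u'⁻¹ * A')
        = A' * (u'⁻¹ᵀ * (gᵀ * (uᵀ * (A * A) * u) * g) * u'⁻¹) * A' := by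
          simp only [Matrix.transpose_mul, e4, e5, Matrix.mul_assoc]
      _ = A' * (u'⁻¹ᵀ * (u'ᵀ * D * u') * u'⁻¹) * A' := by rw [e1, e2]
      _ = A' * ((u'⁻¹ᵀ * u'ᵀ) * D * (u' * u'⁻¹)) * A' := by simp only [Matrix.mul_assoc]
      _ = 1 := by rw [e6, e7, Matrix.one_mul, Matrix.mul_one, e3]
  exact ⟨main, mul_eq_one_comm.1 main⟩

/-- `g = u⁻¹ y u'` with `y_kl = κ_kl α'_l / α_k`. -/
theorem eq_kap (hQ : Q.PosDef) {g : Matrix (Fin N) (Fin N) ℝ} (hg : IsUnit g.det) (i j : Fin N) :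
    g i j = ∑ k, ∑ l, (up Q)⁻¹ i k * (kap g Q k l * al (gᵀ * Q * g) l / al Q k) *
      up (gᵀ * Q * g) l j := by
  have hQ' : (gᵀ * Q * g).PosDef := RA4_posDef hQ hg
  have hdu : IsUnit (up Q).det := by rw [det_up]; exact isUnit_one
  have hdu' : IsUnit (up (gᵀ * Q * g)).det := by rw [det_up]; exact isUnit_one
  obtain ⟨Y, hY⟩ : ∃ Y : Matrix (Fin N) (Fin N) ℝ,
      Y = fun k l => kap g Q k l * al (gᵀ * Q * g) l / al Q k := ⟨_, rfl⟩
  have hYe : Y = up Q * g * (up (gᵀ * Q * g))⁻¹ := by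
    rw [hY]
    ext k l
    have h1 : kap g Q k l = al Q k * (up Q * g * (up (gᵀ * Q * g))⁻¹) k l *
        (al (gᵀ * Q * g) l)⁻¹ := by
      unfold kap
      rw [Matrix.mul_diagonal, Matrix.mul_assoc, Matrix.mul_assoc, Matrix.diagonal_mul,
        ← Matrix.mul_assoc]
    rw [h1]
    have a1 := (al_pos hQ k).ne'
    have a2 := (al_pos hQ' l).ne'
    field_simp
  have hge : g = (up Q)⁻¹ * Y * up (gᵀ * Q * g) := by
    rw [hYe]
    calc g = ((up Q)⁻¹ * up Q) * g * ((up (gᵀ * Q * g))⁻¹ * up (gᵀ * Q * g)) := by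
          rw [Matrix.nonsing_inv_mul _ hdu, Matrix.nonsing_inv_mul _ hdu', Matrix.one_mul,
            Matrix.mul_one]
      _ = _ := by simp only [Matrix.mul_assoc]
  have h2 : g i j = ((up Q)⁻¹ * Y * up (gᵀ * Q * g)) i j := congrFun (congrFun hge i) j
  rw [h2, Matrix.mul_assoc, Matrix.mul_apply]
  refine Finset.sum_congr rfl fun k _ => ?_
  rw [Matrix.mul_apply, Finset.mul_sum]
  refine Finset.sum_congr rfl fun l _ => ?_
  rw [hY]
  ring

/-- An orthogonal matrix whose entries `(i, j)` with `j ≤ r < i` vanish has vanishing entries `(i, j)`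
with `i ≤ r < j`.
Proof: sum the squares over the rows `i ≤ r` and over the columns `j ≤ r`: both sums are `r + 1`. -/
theorem orthogonal_block {κ : Matrix (Fin N) (Fin N) ℝ} (h1 : κᵀ * κ = 1) (h2 : κ * κᵀ = 1)
    (r : Fin N) (h : ∀ i j, j ≤ r → r < i → κ i j = 0) (i j : Fin N) (hi : i ≤ r) (hj : r < j) :
    κ i j = 0 := by
  have hrow : ∀ i, ∑ j, κ i j ^ 2 = 1 := by
    intro i
    have h3 := congrFun (congrFun h2 i) i
    rw [Matrix.mul_apply, Matrix.one_apply_eq] at h3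
    rw [← h3]
    refine Finset.sum_congr rfl fun j _ => ?_
    rw [Matrix.transpose_apply]
    ring
  have hcol : ∀ j, ∑ i, κ i j ^ 2 = 1 := by
    intro j
    have h3 := congrFun (congrFun h1 j) j
    rw [Matrix.mul_apply, Matrix.one_apply_eq] at h3
    rw [← h3]
    refine Finset.sum_congr rfl fun i _ => ?_
    rw [Matrix.transpose_apply]
    ring
  obtain ⟨S, hS⟩ : ∃ S : Finset (Fin N), S = Finset.univ.filter fun i => i ≤ r := ⟨_, rfl⟩
  have hmem : ∀ i, i ∈ S ↔ i ≤ r := by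
    intro i
    rw [hS, Finset.mem_filter]
    exact ⟨fun h3 => h3.2, fun h3 => ⟨Finset.mem_univ _, h3⟩⟩
  have a1 : ∑ i ∈ S, ∑ j, κ i j ^ 2 = S.card := by
    rw [Finset.sum_congr rfl fun i _ => hrow i, Finset.sum_const, nsmul_eq_mul, mul_one]
  have a2 : ∑ j ∈ S, ∑ i, κ i j ^ 2 = S.card := by
    rw [Finset.sum_congr rfl fun i _ => hcol i, Finset.sum_const, nsmul_eq_mul, mul_one]
  have a3 : ∑ j ∈ S, ∑ i, κ i j ^ 2 = ∑ i ∈ S, ∑ j ∈ S, κ i j ^ 2 := by
    rw [Finset.sum_comm (s := S) (t := S)]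
    refine Finset.sum_congr rfl fun j hj => ?_
    refine (Finset.sum_subset (Finset.subset_univ S) ?_).symm
    intro i _ hi
    rw [hmem] at hi hj
    rw [h i j hj (not_le.1 hi)]
    norm_num
  have a4 : ∑ i ∈ S, (∑ j, κ i j ^ 2 - ∑ j ∈ S, κ i j ^ 2) = 0 := by
    rw [Finset.sum_sub_distrib, a1, ← a3, a2, sub_self]
  have a5 : ∀ i, ∑ j, κ i j ^ 2 - ∑ j ∈ S, κ i j ^ 2 = ∑ j ∈ Finset.univ \ S, κ i j ^ 2 := by
    intro i
    rw [← Finset.sum_sdiff (Finset.subset_univ S)]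
    ring
  have a6 : ∀ i ∈ S, ∑ j, κ i j ^ 2 - ∑ j ∈ S, κ i j ^ 2 = 0 := by
    have := (Finset.sum_eq_zero_iff_of_nonneg (s := S)
      (f := fun i => ∑ j, κ i j ^ 2 - ∑ j ∈ S, κ i j ^ 2) (fun i _ => by
        show 0 ≤ ∑ j, κ i j ^ 2 - ∑ j ∈ S, κ i j ^ 2
        rw [a5]
        exact Finset.sum_nonneg fun j _ => sq_nonneg _)).1 a4
    exact this
  have a7 := a6 i ((hmem i).2 hi)
  rw [a5] at a7
  have a8 := (Finset.sum_eq_zero_iff_of_nonneg (fun j _ => sq_nonneg (κ i j))).1 a7 j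
    (by
      rw [Finset.mem_sdiff, hmem]
      exact ⟨Finset.mem_univ _, not_le.2 hj⟩)
  exact pow_eq_zero_iff (two_ne_zero) |>.1 a8

end Pool.Agent.Lib.MP_666dc0_nt.EP
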