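import Pool.Agent.Lib.MP_666dc0_nt.EP.BV1
import Pool.Agent.Lib.MP_666dc0_nt.Mg.G060
import Pool.Agent.Lib.MP_666dc0_nt.Mg.G003

/-!
# EP, BV7: bases with the same data are conjugate under `G(F)`
-/

open NumberField IsDedekindDomain
open scoped NumberField

namespace Pool.Agent.Lib.MP_666dc0_nt.EP

open WL

variable {F : Type} [Field F] [NumberField F] {n : ℕ} {D : Datum F n}

/-- Elements of `F` with the same traces `Tr (a_k x)` for the integral basis `a_k` are equal
(`traceForm_nondegenerate`). -/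
theorem eq_of_trace {x y : F} (h : ∀ k, Algebra.trace ℚ F (integralBasis F k * x) =
    Algebra.trace ℚ F (integralBasis F k * y)) : x = y := by
  rw [← sub_eq_zero]
  have hz : ∀ k, Algebra.trace ℚ F (integralBasis F k * (x - y)) = 0 := by
    intro k
    rw [mul_sub, map_sub, h k, sub_self]
  have hall : ∀ w : F, Algebra.trace ℚ F (w * (x - y)) = 0 := by
    intro w
    rw [← (integralBasis F).sum_repr w, Finset.sum_mul, map_sum]
    refine Finset.sum_eq_zero fun k _ => ?_
    rw [smul_mul_assoc, map_smul, hz k, smul_zero]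
  refine (traceForm_nondegenerate ℚ F).1 (x - y) fun w => ?_
  rw [Algebra.traceForm_apply, mul_comm]
  exact hall w

/-- Proof: `eq_of_trace`, for the index `none` and `J = ![i, j]`. -/
theorem gram_eq_of_fam {N : ℕ} {b b' : Fin N → Fin n → F} (h : fam D b = fam D b') :
    gram D b = gram D b' := by
  funext i j
  refine eq_of_trace fun k => ?_
  exact congrFun (congrFun h (k, none)) (![i, j] : Fin 2 → Fin N)

theorem tens_eq_of_fam {N : ℕ} {b b' : Fin N → Fin n → F} (h : fam D b = fam D b') :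
    tens D b = tens D b' := by
  funext s I
  refine eq_of_trace fun k => ?_
  exact congrFun (congrFun h (k, some s)) I

section lin

variable {N : ℕ}

/-- the linear combination of the family -/
private noncomputable def bv7_comb (b : Fin N → Fin n → F) : (Fin N → F) →ₗ[F] (Fin n → F) :=
  Fintype.linearCombination F b

omit [NumberField F] in
private theorem bv7_comb_apply (b : Fin N → Fin n → F) (c : Fin N → F) :
    bv7_comb b c = ∑ i, c i • b i := rfl

omit [NumberField F] in
private theorem bv7_comb_single (b : Fin N → Fin n → F) (i : Fin N) :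
    bv7_comb b (Pi.single i 1) = b i := by
  classical
  rw [bv7_comb_apply, Finset.sum_eq_single i]
  · simp
  · intro j _ hj
    rw [Pi.single_eq_of_ne hj, zero_smul]
  · intro h
    exact (h (Finset.mem_univ _)).elim

omit [NumberField F] in
private theorem bv7_mulVec_comb (M : Matrix (Fin n) (Fin n) F) (b : Fin N → Fin n → F)
    (c : Fin N → F) : M.mulVec (bv7_comb b c) = ∑ i, c i • M.mulVec (b i) := by
  rw [bv7_comb_apply]
  have h := map_sum (Matrix.mulVecLin M) (fun i => c i • b i) Finset.univ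
  simp only [map_smul, Matrix.mulVecLin_apply] at h
  exact h

omit [NumberField F] in
private theorem bv7_qf_comb (b : Fin N → Fin n → F) (c c' : Fin N → F) :
    qf D (RingHom.id F) (bv7_comb b c) (bv7_comb b c') =
      ∑ i, ∑ j, c i * c' j * gram D b i j := by
  unfold gram qf
  rw [bv7_mulVec_comb, bv7_comb_apply, sum_dotProduct]
  refine Finset.sum_congr rfl fun i _ => ?_
  rw [dotProduct_sum]
  refine Finset.sum_congr rfl fun j _ => ?_
  rw [smul_dotProduct, dotProduct_smul, smul_eq_mul, smul_eq_mul, mul_assoc]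

omit [NumberField F] in
private theorem bv7_pairT_comb (b : Fin N → Fin n → F) (s : Fin D.m)
    (c : Fin (D.deg s) → Fin N → F) :
    pairT D (RingHom.id F) s (fun t => bv7_comb b (c t)) =
      ∑ I : Fin (D.deg s) → Fin N, (∏ t, c t (I t)) * tens D b s I := by
  unfold tens pairT
  have h1 : ∀ J : Fin (D.deg s) → Fin n,
      ∏ t, (D.q.map (RingHom.id F)).mulVec (bv7_comb b (c t)) (J t) =
      ∑ I : Fin (D.deg s) → Fin N, ∏ t, (c t (I t) *
        (D.q.map (RingHom.id F)).mulVec (b (I t)) (J t)) := by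
    intro J
    have h2 : ∀ t, (D.q.map (RingHom.id F)).mulVec (bv7_comb b (c t)) (J t) =
        ∑ i, c t i * (D.q.map (RingHom.id F)).mulVec (b i) (J t) := by
      intro t
      rw [bv7_mulVec_comb, Finset.sum_apply]
      rfl
    simp only [h2]
    rw [Finset.prod_univ_sum]
    simp only [Fintype.piFinset_univ]
  simp only [h1, Finset.mul_sum]
  rw [Finset.sum_comm]
  refine Finset.sum_congr rfl fun I _ => ?_
  refine Finset.sum_congr rfl fun J _ => ?_
  rw [Finset.prod_mul_distrib]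
  ring

omit [NumberField F] in
private theorem bv7_surj {b : Fin N → Fin n → F} (hs : Submodule.span F (Set.range b) = ⊤)
    (x : Fin n → F) : ∃ c, bv7_comb b c = x := by
  have hr : LinearMap.range (bv7_comb b) = ⊤ := by
    rw [← hs]
    exact Fintype.range_linearCombination F b
  have : x ∈ LinearMap.range (bv7_comb b) := by rw [hr]; exact Submodule.mem_top
  exact this

omit [NumberField F] in
private theorem bv7_ker (hd : D.q.det ≠ 0) {b b' : Fin N → Fin n → F}
    (hs' : Submodule.span F (Set.range b') = ⊤)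
    (hg : gram D b = gram D b') (c : Fin N → F) (h : bv7_comb b c = 0) :
    bv7_comb b' c = 0 := by
  apply qf_nondeg hd
  intro x
  obtain ⟨c', rfl⟩ := bv7_surj hs' x
  rw [bv7_qf_comb, ← hg, ← bv7_qf_comb, h]
  unfold qf
  rw [zero_dotProduct]

omit [NumberField F] in
private theorem bv7_exists_map (hd : D.q.det ≠ 0)
    {b b' : Fin N → Fin n → F} (hs : Submodule.span F (Set.range b) = ⊤)
    (hs' : Submodule.span F (Set.range b') = ⊤)
    (hg : gram D b = gram D b') : ∃ φ : (Fin n → F) →ₗ[F] (Fin n → F),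
      ∀ c, φ (bv7_comb b c) = bv7_comb b' c := by
  have hr : LinearMap.range (bv7_comb b) = ⊤ := by
    rw [← hs]
    exact Fintype.range_linearCombination F b
  obtain ⟨s, hs''⟩ := (bv7_comb b).exists_rightInverse_of_surjective hr
  refine ⟨bv7_comb b' ∘ₗ s, fun c => ?_⟩
  rw [LinearMap.comp_apply, ← sub_eq_zero, ← map_sub]
  apply bv7_ker hd hs' hg
  rw [map_sub, sub_eq_zero]
  exact LinearMap.congr_fun hs'' _

end lin

/-- **Same data, spanning families.** Proof: as in WL/A4.lean (`exists_rat_of_data`), with the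
positivity of `q` replaced by non-degeneracy: if `∑ c_i b_i = 0`, `c_i ∈ F`, then
`q (∑ c_i b'_i) b'_j = ∑ c_i gram b' i j = ∑ c_i gram b i j = q (∑ c_i b_i) b_j = 0` for all `j`, and the
`b'_j` span `F^n`, so `∑ c_i b'_i = 0` (`qf_nondeg`). The rest of the proof is unchanged. -/
theorem exists_rat_of_gram_tens (hd : D.q.det ≠ 0) {N : ℕ} {b b' : Fin N → Fin n → F}
    (hs : Submodule.span F (Set.range b) = ⊤) (hs' : Submodule.span F (Set.range b') = ⊤)
    (hg : gram D b = gram D b') (ht : tens D b = tens D b') :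
    ∃ γ : D.Rat, ∀ i, γ.1.1.mulVec (b i) = b' i := by
  classical
  obtain ⟨φ, hφ⟩ := bv7_exists_map hd hs hs' hg
  obtain ⟨ψ, hψ⟩ := bv7_exists_map hd hs' hs hg.symm
  have hsurj : ∀ x, ∃ c, bv7_comb b c = x := bv7_surj hs
  have hsurj' : ∀ x, ∃ c, bv7_comb b' c = x := bv7_surj hs'
  have h1 : φ ∘ₗ ψ = LinearMap.id := by
    apply LinearMap.ext
    intro x
    obtain ⟨c, rfl⟩ := hsurj' x
    rw [LinearMap.comp_apply, hψ, hφ]
    rfl
  have h2 : ψ ∘ₗ φ = LinearMap.id := by
    apply LinearMap.ext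
    intro x
    obtain ⟨c, rfl⟩ := hsurj x
    rw [LinearMap.comp_apply, hφ, hψ]
    rfl
  set γ₀ : Matrix (Fin n) (Fin n) F := LinearMap.toMatrix' φ with hγ₀
  set δ₀ : Matrix (Fin n) (Fin n) F := LinearMap.toMatrix' ψ with hδ₀
  have h3 : γ₀ * δ₀ = 1 := by
    rw [hγ₀, hδ₀, ← LinearMap.toMatrix'_comp, h1, LinearMap.toMatrix'_id]
  have h4 : δ₀ * γ₀ = 1 := by
    rw [hγ₀, hδ₀, ← LinearMap.toMatrix'_comp, h2, LinearMap.toMatrix'_id]
  have hγv : ∀ x, γ₀.mulVec x = φ x := by
    intro x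
    rw [hγ₀, LinearMap.toMatrix'_mulVec]
  have hqid : D.q.map (RingHom.id F) = D.q := by
    ext i j
    rfl
  -- the form
  have hqf : ∀ x y, qf D (RingHom.id F) (γ₀.mulVec x) (γ₀.mulVec y) = qf D (RingHom.id F) x y := by
    intro x y
    obtain ⟨c, rfl⟩ := hsurj x
    obtain ⟨c', rfl⟩ := hsurj y
    rw [hγv, hγv, hφ, hφ, bv7_qf_comb, bv7_qf_comb, hg]
  have hq : γ₀.transpose * D.q * γ₀ = D.q := by
    ext i j
    have h5 := hqf (Pi.single i 1) (Pi.single j 1)
    unfold qf at h5
    rw [hqid, Matrix.mulVec_mulVec, Matrix.dotProduct_mulVec, Matrix.vecMul_mulVec,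
      ← Matrix.dotProduct_mulVec, single_one_dotProduct, single_one_dotProduct,
      Matrix.mulVec_single_one, Matrix.mulVec_single_one] at h5
    rw [Matrix.mul_assoc]
    exact h5
  -- the tensors
  have hpair : ∀ (s : Fin D.m) (y : Fin (D.deg s) → Fin n → F),
      pairT D (RingHom.id F) s (fun t => γ₀.mulVec (y t)) = pairT D (RingHom.id F) s y := by
    intro s y
    choose c hc using fun t => hsurj (y t)
    have h6 : y = fun t => bv7_comb b (c t) := funext fun t => (hc t).symm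
    have h7 : (fun t => γ₀.mulVec (y t)) = fun t => bv7_comb b' (c t) := by
      funext t
      rw [hγv, ← hc t, hφ]
    rw [h7, h6, bv7_pairT_comb, bv7_pairT_comb, ht]
  have hdet : IsUnit D.q.det := isUnit_iff_ne_zero.2 hd
  have hqinv : D.q * D.q⁻¹ = 1 := Matrix.mul_nonsing_inv _ hdet
  have hγq : γ₀.transpose * D.q = D.q * δ₀ := by
    calc γ₀.transpose * D.q = γ₀.transpose * D.q * (γ₀ * δ₀) := by rw [h3, Matrix.mul_one]
      _ = (γ₀.transpose * D.q * γ₀) * δ₀ := by simp only [Matrix.mul_assoc]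
      _ = _ := by rw [hq]
  have hten : ∀ s : Fin D.m, tensAct γ₀ (D.w s) = D.w s := by
    intro s
    funext J₀
    have h10 := hpair s (fun t => δ₀.mulVec (D.q⁻¹.mulVec (Pi.single (J₀ t) 1)))
    unfold pairT at h10
    rw [hqid] at h10
    have h11 : ∀ t, D.q.mulVec (γ₀.mulVec (δ₀.mulVec (D.q⁻¹.mulVec (Pi.single (J₀ t) 1)))) =
        Pi.single (J₀ t) 1 := by
      intro t
      have e : ∀ v : Fin n → F, γ₀.mulVec (δ₀.mulVec v) = v := by
        intro v
        rw [Matrix.mulVec_mulVec, h3, Matrix.one_mulVec]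
      rw [e, Matrix.mulVec_mulVec, hqinv, Matrix.one_mulVec]
    have h12 : ∀ t, D.q.mulVec (δ₀.mulVec (D.q⁻¹.mulVec (Pi.single (J₀ t) 1))) =
        γ₀.transpose.mulVec (Pi.single (J₀ t) 1) := by
      intro t
      rw [Matrix.mulVec_mulVec, Matrix.mulVec_mulVec, ← hγq, Matrix.mul_assoc, hqinv,
        Matrix.mul_one]
    simp only [h11, h12] at h10
    unfold tensAct
    have h13 : ∑ J : Fin (D.deg s) → Fin n, (RingHom.id F) (D.w s J) *
        ∏ t, (Pi.single (J₀ t) (1 : F) : Fin n → F) (J t) = D.w s J₀ := by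
      rw [Finset.sum_eq_single J₀]
      · simp
      · intro J _ hJ
        obtain ⟨t, ht'⟩ : ∃ t, J t ≠ J₀ t := by
          by_contra hcon
          push Not at hcon
          exact hJ (funext hcon)
        rw [Finset.prod_eq_zero (Finset.mem_univ t) (Pi.single_eq_of_ne ht' _), mul_zero]
      · intro h
        exact (h (Finset.mem_univ _)).elim
    rw [h13] at h10
    rw [h10]
    refine Finset.sum_congr rfl fun J _ => ?_
    rw [mul_comm]
    congr 1
    refine Finset.prod_congr rfl fun t _ => ?_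
    rw [Matrix.mulVec_single_one]
    rfl
  refine ⟨⟨⟨γ₀, δ₀, h3, h4⟩, ?_, ?_⟩, ?_⟩
  · change γ₀.transpose * D.q.map (RingHom.id F) * γ₀ = D.q.map (RingHom.id F)
    rw [hqid]
    exact hq
  · intro s
    exact hten s
  · intro i
    change γ₀.mulVec (b i) = b' i
    rw [hγv, ← bv7_comb_single b i, hφ, bv7_comb_single]

private theorem bv7_mapsTo {g g' : D.Ad} {b b' : Fin (rk F n) → Fin n → F} (hb : IsBas g b)
    (hb' : IsBas g' b') (γ : D.Rat) (h : ∀ i, γ.1.1.mulVec (b i) = b' i) :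
    ∀ x ∈ lat g, γ.1.1.mulVec x ∈ lat g' := by
  intro x hx
  have h1 : lat g ≤ (lat g').comap (Matrix.mulVecLin γ.1.1).toAddMonoidHom := by
    rw [← hb.gen, AddSubgroup.closure_le]
    rintro _ ⟨i, rfl⟩
    change γ.1.1.mulVec (b i) ∈ lat g'
    rw [h i, ← hb'.gen]
    exact AddSubgroup.subset_closure ⟨i, rfl⟩
  exact h1 hx

/-- Proof: as in WL/A4.lean (`mem_K0_of_data`), with `integral_of_mapsTo`. -/
theorem mem_K0_of_bas {g g' : D.Ad} {b b' : Fin (rk F n) → Fin n → F} (hb : IsBas g b)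
    (hb' : IsBas g' b') (γ : D.Rat) (h : ∀ i, γ.1.1.mulVec (b i) = b' i) :
    g'⁻¹ * D.toAd γ * g ∈ K0 D := by
  have h' : ∀ i, (γ⁻¹).1.1.mulVec (b' i) = b i := by
    intro i
    rw [← h i, Matrix.mulVec_mulVec]
    have h2 : (γ⁻¹).1.1 * γ.1.1 = 1 := by
      have h3 : (γ⁻¹ * γ).1.1 = 1 := by rw [inv_mul_cancel]; rfl
      exact h3
    rw [h2, Matrix.one_mulVec]
  refine ⟨fun i j => integral_of_mapsTo γ (bv7_mapsTo hb hb' γ h) i j, fun i j => ?_⟩
  have h4 : (g'⁻¹ * D.toAd γ * g)⁻¹ = g⁻¹ * D.toAd γ⁻¹ * g' := by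
    rw [mul_inv_rev, mul_inv_rev, inv_inv, map_inv, mul_assoc]
  rw [h4]
  exact integral_of_mapsTo γ⁻¹ (bv7_mapsTo hb' hb γ⁻¹ h') i j

/-- **Same data.** -/
theorem exists_rat_of_fam (hd : D.q.det ≠ 0) {g g' : D.Ad} {b b' : Fin (rk F n) → Fin n → F}
    (hb : IsBas g b) (hb' : IsBas g' b') (h : fam D b = fam D b') :
    ∃ γ : D.Rat, (∀ i, γ.1.1.mulVec (b i) = b' i) ∧ g'⁻¹ * D.toAd γ * g ∈ K0 D := by
  obtain ⟨γ, hγ⟩ := exists_rat_of_gram_tens hd hb.span hb'.span (gram_eq_of_fam h)
    (tens_eq_of_fam h)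
  exact ⟨γ, hγ, mem_K0_of_bas hb hb' γ hγ⟩

end Pool.Agent.Lib.MP_666dc0_nt.EP
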