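import Pool.Agent.Lib.MP_666dc0_nt.Mg.G061
import Pool.Agent.Lib.MP_666dc0_nt.EP.BV7

/-!
# EP, BW4: the cover has finitely many orbits
-/

open NumberField IsDedekindDomain Matrix
open scoped NumberField

namespace Pool.Agent.Lib.MP_666dc0_nt.EP

open WL

variable {F : Type} [Field F] [NumberField F] {n : ℕ} {D : Datum F n} {ℓ : ℕ}

theorem Level.eq_one_of_mem (L : Level D ℓ) {u : D.Ad} (hU : u ∈ L.U) (hK : u ∈ L.K) : u = 1 := by
  refine eq_one_of_trivialAt fun v => ?_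
  by_cases hv : (ℓ : 𝓞 F) ∈ v.asIdeal
  · exact L.tame u hU v hv
  · exact L.level.supp u hK v hv

theorem Level.mem_of_smul (L : Level D ℓ) {a : D.Rat × L.K} (g : D.Ad)
    (h : a • L.cls g = L.cls g) : (a.2 : D.Ad) * g⁻¹ * (D.toAd a.1)⁻¹ * g ∈ L.U := by
  have h1 : L.cls (D.toAd a.1 * g * (a.2 : D.Ad)⁻¹) = L.cls g := h
  have h2 : (D.toAd a.1 * g * (a.2 : D.Ad)⁻¹)⁻¹ * g ∈ L.U := QuotientGroup.eq.1 h1
  have e : (D.toAd a.1 * g * (a.2 : D.Ad)⁻¹)⁻¹ * g = (a.2 : D.Ad) * g⁻¹ * (D.toAd a.1)⁻¹ * g := by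
    group
  rwa [e] at h2

/-- An element of `G(F) × K` that fixes a point and has trivial component in `G(F)` is trivial. -/
theorem Level.eq_one_of_fst (L : Level D ℓ) {a : D.Rat × L.K} (y : L.X) (h1 : a.1 = 1)
    (h : a • y = y) : a = 1 := by
  obtain ⟨g, rfl⟩ : ∃ g, L.cls g = y := Quotient.exists_rep y
  have h2 := L.mem_of_smul g h
  rw [h1, map_one, inv_one, mul_one, inv_mul_cancel_right] at h2
  exact Prod.ext h1 (Subtype.ext (L.eq_one_of_mem h2 a.2.2))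

namespace Frame

variable (fr : Frame D) (L : Level D ℓ)

/-- Finitely many orbits. -/
theorem exists_orbits (hd : D.q.det ≠ 0) : ∃ s : Finset (Ix fr L), ∀ i, ∃ a : D.Rat × L.K,
    ∃ j ∈ s, i = a • j := by
  classical
  have hfin := fr.finite_data L hd
  obtain ⟨sK, hsK, hsK'⟩ := exists_finset_K0 (D := D) (L.U ⊔ L.K) L.level.isOpen
  -- a representative for every value of the data
  have hrep : ∀ t : hfin.toFinset, ∃ i : Ix fr L, t.1 = fam D i.b := by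
    intro t
    exact hfin.mem_toFinset.1 t.2
  choose rep hrep using hrep
  have hbas : ∀ t : hfin.toFinset, ∃ g : D.Ad, IsBas g (rep t).b := by
    intro t
    obtain ⟨g, -, hg⟩ := (rep t).bas
    exact ⟨g, hg⟩
  choose g₀ hg₀ using hbas
  have hK : ∀ (t : hfin.toFinset) (κ : sK), IsBas (g₀ t * κ.1) (rep t).b := by
    intro t κ
    refine ⟨(hg₀ t).li, ?_⟩
    rw [(hg₀ t).gen, lat_mul_K0 _ (hsK κ.1 κ.2)]
  let j : hfin.toFinset × sK → Ix fr L := fun p =>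
    ⟨L.cls (g₀ p.1 * p.2.1), (rep p.1).b, ⟨g₀ p.1 * p.2.1, ⟨1, one_mem _, by rw [mul_one]⟩,
      hK p.1 p.2⟩, (rep p.1).red⟩
  refine ⟨Finset.univ.image j, fun i => ?_⟩
  have hi : fam D i.b ∈ hfin.toFinset := hfin.mem_toFinset.2 ⟨i, rfl⟩
  obtain ⟨g, ⟨k, hk, hy⟩, hb⟩ := i.bas
  obtain ⟨γ, hγ, hγK⟩ := exists_rat_of_fam hd (hg₀ ⟨_, hi⟩) hb (hrep ⟨_, hi⟩).symm
  obtain ⟨κ', hκ', hκ⟩ := hsK' _ (inv_mem hγK)
  obtain ⟨u, hu, k', hk', e⟩ := (mem_sup_iff L.tame L.level.supp).1 hκ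
  refine ⟨(γ, ⟨(k' * k)⁻¹, inv_mem (mul_mem hk' hk)⟩), j (⟨_, hi⟩, ⟨κ', hκ'⟩),
    Finset.mem_image_of_mem _ (Finset.mem_univ _), ?_⟩
  have hgg : g = D.toAd γ * g₀ ⟨_, hi⟩ * κ' * (u * k') := by
    rw [← e]
    group
  refine Ix.ext ?_ (funext fun l => (hγ l).symm)
  change i.y = L.cls (D.toAd γ * (g₀ ⟨_, hi⟩ * κ') * ((k' * k)⁻¹)⁻¹)
  rw [hy, hgg, inv_inv]
  refine QuotientGroup.eq.2 ?_
  have e2 : (D.toAd γ * g₀ ⟨_, hi⟩ * κ' * (u * k') * k)⁻¹ *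
      (D.toAd γ * (g₀ ⟨_, hi⟩ * κ') * (k' * k)) = (u * (k' * k))⁻¹ * (k' * k) := by
    group
  rw [e2, L.comm hu (mul_mem hk' hk)]
  have e3 : (k' * k * u)⁻¹ * (k' * k) = u⁻¹ := by group
  rw [e3]
  exact inv_mem hu

/-- The action on the index set is free. -/
theorem free (a : D.Rat × L.K) (i : Ix fr L) (h : a • i = i) : a = 1 := by
  obtain ⟨g, -, hb⟩ := i.bas
  have h1 : ∀ j, a.1.1.1.mulVec (i.b j) = i.b j := fun j => by
    have h2 := congrArg (fun i : Ix fr L => i.b j) h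
    exact h2
  have h3 : Matrix.toLin' a.1.1.1 = Matrix.toLin' (1 : Matrix (Fin n) (Fin n) F) := by
    rw [Matrix.toLin'_one]
    refine LinearMap.ext_on hb.span ?_
    rintro _ ⟨j, rfl⟩
    rw [Matrix.toLin'_apply, h1, LinearMap.id_apply]
  have h4 : a.1.1.1 = 1 := Matrix.toLin'.injective h3
  refine L.eq_one_of_fst i.y (Subtype.ext (Units.ext h4)) ?_
  exact congrArg Ix.y h

end Frame

/-- Elements of finite order in the stabilisers are trivial. -/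
theorem Level.eq_one_of_pow (L : Level D ℓ)
    (htf : ∀ (g : D.Ad), ∀ γ ∈ L.arith g, ∀ k : ℕ, 0 < k → γ ^ k = 1 → γ = 1)
    (a : D.Rat × L.K) (y : L.X) (k : ℕ) (hk : 0 < k) (h : a ^ k = 1) (hy : a • y = y) :
    a = 1 := by
  obtain ⟨g, rfl⟩ : ∃ g, L.cls g = y := Quotient.exists_rep y
  have h1 := L.mem_of_smul g hy
  refine L.eq_one_of_fst (L.cls g) (htf g a.1 ?_ k hk ?_) hy
  · change g⁻¹ * D.toAd a.1 * (g⁻¹)⁻¹ ∈ L.U ⊔ L.K
    have h2 : g⁻¹ * D.toAd a.1 * (g⁻¹)⁻¹ =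
        ((a.2 : D.Ad) * g⁻¹ * (D.toAd a.1)⁻¹ * g)⁻¹ * (a.2 : D.Ad) := by group
    rw [h2]
    exact mul_mem (inv_mem (Subgroup.mem_sup_left h1)) (Subgroup.mem_sup_right a.2.2)
  · exact congrArg Prod.fst h

end Pool.Agent.Lib.MP_666dc0_nt.EP
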