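import Pool.Agent.Lib.MP_666dc0_nt.EP.BV0
import Pool.Agent.Lib.MP_666dc0_nt.Mg.G004

/-!
# EP, BV1: duality for the lattices (non-degenerate form, any number field)

Template: WL/A2f.lean (the same statements for a positive definite form). There positivity is used
only to see that `q` is invertible and that `z ↦ Tr q(z, ·)` is injective.
-/

open NumberField IsDedekindDomain
open scoped NumberField

namespace Pool.Agent.Lib.MP_666dc0_nt.EP

open WL

variable {F : Type} [Field F] [NumberField F] {n : ℕ} {D : Datum F n}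

private theorem BV1_qf_add_left {R : Type} [CommRing R] (φ : F →+* R) (x x' y : Fin n → R) :
    qf D φ (x + x') y = qf D φ x y + qf D φ x' y := add_dotProduct _ _ _

private theorem BV1_qf_add_right {R : Type} [CommRing R] (φ : F →+* R) (x y y' : Fin n → R) :
    qf D φ x (y + y') = qf D φ x y + qf D φ x y' := by
  unfold qf
  rw [Matrix.mulVec_add, dotProduct_add]

private theorem BV1_qf_smul_left {R : Type} [CommRing R] (φ : F →+* R) (c : R)
    (x y : Fin n → R) : qf D φ (c • x) y = c * qf D φ x y := by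
  unfold qf
  rw [smul_dotProduct, smul_eq_mul]

private theorem BV1_qf_smul_right {R : Type} [CommRing R] (φ : F →+* R) (c : R)
    (x y : Fin n → R) : qf D φ x (c • y) = c * qf D φ x y := by
  unfold qf
  rw [Matrix.mulVec_smul, dotProduct_smul, smul_eq_mul]

private theorem BV1_rat_smul (c : ℚ) (x : Fin n → F) : c • x = (algebraMap ℚ F c) • x := by
  funext k
  simp only [Pi.smul_apply, smul_eq_mul]
  exact Algebra.smul_def c (x k)

private theorem BV1_isUnit {V : Type} [AddCommGroup V] [Module ℚ V]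
    (s : nonZeroDivisors ℤ) : IsUnit (algebraMap ℤ (Module.End ℤ V) s) := by
  rw [Module.End.isUnit_iff]
  have hs : ((s : ℤ) : ℚ) ≠ 0 := by
    exact_mod_cast nonZeroDivisors.coe_ne_zero s
  have hsm : ∀ v : V, (algebraMap ℤ (Module.End ℤ V) s) v = ((s : ℤ) : ℚ) • v := by
    intro v
    rw [Module.algebraMap_end_apply]
    exact (Int.cast_smul_eq_zsmul ℚ (s : ℤ) v).symm
  constructor
  · intro v w hvw
    rw [hsm, hsm] at hvw
    exact smul_right_injective V hs hvw
  · intro v
    refine ⟨((s : ℤ) : ℚ)⁻¹ • v, ?_⟩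
    rw [hsm, smul_smul, mul_inv_cancel₀ hs, one_smul]

private theorem BV1_fam {ι : Type} [Fintype ι] (a : ι → FiniteAdeleRing (𝓞 F) F) :
    ∃ m : ℕ, 0 < m ∧ ∀ i, (m : FiniteAdeleRing (𝓞 F) F) * a i ∈ Ohat F := by
  classical
  choose m hm hm' using fun i => exists_mul_mem_Ohat F (a i)
  refine ⟨∏ i, m i, Finset.prod_pos fun i _ => hm i, fun i => ?_⟩
  rw [← Finset.mul_prod_erase Finset.univ m (Finset.mem_univ i), Nat.cast_mul,
    mul_comm (m i : FiniteAdeleRing (𝓞 F) F), mul_assoc]
  exact mul_mem (natCast_mem _ _) (hm' i)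

private theorem BV1_famF {ι : Type} [Fintype ι] (a : ι → F) :
    ∃ m : ℕ, 0 < m ∧ ∀ i, IsIntegral ℤ ((m : F) * a i) := by
  obtain ⟨m, hm, h⟩ := BV1_fam (fun i => algebraMap F (FiniteAdeleRing (𝓞 F) F) (a i))
  refine ⟨m, hm, fun i => ?_⟩
  rw [← algebraMap_mem_Ohat, map_mul, map_natCast]
  exact h i

private theorem BV1_extend (g : D.Ad) (f : lat g →+ ℤ) :
    ∃ h : (Fin n → F) →ₗ[ℚ] ℚ, ∀ x : lat g, h x = ((f x : ℤ) : ℚ) := by
  obtain ⟨m, hm, -, hm2⟩ := exists_den_lat g
  haveI : IsLocalizedModule (nonZeroDivisors ℤ) (lat g).subtype.toIntLinearMap := by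
    refine ⟨fun s => BV1_isUnit s, fun y => ?_, fun {x₁ x₂} h => ⟨1, ?_⟩⟩
    · obtain ⟨N, hN, hN'⟩ := BV1_famF (F := F) y
      have h1 := hm2 (fun k => (N : F) * y k) hN'
      refine ⟨(⟨_, h1⟩, ⟨((m * N : ℕ) : ℤ), ?_⟩), ?_⟩
      · rw [mem_nonZeroDivisors_iff_ne_zero]
        exact_mod_cast (Nat.mul_pos hm hN).ne'
      · funext k
        show (((m * N : ℕ) : ℤ) • y) k = (m : F) * ((N : F) * y k)
        rw [Pi.smul_apply, zsmul_eq_mul]
        push_cast
        ring
    · rw [one_smul, one_smul]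
      exact Subtype.ext h
  let f' : lat g →ₗ[ℤ] ℚ := ((Int.castAddHom ℚ).comp f).toIntLinearMap
  let h := IsLocalizedModule.lift (nonZeroDivisors ℤ) (lat g).subtype.toIntLinearMap f'
    (fun s => BV1_isUnit s)
  refine ⟨h.toAddMonoidHom.toRatLinearMap, fun x => ?_⟩
  exact IsLocalizedModule.lift_apply (nonZeroDivisors ℤ) (lat g).subtype.toIntLinearMap f'
    (fun s => BV1_isUnit s) x

private theorem BV1_qf_sum_right {R : Type} [CommRing R] (φ : F →+* R) (x : Fin n → R)
    {ι : Type} (s : Finset ι) (y : ι → Fin n → R) :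
    qf D φ x (∑ l ∈ s, y l) = ∑ l ∈ s, qf D φ x (y l) := by
  unfold qf
  rw [Matrix.mulVec_sum, dotProduct_sum]

omit [NumberField F] in
theorem qf_nondeg (hd : D.q.det ≠ 0) (z : Fin n → F)
    (h : ∀ x, qf D (RingHom.id F) z x = 0) : z = 0 := by
  have hid : D.q.map (RingHom.id F) = D.q := by
    ext i j
    rfl
  apply Matrix.eq_zero_of_vecMul_eq_zero hd
  apply dotProduct_eq_zero
  intro x
  have h1 := h x
  unfold qf at h1
  rw [hid, Matrix.dotProduct_mulVec] at h1
  exact h1

omit [NumberField F] in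
theorem qf_nondeg_right (hd : D.q.det ≠ 0) (x : Fin n → F)
    (h : ∀ z, qf D (RingHom.id F) z x = 0) : x = 0 := by
  have hid : D.q.map (RingHom.id F) = D.q := by
    ext i j
    rfl
  apply Matrix.eq_zero_of_mulVec_eq_zero hd
  apply dotProduct_eq_zero
  intro z
  have h1 := h z
  unfold qf at h1
  rw [hid] at h1
  rw [dotProduct_comm]
  exact h1

/-- Proof: `β qf z x = qf z (β x)`, so all the traces `Tr (β qf z x)` are zero; the trace form of
`F/ℚ` is non-degenerate (`traceForm_nondegenerate`), so `qf z x = 0`. -/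
theorem trace_qf_nondeg (hd : D.q.det ≠ 0) (z : Fin n → F)
    (h : ∀ x, Algebra.trace ℚ F (qf D (RingHom.id F) z x) = 0) : z = 0 := by
  apply qf_nondeg hd z
  intro x
  by_contra hc
  have h1 := h ((qf D (RingHom.id F) z x)⁻¹ • x)
  rw [BV1_qf_smul_right, inv_mul_cancel₀ hc] at h1
  have h2 : Algebra.trace ℚ F (1 : F) = Module.finrank ℚ F := by
    have h3 := Algebra.trace_algebraMap (R := ℚ) (S := F) (1 : ℚ)
    rw [map_one] at h3
    rw [h3, nsmul_eq_mul, mul_one]
  rw [h2] at h1
  have h4 : Module.finrank ℚ F ≠ 0 := Module.finrank_pos.ne'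
  exact h4 (by exact_mod_cast h1)

/-- Functionals on the lattice are given by vectors. Proof: as in WL/A2f.lean. -/
theorem exists_functional_vec' (hd : D.q.det ≠ 0) (g : D.Ad) (f : lat g →+ ℤ) :
    ∃ z : Fin n → F, ∀ x : lat g,
      ((f x : ℤ) : ℚ) = Algebra.trace ℚ F (qf D (RingHom.id F) z x) := by
  classical
  -- the bilinear form
  let B : (Fin n → F) →ₗ[ℚ] (Fin n → F) →ₗ[ℚ] ℚ :=
    LinearMap.mk₂ ℚ (fun z x => Algebra.trace ℚ F (qf D (RingHom.id F) z x))
      (fun x x' y => by rw [BV1_qf_add_left, map_add])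
      (fun c x y => by
        rw [BV1_rat_smul, BV1_qf_smul_left, ← Algebra.smul_def, map_smul])
      (fun x y y' => by rw [BV1_qf_add_right, map_add])
      (fun c x y => by
        rw [BV1_rat_smul, BV1_qf_smul_right, ← Algebra.smul_def, map_smul])
  have hB : ∀ z x, B z x = Algebra.trace ℚ F (qf D (RingHom.id F) z x) := fun z x => rfl
  have hinj : Function.Injective B := by
    rw [injective_iff_map_eq_zero]
    intro z hz
    apply trace_qf_nondeg hd z
    intro x
    rw [← hB, hz]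
    rfl
  have hsurj : Function.Surjective B := by
    refine (LinearMap.injective_iff_surjective_of_finrank_eq_finrank ?_).1 hinj
    exact (Subspace.dual_finrank_eq (K := ℚ) (V := Fin n → F)).symm
  obtain ⟨h, hh⟩ := BV1_extend g f
  obtain ⟨z, hz⟩ := hsurj h
  refine ⟨z, fun x => ?_⟩
  rw [← hB, hz, hh]

/-- The dual lattice is contained in a fixed multiple of the lattice.
Proof: as in WL/A2f.lean (`exists_dual_den`). -/
theorem exists_dual_den' (hd : D.q.det ≠ 0) : ∃ c : ℕ, 0 < c ∧
    ∀ (g : D.Ad) (z : Fin n → F),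
      (∀ x ∈ lat g, ∃ m : ℤ, Algebra.trace ℚ F (qf D (RingHom.id F) z x) = m) →
      (fun k => (c : F) * z k) ∈ lat g := by
  classical
  obtain ⟨c₀, hc₀, hc₀'⟩ := exists_den_different (F := F)
  have hdet : D.q.det ≠ 0 := hd
  have hqq : D.q * D.q⁻¹ = 1 := Matrix.mul_nonsing_inv _ (isUnit_iff_ne_zero.2 hdet)
  obtain ⟨c₁, hc₁, hc₁'⟩ := BV1_famF (F := F) (fun p : Fin n × Fin n => D.q⁻¹ p.1 p.2)
  refine ⟨c₀ * c₁, Nat.mul_pos hc₀ hc₁, fun g z hz => ?_⟩
  set A := FiniteAdeleRing (𝓞 F) F with hA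
  set φ := algebraMap F A with hφ
  set L : (Fin n → A) → A := fun y => qf D φ (av z) ((mat g).mulVec y) with hL
  -- step 1
  have s1 : ∀ x ∈ lat g, IsIntegral ℤ ((c₀ : F) * qf D (RingHom.id F) z x) := by
    intro x hx
    refine hc₀' _ fun β hβ => ?_
    obtain ⟨m, hm⟩ := hz (β • x) (smul_mem_lat g β hβ hx)
    refine ⟨m, ?_⟩
    rw [← hm, BV1_qf_smul_right, mul_comm]
  -- step 2
  have s2 : ∀ j, (c₀ : A) * L (Pi.single j 1) ∈ Ohat F := by
    intro j
    obtain ⟨M, hM, hM'⟩ := BV1_fam (F := F) (fun l : Fin n => L (Pi.single l 1))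
    obtain ⟨x, hx, u, hu, hxu⟩ := exists_lat_approx g (Pi.single j 1)
      (fun k => by
        by_cases h : k = j
        · subst h
          rw [Pi.single_eq_same]
          exact one_mem _
        · rw [Pi.single_eq_of_ne h]
          exact zero_mem _) M hM
    have e1 : qf D φ (av z) (av x) = L (Pi.single j 1) + (M : A) * L u := by
      rw [hxu]
      simp only [hL]
      rw [Matrix.mulVec_add, BV1_qf_add_right, Matrix.mulVec_smul, BV1_qf_smul_right]
    have e2 : φ (qf D (RingHom.id F) z x) = qf D φ (av z) (av x) :=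
      (qf_map (D := D) (RingHom.id F) φ z x).symm
    have e3 : (M : A) * L u ∈ Ohat F := by
      have h1 : L u = ∑ l, u l * L (Pi.single l 1) := by
        have h2 : u = ∑ l, u l • (Pi.single l (1 : A) : Fin n → A) := by
          funext k
          simp [Finset.sum_apply, Pi.single_apply]
        calc L u = L (∑ l, u l • (Pi.single l (1 : A) : Fin n → A)) := by rw [← h2]
          _ = ∑ l, L (u l • (Pi.single l (1 : A) : Fin n → A)) := by
            simp only [hL]
            rw [Matrix.mulVec_sum, BV1_qf_sum_right]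
          _ = _ := by
            refine Finset.sum_congr rfl fun l _ => ?_
            simp only [hL]
            rw [Matrix.mulVec_smul, BV1_qf_smul_right]
      rw [h1, Finset.mul_sum]
      refine sum_mem fun l _ => ?_
      rw [mul_left_comm]
      exact mul_mem (hu l) (hM' l)
    have e4 : (c₀ : A) * L (Pi.single j 1) =
        φ ((c₀ : F) * qf D (RingHom.id F) z x) - (c₀ : A) * ((M : A) * L u) := by
      rw [map_mul, map_natCast, e2, e1]
      ring
    rw [e4]
    exact sub_mem ((algebraMap_mem_Ohat F _).2 (s1 x hx)) (mul_mem (natCast_mem _ _) e3)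
  -- step 3
  intro i
  set x' : Fin n → A := (mat g⁻¹).mulVec (av z) with hx'
  have t1 : (mat g⁻¹).mulVec (av fun k => ((c₀ * c₁ : ℕ) : F) * z k) i =
      (c₀ : A) * (c₁ : A) * x' i := by
    have : (av fun k => ((c₀ * c₁ : ℕ) : F) * z k) = ((c₀ : A) * (c₁ : A)) • av z := by
      funext k
      simp only [av, Pi.smul_apply, smul_eq_mul, map_mul, map_natCast, Nat.cast_mul]
    rw [this, Matrix.mulVec_smul, Pi.smul_apply, smul_eq_mul]
  rw [t1]
  have t2 : ∀ j, L (Pi.single j 1) = Matrix.vecMul x' (D.q.map φ) j := by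
    intro j
    have h1 : (mat g).mulVec x' = av z := by
      rw [hx', Matrix.mulVec_mulVec, mat_mul_inv, Matrix.one_mulVec]
    simp only [hL]
    conv_lhs => rw [← h1]
    have h2 := qf_mulVec (D := D) φ g x' (Pi.single j 1)
    refine h2.trans ?_
    unfold qf
    rw [Matrix.dotProduct_mulVec, dotProduct_single, mul_one]
  have t3 : x' = Matrix.vecMul (Matrix.vecMul x' (D.q.map φ)) ((D.q⁻¹).map φ) := by
    rw [Matrix.vecMul_vecMul, ← Matrix.map_mul, hqq, Matrix.map_one _ (map_zero _) (map_one _),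
      Matrix.vecMul_one]
  have t4 : (c₀ : A) * (c₁ : A) * x' i =
      ∑ j, ((c₀ : A) * L (Pi.single j 1)) * φ ((c₁ : F) * D.q⁻¹ j i) := by
    conv_lhs => rw [t3]
    rw [Matrix.vecMul, dotProduct, Finset.mul_sum]
    refine Finset.sum_congr rfl fun j _ => ?_
    rw [t2, Matrix.map_apply, map_mul, map_natCast]
    ring
  rw [t4]
  exact sum_mem fun j _ => mul_mem (s2 j) ((algebraMap_mem_Ohat F _).2 (hc₁' (j, i)))

end Pool.Agent.Lib.MP_666dc0_nt.EP
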