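import Pool.Agent.Lib.MP_666dc0_nt.EP.BW0
import Pool.Agent.Lib.MP_666dc0_nt.EP.BV1

/-!
# EP, BW5: the forms of a datum with non-degenerate bilinear form
-/

open NumberField IsDedekindDomain Matrix
open scoped NumberField

namespace Pool.Agent.Lib.MP_666dc0_nt.EP

open WL

private theorem BW5_sum {N : ℕ} (z : Matrix (Fin N) (Fin N) ℝ) (v : (Fin 2 → Fin N) → ℝ)
    (J : Fin 2 → Fin N) :
    ∑ J' : Fin 2 → Fin N, (∏ t, z (J' t) (J t)) * v J' =
      (zᵀ * (Matrix.of fun k l => v ![k, l]) * z) (J 0) (J 1) := by
  rw [← (finTwoArrowEquiv (Fin N)).symm.sum_comp, Fintype.sum_prod_type]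
  simp only [Matrix.mul_apply, Matrix.transpose_apply, Matrix.of_apply, finTwoArrowEquiv_symm_apply,
    Fin.prod_univ_two, Matrix.cons_val_zero, Matrix.cons_val_one, Finset.sum_mul]
  rw [Finset.sum_comm]
  refine Finset.sum_congr rfl fun l _ => Finset.sum_congr rfl fun k _ => ?_
  ring

variable {F : Type} [Field F] [NumberField F] {n : ℕ} {D : Datum F n}

/-- The Gram matrix of the form `Tr (a q)`. -/
noncomputable def mq (D : Datum F n) (a : F) : Matrix (Fin (rk F n)) (Fin (rk F n)) ℚ :=
  fun i j => Algebra.trace ℚ F (a * qf D (RingHom.id F) (stdB F n i) (stdB F n j))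

private theorem BW5_rat_smul (c : ℚ) (x : Fin n → F) : c • x = (algebraMap ℚ F c) • x := by
  funext k
  simp only [Pi.smul_apply, smul_eq_mul]
  exact Algebra.smul_def c (x k)

omit [NumberField F] in
private theorem BW5_add (x y z : Fin n → F) :
    qf D (RingHom.id F) (x + y) z = qf D (RingHom.id F) x z + qf D (RingHom.id F) y z :=
  add_dotProduct _ _ _

omit [NumberField F] in
private theorem BW5_smul (c : F) (x y : Fin n → F) :
    qf D (RingHom.id F) (c • x) y = c * qf D (RingHom.id F) x y := by
  unfold qf
  rw [smul_dotProduct, smul_eq_mul]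

omit [NumberField F] in
private theorem BW5_add' (x y z : Fin n → F) :
    qf D (RingHom.id F) x (y + z) = qf D (RingHom.id F) x y + qf D (RingHom.id F) x z := by
  unfold qf
  rw [Matrix.mulVec_add, dotProduct_add]

omit [NumberField F] in
private theorem BW5_smul' (c : F) (x y : Fin n → F) :
    qf D (RingHom.id F) x (c • y) = c * qf D (RingHom.id F) x y := by
  unfold qf
  rw [Matrix.mulVec_smul, dotProduct_smul, smul_eq_mul]

theorem det_mq (hd : D.q.det ≠ 0) {a : F} (ha : a ≠ 0) : (mq D a).det ≠ 0 := by
  intro h0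
  obtain ⟨c, hc, hc'⟩ := Matrix.exists_vecMul_eq_zero_iff.2 h0
  let z : Fin n → F := ∑ i, c i • stdB F n i
  have hz : z = 0 := by
    have h1 : a • z = 0 := by
      refine trace_qf_nondeg hd _ fun x => ?_
      let f : (Fin n → F) →ₗ[ℚ] ℚ :=
        { toFun := fun x => Algebra.trace ℚ F (qf D (RingHom.id F) (a • z) x)
          map_add' := fun x y => by rw [BW5_add', map_add]
          map_smul' := fun c x => by
            rw [BW5_rat_smul, BW5_smul', ← Algebra.smul_def, map_smul, RingHom.id_apply] }
      have hf : f = 0 := by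
        refine (stdB F n).ext fun j => ?_
        change Algebra.trace ℚ F (qf D (RingHom.id F) (a • z) (stdB F n j)) = 0
        have h2 := congrFun hc' j
        rw [Matrix.vecMul, dotProduct] at h2
        rw [Pi.zero_apply] at h2
        rw [← h2]
        let f' : (Fin n → F) →ₗ[ℚ] ℚ :=
          { toFun := fun x => Algebra.trace ℚ F (qf D (RingHom.id F) (a • x) (stdB F n j))
            map_add' := fun x y => by rw [smul_add, BW5_add, map_add]
            map_smul' := fun c x => by
              rw [BW5_rat_smul, smul_comm, BW5_smul, ← Algebra.smul_def, map_smul,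
                RingHom.id_apply] }
        change f' z = _
        simp only [z, map_sum, map_smul, smul_eq_mul]
        refine Finset.sum_congr rfl fun i _ => ?_
        congr 1
        change Algebra.trace ℚ F (qf D (RingHom.id F) (a • stdB F n i) (stdB F n j)) = _
        rw [BW5_smul]
        rfl
      exact LinearMap.congr_fun hf x
    rcases smul_eq_zero.1 h1 with h | h
    · exact absurd h ha
    · exact h
  have h3 := Fintype.linearIndependent_iff.1 (stdB F n).linearIndependent c hz
  exact hc (funext h3)

/-- The forms of a datum with non-degenerate bilinear form are as required in reduction theory, if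
their orbit is closed. -/
theorem isRed_uR (hd : D.q.det ≠ 0) (hc : ClosedOrbitQ D) : RT.IsRed (uR D) := by
  obtain ⟨k₀⟩ : Nonempty (Module.Free.ChooseBasisIndex ℤ (𝓞 F)) := by
    by_contra h
    rw [not_nonempty_iff] at h
    have h1 := Module.finrank_eq_card_basis (integralBasis F)
    rw [Fintype.card_eq_zero] at h1
    exact (Module.finrank_pos (R := ℚ) (M := F)).ne' h1
  have ha : integralBasis F k₀ ≠ 0 := (integralBasis F).ne_zero k₀
  set M : Matrix (Fin (rk F n)) (Fin (rk F n)) ℝ := qR (mq D (integralBasis F k₀)) with hM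
  have hMdet : M.det ≠ 0 := by
    have h1 : M.det = (((mq D (integralBasis F k₀)).det : ℚ) : ℝ) :=
      (RingHom.map_det (Rat.castHom ℝ) _).symm
    rw [h1]
    exact_mod_cast det_mq hd ha
  have hu : ∀ i j, uR D (k₀, none) (![i, j] : Fin 2 → Fin (rk F n)) = M i j := fun i j => rfl
  have hact : ∀ (z : Matrix (Fin (rk F n)) (Fin (rk F n)) ℝ) i j,
      RT.act z (uR D) (k₀, none) (![i, j] : Fin 2 → Fin (rk F n)) = (zᵀ * M * z) i j := by
    intro z i j
    exact BW5_sum z (fun J => uR D (k₀, none) J) ![i, j]
  refine ⟨hc, fun z hz => ?_, fun B => ?_⟩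
  · have h1 : zᵀ * M * z = M := by
      ext i j
      rw [← hact, hz, hu]
    have h2 := congrArg Matrix.det h1
    rw [Matrix.det_mul, Matrix.det_mul, Matrix.det_transpose] at h2
    have h3 : z.det * z.det = 1 := by
      have h4 : (z.det * z.det - 1) * M.det = 0 := by linear_combination h2
      rcases mul_eq_zero.1 h4 with h | h
      · linarith
      · exact absurd h hMdet
    rw [← abs_mul_abs_self] at h3
    nlinarith [abs_nonneg z.det]
  · refine ⟨(Nat.factorial (rk F n) • (B + 1) ^ rk F n) / |M.det| + 1, fun z hz => ?_⟩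
    have h1 : ∀ i j, |(zᵀ * M * z) i j| ≤ B + 1 := by
      intro i j
      rw [← hact]
      exact RT.abs_le_of_nsq_le hz _ _
    have h2 := Matrix.det_le (A := zᵀ * M * z) (abv := AbsoluteValue.abs) (x := B + 1) h1
    rw [Fintype.card_fin, AbsoluteValue.abs_apply, Matrix.det_mul, Matrix.det_mul,
      Matrix.det_transpose] at h2
    have h3 : |z.det * M.det * z.det| = |z.det| * |z.det| * |M.det| := by
      rw [abs_mul, abs_mul]
      ring
    rw [h3] at h2
    have h4 : |z.det| * |z.det| ≤ (Nat.factorial (rk F n) • (B + 1) ^ rk F n) / |M.det| := by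
      rw [le_div_iff₀ (abs_pos.2 hMdet)]
      exact h2
    nlinarith [abs_nonneg z.det, sq_nonneg (|z.det| - 1)]

end Pool.Agent.Lib.MP_666dc0_nt.EP
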