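import Pool.Agent.Lib.MP_666dc0_nt.EP.BX2
import Pool.Agent.Lib.MP_666dc0_nt.RT.Base

/-!
# EP, BX3: the forms over `F ⊗ ℝ`
-/

open NumberField
open scoped NumberField

namespace Pool.Agent.Lib.MP_666dc0_nt.EP

open WL

variable {F : Type} [Field F] [NumberField F] {n : ℕ} {D : Datum F n}

private theorem bx3_mulVec_comb {R : Type} [CommRing R] {N : ℕ} (M : Matrix (Fin n) (Fin n) R)
    (b : Fin N → Fin n → R) (c : Fin N → R) :
    M.mulVec (∑ i, c i • b i) = ∑ i, c i • M.mulVec (b i) := by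
  rw [Matrix.mulVec_sum]
  exact Finset.sum_congr rfl fun i _ => Matrix.mulVec_smul _ _ _

private theorem bx3_comb {R : Type} [CommRing R] {d N : ℕ} (q : Matrix (Fin n) (Fin n) R)
    (w : (Fin d → Fin n) → R) (c : Fin d → Fin N → R) (b : Fin N → Fin n → R) :
    ∑ J : Fin d → Fin n, w J * ∏ t, q.mulVec (∑ j, c t j • b j) (J t) =
      ∑ I : Fin d → Fin N, (∏ t, c t (I t)) *
        ∑ J : Fin d → Fin n, w J * ∏ t, q.mulVec (b (I t)) (J t) := by
  have h1 : ∀ J : Fin d → Fin n,
      ∏ t, q.mulVec (∑ i, c t i • b i) (J t) =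
      ∑ I : Fin d → Fin N, ∏ t, (c t (I t) * q.mulVec (b (I t)) (J t)) := by
    intro J
    have h2 : ∀ t, q.mulVec (∑ i, c t i • b i) (J t) =
        ∑ i, c t i * q.mulVec (b i) (J t) := by
      intro t
      rw [bx3_mulVec_comb, Finset.sum_apply]
      rfl
    simp only [h2]
    rw [Finset.prod_univ_sum]
    simp only [Fintype.piFinset_univ]
  simp only [h1, Finset.mul_sum]
  rw [Finset.sum_comm]
  refine Finset.sum_congr rfl fun I _ => ?_
  refine Finset.sum_congr rfl fun J _ => ?_
  rw [Finset.prod_mul_distrib]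
  ring

private theorem bx3_act {R : Type} [CommRing R] {d : ℕ} (q : Matrix (Fin n) (Fin n) R)
    (w w' : (Fin d → Fin n) → R) (H : Matrix (Fin n) (Fin n) R) (hw : tensAct H w' = w)
    (y : Fin d → Fin n → R) :
    ∑ J : Fin d → Fin n, w' J * ∏ t, (H.transpose * q * H).mulVec (y t) (J t) =
      ∑ I : Fin d → Fin n, w I * ∏ t, q.mulVec (H.mulVec (y t)) (I t) := by
  have h1 : ∀ J : Fin d → Fin n, ∏ t, (H.transpose * q * H).mulVec (y t) (J t) =
      ∑ I : Fin d → Fin n, ∏ t, (H (I t) (J t) * q.mulVec (H.mulVec (y t)) (I t)) := by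
    intro J
    have h2 : ∀ t, (H.transpose * q * H).mulVec (y t) (J t) =
        ∑ i, H i (J t) * q.mulVec (H.mulVec (y t)) i := by
      intro t
      rw [← Matrix.mulVec_mulVec, ← Matrix.mulVec_mulVec]
      rfl
    simp only [h2]
    rw [Finset.prod_univ_sum]
    simp only [Fintype.piFinset_univ]
  have h3 : ∀ I : Fin d → Fin n, w I =
      ∑ J : Fin d → Fin n, (∏ t, H (I t) (J t)) * w' J := by
    intro I
    rw [← hw]
    rfl
  simp only [h1, h3, Finset.mul_sum, Finset.sum_mul]
  rw [Finset.sum_comm]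
  refine Finset.sum_congr rfl fun I _ => ?_
  refine Finset.sum_congr rfl fun J _ => ?_
  rw [Finset.prod_mul_distrib]
  ring

omit [NumberField F] in
private theorem bx3_map_mulVec {R : Type} [CommRing R] (φ : F →+* R)
    (M : Matrix (Fin n) (Fin n) F) (v : Fin n → F) (i : Fin n) :
    φ (M.mulVec v i) = (M.map φ).mulVec (fun m => φ (v m)) i := by
  simp only [Matrix.mulVec, dotProduct, map_sum, map_mul, Matrix.map_apply]

theorem fE_vE (s : Option (Fin D.m)) (y : Fin (fdeg D s) → Fin n → F) :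
    fE D (qE D) (wE D) s (fun t => vE (y t)) = mix F (fval D s y) := by
  cases s with
  | none =>
    show vE (y (0 : Fin 2)) ⬝ᵥ (qE D).mulVec (vE (y (1 : Fin 2))) =
      mix F (y (0 : Fin 2) ⬝ᵥ (D.q.map (RingHom.id F)).mulVec (y (1 : Fin 2)))
    simp only [dotProduct, map_sum, map_mul]
    refine Finset.sum_congr rfl fun i _ => ?_
    rw [bx3_map_mulVec]
    rfl
  | some s =>
    show ∑ J, wE D s J * ∏ t, (qE D).mulVec (vE (y t)) (J t) =
      mix F (∑ J : Fin (D.deg s) → Fin n, (RingHom.id F) (D.w s J) *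
        ∏ t, (D.q.map (RingHom.id F)).mulVec (y t) (J t))
    rw [map_sum]
    refine Finset.sum_congr rfl fun J _ => ?_
    rw [map_mul, map_prod]
    refine congrArg₂ (· * ·) rfl (Finset.prod_congr rfl fun t _ => ?_)
    rw [bx3_map_mulVec]
    rfl

/-- Multilinearity over `F ⊗ ℝ`. Proof: for `none`: the form is bilinear, and the sum over
`Fin 2 → Fin N` is a double sum (compare BV4.lean, `fam_bh`); for `some s`:
`Finset.prod_univ_sum`, `Fintype.piFinset_univ`, `Finset.sum_comm` (as in `fam_bh`). -/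
theorem fE_sum (q : Matrix (Fin n) (Fin n) (EE F)) (w : ∀ i, (Fin (D.deg i) → Fin n) → EE F)
    (s : Option (Fin D.m)) {N : ℕ} (c : Fin (fdeg D s) → Fin N → EE F) (b : Fin N → Fin n → EE F) :
    fE D q w s (fun t => ∑ j, c t j • b j) =
      ∑ J : Fin (fdeg D s) → Fin N, (∏ t, c t (J t)) * fE D q w s (fun t => b (J t)) := by
  cases s with
  | none =>
    have hL : fE D q w none (fun t => ∑ j, c t j • b j) =
        ∑ i, ∑ j, (c (0 : Fin 2) i * c (1 : Fin 2) j) * (b i ⬝ᵥ q.mulVec (b j)) := by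
      show (∑ i, c (0 : Fin 2) i • b i) ⬝ᵥ q.mulVec (∑ i, c (1 : Fin 2) i • b i) = _
      rw [bx3_mulVec_comb, sum_dotProduct]
      refine Finset.sum_congr rfl fun i _ => ?_
      rw [dotProduct_sum]
      refine Finset.sum_congr rfl fun j _ => ?_
      rw [smul_dotProduct, dotProduct_smul, smul_eq_mul, smul_eq_mul, mul_assoc]
    rw [hL, ← Fintype.sum_prod_type']
    symm
    refine Fintype.sum_equiv (finTwoArrowEquiv (Fin N)) _ _ fun I => ?_
    have h2 : ∏ t : Fin 2, c t (I t) = c (0 : Fin 2) (I 0) * c (1 : Fin 2) (I 1) :=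
      Fin.prod_univ_two _
    exact congrArg (· * (b (I 0) ⬝ᵥ q.mulVec (b (I 1)))) h2
  | some s =>
    exact bx3_comb q (w s) c b

/-- Multilinearity over `ℝ`. Proof: `fE_sum` for `algebraMap ℝ (EE F) (c t j)`. -/
theorem fE_sum_real (q : Matrix (Fin n) (Fin n) (EE F)) (w : ∀ i, (Fin (D.deg i) → Fin n) → EE F)
    (s : Option (Fin D.m)) {N : ℕ} (c : Fin (fdeg D s) → Fin N → ℝ) (b : Fin N → Fin n → EE F) :
    fE D q w s (fun t => ∑ j, c t j • b j) =
      ∑ J : Fin (fdeg D s) → Fin N, (∏ t, c t (J t)) • fE D q w s (fun t => b (J t)) := by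
  have h1 : (fun t => ∑ j, c t j • b j) =
      fun t : Fin (fdeg D s) => ∑ j, (algebraMap ℝ (EE F) (c t j)) • b j := by
    funext t
    refine Finset.sum_congr rfl fun j _ => ?_
    funext m
    exact Algebra.smul_def (c t j) (b j m)
  rw [h1, fE_sum q w s (fun t j => algebraMap ℝ (EE F) (c t j))]
  refine Finset.sum_congr rfl fun J _ => ?_
  rw [← map_prod, ← Algebra.smul_def]

/-- Proof: `(Hᵀ q H) y = Hᵀ (q (H y))`; for `some s` expand the products
`∏ t, (Hᵀ (q H y_t)) (I t) = ∑ K, ∏ t, H (K t) (I t) * (q H y_t) (K t)` and exchange the sums. -/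
theorem fE_act {q q' : Matrix (Fin n) (Fin n) (EE F)} {w w' : ∀ i, (Fin (D.deg i) → Fin n) → EE F}
    {H : Matrix (Fin n) (Fin n) (EE F)} (hq : q' = H.transpose * q * H)
    (hw : ∀ i, tensAct H (w' i) = w i) (s : Option (Fin D.m)) (y : Fin (fdeg D s) → Fin n → EE F) :
    fE D q' w' s y = fE D q w s (fun t => H.mulVec (y t)) := by
  cases s with
  | none =>
    show y (0 : Fin 2) ⬝ᵥ q'.mulVec (y (1 : Fin 2)) =
      H.mulVec (y (0 : Fin 2)) ⬝ᵥ q.mulVec (H.mulVec (y (1 : Fin 2)))
    rw [hq, ← Matrix.mulVec_mulVec, ← Matrix.mulVec_mulVec, Matrix.dotProduct_mulVec,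
      Matrix.vecMul_transpose]
  | some s =>
    subst hq
    exact bx3_act q (w s) (w' s) H (hw s) y

/-- The tensors are determined by the forms. Proof: `q (Q e_{K t}) = e_{K t}`. -/
theorem tensor_eq {q Q : Matrix (Fin n) (Fin n) (EE F)} (hQ : q * Q = 1)
    (w : ∀ i, (Fin (D.deg i) → Fin n) → EE F) (i : Fin D.m) (K : Fin (D.deg i) → Fin n) :
    w i K = ∑ I : Fin (D.deg i) → Fin n, (∏ t, Q (I t) (K t)) *
      fE D q w (some i) (fun t => Pi.single (I t) 1) := by
  have h1 := fE_sum q w (some i) (fun (t : Fin (D.deg i)) (j : Fin n) => Q j (K t))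
    (fun j => (Pi.single j 1 : Fin n → EE F))
  have h2 : ∀ t : Fin (D.deg i), q.mulVec (∑ j, Q j (K t) • (Pi.single j 1 : Fin n → EE F)) =
      Pi.single (K t) 1 := by
    intro t
    have h3 : (∑ j, Q j (K t) • (Pi.single j 1 : Fin n → EE F)) = fun j => Q j (K t) := by
      funext m
      rw [Finset.sum_apply, Finset.sum_eq_single m]
      · rw [Pi.smul_apply, Pi.single_eq_same, smul_eq_mul, mul_one]
      · intro j _ hj
        rw [Pi.smul_apply, Pi.single_eq_of_ne hj.symm, smul_zero]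
      · intro h
        exact absurd (Finset.mem_univ _) h
    rw [h3]
    funext m
    have h4 : q.mulVec (fun j => Q j (K t)) m = (q * Q) m (K t) := rfl
    rw [h4, hQ, Matrix.one_apply, Pi.single_apply]
  have h5 : fE D q w (some i) (fun t : Fin (D.deg i) =>
      ∑ j, Q j (K t) • (Pi.single j 1 : Fin n → EE F)) = w i K := by
    show ∑ J : Fin (D.deg i) → Fin n, w i J *
      ∏ t, q.mulVec (∑ j, Q j (K t) • (Pi.single j 1 : Fin n → EE F)) (J t) = w i K
    simp only [h2]
    rw [Finset.sum_eq_single K]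
    · simp only [Pi.single_eq_same, Finset.prod_const_one, mul_one]
    · intro J _ hJ
      obtain ⟨t, ht⟩ : ∃ t, J t ≠ K t := by
        by_contra hc
        push Not at hc
        exact hJ (funext hc)
      rw [Finset.prod_eq_zero (Finset.mem_univ t) (Pi.single_eq_of_ne ht 1), mul_zero]
    · intro h
      exact absurd (Finset.mem_univ _) h
  exact h5.symm.trans h1

/-- Proof: definition of `uR`, `fam`, `fE_vE`, `lam_mix`. -/
theorem uR_eq (i : FI D) (J : Fin (fa D i) → Fin (rk F n)) :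
    uR D i J = lam F (mix F (integralBasis F i.1) *
      fE D (qE D) (wE D) i.2 (fun t => eB F n (J t))) := by
  have h1 : (fun t => eB F n (J t)) = fun t => vE (stdB F n (J t)) := by
    funext t
    exact eB_apply _
  rw [h1, fE_vE, ← map_mul, lam_mix]
  rfl

/-- Proof: `RT.act`, `uR_eq`, `fE_sum_real`, linearity of `lam`. -/
theorem act_uR_eq (z : Matrix (Fin (rk F n)) (Fin (rk F n)) ℝ) (i : FI D)
    (J : Fin (fa D i) → Fin (rk F n)) :
    RT.act z (uR D) i J = lam F (mix F (integralBasis F i.1) *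
      fE D (qE D) (wE D) i.2 (fun t => bz z (J t))) := by
  have h1 : (fun t => bz z (J t)) = fun t : Fin (fdeg D i.2) => ∑ j, z j (J t) • eB F n j := rfl
  rw [h1, fE_sum_real (qE D) (wE D) i.2 (fun t j => z j (J t)), Finset.mul_sum, map_sum]
  unfold RT.act
  refine Finset.sum_congr rfl fun J' _ => ?_
  rw [mul_smul_comm, map_smul, smul_eq_mul, uR_eq]

/-- Proof: `g s J = ∑_k t (k, s) J • mix (d_k)` (`eq_sum_lam`), and
`lam (a_k * g s J) = t (k, s) J` is the limit of `lam (a_k * fE ...)` (`lam` is continuous: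
`LinearMap.continuous_of_finiteDimensional`; uniqueness of limits). -/
theorem exists_limit {z : ℕ → Matrix (Fin (rk F n)) (Fin (rk F n)) ℝ}
    {t : RT.Ten (rk F n) (fa D)}
    (h : Filter.Tendsto (fun j => RT.act (z j) (uR D)) Filter.atTop (nhds t)) :
    ∃ g : ∀ s : Option (Fin D.m), (Fin (fdeg D s) → Fin (rk F n)) → EE F,
      (∀ s J, Filter.Tendsto (fun j => fE D (qE D) (wE D) s (fun t => bz (z j) (J t)))
        Filter.atTop (nhds (g s J))) ∧
      ∀ (i : FI D) (J : Fin (fa D i) → Fin (rk F n)),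
        t i J = lam F (mix F (integralBasis F i.1) * g i.2 J) := by
  have hact : ∀ (i : FI D) (J : Fin (fa D i) → Fin (rk F n)),
      Filter.Tendsto (fun j => lam F (mix F (integralBasis F i.1) *
        fE D (qE D) (wE D) i.2 (fun t => bz (z j) (J t)))) Filter.atTop (nhds (t i J)) := by
    intro i J
    have h1 := tendsto_pi_nhds.1 (tendsto_pi_nhds.1 h i) J
    exact h1.congr fun j => act_uR_eq (z j) i J
  refine ⟨fun s J => ∑ k, t (k, s) J • mix F (dB F k), fun s J => ?_, fun i J => ?_⟩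
  · have h1 : Filter.Tendsto (fun j => ∑ k, lam F (mix F (integralBasis F k) *
        fE D (qE D) (wE D) s (fun t => bz (z j) (J t))) • mix F (dB F k)) Filter.atTop
        (nhds (∑ k, t (k, s) J • mix F (dB F k))) :=
      tendsto_finsetSum _ fun k _ => (hact (k, s) J).smul_const _
    refine h1.congr fun j => ?_
    exact (eq_sum_lam _).symm
  · have h1 : Filter.Tendsto (fun j => fE D (qE D) (wE D) i.2 (fun t => bz (z j) (J t)))
        Filter.atTop (nhds (∑ k, t (k, i.2) J • mix F (dB F k))) := by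
      have h2 : Filter.Tendsto (fun j => ∑ k, lam F (mix F (integralBasis F k) *
          fE D (qE D) (wE D) i.2 (fun t => bz (z j) (J t))) • mix F (dB F k)) Filter.atTop
          (nhds (∑ k, t (k, i.2) J • mix F (dB F k))) :=
        tendsto_finsetSum _ fun k _ => (hact (k, i.2) J).smul_const _
      exact h2.congr fun j => (eq_sum_lam _).symm
    have hcont : Continuous fun x : EE F => lam F (mix F (integralBasis F i.1) * x) :=
      (LinearMap.continuous_of_finiteDimensional (lam F)).comp (continuous_const.mul continuous_id)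
    exact tendsto_nhds_unique (hact i J) ((hcont.tendsto _).comp h1)

end Pool.Agent.Lib.MP_666dc0_nt.EP
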