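import Pool.Agent.Lib.MP_666dc0_nt.EP.BX1

/-!
# EP, BX4: averaging
-/

open NumberField
open scoped NumberField

namespace Pool.Agent.Lib.MP_666dc0_nt.EP

variable {F : Type} [Field F] [NumberField F] {N : ℕ}

/-- Proof: the limits of `z_j⁻¹ c(a) z_j` are unique, so `e'` is additive and multiplicative
(`z_j⁻¹ c(a b) z_j = (z_j⁻¹ c(a) z_j) (z_j⁻¹ c(b) z_j)`, `det z_j = 1`) and `e' 1 = 1`. -/
theorem exists_hom (c : F →+* Matrix (Fin N) (Fin N) ℝ) (z : ℕ → Matrix (Fin N) (Fin N) ℝ)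
    (hz : ∀ j, (z j).det = 1)
    (h : ∀ a, ∃ e, Filter.Tendsto (fun j => (z j)⁻¹ * c a * z j) Filter.atTop (nhds e)) :
    ∃ e : F →+* Matrix (Fin N) (Fin N) ℝ,
      ∀ a, Filter.Tendsto (fun j => (z j)⁻¹ * c a * z j) Filter.atTop (nhds (e a)) := by
  choose e he using h
  have hzu : ∀ j, IsUnit (z j).det := fun j => by rw [hz j]; exact isUnit_one
  have hzz : ∀ j, z j * (z j)⁻¹ = 1 := fun j => Matrix.mul_nonsing_inv _ (hzu j)
  have hzz' : ∀ j, (z j)⁻¹ * z j = 1 := fun j => Matrix.nonsing_inv_mul _ (hzu j)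
  refine ⟨{ toFun := e
            map_one' := ?_
            map_mul' := ?_
            map_zero' := ?_
            map_add' := ?_ }, he⟩
  · refine tendsto_nhds_unique (he 1) ?_
    refine tendsto_const_nhds.congr fun j => ?_
    rw [map_one, Matrix.mul_one, hzz']
  · intro a b
    refine tendsto_nhds_unique (he (a * b)) (((he a).mul (he b)).congr fun j => ?_)
    rw [map_mul]
    calc (z j)⁻¹ * c a * z j * ((z j)⁻¹ * c b * z j)
        = (z j)⁻¹ * c a * (z j * (z j)⁻¹) * c b * z j := by noncomm_ring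
      _ = (z j)⁻¹ * (c a * c b) * z j := by rw [hzz, Matrix.mul_one]; noncomm_ring
  · refine tendsto_nhds_unique (he 0) ?_
    refine tendsto_const_nhds.congr fun j => ?_
    rw [map_zero, Matrix.mul_zero, Matrix.zero_mul]
  · intro a b
    refine tendsto_nhds_unique (he (a + b)) (((he a).add (he b)).congr fun j => ?_)
    rw [map_add]
    noncomm_ring

/-- **Averaging.** Proof: let `e` be as in `exists_hom` and `y_j = ∑_k c(a_k) z_j e(d_k)`. Then
`c(a) y_j = y_j e(a)` (`sum_swap`; the map `(x, y) ↦ c(x) z_j e(y)` is biadditive) and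
`z_j⁻¹ y_j = ∑_k (z_j⁻¹ c(a_k) z_j) e(d_k)` tends to `∑ e(a_k) e(d_k) = e(1) = 1` (`sum_mul_dB`), so
`det y_j = det (z_j⁻¹ y_j)` tends to `1`. Choose `j₀` with `det y_{j₀} > 0`, let `Y = y_{j₀}` and
`h_j = y_j Y⁻¹`. Since `c(a) Y = Y e(a)`, also `e(a) Y⁻¹ = Y⁻¹ c(a)`, so `c(a) h_j = h_j c(a)`. Moreover
`z_j⁻¹ (h_j Y) = z_j⁻¹ y_j` tends to `1` and `det h_j = det y_j / det Y`. -/
theorem averaging (c : F →+* Matrix (Fin N) (Fin N) ℝ) (z : ℕ → Matrix (Fin N) (Fin N) ℝ)
    (hz : ∀ j, (z j).det = 1)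
    (h : ∀ a, ∃ e, Filter.Tendsto (fun j => (z j)⁻¹ * c a * z j) Filter.atTop (nhds e)) :
    ∃ (Y : Matrix (Fin N) (Fin N) ℝ) (hj : ℕ → Matrix (Fin N) (Fin N) ℝ), 0 < Y.det ∧
      (∀ j a, c a * hj j = hj j * c a) ∧
      Filter.Tendsto (fun j => (z j)⁻¹ * (hj j * Y)) Filter.atTop (nhds 1) ∧
      Filter.Tendsto (fun j => (hj j).det) Filter.atTop (nhds (Y.det)⁻¹) := by
  obtain ⟨e, he⟩ := exists_hom c z hz h
  have hzu : ∀ j, IsUnit (z j).det := fun j => by rw [hz j]; exact isUnit_one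
  set y : ℕ → Matrix (Fin N) (Fin N) ℝ := fun j =>
    ∑ k, c (integralBasis F k) * z j * e (dB F k) with hy
  have hcy : ∀ j a, c a * y j = y j * e a := by
    intro j a
    set f : F →+ F →+ Matrix (Fin N) (Fin N) ℝ := AddMonoidHom.mk' (fun x =>
      AddMonoidHom.mk' (fun w => c x * z j * e w) (fun w w' => by
        rw [map_add, Matrix.mul_add])) (fun x x' => by
          ext w : 1
          simp only [AddMonoidHom.mk'_apply, AddMonoidHom.add_apply, map_add, Matrix.add_mul]) with hf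
    have h1 := sum_swap f a
    have hfa : ∀ x w, f x w = c x * z j * e w := fun x w => rfl
    simp only [hfa] at h1
    simp only [hy]
    rw [Finset.mul_sum, Finset.sum_mul]
    calc ∑ k, c a * (c (integralBasis F k) * z j * e (dB F k))
        = ∑ k, c (a * integralBasis F k) * z j * e (dB F k) := by
          refine Finset.sum_congr rfl fun k _ => ?_
          rw [map_mul]
          noncomm_ring
      _ = ∑ k, c (integralBasis F k) * z j * e (a * dB F k) := h1
      _ = ∑ k, c (integralBasis F k) * z j * e (dB F k) * e a := by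
          refine Finset.sum_congr rfl fun k _ => ?_
          rw [mul_comm a, map_mul]
          noncomm_ring
  have hlim : Filter.Tendsto (fun j => (z j)⁻¹ * y j) Filter.atTop (nhds 1) := by
    have h1 : Filter.Tendsto (fun j => ∑ k, ((z j)⁻¹ * c (integralBasis F k) * z j) * e (dB F k))
        Filter.atTop (nhds (∑ k, e (integralBasis F k) * e (dB F k))) :=
      tendsto_finsetSum _ fun k _ => (he (integralBasis F k)).mul tendsto_const_nhds
    have h2 : ∑ k, e (integralBasis F k) * e (dB F k) = 1 := by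
      simp only [← map_mul]
      rw [← map_sum, sum_mul_dB, map_one]
    rw [h2] at h1
    refine h1.congr fun j => ?_
    simp only [hy]
    rw [Finset.mul_sum]
    exact Finset.sum_congr rfl fun k _ => by noncomm_ring
  have hdet : Filter.Tendsto (fun j => (y j).det) Filter.atTop (nhds 1) := by
    have h1 : Filter.Tendsto (fun j => ((z j)⁻¹ * y j).det) Filter.atTop
        (nhds (1 : Matrix (Fin N) (Fin N) ℝ).det) :=
      ((continuous_id.matrix_det).tendsto _).comp hlim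
    rw [Matrix.det_one] at h1
    refine h1.congr fun j => ?_
    have h2 : ((z j)⁻¹).det = 1 := by
      rw [Matrix.det_nonsing_inv, hz j, Ring.inverse_one]
    rw [Matrix.det_mul, h2, one_mul]
  obtain ⟨j₀, hj₀⟩ := (hdet.eventually (lt_mem_nhds (zero_lt_one (α := ℝ)))).exists
  have hYu : IsUnit (y j₀).det := isUnit_iff_ne_zero.2 hj₀.ne'
  have hY1 : (y j₀)⁻¹ * y j₀ = 1 := Matrix.nonsing_inv_mul _ hYu
  have hY2 : y j₀ * (y j₀)⁻¹ = 1 := Matrix.mul_nonsing_inv _ hYu
  refine ⟨y j₀, fun j => y j * (y j₀)⁻¹, hj₀, fun j a => ?_, ?_, ?_⟩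
  · have h1 : e a * (y j₀)⁻¹ = (y j₀)⁻¹ * c a := by
      calc e a * (y j₀)⁻¹ = (y j₀)⁻¹ * y j₀ * e a * (y j₀)⁻¹ := by rw [hY1, Matrix.one_mul]
        _ = (y j₀)⁻¹ * (y j₀ * e a) * (y j₀)⁻¹ := by noncomm_ring
        _ = (y j₀)⁻¹ * (c a * y j₀) * (y j₀)⁻¹ := by rw [hcy]
        _ = (y j₀)⁻¹ * c a * (y j₀ * (y j₀)⁻¹) := by noncomm_ring
        _ = (y j₀)⁻¹ * c a := by rw [hY2, Matrix.mul_one]
    calc c a * (y j * (y j₀)⁻¹) = c a * y j * (y j₀)⁻¹ := by rw [Matrix.mul_assoc]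
      _ = y j * (e a * (y j₀)⁻¹) := by rw [hcy, Matrix.mul_assoc]
      _ = y j * (y j₀)⁻¹ * c a := by rw [h1, Matrix.mul_assoc]
  · refine hlim.congr fun j => ?_
    show (z j)⁻¹ * y j = (z j)⁻¹ * (y j * (y j₀)⁻¹ * y j₀)
    rw [Matrix.mul_assoc (y j), hY1, Matrix.mul_one]
  · have h1 := hdet.mul_const ((y j₀).det)⁻¹
    rw [one_mul] at h1
    refine h1.congr fun j => ?_
    show _ = (y j * (y j₀)⁻¹).det
    rw [Matrix.det_mul, Matrix.det_nonsing_inv, Ring.inverse_eq_inv']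

end Pool.Agent.Lib.MP_666dc0_nt.EP
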