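import Pool.Agent.Lib.MP_666dc0_nt.EP.BV6
import Pool.Agent.Lib.MP_666dc0_nt.EP.BX3
import Pool.Agent.Lib.MP_666dc0_nt.EP.BX4

/-!
# EP, BX5: the Gram matrices and the first reduction
-/

open NumberField
open scoped NumberField

namespace Pool.Agent.Lib.MP_666dc0_nt.EP

open WL

variable {F : Type} [Field F] [NumberField F] {n : ℕ} {D : Datum F n}

/-- The real Gram matrix of the bilinear form `λ(a q)` in the family `bz z`. -/
noncomputable def gr (D : Datum F n) (a : F) (z : Matrix (Fin (rk F n)) (Fin (rk F n)) ℝ) :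
    Matrix (Fin (rk F n)) (Fin (rk F n)) ℝ :=
  fun i j => lam F (mix F a * (bz z i ⬝ᵥ (qE D).mulVec (bz z j)))

private theorem bx5_left {ι : Type} (a : F) (s : Finset ι) (c : ι → ℝ) (e : ι → Fin n → EE F)
    (y : Fin n → EE F) :
    lam F (mix F a * ((∑ i ∈ s, c i • e i) ⬝ᵥ (qE D).mulVec y)) =
      ∑ i ∈ s, c i * lam F (mix F a * (e i ⬝ᵥ (qE D).mulVec y)) := by
  rw [sum_dotProduct, Finset.mul_sum, map_sum]
  refine Finset.sum_congr rfl fun i _ => ?_
  rw [smul_dotProduct, mul_smul_comm, map_smul, smul_eq_mul]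

private theorem bx5_right {ι : Type} (a : F) (s : Finset ι) (c : ι → ℝ) (e : ι → Fin n → EE F)
    (x : Fin n → EE F) :
    lam F (mix F a * (x ⬝ᵥ (qE D).mulVec (∑ i ∈ s, c i • e i))) =
      ∑ i ∈ s, c i * lam F (mix F a * (x ⬝ᵥ (qE D).mulVec (e i))) := by
  rw [Matrix.mulVec_sum, dotProduct_sum, Finset.mul_sum, map_sum]
  refine Finset.sum_congr rfl fun i _ => ?_
  rw [Matrix.mulVec_smul, dotProduct_smul, mul_smul_comm, map_smul, smul_eq_mul]

private theorem bx5_gr_one (a : F) (k l : Fin (rk F n)) :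
    gr D a 1 k l = lam F (mix F a * (eB F n k ⬝ᵥ (qE D).mulVec (eB F n l))) := by
  unfold gr
  rw [bz_one, bz_one]

/-- Proof: bilinearity over `ℝ`. -/
theorem gr_eq (a : F) (z : Matrix (Fin (rk F n)) (Fin (rk F n)) ℝ) :
    gr D a z = z.transpose * gr D a 1 * z := by
  ext i j
  have h1 : gr D a z i j = ∑ l, z l j * ∑ k, z k i *
      lam F (mix F a * (eB F n k ⬝ᵥ (qE D).mulVec (eB F n l))) := by
    unfold gr bz
    rw [bx5_right]
    refine Finset.sum_congr rfl fun l _ => ?_
    rw [bx5_left]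
  rw [h1, Matrix.mul_apply]
  refine Finset.sum_congr rfl fun l _ => ?_
  rw [mul_comm, Matrix.mul_apply]
  congr 1
  refine Finset.sum_congr rfl fun k _ => ?_
  rw [bx5_gr_one, Matrix.transpose_apply]

/-- Proof: `mix a * q(x, y) = q(x, mix a • y)`, `smul_bz`, bilinearity. -/
theorem gr_ca (a : F) : gr D a 1 = gr D 1 1 * ca n a := by
  ext i j
  have h1 : mix F a * (eB F n i ⬝ᵥ (qE D).mulVec (eB F n j)) =
      mix F 1 * (eB F n i ⬝ᵥ (qE D).mulVec (∑ l, ca n a l j • eB F n l)) := by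
    rw [← ca_spec, Matrix.mulVec_smul, dotProduct_smul, map_one, one_mul, smul_eq_mul]
  rw [bx5_gr_one, h1, bx5_right, Matrix.mul_apply]
  refine Finset.sum_congr rfl fun l _ => ?_
  rw [bx5_gr_one, mul_comm]

/-- Proof: `gr D 1 1` is the matrix `tg D (stdB F n)` of BV6.lean, as a real matrix
(`bz_one`, `eB_apply`, `lam_mix`); `det_tg_ne_zero`. -/
theorem det_gr_ne_zero (hd : D.q.det ≠ 0) : (gr D 1 1).det ≠ 0 := by
  have h1 : gr D 1 1 = (Rat.castHom ℝ).mapMatrix (tg D (stdB F n)) := by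
    ext i j
    rw [bx5_gr_one, eB_apply, eB_apply, map_one, one_mul]
    have h2 := fE_vE (D := D) none (show Fin 2 → Fin n → F from ![stdB F n i, stdB F n j])
    have h3 : vE (stdB F n i) ⬝ᵥ (qE D).mulVec (vE (stdB F n j)) =
        mix F (qf D (RingHom.id F) (stdB F n i) (stdB F n j)) := h2
    rw [h3, lam_mix]
    rfl
  rw [h1, ← RingHom.map_det]
  intro h
  apply det_tg_ne_zero hd
  exact (map_eq_zero (Rat.castHom ℝ)).1 h

private theorem bx5_rm_add (H H' : Matrix (Fin n) (Fin n) (EE F)) : rm (H + H') = rm H + rm H' := by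
  unfold rm
  rw [← map_add]
  congr 1
  exact LinearMap.ext fun v => Matrix.add_mulVec H H' v

private theorem bx5_rm_zero : rm (0 : Matrix (Fin n) (Fin n) (EE F)) = 0 := by
  have h := bx5_rm_add (0 : Matrix (Fin n) (Fin n) (EE F)) 0
  rw [add_zero] at h
  exact left_eq_add.1 h

/-- The multiplications as a ring homomorphism. -/
noncomputable def caHom (F : Type) [Field F] [NumberField F] (n : ℕ) :
    F →+* Matrix (Fin (rk F n)) (Fin (rk F n)) ℝ where
  toFun := ca n
  map_one' := by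
    unfold ca
    rw [map_one, map_one, rm_one]
  map_mul' a b := by
    unfold ca
    rw [map_mul, map_mul, rm_mul]
  map_zero' := by
    unfold ca
    rw [map_zero, map_zero, bx5_rm_zero]
  map_add' a b := by
    unfold ca
    rw [map_add, map_add, bx5_rm_add]

private theorem bx5_det_gr {z : Matrix (Fin (rk F n)) (Fin (rk F n)) ℝ} (hz : z.det = 1) :
    (gr D 1 z).det = (gr D 1 1).det := by
  rw [gr_eq, Matrix.det_mul, Matrix.det_mul, Matrix.det_transpose, hz, one_mul, mul_one]

private theorem bx5_lam_cont : Continuous (lam F) :=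
  LinearMap.continuous_of_finiteDimensional _

private theorem bx5_gr_tendsto {z : ℕ → Matrix (Fin (rk F n)) (Fin (rk F n)) ℝ}
    {g : ∀ s : Option (Fin D.m), (Fin (fdeg D s) → Fin (rk F n)) → EE F}
    (hg : ∀ s J, Filter.Tendsto (fun j => fE D (qE D) (wE D) s (fun t => bz (z j) (J t)))
        Filter.atTop (nhds (g s J))) (a : F) :
    Filter.Tendsto (fun j => gr D a (z j)) Filter.atTop
      (nhds (Matrix.of fun i l : Fin (rk F n) =>
        lam F (mix F a * g none (show Fin 2 → Fin (rk F n) from ![i, l])))) := by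
  refine tendsto_pi_nhds.2 fun i => tendsto_pi_nhds.2 fun l => ?_
  have h1 := hg none (show Fin 2 → Fin (rk F n) from ![i, l])
  have h2 : Filter.Tendsto (fun j => bz (z j) i ⬝ᵥ (qE D).mulVec (bz (z j) l)) Filter.atTop
      (nhds (g none (show Fin 2 → Fin (rk F n) from ![i, l]))) := h1
  exact (bx5_lam_cont.tendsto _).comp (h2.const_mul (mix F a))

/-- Proof: `gr 1 z_j * (z_j⁻¹ c(a) z_j) = z_jᵀ (gr 1 1) c(a) z_j = gr a z_j` (`gr_eq`, `gr_ca`), so
`z_j⁻¹ c(a) z_j = (gr 1 z_j)⁻¹ gr a z_j`; `gr a z_j` converges for all `a` to the matrix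
`λ(mix a * g none ![i, j])`, with constant determinant `det (gr 1 z_j) = det (gr 1 1) ≠ 0`. So the
inverse matrices converge as well (`Matrix.inv_def`, `Matrix.adjugate` is continuous:
`Continuous.matrix_adjugate`). -/
theorem tendsto_conj (hd : D.q.det ≠ 0) {z : ℕ → Matrix (Fin (rk F n)) (Fin (rk F n)) ℝ}
    (hz : ∀ j, (z j).det = 1)
    {g : ∀ s : Option (Fin D.m), (Fin (fdeg D s) → Fin (rk F n)) → EE F}
    (hg : ∀ s J, Filter.Tendsto (fun j => fE D (qE D) (wE D) s (fun t => bz (z j) (J t)))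
        Filter.atTop (nhds (g s J))) (a : F) :
    ∃ e, Filter.Tendsto (fun j => (z j)⁻¹ * ca n a * z j) Filter.atTop (nhds e) := by
  have hd' := det_gr_ne_zero (D := D) hd
  have h1 := bx5_gr_tendsto hg 1
  have h2 := bx5_gr_tendsto hg a
  have hinv : ∀ j, (gr D 1 (z j))⁻¹ = (gr D 1 1).det⁻¹ • (gr D 1 (z j)).adjugate := by
    intro j
    rw [Matrix.inv_def, bx5_det_gr (hz j), Ring.inverse_eq_inv']
  have heq : ∀ j, (z j)⁻¹ * ca n a * z j =
      ((gr D 1 1).det⁻¹ • (gr D 1 (z j)).adjugate) * gr D a (z j) := by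
    intro j
    have hu : IsUnit (z j).det := by
      rw [hz j]
      exact isUnit_one
    have hu' : IsUnit (gr D 1 (z j)).det := by
      rw [bx5_det_gr (hz j)]
      exact isUnit_iff_ne_zero.2 hd'
    have h3 : gr D 1 (z j) * ((z j)⁻¹ * ca n a * z j) = gr D a (z j) := by
      rw [gr_eq 1 (z j), gr_eq a (z j), gr_ca a]
      calc (z j).transpose * gr D 1 1 * z j * ((z j)⁻¹ * ca n a * z j) =
          (z j).transpose * gr D 1 1 * (z j * (z j)⁻¹) * ca n a * z j := by
            simp only [Matrix.mul_assoc]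
        _ = (z j).transpose * (gr D 1 1 * ca n a) * z j := by
            rw [Matrix.mul_nonsing_inv _ hu, Matrix.mul_one, Matrix.mul_assoc _ (gr D 1 1)]
    rw [← hinv j, ← h3, ← Matrix.mul_assoc, Matrix.nonsing_inv_mul _ hu', Matrix.one_mul]
  refine ⟨_, Filter.Tendsto.congr (fun j => (heq j).symm) (Filter.Tendsto.mul
    (Filter.Tendsto.const_smul ((Continuous.matrix_adjugate continuous_id).tendsto _ |>.comp h1)
      ((gr D 1 1).det⁻¹)) h2)⟩

/-- **First reduction.** Proof: `averaging` for `caHom F n` gives `Y` and `h_j`, and `exists_rm`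
gives `H_j` with `rm H_j = h_j`. With `x_j = z_j⁻¹ (h_j Y)`, which tends to `1`, we have
`H_j *ᵥ bz Y i = bz (h_j Y) i = bz (z_j x_j) i = ∑_l (x_j)_li bz (z_j) l` (`mulVec_bz`, `bz_mul`), so
(`fE_sum_real`) the form is `∑_K (∏_t (x_j)_{K t, J t}) • fE (bz z_j ∘ K)`, which tends to
`∑_K (∏_t 1_{K t, J t}) • g s K = g s J`. -/
theorem first_reduction (hd : D.q.det ≠ 0) {z : ℕ → Matrix (Fin (rk F n)) (Fin (rk F n)) ℝ}
    (hz : ∀ j, (z j).det = 1)
    {g : ∀ s : Option (Fin D.m), (Fin (fdeg D s) → Fin (rk F n)) → EE F}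
    (hg : ∀ s J, Filter.Tendsto (fun j => fE D (qE D) (wE D) s (fun t => bz (z j) (J t)))
        Filter.atTop (nhds (g s J))) :
    ∃ (Y : Matrix (Fin (rk F n)) (Fin (rk F n)) ℝ) (H : ℕ → Matrix (Fin n) (Fin n) (EE F)),
      0 < Y.det ∧
      (∀ s J, Filter.Tendsto
        (fun j => fE D (qE D) (wE D) s (fun t => (H j).mulVec (bz Y (J t)))) Filter.atTop
        (nhds (g s J))) ∧
      Filter.Tendsto (fun j => (rm (H j)).det) Filter.atTop (nhds (Y.det)⁻¹) := by
  obtain ⟨Y, hj, hY, hc, h1, h2⟩ := averaging (caHom F n) z hz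
    (fun a => tendsto_conj hd hz hg a)
  choose H hH using fun j => exists_rm (F := F) (n := n) (h := hj j) (fun a => hc j a)
  refine ⟨Y, H, hY, fun s J => ?_, ?_⟩
  · have h3 : ∀ j i, (H j).mulVec (bz Y i) =
        ∑ l, ((z j)⁻¹ * (hj j * Y)) l i • bz (F := F) (n := n) (z j) l := by
      intro j i
      have hu : IsUnit (z j).det := by
        rw [hz j]
        exact isUnit_one
      rw [mulVec_bz, hH, ← bz_mul, ← Matrix.mul_assoc (z j), Matrix.mul_nonsing_inv _ hu,
        Matrix.one_mul]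
    have h4 : ∀ j, fE D (qE D) (wE D) s (fun t => (H j).mulVec (bz Y (J t))) =
        ∑ K : Fin (fdeg D s) → Fin (rk F n), (∏ t, ((z j)⁻¹ * (hj j * Y)) (K t) (J t)) •
          fE D (qE D) (wE D) s (fun t => bz (z j) (K t)) := by
      intro j
      rw [← fE_sum_real (qE D) (wE D) s
        (fun t l => ((z j)⁻¹ * (hj j * Y)) l (J t)) (fun l => bz (z j) l)]
      congr 1
      funext t
      exact h3 j (J t)
    have h5 : Filter.Tendsto (fun j => ∑ K : Fin (fdeg D s) → Fin (rk F n),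
        (∏ t, ((z j)⁻¹ * (hj j * Y)) (K t) (J t)) •
          fE D (qE D) (wE D) s (fun t => bz (z j) (K t))) Filter.atTop
        (nhds (∑ K : Fin (fdeg D s) → Fin (rk F n),
          (∏ t, (1 : Matrix (Fin (rk F n)) (Fin (rk F n)) ℝ) (K t) (J t)) • g s K)) := by
      refine tendsto_finsetSum _ fun K _ => Filter.Tendsto.smul ?_ (hg s K)
      refine tendsto_finsetProd _ fun t _ => ?_
      exact (tendsto_pi_nhds.1 (tendsto_pi_nhds.1 h1 (K t))) (J t)
    have h6 : ∑ K : Fin (fdeg D s) → Fin (rk F n),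
        (∏ t, (1 : Matrix (Fin (rk F n)) (Fin (rk F n)) ℝ) (K t) (J t)) • g s K = g s J := by
      rw [Finset.sum_eq_single J]
      · simp
      · intro K _ hK
        obtain ⟨t, ht⟩ : ∃ t, K t ≠ J t := by
          by_contra h
          push Not at h
          exact hK (funext h)
        have h7 : ∏ t, (1 : Matrix (Fin (rk F n)) (Fin (rk F n)) ℝ) (K t) (J t) = 0 :=
          Finset.prod_eq_zero (Finset.mem_univ t) (Matrix.one_apply_ne ht)
        rw [h7, zero_smul]
      · intro h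
        exact absurd (Finset.mem_univ _) h
    rw [h6] at h5
    exact h5.congr (fun j => (h4 j).symm)
  · simp only [hH]
    exact h2

/-- Proof: it is the limit of `gr 1 z_j`, whose determinant is `det (gr 1 1)`. -/
theorem det_limit_ne_zero (hd : D.q.det ≠ 0) {z : ℕ → Matrix (Fin (rk F n)) (Fin (rk F n)) ℝ}
    (hz : ∀ j, (z j).det = 1)
    {g : ∀ s : Option (Fin D.m), (Fin (fdeg D s) → Fin (rk F n)) → EE F}
    (hg : ∀ s J, Filter.Tendsto (fun j => fE D (qE D) (wE D) s (fun t => bz (z j) (J t)))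
        Filter.atTop (nhds (g s J))) :
    (Matrix.of fun i j : Fin (rk F n) =>
      lam F (g none (show Fin 2 → Fin (rk F n) from ![i, j]))).det ≠ 0 := by
  have h1 := bx5_gr_tendsto hg 1
  have h2 : (Matrix.of fun i l : Fin (rk F n) =>
      lam F (mix F 1 * g none (show Fin 2 → Fin (rk F n) from ![i, l]))) =
      Matrix.of fun i j : Fin (rk F n) =>
        lam F (g none (show Fin 2 → Fin (rk F n) from ![i, j])) := by
    ext i l
    rw [Matrix.of_apply, Matrix.of_apply, map_one, one_mul]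
  rw [h2] at h1
  have h3 := ((Continuous.matrix_det continuous_id).tendsto _).comp h1
  have h4 : Filter.Tendsto (fun _ : ℕ => (gr D 1 1).det) Filter.atTop
      (nhds (Matrix.of fun i j : Fin (rk F n) =>
        lam F (g none (show Fin 2 → Fin (rk F n) from ![i, j]))).det) :=
    h3.congr (fun j => bx5_det_gr (hz j))
  rw [tendsto_nhds_unique h4 tendsto_const_nhds]
  exact det_gr_ne_zero hd

end Pool.Agent.Lib.MP_666dc0_nt.EP
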