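import Pool.Agent.Lib.MP_666dc0_nt.EP.BX2

/-!
# EP, BX7: adjusting the determinants
-/

open NumberField
open scoped NumberField

namespace Pool.Agent.Lib.MP_666dc0_nt.EP

open WL

variable {F : Type} [Field F] [NumberField F] {n : ℕ} {D : Datum F n}

/-- The matrix `diag(x, 1, …, 1)`. -/
noncomputable def dg (n : ℕ) (x : EE F) : Matrix (Fin n) (Fin n) (EE F) :=
  Matrix.diagonal fun i => if (i : ℕ) = 0 then x else 1

theorem dg_mul (x y : EE F) : dg n (x * y) = dg n x * dg n y := by
  unfold dg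
  rw [Matrix.diagonal_mul_diagonal]
  congr 1
  funext i
  split_ifs
  · rfl
  · rw [mul_one]

theorem dg_one : dg n (1 : EE F) = 1 := by
  unfold dg
  simp only [ite_self, Matrix.diagonal_one]

/-- Proof: for `n = 0` both sides are `1`; for `n = m + 1`: `Matrix.det_diagonal`,
`Fin.prod_univ_succ`. -/
theorem det_dg_det (H : Matrix (Fin n) (Fin n) (EE F)) : (dg n H.det).det = H.det := by
  rcases n with _ | m
  · rw [Matrix.det_fin_zero, Matrix.det_fin_zero]
  · unfold dg
    rw [Matrix.det_diagonal, Fin.prod_univ_succ]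
    simp

theorem continuous_dg : Continuous (dg n : EE F → _) := by
  unfold dg
  refine Continuous.matrix_diagonal (continuous_pi fun i => ?_)
  split_ifs
  · exact continuous_id
  · exact continuous_const

open scoped Classical in
private theorem BX7_norm (x : EE F) : ‖x‖ ≤ Real.sqrt ‖x * x‖ := by
  refine Prod.norm_def x ▸ max_le ?_ ?_
  · refine (pi_norm_le_iff_of_nonneg (Real.sqrt_nonneg _)).2 fun i => ?_
    refine Real.le_sqrt_of_sq_le ?_
    rw [sq, ← norm_mul]
    exact (norm_le_pi_norm (x * x).1 i).trans (norm_fst_le (x * x))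
  · refine (pi_norm_le_iff_of_nonneg (Real.sqrt_nonneg _)).2 fun i => ?_
    refine Real.le_sqrt_of_sq_le ?_
    rw [sq, ← norm_mul]
    exact (norm_le_pi_norm (x * x).2 i).trans (norm_snd_le (x * x))

/-- A sequence in `F ⊗ ℝ = ℝ^r × ℂ^s` whose squares converge has a convergent subsequence. Proof: the
components are bounded since their squares are (`‖x ^ 2‖ = ‖x‖ ^ 2` in `ℝ` and `ℂ`), so the sequence
is bounded; `tendsto_subseq_of_bounded` (the space is proper). -/
theorem exists_subseq {x : ℕ → EE F} {y : EE F}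
    (h : Filter.Tendsto (fun j => x j * x j) Filter.atTop (nhds y)) :
    ∃ (φ : ℕ → ℕ) (x' : EE F), StrictMono φ ∧
      Filter.Tendsto (x ∘ φ) Filter.atTop (nhds x') := by
  classical
  obtain ⟨C, hC⟩ := (Metric.isBounded_range_of_tendsto _ h).exists_norm_le
  have hb : ∀ j, x j ∈ Metric.closedBall (0 : EE F) (Real.sqrt C) := fun j => by
    rw [mem_closedBall_zero_iff]
    exact (BX7_norm (x j)).trans (Real.sqrt_le_sqrt (hC _ ⟨j, rfl⟩))
  obtain ⟨a, _, φ, h1, h2⟩ := tendsto_subseq_of_bounded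
    (Metric.isBounded_closedBall (x := (0 : EE F)) (r := Real.sqrt C)) hb
  exact ⟨φ, a, h1, h2⟩

theorem continuous_tensAct {a : ℕ} :
    Continuous fun p : Matrix (Fin n) (Fin n) (EE F) × ((Fin a → Fin n) → EE F) =>
      tensAct p.1 p.2 := by
  refine continuous_pi fun J => ?_
  unfold tensAct
  refine continuous_finsetSum _ fun J' _ => ?_
  refine Continuous.mul (continuous_finsetProd _ fun t _ => ?_) ?_
  · exact continuous_fst.matrix_elem _ _
  · exact (continuous_apply J').comp continuous_snd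

private theorem BX7_tens {a : ℕ} {T : ℕ → Matrix (Fin n) (Fin n) (EE F)}
    {T' : Matrix (Fin n) (Fin n) (EE F)} (hT : Filter.Tendsto T Filter.atTop (nhds T'))
    {w : ℕ → (Fin a → Fin n) → EE F} {w' : (Fin a → Fin n) → EE F}
    (hw : Filter.Tendsto w Filter.atTop (nhds w')) :
    Filter.Tendsto (fun j => tensAct (T j) (w j)) Filter.atTop (nhds (tensAct T' w')) := by
  rw [tendsto_pi_nhds]
  intro J
  unfold tensAct
  refine tendsto_finsetSum _ fun J' _ => ?_
  refine Filter.Tendsto.mul (tendsto_finsetProd _ fun t _ => ?_) ?_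
  · exact (tendsto_pi_nhds.1 ((tendsto_pi_nhds.1 hT) (J t))) (J' t)
  · exact (tendsto_pi_nhds.1 hw) J'

private theorem BX7_conj {S : ℕ → Matrix (Fin n) (Fin n) (EE F)}
    {S' : Matrix (Fin n) (Fin n) (EE F)} (hS : Filter.Tendsto S Filter.atTop (nhds S'))
    {Q : ℕ → Matrix (Fin n) (Fin n) (EE F)} {Q' : Matrix (Fin n) (Fin n) (EE F)}
    (hQ : Filter.Tendsto Q Filter.atTop (nhds Q')) :
    Filter.Tendsto (fun j => (S j).transpose * Q j * S j) Filter.atTop
      (nhds (S'.transpose * Q' * S')) := by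
  have hSt : Filter.Tendsto (fun j => (S j).transpose) Filter.atTop (nhds S'.transpose) :=
    ((Continuous.matrix_transpose continuous_id).tendsto S').comp hS
  exact (hSt.mul hQ).mul hS

private theorem BX7_inv {x : ℕ → EE F} {y : EE F} (hy : IsUnit y)
    (h : Filter.Tendsto x Filter.atTop (nhds y)) :
    Filter.Tendsto (fun j => Ring.inverse (x j)) Filter.atTop (nhds (Ring.inverse y)) := by
  classical
  obtain ⟨u, rfl⟩ := hy
  have h1 : ContinuousAt (Ring.inverse : EE F → EE F) (u : EE F) :=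
    NormedRing.inverse_continuousAt u
  exact h1.tendsto.comp h

private theorem BX7_ST {S T q' : Matrix (Fin n) (Fin n) (EE F)} (h : S * T = 1) :
    T.transpose * (S.transpose * q' * S) * T = q' := by
  have h1 : T.transpose * S.transpose = 1 := by
    rw [← Matrix.transpose_mul, h, Matrix.transpose_one]
  calc T.transpose * (S.transpose * q' * S) * T
      = (T.transpose * S.transpose) * q' * (S * T) := by simp only [Matrix.mul_assoc]
    _ = q' := by rw [h1, h, Matrix.one_mul, Matrix.mul_one]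

private theorem BX7_closed (hc : ClosedOrbit D)
    {q : ℕ → Matrix (Fin n) (Fin n) (EE F)} {q' : Matrix (Fin n) (Fin n) (EE F)}
    (hq : Filter.Tendsto q Filter.atTop (nhds q'))
    {w : ℕ → ∀ i, (Fin (D.deg i) → Fin n) → EE F}
    {w' : ∀ i, (Fin (D.deg i) → Fin n) → EE F}
    (hw : ∀ i, Filter.Tendsto (fun j => w j i) Filter.atTop (nhds (w' i)))
    (H : ℕ → Matrix (Fin n) (Fin n) (EE F)) (h1 : ∀ j, (H j).det = 1)
    (h2 : ∀ j, q j = (H j).transpose * qE D * H j)
    (h3 : ∀ j i, tensAct (H j) (w j i) = wE D i) :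
    ∃ H' : Matrix (Fin n) (Fin n) (EE F), H'.det = 1 ∧ q' = H'.transpose * qE D * H' ∧
      ∀ i, tensAct H' (w' i) = wE D i := by
  have h4 : Filter.Tendsto (fun j => (q j, w j)) Filter.atTop (nhds (q', w')) :=
    hq.prodMk_nhds (tendsto_pi_nhds.2 hw)
  have h5 : ∀ j, (q j, w j) ∈ {t : Matrix (Fin n) (Fin n) (EE F) ×
      (∀ i, (Fin (D.deg i) → Fin n) → EE F) |
      ∃ h : Matrix (Fin n) (Fin n) (EE F), h.det = 1 ∧
        t.1 = h.transpose * D.q.map (mix F) * h ∧
        ∀ i, tensAct h (t.2 i) = fun I => mix F (D.w i I)} :=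
    fun j => ⟨H j, h1 j, h2 j, fun i => h3 j i⟩
  unfold ClosedOrbit at hc
  exact hc.mem_of_tendsto h4 (Filter.Eventually.of_forall h5)

/-- **Second reduction.** Proof: `det (H_jᵀ q H_j) = (det H_j)² det q` tends to the unit `det q'`, and
`det q` is a unit (`mix (D.q.det)`, `RingHom.map_det`), so `(det H_j)²` converges, and we may pass to
a subsequence with `det H_j → δ` (`exists_subseq`), where `δ² det q = det q'`, so `δ` is a unit. Let
`S_j = dg (Ring.inverse (det H_j))` and `T_j = dg (det H_j)`; for all `j` (`hH`) `det H_j` is a unit, so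
`S_j T_j = 1` and `det (H_j S_j) = 1` (`det_dg_det`). The pairs
`(S_jᵀ (H_jᵀ q H_j) S_j, tensAct T_j w_j)` are in the closed orbit (`tensAct (H_j S_j) (tensAct T_j w_j)
= tensAct H_j w_j = w`) and tend to `(Sᵀ q' S, tensAct T w')`, `S = dg (Ring.inverse δ)`, `T = dg δ`
(`NormedRing.inverse_continuousAt`), so there is `H'` with `det H' = 1`,
`Sᵀ q' S = H'ᵀ q H'`, `tensAct H' (tensAct T w') = w`. Let `H = H' T`. Then `Hᵀ q H = q'`,
`tensAct H w' = w`, and `det (rm H) = det (rm T) = lim det (rm T_j)`, where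
`det (rm T_j) = det (rm (H_j S_j T_j)) = det (rm H_j) → r` (`rm_mul`, `det_rm_of_det_one`,
`continuous_rm`). -/
theorem second_reduction (hd : D.q.det ≠ 0) (hc : ClosedOrbit D)
    {H : ℕ → Matrix (Fin n) (Fin n) (EE F)} (hH : ∀ j, IsUnit (H j).det)
    {q' : Matrix (Fin n) (Fin n) (EE F)}
    (hq' : Filter.Tendsto (fun j => (H j).transpose * qE D * H j) Filter.atTop (nhds q'))
    (hu : IsUnit q'.det)
    {w : ℕ → ∀ i, (Fin (D.deg i) → Fin n) → EE F} (hw : ∀ j i, tensAct (H j) (w j i) = wE D i)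
    {w' : ∀ i, (Fin (D.deg i) → Fin n) → EE F} (hw' : Filter.Tendsto w Filter.atTop (nhds w'))
    {r : ℝ} (hr : Filter.Tendsto (fun j => (rm (H j)).det) Filter.atTop (nhds r)) :
    ∃ H' : Matrix (Fin n) (Fin n) (EE F), q' = H'.transpose * qE D * H' ∧
      (∀ i, tensAct H' (w' i) = wE D i) ∧ (rm H').det = r := by
  have hqu : IsUnit (qE D).det := by
    have e : (qE D).det = mix F D.q.det := ((mix F).map_det D.q).symm
    rw [e]
    exact (IsUnit.mk0 _ hd).map (mix F)
  obtain ⟨v, hv⟩ := hqu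
  -- the determinants
  have h1 : Filter.Tendsto (fun j => (H j).det * (H j).det * (qE D).det) Filter.atTop
      (nhds q'.det) := by
    have h := ((Continuous.matrix_det continuous_id).tendsto q').comp hq'
    refine h.congr fun j => ?_
    simp only [Function.comp_apply, id_eq, Matrix.det_mul, Matrix.det_transpose]
    ring
  have h2 : Filter.Tendsto (fun j => (H j).det * (H j).det) Filter.atTop
      (nhds (q'.det * ((v⁻¹ : (EE F)ˣ) : EE F))) := by
    have h := h1.mul_const ((v⁻¹ : (EE F)ˣ) : EE F)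
    refine h.congr fun j => ?_
    rw [mul_assoc, ← hv, Units.mul_inv, mul_one]
  obtain ⟨φ, δ, hφ, hδ⟩ := exists_subseq h2
  have hδ' : Filter.Tendsto (fun j => (H (φ j)).det) Filter.atTop (nhds δ) := hδ
  have h3 : δ * δ * (qE D).det = q'.det :=
    tendsto_nhds_unique ((hδ'.mul hδ').mul_const (qE D).det) (h1.comp hφ.tendsto_atTop)
  have hδu : IsUnit δ := by
    rw [← h3, mul_assoc] at hu
    exact isUnit_of_mul_isUnit_left hu
  have hTS : ∀ x : EE F, IsUnit x → dg n x * dg n (Ring.inverse x) = 1 := fun x hx => by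
    rw [← dg_mul, Ring.mul_inverse_cancel x hx, dg_one]
  have hST : ∀ x : EE F, IsUnit x → dg n (Ring.inverse x) * dg n x = 1 := fun x hx => by
    rw [← dg_mul, Ring.inverse_mul_cancel x hx, dg_one]
  have hdet : ∀ j, (H j * dg n (Ring.inverse (H j).det)).det = 1 := fun j => by
    rw [Matrix.det_mul]
    nth_rw 1 [← det_dg_det (H j)]
    rw [← Matrix.det_mul, hTS _ (hH j), Matrix.det_one]
  -- the pairs in the closed orbit
  have hT : Filter.Tendsto (fun j => dg n (H (φ j)).det) Filter.atTop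
      (nhds (dg n δ)) := (continuous_dg.tendsto δ).comp hδ'
  have hS : Filter.Tendsto (fun j => dg n (Ring.inverse (H (φ j)).det)) Filter.atTop
      (nhds (dg n (Ring.inverse δ))) :=
    (continuous_dg.tendsto (Ring.inverse δ)).comp (BX7_inv hδu hδ')
  obtain ⟨H', hH'1, hH'2, hH'3⟩ := BX7_closed hc (BX7_conj hS (hq'.comp hφ.tendsto_atTop))
    (w := fun j i => tensAct (dg n (H (φ j)).det) (w (φ j) i))
    (w' := fun i => tensAct (dg n δ) (w' i))
    (fun i => BX7_tens hT ((tendsto_pi_nhds.1 (hw'.comp hφ.tendsto_atTop)) i))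
    (fun j => H (φ j) * dg n (Ring.inverse (H (φ j)).det)) (fun j => hdet (φ j))
    (fun j => by
      rw [Matrix.transpose_mul]
      simp only [Function.comp_apply, Matrix.mul_assoc])
    (fun j i => by
      rw [← tensAct_mul, Matrix.mul_assoc, hST _ (hH (φ j)), Matrix.mul_one]
      exact hw (φ j) i)
  refine ⟨H' * dg n δ, ?_, fun i => ?_, ?_⟩
  · rw [Matrix.transpose_mul]
    have e := BX7_ST (q' := q') (hST δ hδu)
    rw [hH'2] at e
    rw [← e]
    simp only [Matrix.mul_assoc]
  · rw [tensAct_mul]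
    exact hH'3 i
  · rw [rm_mul, Matrix.det_mul, det_rm_of_det_one hH'1, one_mul]
    have hj : ∀ j, (rm (dg n (H j).det)).det = (rm (H j)).det := fun j => by
      have e : H j = (H j * dg n (Ring.inverse (H j).det)) * dg n (H j).det := by
        rw [Matrix.mul_assoc, hST _ (hH j), Matrix.mul_one]
      conv_rhs => rw [e]
      rw [rm_mul, Matrix.det_mul, det_rm_of_det_one (hdet j), one_mul]
    have h4 : Filter.Tendsto (fun j => (rm (dg n (H (φ j)).det)).det) Filter.atTop
        (nhds (rm (dg n δ)).det) :=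
      ((Continuous.matrix_det continuous_rm).tendsto (dg n δ)).comp hT
    refine tendsto_nhds_unique h4 ?_
    refine (hr.comp hφ.tendsto_atTop).congr fun j => ?_
    rw [Function.comp_apply, hj]

end Pool.Agent.Lib.MP_666dc0_nt.EP
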