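import Pool.Agent.Lib.MP_666dc0_nt.Mg.G062

/-!
# EP, PA7: supports and mesh of the subdivision
-/

namespace Pool.Agent.Lib.MP_666dc0_nt.EP

variable (R : Type) [CommRing R] {E Y : Type} [NormedAddCommGroup E] [NormedSpace ℝ E]

/-- The chains all of whose simplices have vertices in `H` and lie over `y`. -/
def InSet (H : Set E) (y : Y) (n : ℕ) : Submodule R (Simp E Y n →₀ R) :=
  Finsupp.supported R R {s | (∀ j, s.1 j ∈ H) ∧ s.2 = y}

variable {R} {H : Set E} {y : Y}

private theorem single_mem_inSet {n : ℕ} {s : Simp E Y n} (r : R) (h : ∀ j, s.1 j ∈ H)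
    (hy : s.2 = y) : Finsupp.single s r ∈ InSet R H y n := by
  unfold InSet
  rw [Finsupp.mem_supported]
  intro s' hs'
  have h1 := Finsupp.support_single_subset hs'
  rw [Finset.mem_singleton] at h1
  rw [h1]
  exact ⟨h, hy⟩

/-- A linear map which maps the basis vectors of `InSet` to `InSet` maps `InSet` to `InSet`. -/
private theorem map_mem_inSet {n m : ℕ} (f : (Simp E Y n →₀ R) →ₗ[R] (Simp E Y m →₀ R))
    (hf : ∀ s : Simp E Y n, (∀ j, s.1 j ∈ H) → s.2 = y → f (Finsupp.single s 1) ∈ InSet R H y m)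
    {z : Simp E Y n →₀ R} (hz : z ∈ InSet R H y n) : f z ∈ InSet R H y m := by
  have h1 : z = z.sum fun s r => r • Finsupp.single s (1 : R) := by
    conv_lhs => rw [← Finsupp.sum_single z]
    refine Finsupp.sum_congr fun s _ => ?_
    rw [Finsupp.smul_single, smul_eq_mul, mul_one]
  rw [h1, map_finsuppSum]
  refine Submodule.sum_mem _ fun s hs => ?_
  change f (z s • Finsupp.single s (1 : R)) ∈ InSet R H y m
  rw [map_smul]
  refine Submodule.smul_mem _ _ ?_
  have h2 := (Finsupp.mem_supported R z).1 hz hs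
  exact hf s h2.1 h2.2

theorem bary_mem (hH : Convex ℝ H) {n : ℕ} {p : Fin (n + 1) → E} (hp : ∀ j, p j ∈ H) :
    bary p ∈ H := by
  unfold bary
  rw [Finset.smul_sum]
  refine hH.sum_mem (fun i _ => by positivity) ?_ (fun i _ => hp i)
  rw [Finset.sum_const, Finset.card_univ, Fintype.card_fin, nsmul_eq_mul]
  push_cast
  exact mul_inv_cancel₀ (by positivity)

theorem bd_mem_inSet {n : ℕ} {z : Simp E Y (n + 1) →₀ R} (hz : z ∈ InSet R H y (n + 1)) :
    bd R E Y n z ∈ InSet R H y n := by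
  refine map_mem_inSet _ (fun s hs hy => ?_) hz
  rw [bd_single]
  refine Submodule.sum_mem _ fun i _ => ?_
  exact single_mem_inSet _ (fun j => hs _) hy

private theorem cone_single (e : E) (n : ℕ) (s : Simp E Y n) (r : R) :
    cone R Y e n (Finsupp.single s r) = Finsupp.single (Fin.cons e s.1, s.2) r := by
  rw [cone, Finsupp.lmapDomain_apply, Finsupp.mapDomain_single]

theorem cone_mem_inSet {n : ℕ} {e : E} (he : e ∈ H) {z : Simp E Y n →₀ R}
    (hz : z ∈ InSet R H y n) : cone R Y e n z ∈ InSet R H y (n + 1) := by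
  refine map_mem_inSet _ (fun s hs hy => ?_) hz
  rw [cone_single]
  refine single_mem_inSet _ (fun j => ?_) hy
  refine Fin.cases ?_ (fun j' => ?_) j
  · simpa using he
  · simpa using hs j'

/-- The subdivision stays in a convex set. Proof: induction on `n`. -/
theorem sd_mem_inSet (hH : Convex ℝ H) (n : ℕ) {z : Simp E Y n →₀ R} (hz : z ∈ InSet R H y n) :
    sd R n z ∈ InSet R H y n := by
  induction n with
  | zero => exact hz
  | succ n ih =>
    refine map_mem_inSet _ (fun s hs hy => ?_) hz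
    change Finsupp.linearCombination R _ (Finsupp.single s 1) ∈ _
    rw [Finsupp.linearCombination_single, one_smul]
    exact cone_mem_inSet (bary_mem hH hs) (ih (bd_mem_inSet (single_mem_inSet _ hs hy)))

theorem sdT_mem_inSet (hH : Convex ℝ H) (n : ℕ) {z : Simp E Y n →₀ R} (hz : z ∈ InSet R H y n) :
    sdT R n z ∈ InSet R H y (n + 1) := by
  induction n with
  | zero => exact Submodule.zero_mem _
  | succ n ih =>
    refine map_mem_inSet _ (fun s hs hy => ?_) hz
    change Finsupp.linearCombination R _ (Finsupp.single s 1) ∈ _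
    rw [Finsupp.linearCombination_single, one_smul]
    exact cone_mem_inSet (bary_mem hH hs) (Submodule.sub_mem _ (single_mem_inSet _ hs hy)
      (ih (bd_mem_inSet (single_mem_inSet _ hs hy))))

/-- The distance of the barycentre to a point of the hull.
Proof: for a vertex `p i`: `b - p i = (n+1)⁻¹ ∑_j (p j - p i)`, the term `j = i` is `0`, so the norm is
`≤ n/(n+1) δ`; the closed ball around `b` of this radius is convex. -/
theorem dist_bary_le {n : ℕ} {p : Fin (n + 1) → E} {δ : ℝ} (h : ∀ i j, dist (p i) (p j) ≤ δ)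
    (q : E) (hq : q ∈ convexHull ℝ (Set.range p)) :
    dist (bary p) q ≤ (n : ℝ) / ((n : ℝ) + 1) * δ := by
  have hn : (0 : ℝ) < (n : ℝ) + 1 := by positivity
  have hv : ∀ i, dist (bary p) (p i) ≤ (n : ℝ) / ((n : ℝ) + 1) * δ := by
    intro i
    have h1 : bary p - p i = ((n : ℝ) + 1)⁻¹ • ∑ j, (p j - p i) := by
      rw [Finset.sum_sub_distrib, Finset.sum_const, Finset.card_univ, Fintype.card_fin, smul_sub]
      have h2 : ((n : ℝ) + 1)⁻¹ • ((n + 1) • p i) = p i := by
        rw [← Nat.cast_smul_eq_nsmul ℝ, smul_smul]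
        push_cast
        rw [inv_mul_cancel₀ hn.ne', one_smul]
      rw [h2]
      rfl
    have h3 : ‖∑ j, (p j - p i)‖ ≤ (n : ℝ) * δ := by
      rw [← Finset.add_sum_erase _ _ (Finset.mem_univ i), sub_self, zero_add]
      refine (norm_sum_le _ _).trans ?_
      have h4 : ∑ j ∈ Finset.univ.erase i, ‖p j - p i‖ ≤ ∑ j ∈ Finset.univ.erase i, δ :=
        Finset.sum_le_sum fun j _ => by rw [← dist_eq_norm]; exact h j i
      refine h4.trans ?_
      rw [Finset.sum_const, Finset.card_erase_of_mem (Finset.mem_univ i), Finset.card_univ,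
        Fintype.card_fin, nsmul_eq_mul, Nat.add_sub_cancel]
    rw [dist_eq_norm, h1, norm_smul, norm_inv, Real.norm_of_nonneg hn.le]
    calc ((n : ℝ) + 1)⁻¹ * ‖∑ j, (p j - p i)‖ ≤ ((n : ℝ) + 1)⁻¹ * ((n : ℝ) * δ) :=
          mul_le_mul_of_nonneg_left h3 (by positivity)
      _ = (n : ℝ) / ((n : ℝ) + 1) * δ := by
          field_simp
  have hsub : Set.range p ⊆ Metric.closedBall (bary p) ((n : ℝ) / ((n : ℝ) + 1) * δ) := by
    rintro _ ⟨i, rfl⟩
    rw [Metric.mem_closedBall, dist_comm]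
    exact hv i
  have h5 := convexHull_min hsub (convex_closedBall _ _) hq
  rw [Metric.mem_closedBall, dist_comm] at h5
  exact h5

private theorem mem_support_map {α β : Type} (f : (α →₀ R) →ₗ[R] (β →₀ R)) (z : α →₀ R) {b : β}
    (hb : b ∈ (f z).support) : ∃ a ∈ z.support, b ∈ (f (Finsupp.single a 1)).support := by
  classical
  have h1 : f z = ∑ a ∈ z.support, z a • f (Finsupp.single a 1) := by
    conv_lhs => rw [← Finsupp.sum_single z]
    rw [map_finsuppSum]
    refine Finset.sum_congr rfl fun a _ => ?_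
    rw [← map_smul, Finsupp.smul_single, smul_eq_mul, mul_one]
  rw [h1] at hb
  have h2 := Finsupp.support_finsetSum hb
  rw [Finset.mem_biUnion] at h2
  obtain ⟨a, ha, hb'⟩ := h2
  exact ⟨a, ha, Finsupp.support_smul hb'⟩

private theorem mem_support_bd {n : ℕ} {s : Simp E Y (n + 1)} {t : Simp E Y n}
    (ht : t ∈ (bd R E Y n (Finsupp.single s 1)).support) :
    ∃ i : Fin (n + 2), t = ((fun j => s.1 (i.succAbove j)), s.2) := by
  classical
  rw [bd_single] at ht
  have h2 := Finsupp.support_finsetSum ht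
  rw [Finset.mem_biUnion] at h2
  obtain ⟨i, _, hi⟩ := h2
  have h3 := Finsupp.support_single_subset hi
  rw [Finset.mem_singleton] at h3
  exact ⟨i, h3⟩

private theorem sd_succ_single (R : Type) [CommRing R] (n : ℕ) (s : Simp E Y (n + 1)) :
    sd R (n + 1) (Finsupp.single s 1) =
      cone R Y (bary s.1) n (sd R n (bd R E Y n (Finsupp.single s 1))) := by
  have h : sd (E := E) (Y := Y) R (n + 1) = Finsupp.linearCombination R fun s =>
      cone R Y (bary s.1) n (sd R n (bd R E Y n (Finsupp.single s 1))) := rfl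
  rw [h, Finsupp.linearCombination_single, one_smul]

private theorem mem_support_sd {n : ℕ} {s : Simp E Y (n + 1)} {t : Simp E Y (n + 1)}
    (ht : t ∈ (sd R (n + 1) (Finsupp.single s 1)).support) :
    ∃ (i : Fin (n + 2)) (t' : Simp E Y n),
      t' ∈ (sd R n (Finsupp.single (((fun j => s.1 (i.succAbove j)), s.2) : Simp E Y n) 1)).support ∧
        t = (Fin.cons (bary s.1) t'.1, t'.2) := by
  rw [sd_succ_single] at ht
  obtain ⟨t', ht', hb⟩ := mem_support_map (cone R Y (bary s.1) n) _ ht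
  rw [cone_single] at hb
  have h3 := Finsupp.support_single_subset hb
  rw [Finset.mem_singleton] at h3
  obtain ⟨u, hu, hb'⟩ := mem_support_map (sd R n) _ ht'
  obtain ⟨i, rfl⟩ := mem_support_bd hu
  exact ⟨i, t', hb', h3⟩

private theorem frac_mono (n : ℕ) {δ : ℝ} (hδ : 0 ≤ δ) :
    (n : ℝ) / ((n : ℝ) + 1) * δ ≤ ((n + 1 : ℕ) : ℝ) / (((n + 1 : ℕ) : ℝ) + 1) * δ := by
  refine mul_le_mul_of_nonneg_right ?_ hδ
  push_cast
  rw [div_le_div_iff₀ (by positivity) (by positivity)]
  nlinarith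

/-- **Mesh of the subdivision.** If the mutual distances of the vertices of `s` are `≤ δ` then those
of all the simplices of `sd s` are `≤ n/(n+1) δ`.
Proof: induction on `n`. The simplices of `sd s`, `s` of dimension `n + 1`, are `(b(s), s')`, `s'` in
`sd` of a face of `s`. The distances in `s'` are `≤ n/(n+1) δ ≤ (n+1)/(n+2) δ`, and
`dist(b(s), s'_j) ≤ (n+1)/(n+2) δ` by `dist_bary_le`, as `s'_j ∈ hull(s)` by `sd_mem_inSet`. -/
theorem mesh_sd (n : ℕ) (s : Simp E Y n) {δ : ℝ} (hδ : 0 ≤ δ)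
    (h : ∀ i j, dist (s.1 i) (s.1 j) ≤ δ) (s' : Simp E Y n)
    (hs' : s' ∈ (sd R n (Finsupp.single s 1)).support) (i j : Fin (n + 1)) :
    dist (s'.1 i) (s'.1 j) ≤ (n : ℝ) / ((n : ℝ) + 1) * δ := by
  induction n with
  | zero =>
    have hi : i = j := Fin.ext (by have h1 := i.2; have h2 := j.2; omega)
    rw [hi, dist_self]
    simp
  | succ n ih =>
    obtain ⟨k, t', ht', rfl⟩ := mem_support_sd hs'
    have hhull : ∀ l, t'.1 l ∈ convexHull ℝ (Set.range s.1) := by
      have h1 : sd R n (Finsupp.single (((fun j => s.1 (k.succAbove j)), s.2) : Simp E Y n) 1) ∈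
          InSet R (convexHull ℝ (Set.range s.1)) s.2 n :=
        sd_mem_inSet (convex_convexHull ℝ _) n (single_mem_inSet _
          (fun l => subset_convexHull ℝ _ ⟨_, rfl⟩) rfl)
      exact ((Finsupp.mem_supported R _).1 h1 ht').1
    have hb : ∀ l, dist (bary s.1) (t'.1 l) ≤ ((n + 1 : ℕ) : ℝ) / (((n + 1 : ℕ) : ℝ) + 1) * δ :=
      fun l => dist_bary_le h _ (hhull l)
    have hin : ∀ l m, dist (t'.1 l) (t'.1 m) ≤ ((n + 1 : ℕ) : ℝ) / (((n + 1 : ℕ) : ℝ) + 1) * δ :=
      fun l m => (ih _ (fun a b => h _ _) t' ht' l m).trans (frac_mono n hδ)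
    have hnn : 0 ≤ ((n + 1 : ℕ) : ℝ) / (((n + 1 : ℕ) : ℝ) + 1) * δ := by positivity
    refine Fin.cases ?_ (fun i' => ?_) i
    · refine Fin.cases ?_ (fun j' => ?_) j
      · rw [dist_self]; exact hnn
      · simpa using hb j'
    · refine Fin.cases ?_ (fun j' => ?_) j
      · rw [dist_comm]
        simpa using hb i'
      · simpa using hin i' j'

private theorem sd_support_inSet {n : ℕ} {s s' : Simp E Y n} (hH : Convex ℝ H)
    (hs : ∀ j, s.1 j ∈ H) (hs' : s' ∈ (sd R n (Finsupp.single s 1)).support) :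
    (∀ j, s'.1 j ∈ H) ∧ s'.2 = s.2 := by
  have h1 : sd R n (Finsupp.single s 1) ∈ InSet R H s.2 n :=
    sd_mem_inSet hH n (single_mem_inSet _ hs rfl)
  exact (Finsupp.mem_supported R _).1 h1 hs'

/-- The iterated version with explicit constants. -/
private theorem mesh_pow (n : ℕ) (s : Simp E Y n) {δ : ℝ} (hδ : 0 ≤ δ)
    (h : ∀ i j, dist (s.1 i) (s.1 j) ≤ δ) (k : ℕ) :
    ∀ s' ∈ ((sd R n ^ k) (Finsupp.single s 1)).support,
      (∀ i j, dist (s'.1 i) (s'.1 j) ≤ ((n : ℝ) / ((n : ℝ) + 1)) ^ k * δ) ∧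
        (∀ j, s'.1 j ∈ convexHull ℝ (Set.range s.1)) ∧ s'.2 = s.2 := by
  induction k with
  | zero =>
    intro s' hs'
    rw [pow_zero] at hs'
    have h3 := Finsupp.support_single_subset hs'
    rw [Finset.mem_singleton] at h3
    rw [h3]
    refine ⟨fun i j => ?_, fun j => subset_convexHull ℝ _ ⟨_, rfl⟩, rfl⟩
    rw [pow_zero, one_mul]
    exact h i j
  | succ k ih =>
    intro s' hs'
    rw [pow_succ'] at hs'
    change s' ∈ (sd R n ((sd R n ^ k) (Finsupp.single s 1))).support at hs'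
    obtain ⟨t, ht, hb⟩ := mem_support_map (sd R n) _ hs'
    obtain ⟨h1, h2, h3⟩ := ih t ht
    have hq : (0 : ℝ) ≤ (n : ℝ) / ((n : ℝ) + 1) := by positivity
    have h4 := mesh_sd n t (δ := ((n : ℝ) / ((n : ℝ) + 1)) ^ k * δ) (by positivity) h1 s' hb
    have h5 := sd_support_inSet (convex_convexHull ℝ (Set.range s.1)) h2 hb
    refine ⟨fun i j => ?_, h5.1, h5.2.trans h3⟩
    refine (h4 i j).trans (le_of_eq ?_)
    rw [pow_succ']
    ring

/-- Iteration: for every `δ' > 0` all the simplices of `sd^k s` have mutual distances of the vertices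
`< δ'` and vertices in the hull of `s`, if `k` is large. -/
theorem exists_mesh (n : ℕ) (s : Simp E Y n) {δ' : ℝ} (hδ' : 0 < δ') :
    ∃ k₀ : ℕ, ∀ k ≥ k₀, ∀ s' ∈ ((sd R n ^ k) (Finsupp.single s 1)).support,
      (∀ i j, dist (s'.1 i) (s'.1 j) < δ') ∧ (∀ j, s'.1 j ∈ convexHull ℝ (Set.range s.1)) ∧
        s'.2 = s.2 := by
  obtain ⟨δ, hδ, hd⟩ : ∃ δ : ℝ, 0 ≤ δ ∧ ∀ i j, dist (s.1 i) (s.1 j) ≤ δ := by
    refine ⟨∑ i, ∑ j, dist (s.1 i) (s.1 j), by positivity, fun i j => ?_⟩
    calc dist (s.1 i) (s.1 j) ≤ ∑ j, dist (s.1 i) (s.1 j) :=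
          Finset.single_le_sum (f := fun j => dist (s.1 i) (s.1 j)) (fun _ _ => dist_nonneg)
            (Finset.mem_univ j)
      _ ≤ ∑ i, ∑ j, dist (s.1 i) (s.1 j) :=
          Finset.single_le_sum (f := fun i => ∑ j, dist (s.1 i) (s.1 j))
            (fun _ _ => Finset.sum_nonneg fun _ _ => dist_nonneg) (Finset.mem_univ i)
  have hq0 : (0 : ℝ) ≤ (n : ℝ) / ((n : ℝ) + 1) := by positivity
  have hq1 : (n : ℝ) / ((n : ℝ) + 1) < 1 := by
    rw [div_lt_one (by positivity)]
    linarith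
  have hlim : Filter.Tendsto (fun k : ℕ => ((n : ℝ) / ((n : ℝ) + 1)) ^ k * δ) Filter.atTop
      (nhds (0 * δ)) := (tendsto_pow_atTop_nhds_zero_of_lt_one hq0 hq1).mul_const δ
  rw [zero_mul] at hlim
  obtain ⟨k₀, hk₀⟩ := Filter.eventually_atTop.1 (hlim.eventually (gt_mem_nhds hδ'))
  refine ⟨k₀, fun k hk s' hs' => ?_⟩
  obtain ⟨h1, h2, h3⟩ := mesh_pow n s hδ hd k s' hs'
  exact ⟨fun i j => (h1 i j).trans_lt (hk₀ k hk), h2, h3⟩

end Pool.Agent.Lib.MP_666dc0_nt.EP
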