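import Pool.Agent.Lib.MP_666dc0_nt.EP.PA5
import Pool.Agent.Lib.MP_666dc0_nt.EP.PA7

/-!
# EP, PA8: the small chains form an exact complex
-/

namespace Pool.Agent.Lib.MP_666dc0_nt.EP

private theorem map_mem_supp {R : Type} [CommRing R] {α β : Type} (f : (α →₀ R) →ₗ[R] (β →₀ R))
    {S : Set α} (N : Submodule R (β →₀ R)) (hf : ∀ s ∈ S, f (Finsupp.single s 1) ∈ N)
    {z : α →₀ R} (hz : z ∈ Finsupp.supported R R S) : f z ∈ N := by
  have h1 : z = z.sum fun s r => r • Finsupp.single s (1 : R) := by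
    conv_lhs => rw [← Finsupp.sum_single z]
    refine Finsupp.sum_congr fun s _ => ?_
    rw [Finsupp.smul_single, smul_eq_mul, mul_one]
  rw [h1, map_finsuppSum]
  refine Submodule.sum_mem _ fun s hs => ?_
  change f (z s • Finsupp.single s (1 : R)) ∈ N
  rw [map_smul]
  exact Submodule.smul_mem _ _ (hf s ((Finsupp.mem_supported R z).1 hz hs))

namespace Cover

variable {A Y E : Type} [Group A] [MulAction A Y] [NormedAddCommGroup E] [NormedSpace ℝ E]
  [DistribMulAction A E] {PP : Set E} (c : Cover A Y E PP)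

/-- The simplex `s` is small (with respect to the index function `ι`): its hull is contained in `PP`
and in all the sets `V i`, `i ∈ ι q y`, `q` in the hull. -/
def IsSmall (ι : E → Y → Finset c.I) {n : ℕ} (s : Simp E Y n) : Prop :=
  convexHull ℝ (Set.range s.1) ⊆ PP ∧
    ∀ q ∈ convexHull ℝ (Set.range s.1), ∀ i ∈ ι q s.2, convexHull ℝ (Set.range s.1) ⊆ c.V i

/-- The small chains. -/
def Small (R : Type) [CommRing R] (ι : E → Y → Finset c.I) (n : ℕ) : Submodule R (Simp E Y n →₀ R) :=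
  Finsupp.supported R R {s | c.IsSmall ι s}

variable {R : Type} [CommRing R] {ι : E → Y → Finset c.I}

/-- Smallness is inherited by simplices with vertices in the hull. -/
theorem IsSmall.mono {n m : ℕ} {s : Simp E Y n} {s' : Simp E Y m} (hs : c.IsSmall ι s)
    (h : ∀ j, s'.1 j ∈ convexHull ℝ (Set.range s.1)) (hy : s'.2 = s.2) : c.IsSmall ι s' := by
  have h1 : convexHull ℝ (Set.range s'.1) ⊆ convexHull ℝ (Set.range s.1) := by
    refine convexHull_min ?_ (convex_convexHull ℝ _)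
    rintro _ ⟨j, rfl⟩
    exact h j
  refine ⟨h1.trans hs.1, fun q hq i hi => ?_⟩
  rw [hy] at hi
  exact h1.trans (hs.2 q (h1 hq) i hi)

private theorem single_mem_small {n : ℕ} {s : Simp E Y n} (r : R) (h : c.IsSmall ι s) :
    Finsupp.single s r ∈ c.Small R ι n := by
  unfold Small
  rw [Finsupp.mem_supported]
  intro s' hs'
  have h1 := Finsupp.support_single_subset hs'
  rw [Finset.mem_singleton] at h1
  rw [h1]
  exact h

private theorem mem_small_of_inSet {n m : ℕ} {s : Simp E Y n} (hs : c.IsSmall ι s)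
    {z : Simp E Y m →₀ R} (hz : z ∈ InSet R (convexHull ℝ (Set.range s.1)) s.2 m) :
    z ∈ c.Small R ι m := by
  unfold Small
  rw [Finsupp.mem_supported]
  intro s' hs'
  have h1 := (Finsupp.mem_supported R z).1 hz hs'
  exact IsSmall.mono c hs h1.1 h1.2

private theorem single_mem_in {n : ℕ} (s : Simp E Y n) :
    Finsupp.single s (1 : R) ∈ InSet R (convexHull ℝ (Set.range s.1)) s.2 n := by
  unfold InSet
  rw [Finsupp.mem_supported]
  intro s' hs'
  have h1 := Finsupp.support_single_subset hs'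
  rw [Finset.mem_singleton] at h1
  rw [h1]
  exact ⟨fun j => subset_convexHull ℝ _ ⟨j, rfl⟩, rfl⟩

theorem bd_mem_small {n : ℕ} {z : Simp E Y (n + 1) →₀ R} (hz : z ∈ c.Small R ι (n + 1)) :
    bd R E Y n z ∈ c.Small R ι n := by
  refine map_mem_supp _ _ (fun s hs => ?_) hz
  exact mem_small_of_inSet c hs (bd_mem_inSet (single_mem_in s))

/-- Proof: `sd_mem_inSet` for the hull of every simplex of `z`. -/
theorem sd_mem_small {n : ℕ} {z : Simp E Y n →₀ R} (hz : z ∈ c.Small R ι n) :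
    sd R n z ∈ c.Small R ι n := by
  refine map_mem_supp _ _ (fun s hs => ?_) hz
  exact mem_small_of_inSet c hs (sd_mem_inSet (convex_convexHull ℝ _) n (single_mem_in s))

theorem sdT_mem_small {n : ℕ} {z : Simp E Y n →₀ R} (hz : z ∈ c.Small R ι n) :
    sdT R n z ∈ c.Small R ι (n + 1) := by
  refine map_mem_supp _ _ (fun s hs => ?_) hz
  exact mem_small_of_inSet c hs (sdT_mem_inSet (convex_convexHull ℝ _) n (single_mem_in s))

private theorem exists_single_small (hconv : Convex ℝ PP)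
    (hι : ∀ p ∈ PP, ∀ y, (ι p y).Nonempty ∧ ∀ i ∈ ι p y, c.y i = y ∧ p ∈ c.V' i) (n : ℕ) (s : Simp E Y n)
    (hs : ∀ j, s.1 j ∈ PP) :
    ∃ k₀ : ℕ, ∀ k ≥ k₀, (sd R n ^ k) (Finsupp.single s 1) ∈ c.Small R ι n := by
  have hK : IsCompact (convexHull ℝ (Set.range s.1)) :=
    Set.Finite.isCompact_convexHull ℝ (Set.finite_range s.1)
  have hKP : convexHull ℝ (Set.range s.1) ⊆ PP := by
    refine convexHull_min ?_ hconv
    rintro _ ⟨j, rfl⟩
    exact hs j
  have hnhd : ∀ x : {x // x ∈ convexHull ℝ (Set.range s.1)}, ∃ O : Set E, IsOpen O ∧ x.1 ∈ O ∧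
      ∀ q ∈ O ∩ PP, ∀ i ∈ ι q s.2, O ∩ PP ⊆ c.V i :=
    fun x => c.exists_nhd hι x.1 (hKP x.2) s.2
  choose O hO hxO hOV using hnhd
  obtain ⟨δ, hδ, hball⟩ := lebesgue_number_lemma_of_metric hK hO
    (fun x hx => Set.mem_iUnion.2 ⟨⟨x, hx⟩, hxO ⟨x, hx⟩⟩)
  obtain ⟨k₀, hk₀⟩ := exists_mesh (R := R) n s hδ
  refine ⟨k₀, fun k hk => ?_⟩
  unfold Small
  rw [Finsupp.mem_supported]
  intro s' hs'
  obtain ⟨hd, hv, hy⟩ := hk₀ k hk s' hs'
  have hsub : convexHull ℝ (Set.range s'.1) ⊆ convexHull ℝ (Set.range s.1) := by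
    refine convexHull_min ?_ (convex_convexHull ℝ _)
    rintro _ ⟨j, rfl⟩
    exact hv j
  obtain ⟨i, hi⟩ := hball (s'.1 0) (hv 0)
  have hsb : convexHull ℝ (Set.range s'.1) ⊆ Metric.ball (s'.1 0) δ := by
    refine convexHull_min ?_ (convex_ball _ _)
    rintro _ ⟨j, rfl⟩
    exact hd j 0
  have hOP : convexHull ℝ (Set.range s'.1) ⊆ O i ∩ PP :=
    fun q hq => ⟨hi (hsb hq), hKP (hsub hq)⟩
  refine ⟨hsub.trans hKP, fun q hq j hj => ?_⟩
  rw [hy] at hj
  exact hOP.trans (hOV i q (hOP hq) j hj)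

/-- Lebesgue: every chain with vertices in `PP` becomes small after sufficiently many subdivisions.
Proof: it is enough to consider `single s 1` (finite sums: take the maximum of the `k₀`). The hull `K`
of `s` is compact and contained in `PP`. By `exists_nhd` and the Lebesgue number lemma
(`lebesgue_number_lemma_of_metric`) there is `δ' > 0` such that for every `x ∈ K` the ball
`ball x δ'` is contained in one of the open sets `O` of `exists_nhd`. Take `k₀` from `exists_mesh`. Let `s'` be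
a simplex of `sd^k s`: its vertices are in `K` and in the ball around `x = s'_0`, and so is its hull
(balls are convex), which is contained in `O ∩ PP`; so for `q` in the hull, `hull ⊆ O ∩ PP ⊆ V (ι q y)`. -/
theorem exists_sd_small (hconv : Convex ℝ PP)
    (hι : ∀ p ∈ PP, ∀ y, (ι p y).Nonempty ∧ ∀ i ∈ ι p y, c.y i = y ∧ p ∈ c.V' i) (n : ℕ) (z : Simp E Y n →₀ R)
    (hz : ∀ s ∈ z.support, ∀ j, s.1 j ∈ PP) :
    ∃ k₀ : ℕ, ∀ k ≥ k₀, (sd R n ^ k) z ∈ c.Small R ι n := by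
  classical
  have h1 : ∀ s : {s // s ∈ z.support}, ∃ k₀ : ℕ, ∀ k ≥ k₀,
      (sd R n ^ k) (Finsupp.single s.1 1) ∈ c.Small R ι n :=
    fun s => c.exists_single_small hconv hι n s.1 (hz s.1 s.2)
  choose k₀ hk₀ using h1
  refine ⟨∑ s ∈ z.support.attach, k₀ s, fun k hk => ?_⟩
  refine map_mem_supp (S := (z.support : Set (Simp E Y n))) (sd R n ^ k) _ (fun s hs => ?_)
    ((Finsupp.mem_supported R z).2 (Set.Subset.refl _))
  refine hk₀ ⟨s, hs⟩ k (le_trans ?_ hk)
  exact Finset.single_le_sum (f := k₀) (fun _ _ => Nat.zero_le _) (Finset.mem_attach _ _)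

/-- The vertices of small chains are in `PP`. -/
theorem mem_PP_of_small {n : ℕ} {z : Simp E Y n →₀ R} (hz : z ∈ c.Small R ι n) :
    ∀ s ∈ z.support, ∀ j, s.1 j ∈ PP := by
  intro s hs j
  exact ((Finsupp.mem_supported R z).1 hz hs).1 (subset_convexHull ℝ _ ⟨j, rfl⟩)

private theorem sd_pow_mem_small {n : ℕ} {z : Simp E Y n →₀ R} (hz : z ∈ c.Small R ι n) (j : ℕ) :
    (sd R n ^ j) z ∈ c.Small R ι n := by
  induction j with
  | zero => exact hz
  | succ j ih =>
    rw [pow_succ']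
    exact c.sd_mem_small ih

private theorem cone_PP {n : ℕ} {z : Simp E Y n →₀ R} {e : E} (he : e ∈ PP)
    (hz : ∀ s ∈ z.support, ∀ j, s.1 j ∈ PP) :
    ∀ s ∈ (cone R Y e n z).support, ∀ j, s.1 j ∈ PP := by
  classical
  intro s hs j
  unfold cone at hs
  rw [Finsupp.lmapDomain_apply] at hs
  have h1 := Finsupp.mapDomain_support hs
  rw [Finset.mem_image] at h1
  obtain ⟨s', hs', rfl⟩ := h1
  refine Fin.cases ?_ (fun j' => ?_) j
  · simpa using he
  · simpa using hz s' hs' j'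

/-- **Exactness of the small chains** in degrees `≥ 1`.
Proof: let `e₀ ∈ PP`, `u = cone_{e₀} z`: `∂ u = z` (`bd_cone`). `sd^k u` is small for large `k`, and
`∂ (sd^k u) = sd^k z`, `z - sd^k z = ∂ T_k z` with `T_k z` small (`exists_iterate`). -/
theorem small_exact (hconv : Convex ℝ PP) (hne : PP.Nonempty)
    (hι : ∀ p ∈ PP, ∀ y, (ι p y).Nonempty ∧ ∀ i ∈ ι p y, c.y i = y ∧ p ∈ c.V' i) (n : ℕ)
    {z : Simp E Y (n + 1) →₀ R} (hz : z ∈ c.Small R ι (n + 1)) (hz0 : bd R E Y n z = 0) :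
    ∃ u ∈ c.Small R ι (n + 2), bd R E Y (n + 1) u = z := by
  obtain ⟨e₀, he₀⟩ := hne
  have hb : bd R E Y (n + 1) (cone R Y e₀ (n + 1) z) = z := by
    have h := LinearMap.congr_fun (bd_cone (R := R) (X := Y) e₀ n) z
    change bd R E Y (n + 1) (cone R Y e₀ (n + 1) z) + cone R Y e₀ n (bd R E Y n z) = z at h
    rw [hz0, map_zero, add_zero] at h
    exact h
  obtain ⟨k, hk⟩ := c.exists_sd_small hconv hι (n + 2) (cone R Y e₀ (n + 1) z)
    (cone_PP he₀ (c.mem_PP_of_small hz))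
  refine ⟨(sd R (n + 2) ^ k) (cone R Y e₀ (n + 1) z) +
    ∑ j ∈ Finset.range k, sdT R (n + 1) ((sd R (n + 1) ^ j) z), ?_, ?_⟩
  · refine Submodule.add_mem _ (hk k le_rfl) (Submodule.sum_mem _ fun j _ => ?_)
    exact c.sdT_mem_small (c.sd_pow_mem_small hz j)
  · rw [map_add, bd_sd_pow, hb, ← exists_iterate k n z hz0, add_sub_cancel]

/-- The same in degree `0` (`bd_cone_zero`: `∂ cone_{e₀} z = z - (e₀; aug z)`). -/
theorem small_exact_zero (hconv : Convex ℝ PP) (hne : PP.Nonempty)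
    (hι : ∀ p ∈ PP, ∀ y, (ι p y).Nonempty ∧ ∀ i ∈ ι p y, c.y i = y ∧ p ∈ c.V' i)
    {z : Simp E Y 0 →₀ R} (hz : z ∈ c.Small R ι 0) (hz0 : aug R E Y z = 0) :
    ∃ u ∈ c.Small R ι 1, bd R E Y 0 u = z := by
  obtain ⟨e₀, he₀⟩ := hne
  have hb : bd R E Y 0 (cone R Y e₀ 0 z) = z := by
    have h := LinearMap.congr_fun (bd_cone_zero (R := R) (X := Y) e₀) z
    change bd R E Y 0 (cone R Y e₀ 0 z) + Finsupp.lmapDomain R R
      (fun x : Y => ((fun _ => e₀ : Fin 1 → E), x)) (aug R E Y z) = z at h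
    rw [hz0, map_zero, add_zero] at h
    exact h
  obtain ⟨k, hk⟩ := c.exists_sd_small hconv hι 1 (cone R Y e₀ 0 z)
    (cone_PP he₀ (c.mem_PP_of_small hz))
  refine ⟨(sd R 1 ^ k) (cone R Y e₀ 0 z) +
    ∑ j ∈ Finset.range k, sdT R 0 ((sd R 0 ^ j) z), ?_, ?_⟩
  · refine Submodule.add_mem _ (hk k le_rfl) (Submodule.sum_mem _ fun j _ => ?_)
    exact c.sdT_mem_small (c.sd_pow_mem_small hz j)
  · have h1 := bd_sd_pow k 0 (cone R Y e₀ 0 z)
    rw [map_add]
    change bd R E Y 0 ((sd R (0 + 1) ^ k) (cone R Y e₀ 0 z)) + _ = z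
    rw [h1, hb, ← exists_iterate_zero k z, add_sub_cancel]

/-- The augmentation of the small chains is onto: points are small (`p ∈ V' (ι p y) ⊆ V (ι p y)`). -/
theorem small_surj (hne : PP.Nonempty)
    (hι : ∀ p ∈ PP, ∀ y, (ι p y).Nonempty ∧ ∀ i ∈ ι p y, c.y i = y ∧ p ∈ c.V' i) (m : Y →₀ R) :
    ∃ u ∈ c.Small R ι 0, aug R E Y u = m := by
  classical
  obtain ⟨e₀, he₀⟩ := hne
  refine ⟨Finsupp.mapDomain (fun y => ((fun _ => e₀ : Fin 1 → E), y)) m, ?_, ?_⟩
  · unfold Small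
    rw [Finsupp.mem_supported]
    intro s hs
    have h1 := Finsupp.mapDomain_support hs
    rw [Finset.mem_image] at h1
    obtain ⟨y, _, rfl⟩ := h1
    have h2 : convexHull ℝ (Set.range (fun _ : Fin 1 => e₀)) = {e₀} := by
      rw [Set.range_const, convexHull_singleton]
    refine ⟨?_, fun q hq i hi => ?_⟩
    · change convexHull ℝ (Set.range (fun _ : Fin 1 => e₀)) ⊆ PP
      rw [h2]
      exact Set.singleton_subset_iff.2 he₀
    · change convexHull ℝ (Set.range (fun _ : Fin 1 => e₀)) ⊆ c.V i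
      change q ∈ convexHull ℝ (Set.range (fun _ : Fin 1 => e₀)) at hq
      change i ∈ ι q y at hi
      rw [h2] at hq ⊢
      rw [Set.mem_singleton_iff.1 hq] at hi
      exact Set.singleton_subset_iff.2 (c.V'_sub _ ((hι e₀ he₀ y).2 i hi).2)
  · unfold aug
    rw [Finsupp.lmapDomain_apply, ← Finsupp.mapDomain_comp]
    exact Finsupp.mapDomain_id

end Cover

end Pool.Agent.Lib.MP_666dc0_nt.EP
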