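import Pool.Agent.Lib.MP_666dc0_nt.EP.C2f
import Pool.Agent.Lib.MP_666dc0_nt.Mg.G063
import Pool.Agent.Lib.MP_666dc0_nt.Mg.G064

/-!
# EP, PA10: a cover makes the set finitely dominated
-/

namespace Pool.Agent.Lib.MP_666dc0_nt.EP

/-- The lifting lemma with values in a stable submodule `M`. Same proof as `exists_lift_free`
(EP/C3a.lean). -/
theorem exists_lift_free_mem {R A : Type} [CommRing R] [Group A] {Y Z Z' : Type} [MulAction A Y]
    [MulAction A Z] [MulAction A Z'] (hfree : ∀ (a : A) (y : Y), a • y = y → a = 1)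
    {D : (Z →₀ R) →ₗ[R] (Z' →₀ R)} (hD : Equi A D) {w : (Y →₀ R) →ₗ[R] (Z' →₀ R)} (hw : Equi A w)
    (M : Submodule R (Z →₀ R)) (hM : ∀ (a : A), ∀ m ∈ M, Finsupp.mapDomain (fun z => a • z) m ∈ M)
    (h : ∀ y : Y, ∃ u ∈ M, D u = w (Finsupp.single y 1)) :
    ∃ f : (Y →₀ R) →ₗ[R] (Z →₀ R), Equi A f ∧ (∀ m, f m ∈ M) ∧ D ∘ₗ f = w := by
  let rep : Y → Y := fun y => (Quotient.mk (MulAction.orbitRel A Y) y).out
  have hrep : ∀ y, ∃ a : A, a • rep y = y := by
    intro y
    have h1 : (MulAction.orbitRel A Y) y (rep y) :=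
      Quotient.exact (Quotient.out_eq (Quotient.mk (MulAction.orbitRel A Y) y)).symm
    rw [MulAction.orbitRel_apply] at h1
    exact MulAction.mem_orbit_iff.1 h1
  have hrep2 : ∀ (b : A) (y : Y), rep (b • y) = rep y := by
    intro b y
    have h1 : Quotient.mk (MulAction.orbitRel A Y) (b • y) =
        Quotient.mk (MulAction.orbitRel A Y) y := by
      apply Quotient.sound
      show (MulAction.orbitRel A Y) (b • y) y
      rw [MulAction.orbitRel_apply]
      exact MulAction.mem_orbit y b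
    show (Quotient.mk (MulAction.orbitRel A Y) (b • y)).out = _
    rw [h1]
  choose a ha using hrep
  have ha2 : ∀ (b : A) (y : Y), a (b • y) = b * a y := by
    intro b y
    have h1 : a (b • y) • rep y = b • y := by
      have := ha (b • y)
      rwa [hrep2] at this
    have h2 : ((b * a y)⁻¹ * a (b • y)) • rep y = rep y := by
      rw [mul_smul, h1, inv_smul_eq_iff, mul_smul, ha]
    have h3 := hfree _ _ h2
    rw [inv_mul_eq_one] at h3
    exact h3.symm
  choose z hzM hz using h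
  refine ⟨Finsupp.linearCombination R fun y =>
    Finsupp.mapDomain (fun x => a y • x) (z (rep y)), ?_, ?_, ?_⟩
  · apply Equi.of_single
    intro b y
    rw [Finsupp.linearCombination_single, Finsupp.linearCombination_single, one_smul, one_smul,
      hrep2, ha2, ← Finsupp.mapDomain_comp]
    congr 1
    funext x
    exact mul_smul b (a y) x
  · intro m
    rw [Finsupp.linearCombination_apply, Finsupp.sum]
    exact Submodule.sum_mem _ fun y _ => M.smul_mem _ (hM _ _ (hzM _))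
  · apply Finsupp.lhom_ext'
    intro y
    apply LinearMap.ext_ring
    show D (Finsupp.linearCombination R (fun y =>
      Finsupp.mapDomain (fun x => a y • x) (z (rep y))) (Finsupp.single y 1)) =
        w (Finsupp.single y 1)
    rw [Finsupp.linearCombination_single, one_smul, hD, hz, ← hw.single, ha]

namespace Cover

variable {A Y E : Type} [Group A] [MulAction A Y] [NormedAddCommGroup E] [NormedSpace ℝ E]
  [DistribMulAction A E] [SMulCommClass A ℝ E] {PP : Set E} (c : Cover A Y E PP) {R : Type}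
  [CommRing R]

/-- Two consecutive terms of the chain map to the small chains. -/
private def PA10_Pair (R : Type) [CommRing R] (ι : E → Y → Finset c.I) (P : Res R A Y) (n : ℕ) : Type :=
  {p : ((P.Y n →₀ R) →ₗ[R] (Simp E Y n →₀ R)) ×
      ((P.Y (n + 1) →₀ R) →ₗ[R] (Simp E Y (n + 1) →₀ R)) //
    Equi A p.2 ∧ (∀ m, p.1 m ∈ c.Small R ι n) ∧ (∀ m, p.2 m ∈ c.Small R ι (n + 1)) ∧
      bd R E Y n ∘ₗ p.2 = p.1 ∘ₗ P.d n}

private theorem PA10_step (hconv : Convex ℝ PP) (hne : PP.Nonempty)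
    (hPP : ∀ (a : A) (p : E), a • p ∈ PP ↔ p ∈ PP) {ι : E → Y → Finset c.I}
    (hι : ∀ p ∈ PP, ∀ y, (ι p y).Nonempty ∧ ∀ i ∈ ι p y, c.y i = y ∧ p ∈ c.V' i)
    (hι' : ∀ p ∈ PP, ∀ (y : Y) (a : A), ι (a • p) (a • y) = c.sm a (ι p y)) (P : Res R A Y) (n : ℕ)
    (p : c.PA10_Pair R ι P n) :
    ∃ q : (P.Y (n + 2) →₀ R) →ₗ[R] (Simp E Y (n + 2) →₀ R), Equi A q ∧
      (∀ m, q m ∈ c.Small R ι (n + 2)) ∧ bd R E Y (n + 1) ∘ₗ q = p.1.2 ∘ₗ P.d (n + 1) := by
  refine exists_lift_free_mem (P.free (n + 2)) (equi_bd (n + 1))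
    (p.2.1.comp (P.equi_d (n + 1))) (c.Small R ι (n + 2))
    (fun a m hm => c.smul_mem_small hPP hι' a (n + 2) hm) ?_
  intro y
  refine c.small_exact hconv hne hι n (p.2.2.2.1 _) ?_
  have h1 := LinearMap.congr_fun p.2.2.2.2 (P.d (n + 1) (Finsupp.single y 1))
  have h2 := LinearMap.congr_fun (P.d_comp_d n) (Finsupp.single y 1)
  simp only [LinearMap.comp_apply, LinearMap.zero_apply] at h1 h2 ⊢
  rw [h1, h2, map_zero]

/-- There is a chain map from a resolution to the small chains.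
Proof: recursion as in EP/C3b.lean, with `exists_lift_free_mem`, `small_surj`, `small_exact_zero`,
`small_exact`, `smul_mem_small`. -/
theorem exists_toSmall (hconv : Convex ℝ PP) (hne : PP.Nonempty)
    (hPP : ∀ (a : A) (p : E), a • p ∈ PP ↔ p ∈ PP) {ι : E → Y → Finset c.I}
    (hι : ∀ p ∈ PP, ∀ y, (ι p y).Nonempty ∧ ∀ i ∈ ι p y, c.y i = y ∧ p ∈ c.V' i)
    (hι' : ∀ p ∈ PP, ∀ (y : Y) (a : A), ι (a • p) (a • y) = c.sm a (ι p y)) (P : Res R A Y) :
    ∃ f : ∀ n, (P.Y n →₀ R) →ₗ[R] (Simp E Y n →₀ R), (∀ n, Equi A (f n)) ∧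
      (∀ n m, f n m ∈ c.Small R ι n) ∧ aug R E Y ∘ₗ f 0 = P.ε ∧
      ∀ n, bd R E Y n ∘ₗ f (n + 1) = f n ∘ₗ P.d n := by
  obtain ⟨f0, hf0, hf0m, hf0c⟩ := exists_lift_free_mem (P.free 0) (equi_aug (R := R) (E := E))
    P.equi_ε (c.Small R ι 0) (fun a m hm => c.smul_mem_small hPP hι' a 0 hm)
    (fun y => c.small_surj hne hι _)
  obtain ⟨f1, hf1, hf1m, hf1c⟩ := exists_lift_free_mem (P.free 1) (equi_bd (R := R) (E := E) 0)
    (hf0.comp (P.equi_d 0)) (c.Small R ι 1) (fun a m hm => c.smul_mem_small hPP hι' a 1 hm) (by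
      intro y
      refine c.small_exact_zero hconv hne hι (hf0m _) ?_
      have h1 := LinearMap.congr_fun hf0c (P.d 0 (Finsupp.single y 1))
      have h2 := LinearMap.congr_fun P.ε_comp_d (Finsupp.single y 1)
      simp only [LinearMap.comp_apply, LinearMap.zero_apply] at h1 h2 ⊢
      rw [h1, h2])
  let S : ∀ n, c.PA10_Pair R ι P n := fun n => Nat.rec (motive := fun n => c.PA10_Pair R ι P n)
    ⟨(f0, f1), hf1, hf0m, hf1m, hf1c⟩
    (fun n p => ⟨(p.1.2, (c.PA10_step hconv hne hPP hι hι' P n p).choose),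
      (c.PA10_step hconv hne hPP hι hι' P n p).choose_spec.1, p.2.2.2.1,
      (c.PA10_step hconv hne hPP hι hι' P n p).choose_spec.2.1,
      (c.PA10_step hconv hne hPP hι hι' P n p).choose_spec.2.2⟩) n
  refine ⟨fun n => (S n).1.1, ?_, fun n m => (S n).2.2.1 m, hf0c, ?_⟩
  · intro n
    cases n with
    | zero => exact hf0
    | succ n => exact (S n).2.1
  · intro n
    exact (S n).2.2.2.2

include c in
/-- **A cover makes `Y` finitely dominated.**
Proof: `P = Res.std R A A Y` (with `A` acting on itself by left multiplication),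
`i = j ∘ toNerve ∘ f`. -/
theorem isFD (hconv : Convex ℝ PP) (hne : PP.Nonempty)
    (hPP : ∀ (a : A) (p : E), a • p ∈ PP ↔ p ∈ PP) : IsFD R A Y := by
  obtain ⟨ι, hι0, hι'⟩ := c.exists_index hPP
  obtain ⟨N, m, C, j, hm, hC, hj⟩ := c.exists_map_isFin (R := R)
  let P : Res R A Y := Res.std R A A Y fun a e _ he _ => by
    have h1 : a * e = e := he
    exact mul_eq_right.1 h1
  obtain ⟨f, hf, hfs, hf0, hf1⟩ := c.exists_toSmall hconv hne hPP hι0 hι' P
  refine ⟨P, C, N, m, fun n => j n ∘ₗ c.toNerve R ι n ∘ₗ f n, hm, hC,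
    ⟨fun n => ?_, ?_, fun n => ?_⟩⟩
  · refine (hj.equi n).comp ?_
    intro a u
    change c.toNerve R ι n (f n _) = Finsupp.mapDomain _ (c.toNerve R ι n (f n u))
    exact (congrArg (c.toNerve R ι n) (hf n a u)).trans (c.toNerve_smul hι' a n (hfs n u))
  · apply LinearMap.ext
    intro u
    change C.ε (j 0 (c.toNerve R ι 0 (f 0 u))) = (m : R) • P.ε u
    have h1 := LinearMap.congr_fun hj.comm_ε (c.toNerve R ι 0 (f 0 u))
    change C.ε (j 0 (c.toNerve R ι 0 (f 0 u))) = (m : R) • c.εC R (c.toNerve R ι 0 (f 0 u)) at h1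
    rw [h1]
    exact congrArg (fun x => (m : R) • x)
      ((c.εC_toNerve hι0 (hfs 0 u)).trans (LinearMap.congr_fun hf0 u))
  · apply LinearMap.ext
    intro u
    change C.d n (j (n + 1) (c.toNerve R ι (n + 1) (f (n + 1) u))) =
      j n (c.toNerve R ι n (f n (P.d n u)))
    have h1 := LinearMap.congr_fun (hj.comm_d n) (c.toNerve R ι (n + 1) (f (n + 1) u))
    change C.d n (j (n + 1) (c.toNerve R ι (n + 1) (f (n + 1) u))) =
      j n (c.dC R n (c.toNerve R ι (n + 1) (f (n + 1) u))) at h1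
    rw [h1]
    exact congrArg (j n) ((c.dC_toNerve hι0 n (hfs (n + 1) u)).trans
      (congrArg (c.toNerve R ι n) (LinearMap.congr_fun (hf1 n) u)))

end Cover

end Pool.Agent.Lib.MP_666dc0_nt.EP
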