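import Pool.Agent.Lib.MP_666dc0_nt.EP.BW2
import Pool.Agent.Lib.MP_666dc0_nt.EP.BW4
import Pool.Agent.Lib.MP_666dc0_nt.EP.BW5
import Pool.Agent.Lib.MP_666dc0_nt.EP.PA10

/-!
# EP, BW6: arithmetic groups are finitely dominated
-/

open NumberField IsDedekindDomain Matrix
open scoped NumberField

namespace Pool.Agent.Lib.MP_666dc0_nt.EP

open WL

variable {F : Type} [Field F] [NumberField F] {n : ℕ} {D : Datum F n} {ℓ : ℕ}

/-- The cover of the symmetric space by the reduced bases. -/
noncomputable def Frame.cover (fr : Frame D) (L : Level D ℓ) (hd : D.q.det ≠ 0) :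
    Cover (D.Rat × L.K) L.X (fr.E L) (fr.PP L) where
  I := Frame.Ix fr L
  act := inferInstance
  y := Frame.Ix.y
  V := fr.V L
  V' := fr.V' L
  y_smul := fr.smul_y L
  V_smul := fr.smul_mem_V L
  V'_smul := fr.smul_mem_V' L
  V'_sub := fr.V'_subset L
  V_sub := fr.V_subset L
  isOpen := fr.isOpen_V L
  isClosed := fr.isClosed_V' L
  cover := fun y₀ p hp => fr.exists_mem_V' L y₀ p hp
  locFin := fr.finite_meet L
  orbits := fr.exists_orbits L hd
  free := fr.free L

/-- **Finiteness of arithmetic groups.** The set `G(𝔸_f) / U` with the action of `G(F) × K` is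
finitely dominated up to a constant. -/
theorem Level.isFD (R : Type) [CommRing R] (L : Level D ℓ) (hd : D.q.det ≠ 0)
    (hc : ClosedOrbitQ D) : IsFD R (D.Rat × L.K) L.X := by
  obtain ⟨fr⟩ := exists_frame (isRed_uR hd hc)
  exact (fr.cover L hd).isFD (fr.convex_PP L) (fr.nonempty_PP L) (fr.smul_mem_PP L)

end Pool.Agent.Lib.MP_666dc0_nt.EP
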