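import Pool.Agent.Lib.MP_666dc0_nt.EP.U4

/-!
# EP, P1c: characters of pro-`ℓ` groups
-/

open NumberField IsDedekindDomain
open scoped NumberField

namespace Pool.Agent.Lib.MP_666dc0_nt.EP

open WL

/-- The subring of the elements of norm at most one. -/
private def P1c_R (ℓ : ℕ) [Fact ℓ.Prime] : Subring (PadicAlgCl ℓ) where
  carrier := {q | ‖q‖ ≤ 1}
  zero_mem' := by simp
  one_mem' := by simp
  add_mem' {a b} ha hb := (IsUltrametricDist.norm_add_le_max _ _).trans (max_le ha hb)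
  mul_mem' {a b} ha hb := by
    change ‖a * b‖ ≤ 1
    rw [norm_mul]
    exact mul_le_one₀ ha (norm_nonneg _) hb
  neg_mem' {a} ha := by
    change ‖-a‖ ≤ 1
    rw [norm_neg]
    exact ha

variable {ℓ : ℕ} [Fact ℓ.Prime]

private theorem P1c_norm_l : ‖(ℓ : PadicAlgCl ℓ)‖ < 1 := by
  have h1 : (ℓ : PadicAlgCl ℓ) = ((ℓ : ℚ_[ℓ]) : PadicAlgCl ℓ) := by
    exact (map_natCast (algebraMap ℚ_[ℓ] (PadicAlgCl ℓ)) ℓ).symm
  rw [h1, PadicAlgCl.norm_extends]
  exact Padic.norm_p_lt_one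

private theorem P1c_norm_nat {d : ℕ} (hd : ¬ ℓ ∣ d) : ‖(d : PadicAlgCl ℓ)‖ = 1 := by
  have h1 : (d : PadicAlgCl ℓ) = ((d : ℚ_[ℓ]) : PadicAlgCl ℓ) := by
    exact (map_natCast (algebraMap ℚ_[ℓ] (PadicAlgCl ℓ)) d).symm
  rw [h1, PadicAlgCl.norm_extends, Padic.norm_natCast_eq_one_iff]
  exact ((Fact.out : ℓ.Prime).coprime_iff_not_dvd).2 hd

/-- If `x ^ (ℓ ^ m)` is close to `1` then `x` is close to `1`. -/
private theorem P1c_root {x : PadicAlgCl ℓ} {m : ℕ} (h : ‖x ^ ℓ ^ m - 1‖ < 1) : ‖x - 1‖ < 1 := by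
  have hm : ℓ ^ m ≠ 0 := pow_ne_zero _ (Fact.out : ℓ.Prime).ne_zero
  have hx : ‖x‖ ≤ 1 := by
    by_contra hx
    have hx1 : 1 < ‖x‖ := not_le.1 hx
    have h1 : 1 < ‖x ^ ℓ ^ m‖ := by
      rw [norm_pow]
      exact one_lt_pow₀ hx1 hm
    have h2 : ‖x ^ ℓ ^ m‖ ≤ 1 := by
      have h3 : x ^ ℓ ^ m = (x ^ ℓ ^ m - 1) + 1 := by ring
      rw [h3]
      refine (IsUltrametricDist.norm_add_le_max _ _).trans (max_le h.le ?_)
      rw [norm_one]
    exact absurd h1 (not_lt.2 h2)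
  have hx' : ‖x - 1‖ ≤ 1 := by
    rw [sub_eq_add_neg]
    refine (IsUltrametricDist.norm_add_le_max _ _).trans (max_le hx ?_)
    rw [norm_neg, norm_one]
  obtain ⟨r, hr⟩ := exists_add_pow_prime_pow_eq (Fact.out : ℓ.Prime)
    (⟨x - 1, hx'⟩ : P1c_R ℓ) 1 m
  have hr' := congrArg (Subtype.val) hr
  have h4 : x ^ ℓ ^ m = (x - 1) ^ ℓ ^ m + 1 + ℓ * ((x - 1) * (r : PadicAlgCl ℓ)) := by
    have h5 : (((⟨x - 1, hx'⟩ : P1c_R ℓ) + 1 : P1c_R ℓ) : PadicAlgCl ℓ) = x := by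
      change x - 1 + 1 = x
      ring
    have h6 : ((((⟨x - 1, hx'⟩ : P1c_R ℓ) + 1) ^ ℓ ^ m : P1c_R ℓ) : PadicAlgCl ℓ) = x ^ ℓ ^ m := by
      rw [SubmonoidClass.coe_pow, h5]
    rw [← h6, hr']
    push_cast
    ring
  have h7 : (x - 1) ^ ℓ ^ m = (x ^ ℓ ^ m - 1) + -(ℓ * ((x - 1) * (r : PadicAlgCl ℓ))) := by
    rw [h4]
    ring
  have h8 : ‖(x - 1) ^ ℓ ^ m‖ < 1 := by
    rw [h7]
    refine (IsUltrametricDist.norm_add_le_max _ _).trans_lt (max_lt h ?_)
    rw [norm_neg, norm_mul]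
    refine mul_lt_one_of_nonneg_of_lt_one_left (norm_nonneg _) P1c_norm_l ?_
    rw [norm_mul]
    exact mul_le_one₀ hx' (norm_nonneg _) r.2
  rw [norm_pow] at h8
  exact (pow_lt_one_iff_of_nonneg (norm_nonneg _) hm).1 h8

/-- The eigenvalues of a matrix whose powers of exponent `ℓ ^ m` tend to `1` are close to `1`. -/
private theorem P1c_eigen {d : ℕ} (M : Matrix (Fin d) (Fin d) (PadicAlgCl ℓ)) {m : ℕ}
    (hM : ∀ i j, ‖(M ^ ℓ ^ m - 1) i j‖ < 1) {x : PadicAlgCl ℓ} (hx : x ∈ M.charpoly.roots) :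
    ‖x - 1‖ < 1 := by
  have h1 : M.charpoly.IsRoot x := Polynomial.isRoot_of_mem_roots hx
  have h2 : (Matrix.scalar (Fin d) x - M).det = 0 := by
    rw [← Matrix.eval_charpoly]
    exact h1
  obtain ⟨u, hu0, hu⟩ := Matrix.exists_mulVec_eq_zero_iff.2 h2
  have h3 : M.mulVec u = x • u := by
    rw [Matrix.sub_mulVec, sub_eq_zero] at hu
    rw [← hu]
    simp
  have h4 : ∀ N : ℕ, (M ^ N).mulVec u = x ^ N • u := by
    intro N
    induction N with
    | zero => simp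
    | succ N ih =>
      rw [pow_succ, ← Matrix.mulVec_mulVec, h3, Matrix.mulVec_smul, ih, smul_smul, ← pow_succ']
  refine P1c_root (m := m) ?_
  obtain ⟨i₀, hi₀⟩ : ∃ i, u i ≠ 0 := by
    by_contra h
    push Not at h
    exact hu0 (funext h)
  have : Nonempty (Fin d) := ⟨i₀⟩
  obtain ⟨i, hi⟩ := Finite.exists_max fun i => ‖u i‖
  have hui : 0 < ‖u i‖ := (norm_pos_iff.2 hi₀).trans_le (hi i₀)
  have h5 : (x ^ ℓ ^ m - 1) * u i = ∑ j, (M ^ ℓ ^ m - 1) i j * u j := by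
    have h6 := congrFun (h4 (ℓ ^ m)) i
    have h7 : ((M ^ ℓ ^ m - 1).mulVec u) i = (x ^ ℓ ^ m - 1) * u i := by
      rw [Matrix.sub_mulVec, Matrix.one_mulVec, Pi.sub_apply, h6, Pi.smul_apply, smul_eq_mul,
        sub_mul, one_mul]
    rw [← h7]
    rfl
  obtain ⟨j₀, hj₀⟩ := Finite.exists_max fun j => ‖(M ^ ℓ ^ m - 1) i j‖
  have h8 : ‖x ^ ℓ ^ m - 1‖ * ‖u i‖ ≤ ‖(M ^ ℓ ^ m - 1) i j₀‖ * ‖u i‖ := by
    rw [← norm_mul, h5]
    refine IsUltrametricDist.norm_sum_le_of_forall_le_of_nonneg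
      (mul_nonneg (norm_nonneg _) (norm_nonneg _)) fun j _ => ?_
    rw [norm_mul]
    exact mul_le_mul (hj₀ j) (hi j) (norm_nonneg _) (norm_nonneg _)
  exact (le_of_mul_le_mul_right h8 hui).trans_lt (hM i j₀)

/-- The trace of such a matrix of size prime to `ℓ` is not zero. -/
private theorem P1c_trace {d : ℕ} (hd : ¬ ℓ ∣ d) (M : Matrix (Fin d) (Fin d) (PadicAlgCl ℓ)) {m : ℕ}
    (hM : ∀ i j, ‖(M ^ ℓ ^ m - 1) i j‖ < 1) : M.trace ≠ 0 := by
  have h1 : M.trace = M.charpoly.roots.sum := Matrix.trace_eq_sum_roots_charpoly M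
  have h2 : M.charpoly.roots.card = d := by
    have h3 := (IsAlgClosed.splits M.charpoly).natDegree_eq_card_roots
    rw [Matrix.charpoly_natDegree_eq_dim, Fintype.card_fin] at h3
    exact h3.symm
  have h4 : ∀ s : Multiset (PadicAlgCl ℓ), (∀ x ∈ s, ‖x - 1‖ < 1) → ‖s.sum - s.card‖ < 1 := by
    intro s
    induction s using Multiset.induction_on with
    | empty => intro _; simp
    | cons a s ih =>
      intro h
      have h5 := ih fun x hx => h x (Multiset.mem_cons_of_mem hx)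
      have h6 := h a (Multiset.mem_cons_self a s)
      have h7 : (a ::ₘ s).sum - ((a ::ₘ s).card : PadicAlgCl ℓ) =
          (a - 1) + (s.sum - (s.card : PadicAlgCl ℓ)) := by
        rw [Multiset.sum_cons, Multiset.card_cons, Nat.cast_add, Nat.cast_one]
        ring
      rw [h7]
      exact (IsUltrametricDist.norm_add_le_max _ _).trans_lt (max_lt h6 h5)
  have h8 := h4 _ fun x hx => P1c_eigen M hM hx
  rw [← h1, h2] at h8
  intro h9
  rw [h9, zero_sub, norm_neg, P1c_norm_nat hd] at h8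
  exact lt_irrefl _ h8

variable {F : Type} [Field F] [NumberField F] {n : ℕ} {D : Datum F n}
  {L : Level D ℓ} {ι : ℂ ≃+* PadicAlgCl ℓ}

/-- If the powers `k ^ (ℓ ^ m)` tend to `1` and the dimension of the coefficients is prime to `ℓ`
then their character does not vanish at `k`. -/
theorem Coeff.chi_ne_zero (C : Coeff L) (H : HatData F ℓ ι)
    (hC : ¬ ℓ ∣ Module.finrank ℂ C.W) (k : L.K)
    (hk : Filter.Tendsto (fun m : ℕ => k ^ ℓ ^ m) Filter.atTop (nhds 1)) :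
    C.chi H k ≠ 0 := by
  obtain ⟨d, τ, hτ, htr⟩ := C.exists_padic_rep H
  have hd : d = Module.finrank ℂ C.W := by
    have h1 := htr 1
    have h2 : LinearMap.trace ℂ C.W (C.rho (H.hat D (1 : L.K)) * C.sig 1) =
        (Module.finrank ℂ C.W : ℂ) := by
      rw [OneMemClass.coe_one, map_one, map_one, map_one, mul_one]
      exact LinearMap.trace_one ℂ C.W
    rw [h2, map_one, Units.val_one, Matrix.trace_one, Fintype.card_fin, map_natCast] at h1
    exact_mod_cast h1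
  have hC' : ¬ ℓ ∣ d := hd ▸ hC
  have h3 : Filter.Tendsto (fun m : ℕ => (τ k : Matrix (Fin d) (Fin d) (PadicAlgCl ℓ)) ^ ℓ ^ m)
      Filter.atTop (nhds 1) := by
    have h4 := ((Units.continuous_val.comp hτ).tendsto (1 : L.K)).comp hk
    have h5 : (Units.val ∘ τ) (1 : L.K) = (1 : Matrix (Fin d) (Fin d) (PadicAlgCl ℓ)) := by
      rw [Function.comp_apply, map_one, Units.val_one]
    rw [h5] at h4
    refine h4.congr fun m => ?_
    simp only [Function.comp_apply, map_pow, Units.val_pow_eq_pow_val]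
  have h6 : ∀ i j, ∀ᶠ m : ℕ in Filter.atTop,
      ‖((τ k : Matrix (Fin d) (Fin d) (PadicAlgCl ℓ)) ^ ℓ ^ m - 1) i j‖ < 1 := by
    intro i j
    have h7 : Continuous fun N : Matrix (Fin d) (Fin d) (PadicAlgCl ℓ) => ‖(N - 1) i j‖ :=
      ((continuous_id.sub continuous_const).matrix_elem i j).norm
    have h8 := (h7.tendsto 1).comp h3
    refine h8.eventually_lt_const ?_
    rw [sub_self, Matrix.zero_apply, norm_zero]
    exact one_pos
  obtain ⟨m, hm⟩ := ((Filter.eventually_all.2 fun i => Filter.eventually_all.2 fun j =>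
    h6 i j)).exists
  have h9 := P1c_trace hC' _ hm
  intro h10
  refine h9 ?_
  rw [htr k]
  exact h10

/-- If the group `K` is pro-`ℓ` and the dimension of the coefficients is prime to `ℓ` then their
character has no zero on `K`. -/
theorem Coeff.chi_ne_zero_of_isPro (C : Coeff L) (H : HatData F ℓ ι)
    (hpro : ∀ k ∈ L.K, Filter.Tendsto (fun m : ℕ => k ^ ℓ ^ m) Filter.atTop (nhds 1))
    (hC : ¬ ℓ ∣ Module.finrank ℂ C.W) (k : L.K) : C.chi H k ≠ 0 := by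
  refine C.chi_ne_zero H hC k ?_
  rw [tendsto_subtype_rng]
  refine (hpro k k.2).congr fun m => ?_
  rw [Subgroup.coe_pow]

end Pool.Agent.Lib.MP_666dc0_nt.EP
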