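import Pool.Agent.Lib.MP_666dc0_nt.EP.FD1
import Pool.Agent.Lib.MP_666dc0_nt.EP.C4a

/-!
# EP, FD3: the cohomology of a complex with coefficients in a representation
-/

namespace Pool.Agent.Lib.MP_666dc0_nt.EP

variable {R : Type} {A : Type} [CommRing R] [Group A] {X : Type} [MulAction A X]
  {L V : Type} [Field L] [Algebra R L] [AddCommGroup V] [Module L V] (ρ : Representation L A V)

/-- The cocycles of degree `n` of the complex `C` with values in `ρ`. -/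
noncomputable def Cx.cocyc (C : Cx R A X) (n : ℕ) : Submodule L (C.Y n → V) :=
  Fun ρ (C.Y n) ⊓ LinearMap.ker (pull L V (C.d n))

/-- The coboundaries of degree `n`. -/
noncomputable def Cx.cobd (C : Cx R A X) : ∀ n : ℕ, Submodule L (C.Y n → V)
  | 0 => ⊥
  | n + 1 => (Fun ρ (C.Y n)).map (pull L V (C.d n))

theorem Cx.cobd_le (C : Cx R A X) (n : ℕ) : C.cobd ρ n ≤ C.cocyc ρ n := by
  cases n with
  | zero => exact bot_le
  | succ n =>
    rintro _ ⟨u, hu, rfl⟩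
    refine ⟨pull_mem_Fun ρ (C.equi_d n) hu, ?_⟩
    have h1 : C.d n ∘ₗ C.d (n + 1) = 0 := C.d_comp_d n
    show pull L V (C.d (n + 1)) (pull L V (C.d n) u) = 0
    have h3 : pull L V (C.d (n + 1)) (pull L V (C.d n) u) = pull L V (C.d n ∘ₗ C.d (n + 1)) u := by
      rw [pull_comp]
      rfl
    rw [h3, h1, pull_zero]
    rfl

/-- The cohomology of degree `n`. -/
abbrev Cx.H (C : Cx R A X) (n : ℕ) : Type :=
  C.cocyc ρ n ⧸ (C.cobd ρ n).submoduleOf (C.cocyc ρ n)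

variable {C C' C'' : Cx R A X} {c c' : (X →₀ R) →ₗ[R] (X →₀ R)}

theorem IsMap.pull_mem_cocyc {f : ∀ n, (C.Y n →₀ R) →ₗ[R] (C'.Y n →₀ R)} (hf : IsMap C C' c f)
    (n : ℕ) {u : C'.Y n → V} (hu : u ∈ C'.cocyc ρ n) : pull L V (f n) u ∈ C.cocyc ρ n := by
  refine ⟨pull_mem_Fun ρ (hf.equi n) hu.1, ?_⟩
  show pull L V (C.d n) (pull L V (f n) u) = 0
  have h3 : pull L V (C.d n) (pull L V (f n) u) = pull L V (f n ∘ₗ C.d n) u := by
    rw [pull_comp]
    rfl
  have h4 : pull L V (f (n + 1)) (pull L V (C'.d n) u) = pull L V (C'.d n ∘ₗ f (n + 1)) u := by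
    rw [pull_comp]
    rfl
  have h5 : pull L V (C'.d n) u = 0 := hu.2
  rw [h3, ← hf.comm_d n, ← h4, h5, map_zero]

theorem IsMap.pull_mem_cobd {f : ∀ n, (C.Y n →₀ R) →ₗ[R] (C'.Y n →₀ R)} (hf : IsMap C C' c f)
    (n : ℕ) {u : C'.Y n → V} (hu : u ∈ C'.cobd ρ n) : pull L V (f n) u ∈ C.cobd ρ n := by
  cases n with
  | zero =>
    have h0 : u = 0 := hu
    rw [h0, map_zero]
    exact Submodule.zero_mem _
  | succ n =>
    obtain ⟨w, hw, rfl⟩ := hu
    refine ⟨pull L V (f n) w, pull_mem_Fun ρ (hf.equi n) hw, ?_⟩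
    have h3 : pull L V (C.d n) (pull L V (f n) w) = pull L V (f n ∘ₗ C.d n) w := by
      rw [pull_comp]
      rfl
    have h4 : pull L V (f (n + 1)) (pull L V (C'.d n) w) = pull L V (C'.d n ∘ₗ f (n + 1)) w := by
      rw [pull_comp]
      rfl
    rw [h3, ← hf.comm_d n, h4]

/-- The map induced on cohomology by a chain map. -/
noncomputable def IsMap.onH {f : ∀ n, (C.Y n →₀ R) →ₗ[R] (C'.Y n →₀ R)} (hf : IsMap C C' c f)
    (n : ℕ) : C'.H ρ n →ₗ[L] C.H ρ n :=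
  Submodule.mapQ _ _ ((pull L V (f n)).restrict fun _ hu => hf.pull_mem_cocyc ρ n hu)
    fun _ hu => hf.pull_mem_cobd ρ n hu

theorem IsMap.onH_comp {f : ∀ n, (C.Y n →₀ R) →ₗ[R] (C'.Y n →₀ R)}
    {f' : ∀ n, (C'.Y n →₀ R) →ₗ[R] (C''.Y n →₀ R)} (hf' : IsMap C' C'' c' f') (hf : IsMap C C' c f)
    (n : ℕ) : (hf'.comp hf).onH ρ n = hf.onH ρ n ∘ₗ hf'.onH ρ n := by
  refine Submodule.linearMap_qext _ (LinearMap.ext fun u => ?_)
  show Submodule.Quotient.mk _ = Submodule.Quotient.mk _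
  refine congrArg _ (Subtype.ext ?_)
  show pull L V (f' n ∘ₗ f n) u.1 = pull L V (f n) (pull L V (f' n) u.1)
  rw [pull_comp]
  rfl

/-- For resolutions this is the cohomology of `C4a`. -/
theorem Res.toCx_cobd (P : Res R A X) (n : ℕ) : P.toCx.cobd ρ n = P.cobd ρ n := by
  cases n <;> rfl

/-- The identification of the cohomology of a resolution with that of the underlying complex. -/
noncomputable def Res.hToCx (P : Res R A X) (n : ℕ) : P.toCx.H ρ n ≃ₗ[L] P.H ρ n :=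
  Submodule.quotEquivOfEq _ _ (by rw [Res.toCx_cobd]; rfl)

theorem IsLift.hToCx_onH {P P' : Res R A X} {f : ∀ n, (P.Y n →₀ R) →ₗ[R] (P'.Y n →₀ R)}
    (hf : IsLift P P' c f) (n : ℕ) (u : P'.toCx.H ρ n) :
    P.hToCx ρ n (hf.toMap.onH ρ n u) = hf.onH ρ n (P'.hToCx ρ n u) := by
  obtain ⟨u, rfl⟩ := Submodule.Quotient.mk_surjective _ u
  rfl

end Pool.Agent.Lib.MP_666dc0_nt.EP
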