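import Pool.Agent.Lib.MP_666dc0_nt.EP.C4a
import Pool.Agent.Lib.MP_666dc0_nt.Mg.G069

/-!
# EP, G1: the multiplicity in terms of the operators on cohomology
-/

namespace Pool.Agent.Lib.MP_666dc0_nt.EP

section

variable {L M I : Type} [Field L] [AddCommGroup M] [Module L M] (Z B : Submodule L M)
  (S : M →ₗ[L] M)

private theorem g1_stab (hB : ∀ u ∈ B, S u ∈ B) (y : L) (u : M) (hu : u ∈ B) :
    (S - y • LinearMap.id : M →ₗ[L] M) u ∈ B := by
  rw [LinearMap.sub_apply, LinearMap.smul_apply, LinearMap.id_apply]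
  exact B.sub_mem (hB u hu) (B.smul_mem y hu)

private theorem g1_mem (hB : ∀ u ∈ B, S u ∈ B) (y : L) (u : M) :
    u ∈ (⨆ N : ℕ, B.comap ((S - y • LinearMap.id) ^ N)) ↔
      ∃ N : ℕ, ((S - y • LinearMap.id : M →ₗ[L] M) ^ N) u ∈ B := by
  have hmono : Monotone fun N : ℕ => B.comap ((S - y • LinearMap.id) ^ N) := by
    apply monotone_nat_of_le_succ
    intro N v hv
    rw [Submodule.mem_comap] at hv ⊢
    rw [pow_succ']
    exact g1_stab B S hB y _ hv
  rw [Submodule.mem_iSup_of_directed _ hmono.directed_le]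
  rfl

private theorem g1_pow (hZ : ∀ u ∈ Z, S u ∈ Z) (hB : ∀ u ∈ B, S u ∈ B) (y : L)
    (T : (Z ⧸ B.submoduleOf Z) →ₗ[L] (Z ⧸ B.submoduleOf Z))
    (hT : ∀ u : Z, T (Submodule.Quotient.mk u) = Submodule.Quotient.mk ⟨S u, hZ u u.2⟩)
    (N : ℕ) (u : Z) : ∃ w : Z, (w : M) = ((S - y • LinearMap.id : M →ₗ[L] M) ^ N) u ∧
      ((T - y • (1 : Module.End L (Z ⧸ B.submoduleOf Z))) ^ N) (Submodule.Quotient.mk u) =
        Submodule.Quotient.mk w := by
  induction N with
  | zero => exact ⟨u, rfl, rfl⟩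
  | succ N ih =>
    obtain ⟨w, hw1, hw2⟩ := ih
    refine ⟨⟨S w, hZ w w.2⟩ - y • w, ?_, ?_⟩
    · rw [pow_succ']
      show S (w : M) - y • (w : M) = (S - y • LinearMap.id : M →ₗ[L] M)
        (((S - y • LinearMap.id : M →ₗ[L] M) ^ N) u)
      rw [← hw1]
      rfl
    · rw [pow_succ']
      show (T - y • (1 : Module.End L (Z ⧸ B.submoduleOf Z)))
        (((T - y • (1 : Module.End L (Z ⧸ B.submoduleOf Z))) ^ N) (Submodule.Quotient.mk u)) = _
      rw [hw2, LinearMap.sub_apply, hT]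
      rfl

private theorem g1_eigen (hZ : ∀ u ∈ Z, S u ∈ Z) (hB : ∀ u ∈ B, S u ∈ B) (y : L)
    (T : (Z ⧸ B.submoduleOf Z) →ₗ[L] (Z ⧸ B.submoduleOf Z))
    (hT : ∀ u : Z, T (Submodule.Quotient.mk u) = Submodule.Quotient.mk ⟨S u, hZ u u.2⟩)
    (u : Z) : (Submodule.Quotient.mk u : Z ⧸ B.submoduleOf Z) ∈
      Module.End.maxGenEigenspace T y ↔
        (u : M) ∈ (⨆ N : ℕ, B.comap ((S - y • LinearMap.id) ^ N)) := by
  rw [g1_mem B S hB, Module.End.mem_maxGenEigenspace]
  refine exists_congr fun N => ?_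
  obtain ⟨w, hw1, hw2⟩ := g1_pow Z B S hZ hB y T hT N u
  rw [hw2, Submodule.Quotient.mk_eq_zero, ← hw1]
  rfl

private theorem g1_main (S : I → M →ₗ[L] M) (hZ : ∀ i, ∀ u ∈ Z, S i u ∈ Z)
    (hB : ∀ i, ∀ u ∈ B, S i u ∈ B) (y : I → L)
    (T : I → (Z ⧸ B.submoduleOf Z) →ₗ[L] (Z ⧸ B.submoduleOf Z))
    (hT : ∀ i, ∀ u : Z, T i (Submodule.Quotient.mk u) = Submodule.Quotient.mk ⟨S i u, hZ i u u.2⟩)
    (G : Submodule L M)
    (hG : G = Z ⊓ ⨅ i, ⨆ N : ℕ, B.comap ((S i - y i • LinearMap.id) ^ N)) :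
    Module.finrank L (G ⧸ B.submoduleOf G) =
      Module.finrank L (⨅ i, Module.End.maxGenEigenspace (T i) (y i) :
        Submodule L (Z ⧸ B.submoduleOf Z)) := by
  have hGZ : G ≤ Z := by
    rw [hG]
    exact inf_le_left
  let φ : G →ₗ[L] (Z ⧸ B.submoduleOf Z) := (B.submoduleOf Z).mkQ ∘ₗ Submodule.inclusion hGZ
  have hker : LinearMap.ker φ = B.submoduleOf G := by
    ext u
    rw [LinearMap.mem_ker]
    show (Submodule.Quotient.mk (Submodule.inclusion hGZ u) : Z ⧸ B.submoduleOf Z) = 0 ↔ _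
    rw [Submodule.Quotient.mk_eq_zero]
    rfl
  have hrange : LinearMap.range φ = ⨅ i, Module.End.maxGenEigenspace (T i) (y i) := by
    ext x
    obtain ⟨u, rfl⟩ := Submodule.Quotient.mk_surjective _ x
    rw [Submodule.mem_iInf]
    constructor
    · rintro ⟨v, hv⟩ i
      rw [← hv]
      show (Submodule.Quotient.mk (Submodule.inclusion hGZ v) : Z ⧸ B.submoduleOf Z) ∈ _
      rw [g1_eigen Z B (S i) (hZ i) (hB i) (y i) (T i) (hT i)]
      have h1 : (v : M) ∈ Z ⊓ ⨅ i, ⨆ N : ℕ, B.comap ((S i - y i • LinearMap.id) ^ N) := by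
        rw [← hG]
        exact v.2
      exact (Submodule.mem_iInf _).1 h1.2 i
    · intro h
      have h1 : (u : M) ∈ G := by
        rw [hG]
        refine ⟨u.2, (Submodule.mem_iInf _).2 fun i => ?_⟩
        rw [← g1_eigen Z B (S i) (hZ i) (hB i) (y i) (T i) (hT i)]
        exact h i
      exact ⟨⟨u, h1⟩, rfl⟩
  rw [← hker, ← hrange]
  exact (φ.quotKerEquivRange).finrank_eq

end

variable {R : Type} {A : Type} [CommRing R] [Group A] {E X : Type} [MulAction A E] [MulAction A X]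
  [Nonempty E] (hfree : ∀ (a : A) (e : E) (x : X), a • e = e → a • x = x → a = 1)
  {L V : Type} [Field L] [Algebra R L] [AddCommGroup V] [Module L V] (ρ : Representation L A V)

theorem std_cocyc (n : ℕ) : (Res.std R A E X hfree).cocyc ρ n = cocyc R ρ E X n := rfl

theorem std_cobd (n : ℕ) : (Res.std R A E X hfree).cobd ρ n = cobd R ρ E X n := by
  cases n <;> rfl

/-- The multiplicity is the dimension of the intersection of the generalised eigenspaces of the
operators on the cohomology of the standard resolution.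
Proof: the classes of the elements of `genCocyc` form this intersection. For `u ∈ cocyc`, the class of
`u` is in `maxGenEigenspace (onH (c i)) (y i)` if and only if
`(pull (ext (c i)) - y i) ^ N u ∈ cobd` for some `N`, if and only if `u` is in
`⨆ N, comap ((pull (ext (c i)) - y i) ^ N) cobd` (the union is directed, because `pull (ext (c i))`
preserves `cobd`, by `IsLift.pull_mem_cobd` and `isLift_ext`). -/
theorem mult_eq {I : Type} (c : I → (X →₀ R) →ₗ[R] (X →₀ R)) (hc : ∀ i, Equi A (c i)) (y : I → L)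
    (n : ℕ) : mult ρ E c y n = Module.finrank L
      (⨅ i, Module.End.maxGenEigenspace
        ((isLift_ext (E := E) hfree (hc i)).onH ρ n) (y i) : Submodule L _) := by
  have hG : genCocyc ρ E c y n = cocyc R ρ E X n ⊓ ⨅ i, ⨆ N : ℕ,
      ((Res.std R A E X hfree).cobd ρ n).comap
        ((pull L V (ext (E := E) n (c i)) - y i • LinearMap.id) ^ N) := by
    rw [std_cobd hfree ρ n]
    rfl
  have h := g1_main (L := L) (I := I) (M := Simp E X n → V) (cocyc R ρ E X n)
    ((Res.std R A E X hfree).cobd ρ n)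
    (fun i => pull L V (ext (E := E) n (c i)))
    (fun i u hu => (isLift_ext (E := E) hfree (hc i)).pull_mem_cocyc ρ n hu)
    (fun i u hu => (isLift_ext (E := E) hfree (hc i)).pull_mem_cobd ρ n hu) y
    (fun i => (isLift_ext (E := E) hfree (hc i)).onH ρ n)
    (fun i u => rfl) (genCocyc ρ E c y n) hG
  refine Eq.trans ?_ h
  unfold mult
  rw [std_cobd hfree ρ n]

end Pool.Agent.Lib.MP_666dc0_nt.EP
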