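import Pool.Agent.Lib.MP_666dc0_nt.Mg.G071

/-!
# EP, G2c: the trace
-/

namespace Pool.Agent.Lib.MP_666dc0_nt.EP

variable {R L I H : Type} [CommRing R] [Field L] [IsAlgClosed L] [Algebra R L] [AddCommGroup H]
  [Module L H] [FiniteDimensional L H] (Θ : MvPolynomial I R →+* Module.End L H)
  (hΘ : ∀ r, Θ (MvPolynomial.C r) = algebraMap R L r • LinearMap.id)

private theorem G2c_pow {W : Type*} [AddCommGroup W] [Module L W] (f : Module.End L W)
    {S : Submodule L W} (hS : ∀ w ∈ S, f w ∈ S) (N : ℕ) (x : S) :
    (((f.restrict hS) ^ N : Module.End L S) x : W) = (f ^ N : Module.End L W) x := by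
  induction N with
  | zero => simp
  | succ N ih =>
    rw [pow_succ', pow_succ', Module.End.mul_apply, Module.End.mul_apply, ← ih]
    rfl

include hΘ in
/-- The trace of `Θ(t)` is the sum over the eigensystems `y` of `t(y)` times the dimension of the
joint generalised eigenspace. -/
theorem trace_eq_sum_joint (s : Finset (I → L)) (hs : ∀ y, joint (L := L) (H := H) Θ y ≠ ⊥ → y ∈ s)
    (t : MvPolynomial I R) : LinearMap.trace L H (Θ t) =
      ∑ y ∈ s, (Module.finrank L (joint Θ y) : L) * MvPolynomial.aeval y t := by
  classical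
  have hint : DirectSum.IsInternal (joint (L := L) (H := H) Θ) :=
    DirectSum.isInternal_submodule_of_iSupIndep_of_iSup_eq_top (iSupIndep_joint Θ) (iSup_joint Θ)
  have hmap : ∀ y : I → L, Set.MapsTo (Θ t) (joint (L := L) (H := H) Θ y) (joint Θ y) := by
    intro y u hu
    refine map_mem_joint Θ y (Θ t) (fun i => ?_) hu
    show Θ t * Θ (MvPolynomial.X i) = Θ (MvPolynomial.X i) * Θ t
    rw [← map_mul, mul_comm, map_mul]
  have hfin := finite_joint (L := L) (H := H) Θ
  have htr : ∀ y : I → L, LinearMap.trace L (joint Θ y) ((Θ t).restrict (hmap y)) =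
      (Module.finrank L (joint (L := L) (H := H) Θ y) : L) * MvPolynomial.aeval y t := by
    intro y
    obtain ⟨N, hN⟩ := exists_pow_joint Θ hΘ y t
    set c := MvPolynomial.aeval y t with hc
    have hS : ∀ w ∈ joint (L := L) (H := H) Θ y,
        (Θ t - c • LinearMap.id : Module.End L H) w ∈ joint (L := L) (H := H) Θ y := by
      intro w hw
      exact Submodule.sub_mem _ (hmap y hw) (Submodule.smul_mem _ _ hw)
    have hnil : IsNilpotent ((Θ t - c • LinearMap.id : Module.End L H).restrict hS) := by
      refine ⟨N, ?_⟩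
      apply LinearMap.ext
      intro x
      apply Subtype.ext
      rw [G2c_pow]
      exact hN x x.2
    have h0 : LinearMap.trace L _ ((Θ t - c • LinearMap.id : Module.End L H).restrict hS) = 0 :=
      (LinearMap.isNilpotent_trace_of_isNilpotent hnil).eq_zero
    have h1 : (Θ t).restrict (hmap y) =
        (Θ t - c • LinearMap.id : Module.End L H).restrict hS + c • LinearMap.id := by
      apply LinearMap.ext
      intro x
      apply Subtype.ext
      simp
    rw [h1, map_add, h0, zero_add, map_smul, LinearMap.trace_id, smul_eq_mul, mul_comm]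
  rw [LinearMap.trace_eq_sum_trace_restrict' hint hfin hmap]
  have hsub : hfin.toFinset ⊆ s := by
    intro y hy
    exact hs y (by simpa using hy)
  rw [← Finset.sum_subset hsub]
  · exact Finset.sum_congr rfl fun y _ => htr y
  · intro y _ hy
    have hy0 : joint (L := L) (H := H) Θ y = ⊥ := by
      by_contra h
      exact hy (by simpa using h)
    rw [hy0, finrank_bot, Nat.cast_zero, zero_mul]

end Pool.Agent.Lib.MP_666dc0_nt.EP
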