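import Pool.Agent.Lib.MP_666dc0_nt.Mg.G068
import Pool.Agent.Lib.MP_666dc0_nt.Mg.G069
import Pool.Agent.Lib.MP_666dc0_nt.Mg.G072

/-!
# EP, FD5: the Lefschetz formula for finitely dominated sets
-/

namespace Pool.Agent.Lib.MP_666dc0_nt.EP

variable {R : Type} {A : Type} [CommRing R] [Group A] {X : Type} [MulAction A X]
  {L : Type} [Field L] [Algebra R L]

theorem pull_smul_id (V : Type) [AddCommGroup V] [Module L V] {Y : Type} (r : R) (u : Y → V) :
    pull L V (r • LinearMap.id : (Y →₀ R) →ₗ[R] (Y →₀ R)) u = algebraMap R L r • u := by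
  rw [pull_smul, pull_id]
  rfl

/-- The map on the cohomology of the complex of a resolution induced by a lift of the multiplication by
`m` is the multiplication by `m`. -/
private theorem onH_toCx_smul {V : Type} [AddCommGroup V] [Module L V] (ρ : Representation L A V)
    {P : Res R A X} {f : ∀ n, (P.Y n →₀ R) →ₗ[R] (P.Y n →₀ R)} {m : R}
    (hf : IsMap P.toCx P.toCx (m • LinearMap.id) f) (n : ℕ) (u : P.toCx.H ρ n) :
    hf.onH ρ n u = algebraMap R L m • u := by
  have hm : Equi A (m • LinearMap.id : (X →₀ R) →ₗ[R] (X →₀ R)) := by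
    intro a x
    rw [LinearMap.smul_apply, LinearMap.smul_apply, LinearMap.id_apply, LinearMap.id_apply,
      Finsupp.mapDomain_smul]
  have h1 : IsLift P P (m • LinearMap.id) f := hf.toLift
  have h0 : IsLift P P (m • LinearMap.id) fun n => (m • LinearMap.id) := by
    refine ⟨fun n a x => ?_, ?_, fun n => ?_⟩
    · rw [LinearMap.smul_apply, LinearMap.smul_apply, LinearMap.id_apply, LinearMap.id_apply,
        Finsupp.mapDomain_smul]
    · apply LinearMap.ext
      intro x
      change P.ε (m • x) = m • P.ε x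
      rw [map_smul]
    · apply LinearMap.ext
      intro x
      change P.d n (m • x) = m • P.d n x
      rw [map_smul]
  have h2 := h1.hToCx_onH ρ n u
  have h3 : h1.onH ρ n = h0.onH ρ n := by
    rw [← hmap_eq ρ hm h1, ← hmap_eq ρ hm h0]
  have h4 : ∀ w : P.H ρ n, h0.onH ρ n w = algebraMap R L m • w := by
    intro w
    obtain ⟨w, rfl⟩ := Submodule.Quotient.mk_surjective _ w
    show Submodule.Quotient.mk _ = _
    rw [← Submodule.Quotient.mk_smul]
    refine congrArg _ (Subtype.ext ?_)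
    show pull L V (m • LinearMap.id) w.1 = algebraMap R L m • w.1
    exact pull_smul_id V m w.1
  rw [h3, h4, ← map_smul] at h2
  exact (P.hToCx ρ n).injective h2

/-- A lift `r` of the identity from `C` to `P` induces an injection on cohomology. -/
private theorem onH_comp_onH {V : Type} [AddCommGroup V] [Module L V] (ρ : Representation L A V)
    {P : Res R A X} {C : Cx R A X} {m : R}
    {i : ∀ n, (P.toCx.Y n →₀ R) →ₗ[R] (C.Y n →₀ R)} (hi : IsMap P.toCx C (m • LinearMap.id) i)
    {r : ∀ n, (C.Y n →₀ R) →ₗ[R] (P.toCx.Y n →₀ R)} (hr : IsMap C P.toCx LinearMap.id r) (n : ℕ) :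
    hi.onH ρ n ∘ₗ hr.onH ρ n = algebraMap R L m • LinearMap.id := by
  refine LinearMap.ext fun u => ?_
  have h1 := LinearMap.congr_fun (IsMap.onH_comp ρ hr hi n) u
  have h2 := onH_toCx_smul ρ (P := P) (hr.comp hi) n u
  rw [LinearMap.smul_apply, LinearMap.id_apply, ← h2]
  exact h1.symm

private theorem injective_onH {V : Type} [AddCommGroup V] [Module L V] (ρ : Representation L A V)
    {P : Res R A X} {C : Cx R A X} {m : R} (hm : algebraMap R L m ≠ 0)
    {i : ∀ n, (P.toCx.Y n →₀ R) →ₗ[R] (C.Y n →₀ R)} (hi : IsMap P.toCx C (m • LinearMap.id) i)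
    {r : ∀ n, (C.Y n →₀ R) →ₗ[R] (P.toCx.Y n →₀ R)} (hr : IsMap C P.toCx LinearMap.id r) (n : ℕ) :
    Function.Injective (hr.onH ρ n) := by
  intro u v huv
  have h1 := LinearMap.congr_fun (onH_comp_onH ρ hi hr n) u
  have h2 := LinearMap.congr_fun (onH_comp_onH ρ hi hr n) v
  rw [LinearMap.comp_apply, LinearMap.smul_apply, LinearMap.id_apply] at h1 h2
  rw [huv, h2] at h1
  exact (smul_right_injective _ hm h1).symm

private theorem finiteDimensional_toCx {V : Type} [AddCommGroup V] [Module L V]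
    [FiniteDimensional L V] (ρ : Representation L A V)
    {P : Res R A X} {C : Cx R A X} {N : ℕ} (hC : C.IsFin N) {m : R} (hm : algebraMap R L m ≠ 0)
    {i : ∀ n, (P.toCx.Y n →₀ R) →ₗ[R] (C.Y n →₀ R)} (hi : IsMap P.toCx C (m • LinearMap.id) i)
    {r : ∀ n, (C.Y n →₀ R) →ₗ[R] (P.toCx.Y n →₀ R)} (hr : IsMap C P.toCx LinearMap.id r) (n : ℕ) :
    FiniteDimensional L (P.toCx.H ρ n) := by
  have h1 : FiniteDimensional L (C.H ρ n) := hC.finiteDimensional_H ρ n
  exact FiniteDimensional.of_injective (hr.onH ρ n) (injective_onH ρ hm hi hr n)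

private theorem subsingleton_toCx {V : Type} [AddCommGroup V] [Module L V]
    (ρ : Representation L A V)
    {P : Res R A X} {C : Cx R A X} {N : ℕ} (hC : C.IsFin N) {m : R} (hm : algebraMap R L m ≠ 0)
    {i : ∀ n, (P.toCx.Y n →₀ R) →ₗ[R] (C.Y n →₀ R)} (hi : IsMap P.toCx C (m • LinearMap.id) i)
    {r : ∀ n, (C.Y n →₀ R) →ₗ[R] (P.toCx.Y n →₀ R)} (hr : IsMap C P.toCx LinearMap.id r) (n : ℕ)
    (hn : N ≤ n) : Subsingleton (P.toCx.H ρ n) := by
  have h1 : Subsingleton (C.H ρ n) := hC.subsingleton_H ρ n hn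
  exact (injective_onH ρ hm hi hr n).subsingleton

/-- A chain map `i : P → C` over the multiplication by `m` from a resolution to a bounded complex of
finitely generated free modules: for `r : C → P` as in `exists_isMap`, `r ∘ i` is a lift of the
multiplication by `m`, so `i^* r^* = m` on `H^n(P; ρ)` (`hmap_eq`).
Hence for a lift `f` of `c` to `P`, `m` times the trace of `f` on `H^n(P; ρ)` is the trace of
`i ∘ f ∘ r` on `H^n(C; ρ)`: `m tr(f^*) = tr(f^* i^* r^*) = tr(r^* f^* i^*)`
(`LinearMap.trace_comp_comm'`). -/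
theorem exists_conj {P : Res R A X} {C : Cx R A X} {N : ℕ} {m : R} (hm : algebraMap R L m ≠ 0)
    {i : ∀ n, (P.toCx.Y n →₀ R) →ₗ[R] (C.Y n →₀ R)} (hC : C.IsFin N)
    (hi : IsMap P.toCx C (m • LinearMap.id) i) {c : (X →₀ R) →ₗ[R] (X →₀ R)} (hc : Equi A c) :
    ∃ (c' : (X →₀ R) →ₗ[R] (X →₀ R)) (g : ∀ n, (C.Y n →₀ R) →ₗ[R] (C.Y n →₀ R))
      (hg : IsMap C C c' g),
      ∀ (V : Type) [AddCommGroup V] [Module L V] [FiniteDimensional L V]
        (ρ : Representation L A V) (n : ℕ),
        algebraMap R L m * LinearMap.trace L _ (hmap ρ P P hc n) =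
          LinearMap.trace L _ (hg.onH ρ n) := by
  obtain ⟨r, hr⟩ := exists_isMap C hC.free P (Equi.id (A := A) (R := R) (Y := X))
  obtain ⟨f, hf⟩ := exists_isLift P P hc
  have hg := hi.comp (hf.toMap.comp hr)
  refine ⟨_, fun n => i n ∘ₗ (f n ∘ₗ r n), hg, ?_⟩
  intro V _ _ _ ρ n
  have hfd : FiniteDimensional L (P.toCx.H ρ n) := finiteDimensional_toCx ρ hC hm hi hr n
  have hfd' : FiniteDimensional L (C.H ρ n) := hC.finiteDimensional_H ρ n
  have h1 : LinearMap.trace L _ (hmap ρ P P hc n) =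
      LinearMap.trace L _ (hf.toMap.onH ρ n) := by
    have h2 : hmap ρ P P hc n = (P.hToCx ρ n).conj (hf.toMap.onH ρ n) := by
      rw [hmap_eq ρ hc hf]
      refine LinearMap.ext fun u => ?_
      rw [LinearEquiv.conj_apply_apply, hf.hToCx_onH ρ n, LinearEquiv.apply_symm_apply]
    rw [h2, LinearMap.trace_conj']
  have h3 : hg.onH ρ n = hr.onH ρ n ∘ₗ (hf.toMap.onH ρ n ∘ₗ hi.onH ρ n) := by
    have h4 := IsMap.onH_comp ρ hi (hf.toMap.comp hr) n
    have h5 := IsMap.onH_comp ρ hf.toMap hr n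
    rw [h5, LinearMap.comp_assoc] at h4
    exact h4
  rw [h1, h3, LinearMap.trace_comp_comm', LinearMap.comp_assoc, onH_comp_onH ρ hi hr n,
    LinearMap.comp_smul, LinearMap.comp_id, map_smul, smul_eq_mul]

/-- **Lefschetz formula for finitely dominated sets.** The constant `m` does not depend on the
operator `c`. -/
theorem exists_lefschetz_fd [CharZero L] (h : IsFD R A X) : ∃ N m : ℕ, 0 < m ∧
    (∀ (P' : Res R A X) (V : Type) [AddCommGroup V] [Module L V] [FiniteDimensional L V]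
      (ρ : Representation L A V) (n : ℕ),
      FiniteDimensional L (P'.H ρ n) ∧ (N ≤ n → Subsingleton (P'.H ρ n))) ∧
    ∀ (P' : Res R A X) {c : (X →₀ R) →ₗ[R] (X →₀ R)} (hc : Equi A c),
      ∃ ν : A →₀ R, ∀ (V : Type) [AddCommGroup V] [Module L V] [FiniteDimensional L V]
        (ρ : Representation L A V),
          (m : L) * ∑ n ∈ Finset.range N, (-1) ^ n * LinearMap.trace L _ (hmap ρ P' P' hc n) =
            ν.sum fun a x => algebraMap R L x * LinearMap.trace L V (ρ a) := by
  obtain ⟨P, C, N, m, i, hm0, hC, hi⟩ := h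
  have hm : algebraMap R L (m : R) ≠ 0 := by
    rw [map_natCast]
    exact Nat.cast_ne_zero.2 hm0.ne'
  obtain ⟨r, hr⟩ := exists_isMap C hC.free P (Equi.id (A := A) (R := R) (Y := X))
  refine ⟨N, m, hm0, ?_, ?_⟩
  · intro P' V _ _ _ ρ n
    refine ⟨?_, fun hn => ?_⟩
    · have hfd : FiniteDimensional L (P.toCx.H ρ n) := finiteDimensional_toCx ρ hC hm hi hr n
      have hfd' : FiniteDimensional L (P.H ρ n) := (P.hToCx ρ n).finiteDimensional
      exact (hEquiv ρ P P' n).symm.finiteDimensional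
    · have h1 : Subsingleton (P.toCx.H ρ n) := subsingleton_toCx ρ hC hm hi hr n hn
      exact ((hEquiv ρ P P' n).trans (P.hToCx ρ n).symm).toEquiv.subsingleton
  · intro P' c hc
    obtain ⟨c', g, hg, hconj⟩ := exists_conj (L := L) hm hC hi hc
    obtain ⟨ν, hν⟩ := Cx.IsFin.exists_lefschetz (L := L) hC hg
    refine ⟨ν, ?_⟩
    intro V _ _ _ ρ
    rw [← hν V ρ, Finset.mul_sum]
    refine Finset.sum_congr rfl fun n _ => ?_
    rw [← trace_hmap ρ P P' hc n, ← hconj V ρ n, map_natCast]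
    ring

end Pool.Agent.Lib.MP_666dc0_nt.EP
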