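import Mathlib

/-!
# Equivariant cohomology of sets with a group action: definitions

A group `A` acts on sets `E` and `X`. For a representation `ρ` of `A` on `V` we define the cohomology of
the complex of the equivariant functions `E^{n+1} × X → V` (homogeneous cochains), the action of
equivariant endomorphisms of `R[X]` on it, and the Euler characteristics of the eigensystems.
(For `A = Γ × K`, `E = Γ` with `K` acting trivially this is the group cohomology of `Γ` with
coefficients in the space of the `K`-equivariant functions `X → V`.)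
-/

namespace Pool.Agent.Lib.MP_666dc0_nt.EP

section Cohomology

/-- The `R`-linear map `c : R[Y] → R[Z]` between the free `R`-modules on two `A`-sets commutes with
the action of the group `A`. -/
def Equi {R : Type} (A : Type) [CommRing R] [Group A] {Y Z : Type} [MulAction A Y] [MulAction A Z]
    (c : (Y →₀ R) →ₗ[R] (Z →₀ R)) : Prop :=
  ∀ (a : A) (m : Y →₀ R),
    c (Finsupp.mapDomain (fun y => a • y) m) = Finsupp.mapDomain (fun z => a • z) (c m)

/-- The free `A`-set with `r` orbits: the pairs `(i, g)` with `i < r` and `g ∈ A`. -/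
@[ext] structure FreeSet (A : Type) (r : ℕ) : Type where
  /-- the orbit -/
  i : Fin r
  /-- the element of the group -/
  g : A

instance (A : Type) [Group A] (r : ℕ) : MulAction A (FreeSet A r) where
  smul a p := ⟨p.i, a * p.g⟩
  one_smul p := FreeSet.ext rfl (one_mul p.g)
  mul_smul a b p := FreeSet.ext rfl (mul_assoc a b p.g)

/-- The `A`-set `X` is of type FL over `R`: the `R[A]`-module `R[X]` has a finite resolution by
finitely generated free `R[A]`-modules. -/
def IsFL (R A : Type) [CommRing R] [Group A] (X : Type) [MulAction A X] : Prop :=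
  ∃ (N : ℕ) (r : ℕ → ℕ) (ε : (FreeSet A (r 0) →₀ R) →ₗ[R] (X →₀ R))
    (d : ∀ n, (FreeSet A (r (n + 1)) →₀ R) →ₗ[R] (FreeSet A (r n) →₀ R)),
    (∀ n, N ≤ n → r n = 0) ∧ Equi A ε ∧ (∀ n, Equi A (d n)) ∧ Function.Surjective ε ∧
      LinearMap.ker ε = LinearMap.range (d 0) ∧
      ∀ n, LinearMap.ker (d n) = LinearMap.range (d (n + 1))

/-- The simplices of dimension `n`: the `A`-set `E^{n+1} × X`. -/
abbrev Simp (E X : Type) (n : ℕ) : Type := (Fin (n + 1) → E) × X

/-- The boundary of the `(n+1)`-simplex `(e_0, …, e_{n+1}; x)`: the alternating sum of the simplices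
`(e_0, …, ê_i, …, e_{n+1}; x)`. -/
noncomputable def bd (R E X : Type) [CommRing R] (n : ℕ) :
    (Simp E X (n + 1) →₀ R) →ₗ[R] (Simp E X n →₀ R) :=
  Finsupp.linearCombination R fun s =>
    ∑ i : Fin (n + 2), Finsupp.single ((fun j => s.1 (i.succAbove j)), s.2) ((-1) ^ (i : ℕ))

/-- The endomorphism of `R[E^{n+1} × X]` given by the endomorphism `c` of `R[X]`. -/
noncomputable def ext {R E X : Type} [CommRing R] (n : ℕ) (c : (X →₀ R) →ₗ[R] (X →₀ R)) :
    (Simp E X n →₀ R) →ₗ[R] (Simp E X n →₀ R) :=
  Finsupp.linearCombination R fun s =>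
    Finsupp.mapDomain (fun x => (s.1, x)) (c (Finsupp.single s.2 1))

variable {R A L V : Type} [CommRing R] [Group A] [Field L] [Algebra R L] [AddCommGroup V]
  [Module L V]

/-- The transpose of `c : R[Y] → R[Z]` on functions with values in the `L`-vector space `V`:
`f ↦ (y ↦ ∑ c_{yz} f(z))`, where `c(y) = ∑ c_{yz} z`. -/
noncomputable def pull (L V : Type) [Field L] [Algebra R L] [AddCommGroup V] [Module L V]
    {Y Z : Type} (c : (Y →₀ R) →ₗ[R] (Z →₀ R)) : (Z → V) →ₗ[L] (Y → V) where
  toFun f y := (c (Finsupp.single y 1)).sum fun z r => algebraMap R L r • f z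
  map_add' f g := by
    funext y
    simp only [Pi.add_apply, smul_add, Finsupp.sum_add]
  map_smul' a f := by
    funext y
    simp only [Pi.smul_apply, RingHom.id_apply, Finsupp.smul_sum]
    exact Finset.sum_congr rfl fun z _ => smul_comm _ _ _

/-- The space of the `A`-equivariant functions `Y → V`. -/
def Fun (ρ : Representation L A V) (Y : Type) [MulAction A Y] : Submodule L (Y → V) where
  carrier := {f | ∀ (a : A) (y : Y), f (a • y) = ρ a (f y)}
  zero_mem' a y := by simp
  add_mem' {f g} hf hg a y := by simp [hf a y, hg a y]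
  smul_mem' c f hf a y := by simp [hf a y]

variable (R) (ρ : Representation L A V) (E X : Type) [MulAction A E] [MulAction A X]

/-- The cocycles of degree `n`: the equivariant functions `f : E^{n+1} × X → V` with `δ f = 0`. -/
noncomputable def cocyc (n : ℕ) : Submodule L (Simp E X n → V) :=
  Fun ρ (Simp E X n) ⊓ LinearMap.ker (pull L V (bd R E X n))

/-- The coboundaries of degree `n`. -/
noncomputable def cobd : ∀ n : ℕ, Submodule L (Simp E X n → V)
  | 0 => ⊥
  | n + 1 => (Fun ρ (Simp E X n)).map (pull L V (bd R E X n))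

variable {R X}

/-- The cocycles of degree `n` whose classes are in the generalised eigenspace, with eigenvalues
`y`, of the operators given by the endomorphisms `c i` of `R[X]`. -/
noncomputable def genCocyc {I : Type} (c : I → (X →₀ R) →ₗ[R] (X →₀ R)) (y : I → L) (n : ℕ) :
    Submodule L (Simp E X n → V) :=
  cocyc R ρ E X n ⊓ ⨅ i, ⨆ N : ℕ, (cobd R ρ E X n).comap
    ((pull L V (ext (E := E) n (c i)) - y i • LinearMap.id) ^ N)

/-- The multiplicity of the eigensystem `y` in the cohomology of degree `n`: the dimension of the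
generalised eigenspace. -/
noncomputable def mult {I : Type} (c : I → (X →₀ R) →ₗ[R] (X →₀ R)) (y : I → L) (n : ℕ) : ℕ :=
  Module.finrank L (genCocyc ρ E c y n ⧸ (cobd R ρ E X n).submoduleOf (genCocyc ρ E c y n))

/-- The Euler characteristic of the eigensystem `y`: the alternating sum of its multiplicities. -/
noncomputable def eulerMult {I : Type} (c : I → (X →₀ R) →ₗ[R] (X →₀ R)) (y : I → L) : ℤ :=
  ∑ᶠ n : ℕ, (-1) ^ n * (mult ρ E c y n : ℤ)

end Cohomology

end Pool.Agent.Lib.MP_666dc0_nt.EP
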