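import Pool.Agent.Lib.MP_666dc0_nt.InterpZDefs
import Pool.Agent.Lib.MP_666dc0_nt.WL.C5a
import Pool.Agent.Lib.MP_666dc0_nt.EP.Defs

/-!
# Cohomology of arithmetic groups with algebraic coefficients: definitions
-/

open NumberField IsDedekindDomain TensorProduct
open scoped NumberField TensorProduct

namespace Pool.Agent.Lib.MP_666dc0_nt.EP

open WL

/-- The ring `ℤ_(ℓ)` of the `ℓ`-integral rational numbers. -/
def Zl (ℓ : ℕ) [Fact ℓ.Prime] : Subring ℚ where
  carrier := {q | ‖(q : ℚ_[ℓ])‖ ≤ 1}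
  zero_mem' := by simp
  one_mem' := by simp
  add_mem' {a b} ha hb := by
    change ‖((a + b : ℚ) : ℚ_[ℓ])‖ ≤ 1
    rw [Rat.cast_add]
    exact (IsUltrametricDist.norm_add_le_max _ _).trans (max_le ha hb)
  mul_mem' {a b} ha hb := by
    change ‖((a * b : ℚ) : ℚ_[ℓ])‖ ≤ 1
    rw [Rat.cast_mul, norm_mul]
    exact mul_le_one₀ ha (norm_nonneg _) hb
  neg_mem' {a} ha := by
    change ‖((-a : ℚ) : ℚ_[ℓ])‖ ≤ 1
    rw [Rat.cast_neg, norm_neg]
    exact ha

variable {F : Type} [Field F] [NumberField F] {n : ℕ}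

/-- A level `U K ⊆ G(𝔸_f)`: the elements of `U` are trivial at the places above `ℓ`, those of `K` at
all other places, and the subgroup `U K` is open and compact. -/
structure Level (D : Datum F n) (ℓ : ℕ) where
  /-- the part of the level outside `ℓ` -/
  U : Subgroup D.Ad
  /-- the part of the level at `ℓ` -/
  K : Subgroup D.Ad
  tame : IsTame ℓ U
  level : IsLevel ℓ U K

variable {D : Datum F n} {ℓ : ℕ}

theorem Level.comm (L : Level D ℓ) {u k : D.Ad} (hu : u ∈ L.U) (hk : k ∈ L.K) :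
    u * k = k * u := by
  refine mul_comm_of_disjoint fun v => ?_
  by_cases hv : (ℓ : 𝓞 F) ∈ v.asIdeal
  · exact Or.inl (L.tame u hu v hv)
  · exact Or.inr (L.level.supp k hk v hv)

/-- The set `G(𝔸_f) / U`. -/
def Level.X (L : Level D ℓ) : Type := D.Ad ⧸ L.U

/-- The class of `g` in `G(𝔸_f) / U`. -/
noncomputable def Level.cls (L : Level D ℓ) (g : D.Ad) : L.X := QuotientGroup.mk g

/-- The action of `G(F) × K` on `G(𝔸_f) / U`: `(γ, k) • g U = γ g k⁻¹ U`. -/
noncomputable instance (L : Level D ℓ) : MulAction (D.Rat × L.K) L.X where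
  smul a := Quotient.map' (fun g => D.toAd a.1 * g * (a.2 : D.Ad)⁻¹) (by
    intro g h hgh
    rw [QuotientGroup.leftRel_apply] at hgh ⊢
    have e : (D.toAd a.1 * g * (a.2 : D.Ad)⁻¹)⁻¹ * (D.toAd a.1 * h * (a.2 : D.Ad)⁻¹) =
        (a.2 : D.Ad) * (g⁻¹ * h) * (a.2 : D.Ad)⁻¹ := by group
    rw [e, ← L.comm hgh a.2.2, mul_inv_cancel_right]
    exact hgh)
  one_smul x := by
    induction x using Quotient.inductionOn'
    rename_i g
    change L.cls (D.toAd 1 * g * ((1 : L.K) : D.Ad)⁻¹) = L.cls g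
    rw [map_one, one_mul, Subgroup.coe_one, inv_one, mul_one]
  mul_smul a b x := by
    induction x using Quotient.inductionOn'
    rename_i g
    change L.cls (D.toAd (a.1 * b.1) * g * ((a.2 * b.2 : L.K) : D.Ad)⁻¹) =
      L.cls (D.toAd a.1 * (D.toAd b.1 * g * (b.2 : D.Ad)⁻¹) * (a.2 : D.Ad)⁻¹)
    rw [map_mul, Subgroup.coe_mul, mul_inv_rev]
    simp only [mul_assoc]

/-- The group `G(F)` as a set with the action of `G(F) × K` in which `K` acts trivially. -/
def Level.E (_ : Level D ℓ) : Type := D.Rat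

instance (L : Level D ℓ) : MulAction (D.Rat × L.K) L.E where
  smul a e := HMul.hMul (α := D.Rat) (β := D.Rat) a.1 e
  one_smul e := one_mul (M := D.Rat) e
  mul_smul a b e := mul_assoc (G := D.Rat) a.1 b.1 e

/-- The arithmetic group `Γ_g = G(F) ∩ g U K g⁻¹`. -/
noncomputable def Level.arith (L : Level D ℓ) (g : D.Ad) : Subgroup D.Rat :=
  (L.U ⊔ L.K).comap ((MulAut.conj g⁻¹).toMonoidHom.comp D.toAd)

/-- Coefficients: a finite-dimensional complex vector space `W` with an algebraic representation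
`rho` of `G(F ⊗ ℂ)` and a representation `sig` of `K` with open kernel that commutes with `rho`. -/
structure Coeff (L : Level D ℓ) where
  /-- the vector space -/
  W : Type
  [grp : AddCommGroup W]
  [mod : Module ℂ W]
  [fin : FiniteDimensional ℂ W]
  /-- the algebraic representation -/
  rho : Representation ℂ D.Cpx W
  /-- the representation of `K` -/
  sig : Representation ℂ L.K W
  alg : ∀ (w : W) (ξ : Module.Dual ℂ W), (fun x => ξ (rho x w)) ∈ polyFun D
  smooth : IsOpen {k : L.K | sig k = 1}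
  comm : ∀ x k, Commute (rho x) (sig k)

attribute [instance] Coeff.grp Coeff.mod Coeff.fin

/-- The representation `(γ, k) ↦ rho(γ) sig(k)` of `G(F) × K`. -/
noncomputable def Coeff.rep {L : Level D ℓ} (C : Coeff L) : Representation ℂ (D.Rat × L.K) C.W where
  toFun a := C.rho (D.toCpx a.1) * C.sig a.2
  map_one' := by
    rw [Prod.fst_one, Prod.snd_one, map_one, map_one, map_one, mul_one]
  map_mul' a b := by
    rw [Prod.fst_mul, Prod.snd_mul, map_mul, map_mul, map_mul]
    have h := C.comm (D.toCpx b.1) a.2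
    calc C.rho (D.toCpx a.1) * C.rho (D.toCpx b.1) * (C.sig a.2 * C.sig b.2)
        = C.rho (D.toCpx a.1) * (C.rho (D.toCpx b.1) * C.sig a.2) * C.sig b.2 := by
          simp only [mul_assoc]
      _ = C.rho (D.toCpx a.1) * (C.sig a.2 * C.rho (D.toCpx b.1)) * C.sig b.2 := by rw [h.eq]
      _ = _ := by simp only [mul_assoc]

variable [Fact ℓ.Prime]

/-- The Hecke algebra of `G(F_v)` with respect to `U ∩ G(F_v)` and with coefficients in `ℤ_(ℓ)`: the
finitely supported functions on `G(F_v) / (U ∩ G(F_v))` that are left invariant under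
`U ∩ G(F_v)`. -/
def Level.Hecke (L : Level D ℓ) (v : HeightOneSpectrum (𝓞 F)) : Type :=
  {h : (locSub D v ⧸ L.U.subgroupOf (locSub D v)) →₀ Zl ℓ //
    ∀ u ∈ L.U.subgroupOf (locSub D v), ∀ c, h (u • c) = h c}

/-- The Hecke operator of `h` on `ℤ_(ℓ)[G(𝔸_f) / U]`: `g U ↦ ∑ h(x) g x U`, the sum over
`x ∈ G(F_v) / (U ∩ G(F_v))`. -/
noncomputable def Level.op (L : Level D ℓ) {v : HeightOneSpectrum (𝓞 F)} (h : L.Hecke v) :
    (L.X →₀ Zl ℓ) →ₗ[Zl ℓ] (L.X →₀ Zl ℓ) :=
  Finsupp.linearCombination (Zl ℓ) fun x : L.X => h.1.sum fun c a =>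
    Finsupp.single (L.cls ((Quotient.out x : D.Ad) * ((Quotient.out c : locSub D v) : D.Ad))) a

/-- The level is good at `v`: `U` is the product of `U ∩ G(F_v)` and of a group with trivial
components at `v`, and the Hecke operators at `v` commute. -/
structure Level.IsGoodAt (L : Level D ℓ) (v : HeightOneSpectrum (𝓞 F)) : Prop where
  split : ∀ u ∈ L.U, ∃ a ∈ L.U, a ∈ locSub D v ∧ TrivialAt v (a⁻¹ * u)
  comm : ∀ h h' : L.Hecke v, L.op h ∘ₗ L.op h' = L.op h' ∘ₗ L.op h

variable (L : Level D ℓ) (S : Finset (HeightOneSpectrum (𝓞 F)))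

/-- The Hecke operators at the places outside `S`. -/
abbrev Idx : Type := Σ v : {v // v ∉ S}, L.Hecke v.1

/-- The finiteness conditions on the level: the set `G(F) \ G(𝔸_f) / U K` is finite, and for every
arithmetic group `Γ_g = G(F) ∩ g U K g⁻¹` the trivial `ℤ_(ℓ)[Γ_g]`-module `ℤ_(ℓ)` has a finite
resolution by finitely generated free modules. (These are theorems of Borel and of Borel and Serre
for reductive `G` if the `Γ_g` are torsion-free.) -/
structure Level.IsFinType (L : Level D ℓ) : Prop where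
  classes : ∃ X : Finset D.Ad, ∀ g : D.Ad, ∃ γ : D.Rat, ∃ c ∈ X, ∃ k ∈ L.U ⊔ L.K,
    g = D.toAd γ * c * k
  fl : ∀ g : D.Ad, IsFL (Zl ℓ) (L.arith g) Unit

variable {L}

/-- The Euler characteristic of the eigensystem `lam` in the cohomology of the arithmetic groups with
coefficients in `C`: the alternating sum of the multiplicities of `lam` in the cohomology
`Hⁿ(G(F), 𝒜)`, where `𝒜` is the space of the functions `f : G(𝔸_f) → W` with
`f(g u k) = sig(k)⁻¹ f(g)` for `u ∈ U`, `k ∈ K` on which `γ ∈ G(F)` acts by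
`f ↦ (g ↦ rho(γ) f(γ⁻¹ g))`. -/
noncomputable def Coeff.euler (C : Coeff L) (lam : Idx L S → ℂ) : ℤ :=
  eulerMult C.rep L.E (fun i : Idx L S => L.op i.2) lam

/-- The Buzzard-Gee statement for the eigensystem `lam`. -/
def Q1 {B : Type} [CommRing B] [Algebra B (PadicAlgCl ℓ)] {O : Type} [CommRing O]
    [HopfAlgebra B O] (A : OverB.HopfAction B Gal(AlgebraicClosure F/F) O)
    (φ : HeightOneSpectrum (𝓞 F) → Gal(AlgebraicClosure F/F))
    (sat : ∀ v, A.inv (φ v) → L.Hecke v) (lam : Idx L S → ℂ) : Prop :=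
  ∃ (E : IntermediateField ℚ ℂ) (μ : ∀ v, A.inv (φ v) → E), FiniteDimensional ℚ E ∧
    (∀ v (hv : v ∉ S) f, (μ v f : ℂ) = lam ⟨⟨v, hv⟩, sat v f⟩) ∧
    ∀ ι : E →+* PadicAlgCl ℓ, ∃ r : Gal(AlgebraicClosure F/F) →* A.LGroup (PadicAlgCl ℓ),
      OverB.IsAttachedTo A S φ (fun v f => ι (μ v f)) r

end Pool.Agent.Lib.MP_666dc0_nt.EP
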