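import Pool.Agent.Lib.MP_666dc0_nt.Mg.G065
import Pool.Agent.Lib.MP_666dc0_nt.Mg.G062

/-!
# EP, N2: approximation of continuous class functions by characters of finite quotients
-/

namespace Pool.Agent.Lib.MP_666dc0_nt.EP

variable {ℓ : ℕ} [Fact ℓ.Prime] {K : Type} [Group K] [TopologicalSpace K] [IsTopologicalGroup K]
  [CompactSpace K]

/-- A continuous class function is approximated by linear combinations of characters of
representations with open kernel. -/
theorem exists_approx_characters_of_class (ψ : K → PadicAlgCl ℓ) (hψ : Continuous ψ)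
    (hcl : ∀ g k, ψ (g * k * g⁻¹) = ψ k) {ε : ℝ} (hε : 0 < ε) :
    ∃ (m : ℕ) (e : Fin m → ℕ) (σ : ∀ j, K →* GL (Fin (e j)) (PadicAlgCl ℓ))
      (b : Fin m → PadicAlgCl ℓ), (∀ j, IsOpen ((σ j).ker : Set K)) ∧
      ∀ k : K, ‖ψ k - ∑ j, b j * (σ j k : Matrix (Fin (e j)) (Fin (e j)) (PadicAlgCl ℓ)).trace‖ ≤
        ε := by
  classical
  let N : Subgroup K :=
    { carrier := {w | ∀ k, ‖ψ (k * w) - ψ k‖ ≤ ε}
      one_mem' := fun k => by
        rw [mul_one, sub_self, norm_zero]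
        exact hε.le
      mul_mem' := fun {a b} ha hb k => by
        have h1 : ψ (k * (a * b)) - ψ k = (ψ (k * a * b) - ψ (k * a)) + (ψ (k * a) - ψ k) := by
          rw [mul_assoc]
          ring
        rw [h1]
        exact (IsUltrametricDist.norm_add_le_max _ _).trans (max_le (hb _) (ha _))
      inv_mem' := fun {a} ha k => by
        have h1 := ha (k * a⁻¹)
        rw [inv_mul_cancel_right] at h1
        rw [norm_sub_rev]
        exact h1 }
  have hN : ∀ w, w ∈ N ↔ ∀ k, ‖ψ (k * w) - ψ k‖ ≤ ε := fun w => Iff.rfl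
  have hnormal : N.Normal := by
    constructor
    intro w hw g k
    have h1 := hw (g⁻¹ * k * g)
    have h2 : ψ (k * (g * w * g⁻¹)) = ψ (g⁻¹ * k * g * w) := by
      rw [← hcl g (g⁻¹ * k * g * w)]
      congr 1
      group
    have h3 : ψ k = ψ (g⁻¹ * k * g) := by
      rw [← hcl g (g⁻¹ * k * g)]
      congr 1
      group
    rw [h2, h3]
    exact h1
  have hopen : IsOpen (N : Set K) := by
    refine Subgroup.isOpen_of_mem_nhds N (g := 1) ?_
    have h4 : ∀ᶠ w in nhds (1 : K), ∀ k ∈ (Set.univ : Set K), ‖ψ (k * w) - ψ k‖ < ε := by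
      refine isCompact_univ.eventually_forall_of_forall_eventually fun k _ => ?_
      have h2 : Continuous fun x : K × K => ‖ψ (x.2 * x.1) - ψ x.2‖ :=
        ((hψ.comp (continuous_snd.mul continuous_fst)).sub (hψ.comp continuous_snd)).norm
      refine (h2.tendsto (1, k)).eventually_lt_const ?_
      change ‖ψ (k * 1) - ψ k‖ < ε
      rw [mul_one, sub_self, norm_zero]
      exact hε
    filter_upwards [h4] with w hw k
    exact (hw k (Set.mem_univ _)).le
  have hfin : Finite (K ⧸ N) := N.quotient_finite_of_isOpen hopen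
  let c : K ⧸ N → K ⧸ N := fun q => Quotient.out (ConjClasses.mk q)
  let r : K ⧸ N → K := fun q => Quotient.out q
  let f : K ⧸ N → PadicAlgCl ℓ := fun q => ψ (r (c q))
  have hclass : ∀ g h : K ⧸ N, f (h * g * h⁻¹) = f g := by
    intro g h
    have h1 : ConjClasses.mk (h * g * h⁻¹) = ConjClasses.mk g :=
      ConjClasses.mk_eq_mk_iff_isConj.2 (isConj_comm.1 (isConj_iff.2 ⟨h, rfl⟩))
    change ψ (r (Quotient.out (ConjClasses.mk (h * g * h⁻¹)))) = ψ (r (Quotient.out (ConjClasses.mk g)))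
    rw [h1]
  have happ : ∀ k : K, ‖ψ k - f (k : K ⧸ N)‖ ≤ ε := by
    intro k
    have hq : ConjClasses.mk (c (k : K ⧸ N)) = ConjClasses.mk (k : K ⧸ N) := Quotient.out_eq _
    obtain ⟨d, hd⟩ := isConj_iff.1 (ConjClasses.mk_eq_mk_iff_isConj.1 hq)
    have hk' : ((r (c (k : K ⧸ N)) : K) : K ⧸ N) = c (k : K ⧸ N) := Quotient.out_eq _
    obtain ⟨g, rfl⟩ := QuotientGroup.mk_surjective d
    have h1 : ((g * r (c (k : K ⧸ N)) * g⁻¹ : K) : K ⧸ N) = (k : K ⧸ N) := by
      have h4 : ((g * r (c (k : K ⧸ N)) * g⁻¹ : K) : K ⧸ N) =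
          (g : K ⧸ N) * ((r (c (k : K ⧸ N)) : K) : K ⧸ N) * (g : K ⧸ N)⁻¹ := rfl
      rw [h4, hk']
      exact hd
    have h2 : (g * r (c (k : K ⧸ N)) * g⁻¹)⁻¹ * k ∈ N := QuotientGroup.eq.1 h1
    have h3 := (hN _).1 h2 (g * r (c (k : K ⧸ N)) * g⁻¹)
    rw [mul_inv_cancel_left, hcl] at h3
    exact h3
  obtain ⟨m, e, σ, b, hσ⟩ := class_fun_span (K ⧸ N) (PadicAlgCl ℓ) f hclass
  refine ⟨m, e, fun j => (σ j).comp (QuotientGroup.mk' N), b, ?_, ?_⟩
  · intro j
    refine Subgroup.isOpen_mono (H₁ := N) ?_ hopen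
    intro k hk
    have h1 : QuotientGroup.mk' N k = 1 := (QuotientGroup.eq_one_iff k).2 hk
    rw [MonoidHom.mem_ker, MonoidHom.comp_apply, h1, map_one]
  · intro k
    have h := happ k
    rw [hσ (k : K ⧸ N)] at h
    exact h

end Pool.Agent.Lib.MP_666dc0_nt.EP
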