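import Pool.Agent.Lib.MP_666dc0_nt.EP.SDefs

/-!
# EP, U3: twisting the coefficients by an algebraic representation
-/

open NumberField IsDedekindDomain TensorProduct
open scoped NumberField TensorProduct

namespace Pool.Agent.Lib.MP_666dc0_nt.EP

open WL

variable {F : Type} [Field F] [NumberField F] {n : ℕ} {D : Datum F n} {ℓ : ℕ}

/-- A finite-dimensional algebraic representation of `G(F ⊗ ℂ)`. -/
structure AlgRep (D : Datum F n) where
  /-- the vector space -/
  V : Type
  [grp : AddCommGroup V]
  [mod : Module ℂ V]
  [fin : FiniteDimensional ℂ V]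
  /-- the representation -/
  rho : Representation ℂ D.Cpx V
  alg : ∀ (w : V) (ξ : Module.Dual ℂ V), (fun x => ξ (rho x w)) ∈ polyFun D

attribute [instance] AlgRep.grp AlgRep.mod AlgRep.fin

variable {L : Level D ℓ}

/-- The coefficients `V ⊗ W`, on which `G(F ⊗ ℂ)` acts on both factors and `K` acts on `W`. -/
noncomputable def Coeff.twist (C : Coeff L) (V : AlgRep D) : Coeff L where
  W := V.V ⊗[ℂ] C.W
  rho := V.rho.tprod C.rho
  sig := (1 : Representation ℂ L.K V.V).tprod C.sig
  alg w ξ := by
    induction w using TensorProduct.induction_on with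
    | zero =>
      have h : (fun x => ξ ((V.rho.tprod C.rho) x 0)) = (0 : D.Cpx → ℂ) := by
        funext x
        rw [map_zero, map_zero]
        rfl
      rw [h]
      exact Subalgebra.zero_mem _
    | add w w' hw hw' =>
      have h : (fun x => ξ ((V.rho.tprod C.rho) x (w + w'))) =
          (fun x => ξ ((V.rho.tprod C.rho) x w)) + fun x => ξ ((V.rho.tprod C.rho) x w') := by
        funext x
        rw [map_add, map_add]
        rfl
      rw [h]
      exact Subalgebra.add_mem _ hw hw'
    | tmul v w =>
      let b := Module.finBasis ℂ V.V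
      let c := Module.finBasis ℂ C.W
      have h : (fun x => ξ ((V.rho.tprod C.rho) x (v ⊗ₜ[ℂ] w))) =
          ∑ i, ∑ j, (fun x => b.coord i (V.rho x v)) * (fun x => c.coord j (C.rho x w)) *
            algebraMap ℂ (D.Cpx → ℂ) (ξ (b i ⊗ₜ[ℂ] c j)) := by
        funext x
        have h1 : (V.rho.tprod C.rho) x (v ⊗ₜ[ℂ] w) = V.rho x v ⊗ₜ[ℂ] C.rho x w := rfl
        have h2 : V.rho x v = ∑ i, b.coord i (V.rho x v) • b i := (b.sum_repr _).symm
        have h3 : C.rho x w = ∑ j, c.coord j (C.rho x w) • c j := (c.sum_repr _).symm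
        rw [h1]
        conv_lhs => rw [h2, h3, TensorProduct.sum_tmul, map_sum]
        rw [Finset.sum_apply]
        refine Finset.sum_congr rfl fun i _ => ?_
        rw [TensorProduct.tmul_sum, map_sum, Finset.sum_apply]
        refine Finset.sum_congr rfl fun j _ => ?_
        rw [TensorProduct.smul_tmul_smul, map_smul, smul_eq_mul]
        rfl
      rw [h]
      refine Subalgebra.sum_mem _ fun i _ => Subalgebra.sum_mem _ fun j _ => ?_
      exact Subalgebra.mul_mem _ (Subalgebra.mul_mem _ (V.alg v _) (C.alg w _))
        (Subalgebra.algebraMap_mem _ _)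
  smooth := by
    have h1 : {k : L.K | ((1 : Representation ℂ L.K V.V).tprod C.sig) k = 1} =
        ((((1 : Representation ℂ L.K V.V).tprod C.sig).ker : Subgroup L.K) : Set L.K) := rfl
    rw [h1]
    refine Subgroup.isOpen_mono (H₁ := C.sig.ker) ?_ C.smooth
    intro k hk
    rw [MonoidHom.mem_ker] at hk ⊢
    change TensorProduct.map ((1 : Representation ℂ L.K V.V) k) (C.sig k) = 1
    rw [hk, MonoidHom.one_apply]
    exact TensorProduct.map_one
  comm x k := by
    change Commute (TensorProduct.map (V.rho x) (C.rho x))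
      (TensorProduct.map ((1 : Representation ℂ L.K V.V) k) (C.sig k))
    rw [MonoidHom.one_apply]
    change TensorProduct.map (V.rho x) (C.rho x) * TensorProduct.map 1 (C.sig k) =
      TensorProduct.map 1 (C.sig k) * TensorProduct.map (V.rho x) (C.rho x)
    rw [← TensorProduct.map_mul, ← TensorProduct.map_mul, mul_one, one_mul, (C.comm x k).eq]

theorem Coeff.trace_twist (C : Coeff L) (V : AlgRep D) (x : D.Cpx) (k : L.K) :
    LinearMap.trace ℂ (C.twist V).W ((C.twist V).rho x * (C.twist V).sig k) =
      LinearMap.trace ℂ V.V (V.rho x) * LinearMap.trace ℂ C.W (C.rho x * C.sig k) := by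
  have h1 : (C.twist V).rho x * (C.twist V).sig k =
      TensorProduct.map (V.rho x) (C.rho x * C.sig k) := by
    change TensorProduct.map (V.rho x) (C.rho x) *
      TensorProduct.map ((1 : Representation ℂ L.K V.V) k) (C.sig k) = _
    rw [MonoidHom.one_apply, ← TensorProduct.map_mul, mul_one]
  rw [h1]
  exact LinearMap.trace_tensorProduct' _ _

/-- The coefficients given by an algebraic representation of `G(F ⊗ ℂ)`. -/
noncomputable def AlgRep.coeff (V : AlgRep D) (L : Level D ℓ) : Coeff L where
  W := V.V
  rho := V.rho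
  sig := 1
  alg := V.alg
  smooth := by
    have h1 : {k : L.K | (1 : Representation ℂ L.K V.V) k = 1} = Set.univ :=
      Set.eq_univ_of_forall fun k => rfl
    rw [h1]
    exact isOpen_univ
  comm x k := Commute.one_right _

end Pool.Agent.Lib.MP_666dc0_nt.EP
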