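import Pool.Agent.Lib.MP_666dc0_nt.EP.T8
import Pool.Agent.Lib.MP_666dc0_nt.EP.N2
import Pool.Agent.Lib.MP_666dc0_nt.EP.U3

/-!
# EP, U4: control by families of coefficients
-/

open NumberField IsDedekindDomain
open scoped NumberField

namespace Pool.Agent.Lib.MP_666dc0_nt.EP

open WL

variable {F : Type} [Field F] [NumberField F] {n : ℕ} {D : Datum F n} {ℓ : ℕ} [Fact ℓ.Prime]
  {L : Level D ℓ} {S : Finset (HeightOneSpectrum (𝓞 F))} {ι : ℂ ≃+* PadicAlgCl ℓ}

/-- The character of the coefficients `C` on `K`. -/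
noncomputable def Coeff.chi (C : Coeff L) (H : HatData F ℓ ι) (k : L.K) : PadicAlgCl ℓ :=
  ι (LinearMap.trace ℂ C.W (C.rho (H.hat D k) * C.sig k))

theorem Coeff.continuous_chi (C : Coeff L) (H : HatData F ℓ ι) : Continuous (C.chi H) := by
  obtain ⟨d, τ, hτ, htr⟩ := C.exists_padic_rep H
  have hc : Continuous fun k : L.K => (τ k : Matrix (Fin d) (Fin d) (PadicAlgCl ℓ)).trace :=
    (Units.continuous_val.comp hτ).matrix_trace
  exact hc.congr htr

theorem Coeff.chi_conj (C : Coeff L) (H : HatData F ℓ ι) (g k : L.K) :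
    C.chi H (g * k * g⁻¹) = C.chi H k := by
  have h : ∀ k : L.K, C.chi H k = ι (LinearMap.trace ℂ C.W (C.hrep H (1, k))) := fun k => rfl
  rw [h, h]
  have e : ((1 : D.Rat), g * k * g⁻¹) = (1, g) * (1, k) * (1, g⁻¹) := by
    rw [Prod.mk_mul_mk, Prod.mk_mul_mk, one_mul, one_mul]
  have e' : ((1 : D.Rat), g⁻¹) * (1, g) = 1 := by
    rw [Prod.mk_mul_mk, one_mul, inv_mul_cancel]
    rfl
  rw [e, map_mul, LinearMap.trace_mul_comm, ← map_mul, ← mul_assoc, e', one_mul]

theorem Coeff.exists_bound_chi (C : Coeff L) (H : HatData F ℓ ι) :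
    ∃ M : ℝ, 0 < M ∧ ∀ k, ‖C.chi H k‖ ≤ M := by
  have := L.compactSpace_K
  obtain ⟨M, hM⟩ := (isCompact_univ (X := L.K)).exists_bound_of_continuousOn
    (C.continuous_chi H).continuousOn
  exact ⟨max M 1, lt_max_of_lt_right one_pos, fun k => (hM k (Set.mem_univ _)).trans
    (le_max_left _ _)⟩

theorem Setup.tau_eq_chi (h : Setup L S) (H : HatData F ℓ ι) : ∃ m : ℕ, 0 < m ∧
    ∀ t : MvPolynomial (Idx L S) (Zl ℓ), ∃ ν : L.K →₀ Zl ℓ, ∀ C : Coeff L,
      (m : ℂ) * h.tau C t = ν.sum fun k x => ((x : ℚ) : ℂ) * ι.symm (C.chi H k) := by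
  obtain ⟨m, hm, hm'⟩ := h.exists_trace H
  refine ⟨m, hm, fun t => ?_⟩
  obtain ⟨ν, hν⟩ := hm' t
  refine ⟨ν, fun C => ?_⟩
  rw [hν C]
  unfold Coeff.chi
  simp only [RingEquiv.symm_apply_apply]

/-- The eigensystems with non-zero Euler characteristic for the coefficients in `𝓒`. -/
def famOf (ι : ℂ ≃+* PadicAlgCl ℓ) (L : Level D ℓ) (S : Finset (HeightOneSpectrum (𝓞 F)))
    (𝓒 : Coeff L → Prop) : Set (MvPolynomial (Idx L S) (Zl ℓ) →+* PadicAlgCl ℓ) :=
  {χ | ∃ (C : Coeff L) (y : Idx L S → ℂ), 𝓒 C ∧ C.euler S y ≠ 0 ∧ χ = homOf ι y}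

/-- Control by the family `𝓒` if the character of `C` is a limit of linear combinations of the
characters of the members of `𝓒`. -/
theorem Setup.controlled_of (h : Setup L S) (H : HatData F ℓ ι) (𝓒 : Coeff L → Prop) {C : Coeff L}
    (hC : ∀ ε : ℝ, 0 < ε → ∃ (m : ℕ) (C' : Fin m → Coeff L) (b : Fin m → PadicAlgCl ℓ),
      (∀ j, 𝓒 (C' j)) ∧ ∀ k, ‖C.chi H k - ∑ j, b j * (C' j).chi H k‖ ≤ ε)
    {y : Idx L S → ℂ} (hy : C.euler S y ≠ 0) : Controlled (famOf ι L S 𝓒) (homOf ι y) := by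
  classical
  obtain ⟨s, e, h1, h2, -, h4⟩ := h.exists_homs ι C
  refine controlled_of_approx (famOf ι L S 𝓒) ?_ s e h2 ?_ (homOf ι y) ((h1 _).2 ⟨y, hy, rfl⟩)
  · rintro ψ ⟨C₁, y₁, -, hy₁, rfl⟩ t
    exact h.norm_le_one H hy₁ t
  · intro ε hε
    obtain ⟨m₀, hm₀, hm₀'⟩ := h.tau_eq_chi H
    have hm0 : 0 < ‖ι (m₀ : ℂ)‖ := norm_natCast_pos hm₀
    obtain ⟨m, C', b, hrho, happ'⟩ := hC _ (mul_pos hm0 hε)
    have happ : ∀ t, ‖ι (h.tau C t - ∑ j, ι.symm (b j) * h.tau (C' j) t)‖ ≤ ε := by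
      intro t
      obtain ⟨ν, hν⟩ := hm₀' t
      have heq : (m₀ : ℂ) * (h.tau C t - ∑ j, ι.symm (b j) * h.tau (C' j) t) = ν.sum fun k x =>
          ((x : ℚ) : ℂ) * ι.symm (C.chi H k - ∑ j, b j * (C' j).chi H k) := by
        rw [mul_sub, Finset.mul_sum, hν C]
        simp only [mul_left_comm (m₀ : ℂ)]
        simp only [hν (C' _)]
        simp only [Finsupp.sum, Finset.mul_sum, map_sub, map_sum, map_mul]
        rw [Finset.sum_comm, ← Finset.sum_sub_distrib]
        refine Finset.sum_congr rfl fun k _ => ?_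
        rw [mul_sub, Finset.mul_sum]
        congr 1
        refine Finset.sum_congr rfl fun j _ => ?_
        ring
      rw [← mul_le_mul_iff_right₀ hm0, ← norm_mul, ← map_mul, heq]
      refine norm_sum_le ν _ (mul_pos hm0 hε).le fun k => ?_
      rw [RingEquiv.apply_symm_apply]
      exact happ' k
    have hex := fun j => h.exists_homs ι (C' j)
    choose s' e' g1 g2 g3 g4 using hex
    refine ⟨Finset.univ.biUnion s', fun χ => ∑ j, if χ ∈ s' j then b j * e' j χ else 0,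
      ?_, ?_⟩
    · intro ψ hψ
      obtain ⟨j, -, hj⟩ := Finset.mem_biUnion.1 hψ
      obtain ⟨y₁, hy₁, rfl⟩ := (g1 j ψ).1 hj
      exact ⟨C' j, y₁, hrho j, hy₁, rfl⟩
    · intro t
      have h5 : ∑ ψ ∈ Finset.univ.biUnion s',
          (∑ j, if ψ ∈ s' j then b j * e' j ψ else 0) * ψ t =
          ∑ j, b j * ι (h.tau (C' j) t) := by
        simp only [Finset.sum_mul, ite_mul, zero_mul]
        rw [Finset.sum_comm]
        refine Finset.sum_congr rfl fun j _ => ?_
        rw [Finset.sum_ite_mem, Finset.inter_eq_right.2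
          (Finset.subset_biUnion_of_mem s' (Finset.mem_univ j)), g4 j t, Finset.mul_sum]
        refine Finset.sum_congr rfl fun ψ _ => ?_
        ring
      rw [h5, ← h4 t]
      have h6 := happ t
      rw [map_sub, map_sum] at h6
      simp only [map_mul, RingEquiv.apply_symm_apply] at h6
      exact h6

/-- The character of the coefficients `C` is approximated by those of the coefficients `V ⊗ C'`
with `C'` of weight zero. -/
theorem Coeff.exists_approx_twist (C : Coeff L) (H : HatData F ℓ ι) (V : AlgRep D)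
    (hV : ∀ k : L.K, LinearMap.trace ℂ V.V (V.rho (H.hat D k)) ≠ 0) {ε : ℝ} (hε : 0 < ε) :
    ∃ (m : ℕ) (C' : Fin m → Coeff L) (b : Fin m → PadicAlgCl ℓ), (∀ j, (C' j).rho = 1) ∧
      ∀ k, ‖C.chi H k - ∑ j, b j * ((C' j).twist V).chi H k‖ ≤ ε := by
  have := L.compactSpace_K
  have hVchi : ∀ k, (V.coeff L).chi H k = ι (LinearMap.trace ℂ V.V (V.rho (H.hat D k))) := by
    intro k
    have h1 : V.rho (H.hat D k) * (1 : Representation ℂ L.K V.V) k = V.rho (H.hat D k) := by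
      rw [MonoidHom.one_apply, mul_one]
    change ι (LinearMap.trace ℂ V.V (V.rho (H.hat D k) * (1 : Representation ℂ L.K V.V) k)) = _
    rw [h1]
  have hV0 : ∀ k, (V.coeff L).chi H k ≠ 0 := by
    intro k
    rw [hVchi, map_ne_zero_iff ι ι.injective]
    exact hV k
  obtain ⟨M, hM, hbound⟩ := (V.coeff L).exists_bound_chi H
  obtain ⟨m, e, σ, b, hopen, happ⟩ := exists_approx_characters_of_class
    (fun k => C.chi H k / (V.coeff L).chi H k)
    ((C.continuous_chi H).div₀ ((V.coeff L).continuous_chi H) hV0)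
    (fun g k => by
      change C.chi H (g * k * g⁻¹) / (V.coeff L).chi H (g * k * g⁻¹) = _
      rw [C.chi_conj, (V.coeff L).chi_conj]) (div_pos hε hM)
  have hex : ∀ j, ∃ C' : Coeff L, C'.rho = 1 ∧ ∀ k, LinearMap.trace ℂ C'.W (C'.sig k) =
      ι.symm ((σ j k : Matrix (Fin (e j)) (Fin (e j)) (PadicAlgCl ℓ)).trace) :=
    fun j => exists_coeff (σ j) (hopen j)
  choose C' hrho hC' using hex
  refine ⟨m, C', b, hrho, fun k => ?_⟩
  have hj : ∀ j, ((C' j).twist V).chi H k = (V.coeff L).chi H k *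
      (σ j k : Matrix (Fin (e j)) (Fin (e j)) (PadicAlgCl ℓ)).trace := by
    intro j
    unfold Coeff.chi
    rw [Coeff.trace_twist, map_mul, hrho j, MonoidHom.one_apply, one_mul, hC' j k,
      RingEquiv.apply_symm_apply, ← hVchi]
    rfl
  have heq : C.chi H k - ∑ j, b j * ((C' j).twist V).chi H k = (V.coeff L).chi H k *
      (C.chi H k / (V.coeff L).chi H k -
        ∑ j, b j * (σ j k : Matrix (Fin (e j)) (Fin (e j)) (PadicAlgCl ℓ)).trace) := by
    rw [mul_sub, mul_div_cancel₀ _ (hV0 k), Finset.mul_sum]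
    congr 1
    refine Finset.sum_congr rfl fun j _ => ?_
    rw [hj j]
    ring
  rw [heq, norm_mul]
  calc ‖(V.coeff L).chi H k‖ * ‖C.chi H k / (V.coeff L).chi H k -
        ∑ j, b j * (σ j k : Matrix (Fin (e j)) (Fin (e j)) (PadicAlgCl ℓ)).trace‖
      ≤ M * (ε / M) := mul_le_mul (hbound k) (happ k) (norm_nonneg _) hM.le
    _ = ε := mul_div_cancel₀ _ hM.ne'

end Pool.Agent.Lib.MP_666dc0_nt.EP
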