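import Pool.Agent.Lib.MP_666dc0_nt.EP.Defs

/-!
# EP, U1: conjugating the coefficients by a field automorphism
-/

namespace Pool.Agent.Lib.MP_666dc0_nt.EP

/-- The dimension of a quotient of subspaces is invariant under semilinear isomorphisms. -/
theorem finrank_quot_eq {k M M' : Type} [Field k] [AddCommGroup M] [Module k M]
    [AddCommGroup M'] [Module k M'] {σ σ' : k →+* k} [RingHomInvPair σ σ'] [RingHomInvPair σ' σ]
    (F : M ≃ₛₗ[σ] M') {G B : Submodule k M} {G' B' : Submodule k M'}
    (hG : ∀ m, F m ∈ G' ↔ m ∈ G) (hB : ∀ m, F m ∈ B' ↔ m ∈ B) :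
    Module.finrank k (G ⧸ B.submoduleOf G) = Module.finrank k (G' ⧸ B'.submoduleOf G') := by
  let T : G →ₛₗ[σ] G' := (F.toLinearMap.domRestrict G).codRestrict G' fun m => (hG m).2 m.2
  let T' : G' →ₛₗ[σ'] G := (F.symm.toLinearMap.domRestrict G').codRestrict G fun m => by
    rw [← hG]
    change F (F.symm m) ∈ G'
    rw [LinearEquiv.apply_symm_apply]
    exact m.2
  let Q : (G ⧸ B.submoduleOf G) →ₛₗ[σ] (G' ⧸ B'.submoduleOf G') :=
    Submodule.mapQ _ _ T fun m hm => (hB m).2 hm
  let Q' : (G' ⧸ B'.submoduleOf G') →ₛₗ[σ'] (G ⧸ B.submoduleOf G) :=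
    Submodule.mapQ _ _ T' fun m hm => by
      change F.symm (m : M') ∈ B
      rw [← hB, LinearEquiv.apply_symm_apply]
      exact hm
  let j : (G ⧸ B.submoduleOf G) ≃+ (G' ⧸ B'.submoduleOf G') :=
    { toFun := Q
      invFun := Q'
      left_inv := fun q => by
        obtain ⟨m, rfl⟩ := Submodule.Quotient.mk_surjective _ q
        have h : T' (T m) = m := Subtype.ext (F.symm_apply_apply (m : M))
        exact congrArg Submodule.Quotient.mk h
      right_inv := fun q => by
        obtain ⟨m, rfl⟩ := Submodule.Quotient.mk_surjective _ q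
        have h : T (T' m) = m := Subtype.ext (F.apply_symm_apply (m : M'))
        exact congrArg Submodule.Quotient.mk h
      map_add' := fun a b => map_add Q a b }
  have hσ : Function.Bijective σ := by
    constructor
    · exact σ.injective
    · intro x
      exact ⟨σ' x, RingHomInvPair.comp_apply_eq₂⟩
  have h1 := rank_eq_of_equiv_equiv (σ : k → k) j hσ fun r m => Q.map_smulₛₗ r m
  unfold Module.finrank
  rw [h1]

variable {R A k V V' : Type} [CommRing R] [Group A] [Field k] [Algebra R k] [AddCommGroup V]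
  [Module k V] [AddCommGroup V'] [Module k V'] {E X : Type} [MulAction A E] [MulAction A X]
  {ρ : Representation k A V} {ρ' : Representation k A V'} {σ σ' : k →+* k}
  [RingHomInvPair σ σ'] [RingHomInvPair σ' σ]

/-- The map induced by `f : V ≃ V'` on functions. -/
def piMap (Y : Type) (f : V ≃ₛₗ[σ] V') : (Y → V) ≃ₛₗ[σ] (Y → V') where
  toFun u y := f (u y)
  invFun u y := f.symm (u y)
  left_inv u := funext fun y => f.symm_apply_apply (u y)
  right_inv u := funext fun y => f.apply_symm_apply (u y)
  map_add' u v := funext fun y => map_add f (u y) (v y)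
  map_smul' c u := funext fun y => f.map_smulₛₗ c (u y)

theorem piMap_pull (hs : ∀ r : R, σ (algebraMap R k r) = algebraMap R k r) (f : V ≃ₛₗ[σ] V')
    {Y Z : Type} (c : (Y →₀ R) →ₗ[R] (Z →₀ R)) (u : Z → V) :
    pull k V' c (piMap Z f u) = piMap Y f (pull k V c u) := by
  funext y
  change ((c (Finsupp.single y 1)).sum fun z r => algebraMap R k r • f (u z)) =
    f ((c (Finsupp.single y 1)).sum fun z r => algebraMap R k r • u z)
  unfold Finsupp.sum
  rw [map_sum]
  refine Finset.sum_congr rfl fun z _ => ?_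
  rw [f.map_smulₛₗ, hs]

/-- Euler characteristics and semilinear isomorphisms. -/
theorem eulerMult_semilinear (hs : ∀ r : R, σ (algebraMap R k r) = algebraMap R k r)
    (f : V ≃ₛₗ[σ] V') (hρ : ∀ a v, f (ρ a v) = ρ' a (f v)) {I : Type}
    (c : I → (X →₀ R) →ₗ[R] (X →₀ R)) (y : I → k) :
    eulerMult ρ E c y = eulerMult ρ' E c fun i => σ (y i) := by
  have hFun : ∀ n (u : Simp E X n → V), piMap _ f u ∈ Fun ρ' (Simp E X n) ↔
      u ∈ Fun ρ (Simp E X n) := by
    intro n u
    have h1 : ∀ (a : A) (s : Simp E X n), (piMap _ f u (a • s) = ρ' a (piMap _ f u s)) ↔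
        u (a • s) = ρ a (u s) := by
      intro a s
      change f (u (a • s)) = ρ' a (f (u s)) ↔ _
      rw [← hρ]
      exact f.injective.eq_iff
    exact ⟨fun h a s => (h1 a s).1 (h a s), fun h a s => (h1 a s).2 (h a s)⟩
  have hcobd : ∀ n (u : Simp E X n → V), piMap _ f u ∈ cobd R ρ' E X n ↔
      u ∈ cobd R ρ E X n := by
    intro n u
    cases n with
    | zero =>
      change piMap _ f u = 0 ↔ u = 0
      exact LinearEquiv.map_eq_zero_iff _
    | succ n =>
      change piMap _ f u ∈ (Fun ρ' (Simp E X n)).map (pull k V' (bd R E X n)) ↔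
        u ∈ (Fun ρ (Simp E X n)).map (pull k V (bd R E X n))
      constructor
      · rintro ⟨g', hg', h⟩
        obtain ⟨g, rfl⟩ := (piMap _ f).surjective g'
        rw [piMap_pull hs] at h
        exact ⟨g, (hFun n g).1 hg', (piMap _ f).injective h⟩
      · rintro ⟨g, hg, rfl⟩
        exact ⟨piMap _ f g, (hFun n g).2 hg, piMap_pull hs f _ g⟩
  have hcocyc : ∀ n (u : Simp E X n → V), piMap _ f u ∈ cocyc R ρ' E X n ↔
      u ∈ cocyc R ρ E X n := by
    intro n u
    change (piMap _ f u ∈ Fun ρ' (Simp E X n) ∧ pull k V' (bd R E X n) (piMap _ f u) = 0) ↔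
      (u ∈ Fun ρ (Simp E X n) ∧ pull k V (bd R E X n) u = 0)
    rw [hFun, piMap_pull hs, LinearEquiv.map_eq_zero_iff]
  have hpow : ∀ (n : ℕ) (i : I) (N : ℕ) (u : Simp E X n → V),
      ((pull k V' (ext (E := E) n (c i)) - σ (y i) • LinearMap.id) ^ N :
        Module.End k (Simp E X n → V')) (piMap _ f u) =
      piMap _ f (((pull k V (ext (E := E) n (c i)) - y i • LinearMap.id) ^ N :
        Module.End k (Simp E X n → V)) u) := by
    intro n i N
    induction N with
    | zero => intro u; rfl
    | succ N ih =>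
      intro u
      rw [pow_succ, Module.End.mul_apply, pow_succ, Module.End.mul_apply, ← ih]
      congr 1
      rw [LinearMap.sub_apply, LinearMap.sub_apply, LinearMap.smul_apply, LinearMap.smul_apply,
        LinearMap.id_apply, LinearMap.id_apply, piMap_pull hs, map_sub,
        (piMap (Simp E X n) f).map_smulₛₗ]
  have hgen : ∀ n (u : Simp E X n → V), piMap _ f u ∈ genCocyc ρ' E c (fun i => σ (y i)) n ↔
      u ∈ genCocyc ρ E c y n := by
    intro n u
    unfold genCocyc
    rw [Submodule.mem_inf, Submodule.mem_inf, hcocyc, Submodule.mem_iInf, Submodule.mem_iInf]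
    refine and_congr Iff.rfl (forall_congr' fun i => ?_)
    have h1 : ∀ (w : Simp E X n → V) (p : Submodule k (Simp E X n → V')),
        (piMap (Simp E X n) f w ∈ p ↔ w ∈ p.map (piMap (Simp E X n) f).symm.toLinearMap) := by
      intro w p
      constructor
      · intro h
        exact ⟨_, h, (piMap (Simp E X n) f).symm_apply_apply w⟩
      · rintro ⟨w, hw, rfl⟩
        change piMap _ f ((piMap _ f).symm w) ∈ p
        rw [LinearEquiv.apply_symm_apply]
        exact hw
    rw [h1, Submodule.map_iSup]
    have h2 : ∀ N : ℕ, ((cobd R ρ' E X n).comap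
        ((pull k V' (ext (E := E) n (c i)) - σ (y i) • LinearMap.id) ^ N)).map
          (piMap (Simp E X n) f).symm.toLinearMap =
        (cobd R ρ E X n).comap ((pull k V (ext (E := E) n (c i)) - y i • LinearMap.id) ^ N) := by
      intro N
      ext w
      rw [← h1, Submodule.mem_comap, Submodule.mem_comap, ← hcobd n, ← hpow]
    simp only [h2]
  have hmult : ∀ n, mult ρ E c y n = mult ρ' E c (fun i => σ (y i)) n := fun n =>
    finrank_quot_eq (piMap (Simp E X n) f) (hgen n) (hcobd n)
  unfold eulerMult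
  refine finsum_congr fun n => ?_
  rw [hmult n]

end Pool.Agent.Lib.MP_666dc0_nt.EP
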