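import Pool.Agent.Lib.MP_666dc0_nt.EP.SDefs
import Pool.Agent.Lib.MP_666dc0_nt.EP.U1

/-!
# EP, U2: conjugate coefficients of weight zero
-/

open NumberField IsDedekindDomain
open scoped NumberField

namespace Pool.Agent.Lib.MP_666dc0_nt.EP

open WL

variable {F : Type} [Field F] [NumberField F] {n : ℕ} {D : Datum F n} {ℓ : ℕ} [Fact ℓ.Prime]
  {L : Level D ℓ}

/-- Conjugation by an automorphism `s` of `ℂ` of the coefficients of weight zero. -/
theorem Coeff.exists_conj (C : Coeff L) (hC : C.rho = 1) (s : ℂ ≃+* ℂ) :
    ∃ C' : Coeff L, C'.rho = 1 ∧ ∀ (S : Finset (HeightOneSpectrum (𝓞 F))) (lam : Idx L S → ℂ),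
      C.euler S lam = C'.euler S fun i => s (lam i) := by
  let i1 : RingHomInvPair (s : ℂ →+* ℂ) (s.symm : ℂ →+* ℂ) := RingHomInvPair.of_ringEquiv s
  let i2 : RingHomInvPair (s.symm : ℂ →+* ℂ) (s : ℂ →+* ℂ) := RingHomInvPair.of_ringEquiv_symm s
  let b := Module.finBasis ℂ C.W
  let d := Module.finrank ℂ C.W
  let f : C.W ≃ₛₗ[(s : ℂ →+* ℂ)] (Fin d → ℂ) :=
    { toFun := fun v j => s (b.equivFun v j)
      invFun := fun u => b.equivFun.symm fun j => s.symm (u j)
      left_inv := fun v => by
        simp only [RingEquiv.symm_apply_apply]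
        exact b.equivFun.symm_apply_apply v
      right_inv := fun u => by
        funext j
        change s (b.equivFun (b.equivFun.symm fun j => s.symm (u j)) j) = u j
        rw [LinearEquiv.apply_symm_apply, RingEquiv.apply_symm_apply]
      map_add' := fun v w => by
        funext j
        rw [map_add, Pi.add_apply, map_add]
        rfl
      map_smul' := fun c v => by
        funext j
        rw [map_smul, Pi.smul_apply, smul_eq_mul, map_mul]
        rfl }
  have hfs : ∀ (c : ℂ) (v : C.W), f (c • v) = s c • f v := fun c v => f.map_smulₛₗ c v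
  have hfs' : ∀ (c : ℂ) (u : Fin d → ℂ), f.symm (c • u) = s.symm c • f.symm u := fun c u =>
    f.symm.map_smulₛₗ c u
  let sg : Representation ℂ L.K (Fin d → ℂ) :=
    { toFun := fun k =>
        { toFun := fun u => f (C.sig k (f.symm u))
          map_add' := fun u v => by rw [map_add, map_add, map_add]
          map_smul' := fun c u => by
            rw [hfs', map_smul, hfs, RingEquiv.apply_symm_apply, RingHom.id_apply] }
      map_one' := by
        refine LinearMap.ext fun u => ?_
        change f (C.sig 1 (f.symm u)) = u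
        rw [map_one, Module.End.one_apply, LinearEquiv.apply_symm_apply]
      map_mul' := fun k k' => by
        refine LinearMap.ext fun u => ?_
        change f (C.sig (k * k') (f.symm u)) = f (C.sig k (f.symm (f (C.sig k' (f.symm u)))))
        rw [map_mul, Module.End.mul_apply, LinearEquiv.symm_apply_apply] }
  have hsg : ∀ k, sg k = 1 ↔ C.sig k = 1 := by
    intro k
    constructor
    · intro h
      refine LinearMap.ext fun v => ?_
      have h1 : f (C.sig k (f.symm (f v))) = f v := LinearMap.congr_fun h (f v)
      rw [LinearEquiv.symm_apply_apply] at h1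
      exact f.injective h1
    · intro h
      refine LinearMap.ext fun u => ?_
      change f (C.sig k (f.symm u)) = u
      rw [h, Module.End.one_apply, LinearEquiv.apply_symm_apply]
  let C' : Coeff L :=
    { W := Fin d → ℂ
      rho := 1
      sig := sg
      alg := fun w ξ => by
        have h1 : (fun _ : D.Cpx => ξ w) = algebraMap ℂ (D.Cpx → ℂ) (ξ w) := rfl
        change (fun _ : D.Cpx => ξ w) ∈ polyFun D
        rw [h1]
        exact Subalgebra.algebraMap_mem _ _
      smooth := by
        have h1 : {k : L.K | sg k = 1} = {k : L.K | C.sig k = 1} := by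
          ext k
          exact hsg k
        rw [h1]
        exact C.smooth
      comm := fun x k => Commute.one_left _ }
  refine ⟨C', rfl, fun S lam => ?_⟩
  unfold Coeff.euler
  refine eulerMult_semilinear (σ := (s : ℂ →+* ℂ)) (σ' := (s.symm : ℂ →+* ℂ)) (fun r => ?_) f
    (fun a v => ?_) _ lam
  · change s (((r : ℚ) : ℂ)) = ((r : ℚ) : ℂ)
    exact map_ratCast s _
  · change f ((C.rho (D.toCpx a.1) * C.sig a.2) v) =
      (((1 : Representation ℂ D.Cpx (Fin d → ℂ)) (D.toCpx a.1)) * sg a.2) (f v)
    rw [hC]
    change f (C.sig a.2 v) = f (C.sig a.2 (f.symm (f v)))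
    rw [LinearEquiv.symm_apply_apply]

end Pool.Agent.Lib.MP_666dc0_nt.EP
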