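import Pool.Agent.Lib.MP_666dc0_nt.EP.T12
import Pool.Agent.Lib.MP_666dc0_nt.EP.U2
import Pool.Agent.Lib.MP_666dc0_nt.EP.U4

/-!
# EP, U5: the main theorem, second form
-/

open NumberField IsDedekindDomain TensorProduct
open scoped NumberField TensorProduct

namespace Pool.Agent.Lib.MP_666dc0_nt.EP

open WL

/-- The trivial representation. -/
noncomputable def AlgRep.triv {F : Type} [Field F] [NumberField F] {n : ℕ} (D : Datum F n) :
    AlgRep D where
  V := ℂ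
  rho := 1
  alg w ξ := by
    have h1 : (fun x => ξ ((1 : Representation ℂ D.Cpx ℂ) x w)) =
        algebraMap ℂ (D.Cpx → ℂ) (ξ w) := rfl
    rw [h1]
    exact Subalgebra.algebraMap_mem _ _

/-- There is a homomorphism with values in the `ℓ`-adic points of the L-group that is attached to
the image under `ι` of the eigensystem `lam`. -/
def AttAt {F : Type} [Field F] [NumberField F] {n : ℕ} {D : Datum F n}
    {ℓ : ℕ} [Fact ℓ.Prime] {L : Level D ℓ} (S : Finset (HeightOneSpectrum (𝓞 F)))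
    {B : Type} [CommRing B] [Algebra B (PadicAlgCl ℓ)] {O : Type} [CommRing O]
    [HopfAlgebra B O] (A : OverB.HopfAction B Gal(AlgebraicClosure F/F) O)
    (φ : HeightOneSpectrum (𝓞 F) → Gal(AlgebraicClosure F/F))
    (sat : ∀ v, A.inv (φ v) → L.Hecke v) (ι : ℂ ≃+* PadicAlgCl ℓ) (lam : Idx L S → ℂ) : Prop :=
  ∃ (w : ∀ v, A.inv (φ v) → PadicAlgCl ℓ)
    (r : Gal(AlgebraicClosure F/F) →* A.LGroup (PadicAlgCl ℓ)),
    (∀ v (hv : v ∉ S) f, w v f = ι (lam ⟨⟨v, hv⟩, sat v f⟩)) ∧ OverB.IsAttachedTo A S φ w r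

section

variable {F : Type} [Field F] [NumberField F] {n : ℕ} {D : Datum F n}
    {ℓ : ℕ} [Fact ℓ.Prime] {L : Level D ℓ} {S : Finset (HeightOneSpectrum (𝓞 F))}
    {B : Type} [CommRing B] [Algebra B (PadicAlgCl ℓ)] {O : Type} [CommRing O]
    [HopfAlgebra B O] {A : OverB.HopfAction B Gal(AlgebraicClosure F/F) O}
    {φ : HeightOneSpectrum (𝓞 F) → Gal(AlgebraicClosure F/F)}
    {sat : ∀ v, A.inv (φ v) → L.Hecke v}

theorem attAt_iff (ι : ℂ ≃+* PadicAlgCl ℓ) (lam : Idx L S → ℂ) :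
    AttAt S A φ sat ι lam ↔ Att A φ sat (homOf ι lam) := by
  unfold AttAt Att
  simp only [homOf_X]

/-- Representations for all isomorphisms give the Buzzard-Gee statement. -/
theorem q1_of_att [IsDomain B] [IsPrincipalIdealRing B] [Algebra B ℚ] [IsFractionRing B ℚ]
    [Algebra.FiniteType B O] [Module.Free B O] (hO : LinearlyReductive (ℚ ⊗[B] O))
    (hSl : ∀ v : HeightOneSpectrum (𝓞 F), (ℓ : 𝓞 F) ∈ v.asIdeal → v ∈ S)
    (hA : IsOpen (A.act.ker : Set Gal(AlgebraicClosure F/F)))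
    (hS : ∀ v, v ∉ S → ∀ P u, IsInertiaAt v P u → A.act u = 1)
    (hφ : ∀ v, v ∉ S → ∃ P : Ideal (𝓞 (AlgebraicClosure F)), IsOver v P ∧
      (IsFrob v P (φ v) ∨ IsFrob v P (φ v)⁻¹)) (lam : Idx L S → ℂ)
    (hatt : ∀ ι : ℂ ≃+* PadicAlgCl ℓ, AttAt S A φ sat ι lam) : Q1 S A φ sat lam := by
  classical
  let x : ∀ v, A.inv (φ v) → ℂ := fun v f =>
    if hv : v ∉ S then lam ⟨⟨v, hv⟩, sat v f⟩ else 0
  have hx : ∀ v (hv : v ∉ S) f, x v f = lam ⟨⟨v, hv⟩, sat v f⟩ := fun v hv f => by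
    simp only [x, dif_pos hv]
  have hatt' : ∀ ι : ℂ ≃+* PadicAlgCl ℓ,
      ∃ r : Gal(AlgebraicClosure F/F) →* A.LGroup (PadicAlgCl ℓ),
        OverB.IsAttachedTo A S φ (fun v f => ι (x v f)) r := by
    intro ι
    obtain ⟨w, r, hw, hr⟩ := hatt ι
    refine ⟨r, hr.proj, hr.cont, hr.unram, fun v hv f => ?_⟩
    rw [hr.value v hv f, hw v hv f, hx v hv]
  obtain ⟨E, hEf, hE⟩ := exists_numberField_B ℓ hO A hA S hSl hS φ hφ x hatt'
  refine ⟨E, fun v f => if hv : v ∉ S then ⟨x v f, hE v hv f⟩ else 0, hEf, ?_, ?_⟩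
  · intro v hv f
    simp only [dif_pos hv, hx v hv]
  · intro j
    have hcount : Cardinal.mk E ≤ Cardinal.aleph0 := by
      have h1 := Algebra.IsAlgebraic.cardinalMk_le_max ℚ E
      simpa using h1
    obtain ⟨ι, hι⟩ := exists_iso_extending ℓ hcount (algebraMap E ℂ) j
    obtain ⟨r, hr⟩ := hatt' ι
    refine ⟨r, hr.proj, hr.cont, hr.unram, fun v hv f => ?_⟩
    rw [hr.value v hv f]
    have h2 := hι ⟨x v f, hE v hv f⟩
    simp only [dif_pos hv]
    exact h2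

end

theorem main_EP' {F : Type} [Field F] [NumberField F] {n : ℕ} {D : Datum F n}
    {ℓ : ℕ} [Fact ℓ.Prime] (L : Level D ℓ) (hfd : IsFD (Zl ℓ) (D.Rat × L.K) L.X)
    (S : Finset (HeightOneSpectrum (𝓞 F)))
    (hSl : ∀ v : HeightOneSpectrum (𝓞 F), (ℓ : 𝓞 F) ∈ v.asIdeal → v ∈ S)
    (hgood : ∀ v, v ∉ S → L.IsGoodAt v)
    {B : Type} [CommRing B] [IsDomain B] [IsPrincipalIdealRing B] [Algebra B ℚ]
    [IsFractionRing B ℚ] [Algebra B (PadicAlgCl ℓ)]
    {O : Type} [CommRing O] [HopfAlgebra B O] [Algebra.FiniteType B O] [Module.Free B O]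
    (hO : LinearlyReductive (ℚ ⊗[B] O)) (A : OverB.HopfAction B Gal(AlgebraicClosure F/F) O)
    (hA : IsOpen (A.act.ker : Set Gal(AlgebraicClosure F/F)))
    (hS : ∀ v, v ∉ S → ∀ P u, IsInertiaAt v P u → A.act u = 1)
    (φ : HeightOneSpectrum (𝓞 F) → Gal(AlgebraicClosure F/F))
    (hφ : ∀ v, v ∉ S → ∃ P : Ideal (𝓞 (AlgebraicClosure F)), IsOver v P ∧
      (IsFrob v P (φ v) ∨ IsFrob v P (φ v)⁻¹))
    (sat : ∀ v, A.inv (φ v) → L.Hecke v) :
    List.TFAE [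
      ∀ (C : Coeff L) (lam : Idx L S → ℂ), C.euler S lam ≠ 0 → Q1 S A φ sat lam,
      ∀ (C : Coeff L) (lam : Idx L S → ℂ), C.rho = 1 → C.euler S lam ≠ 0 → Q1 S A φ sat lam,
      ∃ (ι : ℂ ≃+* PadicAlgCl ℓ) (H : HatData F ℓ ι) (V : AlgRep D),
        (∀ k : L.K, LinearMap.trace ℂ V.V (V.rho (H.hat D k)) ≠ 0) ∧
        ∀ (C : Coeff L) (lam : Idx L S → ℂ), C.rho = 1 → (C.twist V).euler S lam ≠ 0 →
          AttAt S A φ sat ι lam] := by
  classical
  have hs : Setup L S := ⟨hSl, hgood, hfd⟩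
  tfae_have 1 → 2 := fun h C lam _ h1 => h C lam h1
  tfae_have 2 → 3 := by
    intro h
    obtain ⟨ι, -⟩ := exists_iso_extending (k := ℚ) ℓ Cardinal.mk_le_aleph0 (algebraMap ℚ ℂ)
      (algebraMap ℚ (PadicAlgCl ℓ))
    obtain ⟨H⟩ := exists_hatData F ℓ ι
    refine ⟨ι, H, AlgRep.triv D, fun k => ?_, fun C lam hC hlam => ?_⟩
    · change LinearMap.trace ℂ ℂ (1 : Module.End ℂ ℂ) ≠ 0
      rw [LinearMap.trace_one]
      simp
    · rw [attAt_iff]
      refine (h (C.twist (AlgRep.triv D)) lam ?_ hlam).att ι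
      refine MonoidHom.ext fun x => ?_
      change TensorProduct.map ((1 : Representation ℂ D.Cpx ℂ) x) (C.rho x) = 1
      rw [hC]
      exact TensorProduct.map_one
  tfae_have 3 → 1 := by
    rintro ⟨ι₀, H₀, V, hV, h⟩
    -- representations for all weights and for the given isomorphism
    have hA1 : ∀ (C : Coeff L) (lam : Idx L S → ℂ), C.euler S lam ≠ 0 →
        AttAt S A φ sat ι₀ lam := by
      intro C lam hlam
      rw [attAt_iff]
      refine att_of_controlled hO A hA hS φ hφ sat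
        (famOf ι₀ L S fun C' => ∃ C₁ : Coeff L, C₁.rho = 1 ∧ C' = C₁.twist V) (homOf ι₀ lam)
        (hs.controlled_of H₀ _ (fun ε hε => ?_) hlam) ?_ ?_ ?_
      · obtain ⟨m, C', b, h1, h2⟩ := C.exists_approx_twist H₀ V hV hε
        exact ⟨m, fun j => (C' j).twist V, b, fun j => ⟨C' j, h1 j, rfl⟩, h2⟩
      · rintro ψ hψ
        rcases Set.mem_insert_iff.1 hψ with rfl | ⟨C', y', _, hy', rfl⟩
        · exact hs.exists_field H₀ hlam
        · exact hs.exists_field H₀ hy'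
      · rintro ψ hψ
        rcases Set.mem_insert_iff.1 hψ with rfl | ⟨C', y', _, hy', rfl⟩
        · exact hs.norm_le_one H₀ hlam
        · exact hs.norm_le_one H₀ hy'
      · rintro ψ ⟨C', y', ⟨C₁, hC₁, rfl⟩, hy', rfl⟩
        rw [← attAt_iff]
        exact h C₁ y' hC₁ hy'
    -- weight zero, all isomorphisms
    have hA2 : ∀ (C : Coeff L) (lam : Idx L S → ℂ), C.rho = 1 → C.euler S lam ≠ 0 →
        ∀ ι : ℂ ≃+* PadicAlgCl ℓ, AttAt S A φ sat ι lam := by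
      intro C lam hC hlam ι
      obtain ⟨C', hC', hconj⟩ := C.exists_conj hC (ι.trans ι₀.symm)
      rw [hconj S lam] at hlam
      obtain ⟨w, r, hw, hr⟩ := hA1 C' _ hlam
      refine ⟨w, r, fun v hv f => ?_, hr⟩
      rw [hw v hv f]
      exact ι₀.apply_symm_apply (ι (lam ⟨⟨v, hv⟩, sat v f⟩))
    refine (main_EP L hfd S hSl hgood hO A hA hS φ hφ sat).2 fun C lam hC hlam => ?_
    exact q1_of_att hO hSl hA hS hφ lam (hA2 C lam hC hlam)
  tfae_finish

end Pool.Agent.Lib.MP_666dc0_nt.EP
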