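import Pool.Agent.Lib.MP_666dc0_nt.EP.T3b
import Pool.Agent.Lib.MP_666dc0_nt.Mg.G014

/-!
# EP, T4: the representation of `K` over `ℚ̄_ℓ`
-/

open NumberField IsDedekindDomain
open scoped NumberField

namespace Pool.Agent.Lib.MP_666dc0_nt.EP

open WL

variable {F : Type} [Field F] [NumberField F] {n : ℕ} {D : Datum F n} {ℓ : ℕ} [Fact ℓ.Prime]
  {L : Level D ℓ} {ι : ℂ ≃+* PadicAlgCl ℓ}

/-- Proof: `isCompact_of_isLevel` (WL/E1), `isCompact_iff_compactSpace`. -/
theorem Level.compactSpace_K (L : Level D ℓ) : CompactSpace L.K := by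
  exact isCompact_iff_compactSpace.1 (isCompact_of_isLevel L.tame L.level)

/-- The matrix coefficients of `k ↦ rho(hat k) sig(k)` are continuous as functions with values in
`ℚ̄_ℓ`.
Proof: let `N = {k | sig k = 1}`, an open subgroup (`C.smooth`). On the open set `k₀ N` one has
`sig k = sig k₀`, so the function is `k ↦ ι (p (hat k))` with `p x = ξ (rho x (sig k₀ w)) ∈ polyFun`
(`C.alg`), and this is continuous: `continuous_eval` (WL/D1) with `y = z = 1`, composed with
`k ↦ k⁻¹`. -/
theorem Coeff.continuous_coeff (C : Coeff L) (H : HatData F ℓ ι) (w : C.W)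
    (ξ : Module.Dual ℂ C.W) :
    Continuous fun k : L.K => ι (ξ (C.rho (H.hat D k) (C.sig k w))) := by
  rw [continuous_iff_continuousAt]
  intro k₀
  have hN : IsOpen {k : L.K | C.sig (k₀⁻¹ * k) = 1} :=
    C.smooth.preimage (continuous_const.mul continuous_id)
  have hmem : k₀ ∈ {k : L.K | C.sig (k₀⁻¹ * k) = 1} := by
    show C.sig (k₀⁻¹ * k₀) = 1
    rw [inv_mul_cancel, map_one]
  have hc := continuous_eval H (C.alg (C.sig k₀ w) ξ) 1 1
  have hc2 : Continuous fun k : L.K => ι (ξ (C.rho (H.hat D k) (C.sig k₀ w))) := by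
    have h3 : Continuous fun k : L.K => ((k : D.Ad))⁻¹ := continuous_inv.comp continuous_subtype_val
    have h4 := hc.comp h3
    refine h4.congr fun k => ?_
    show ι (ξ (C.rho (1 * (H.hat D ((k : D.Ad))⁻¹)⁻¹ * 1) (C.sig k₀ w))) = _
    rw [map_inv, inv_inv, one_mul, mul_one]
  refine hc2.continuousAt.congr ?_
  filter_upwards [hN.mem_nhds hmem] with k hk
  have h5 : C.sig k = C.sig k₀ := by
    have h6 : k = k₀ * (k₀⁻¹ * k) := by group
    rw [h6, map_mul, hk, mul_one]
  rw [h5]

/-- Proof: let `b` be a basis of `C.W` (`Module.finBasis`) and `τ k` the matrix of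
`rho(hat k) sig(k)` in this basis with `ι` applied to the entries (a homomorphism: it is the
composition of `C.hrep H` on `(1, k)`, `LinearMap.toMatrixAlgEquiv b` and
`RingHom.mapMatrix ι`; `MonoidHom.toHomUnits` gives units). Continuity in `GL`:
`Units.continuous_iff` (the inverse is `τ k⁻¹`), `continuous_matrix`, `continuous_coeff`. The trace
is `ι` of the trace (`LinearMap.trace_eq_matrix_trace`, `RingHom.map_trace`). -/
theorem Coeff.exists_padic_rep (C : Coeff L) (H : HatData F ℓ ι) :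
    ∃ (d : ℕ) (τ : L.K →* GL (Fin d) (PadicAlgCl ℓ)), Continuous τ ∧
      ∀ k : L.K, (τ k : Matrix (Fin d) (Fin d) (PadicAlgCl ℓ)).trace =
        ι (LinearMap.trace ℂ C.W (C.rho (H.hat D k) * C.sig k)) := by
  let b := Module.finBasis ℂ C.W
  let τ₀ : L.K →* Matrix (Fin (Module.finrank ℂ C.W)) (Fin (Module.finrank ℂ C.W))
      (PadicAlgCl ℓ) :=
    ((ι : ℂ →+* PadicAlgCl ℓ).mapMatrix.toMonoidHom).comp
      (((LinearMap.toMatrixAlgEquiv b).toAlgHom.toRingHom.toMonoidHom).comp
        ((C.hrep H).comp (MonoidHom.inr D.Rat L.K)))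
  have hτ₀ : ∀ k i j, τ₀ k i j = ι (b.coord i (C.rho (H.hat D k) (C.sig k (b j)))) := by
    intro k i j
    show ι (LinearMap.toMatrixAlgEquiv b (C.rho (H.hat D k) * C.sig k) i j) = _
    rw [LinearMap.toMatrixAlgEquiv_apply]
    rfl
  have hc : Continuous fun k => τ₀ k := by
    refine continuous_matrix fun i j => ?_
    simp only [hτ₀]
    exact C.continuous_coeff H (b j) (b.coord i)
  have hval : ∀ k, ((MonoidHom.toHomUnits τ₀ k : GL _ (PadicAlgCl ℓ)) :
      Matrix (Fin (Module.finrank ℂ C.W)) (Fin (Module.finrank ℂ C.W)) (PadicAlgCl ℓ)) = τ₀ k :=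
    fun k => rfl
  refine ⟨Module.finrank ℂ C.W, MonoidHom.toHomUnits τ₀, ?_, ?_⟩
  · rw [Units.continuous_iff]
    constructor
    · exact hc
    · have h1 : (fun k => (((MonoidHom.toHomUnits τ₀ k)⁻¹ : GL _ (PadicAlgCl ℓ)) :
          Matrix (Fin (Module.finrank ℂ C.W)) (Fin (Module.finrank ℂ C.W)) (PadicAlgCl ℓ))) =
          fun k => τ₀ k⁻¹ := by
        funext k
        rw [← map_inv]
        rfl
      rw [h1]
      exact hc.comp continuous_inv
  · intro k
    rw [hval, LinearMap.trace_eq_matrix_trace ℂ b, Matrix.trace, Matrix.trace, map_sum]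
    rfl

end Pool.Agent.Lib.MP_666dc0_nt.EP
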