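import Pool.Agent.Lib.MP_666dc0_nt.WL.D1defs
import Pool.Agent.Lib.MP_666dc0_nt.WL.G1
import Pool.Agent.Lib.MP_666dc0_nt.Mg.G002

/-!
# EP, T9a: the values of the specialisation are in a finite extension of `ℚ_ℓ`
-/

open NumberField IsDedekindDomain
open scoped NumberField

namespace Pool.Agent.Lib.MP_666dc0_nt.EP

open WL

variable {F : Type} [Field F] [NumberField F] {ℓ : ℕ} [Fact ℓ.Prime] {ι : ℂ ≃+* PadicAlgCl ℓ}

/-- Proof: `exists_finite_ext` (WL/G1) for `j = ι ∘ τ` gives `E` with `ι (τ x) ∈ E` for `x ∈ F`. As a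
finite-dimensional subspace `E` is closed in `PadicAlgCl ℓ` (`Submodule.closed_of_finiteDimensional`
for `Subalgebra.toSubmodule E.toSubalgebra`). The continuous function `b ↦ ‖ι (H.s τ b)‖` is bounded
by some `C` on the compact set `Ohat F` (`isCompact_Ohat`, WL/T5). For `a` and `N : ℕ` there are
`x ∈ F`, `b ∈ Ohat F` with `algebraMap x - a = ℓ ^ N * b` (`exists_sub_mem`, WL/T3, `m = ℓ ^ N`), so
`‖ι (τ x) - ι (H.s τ a)‖ ≤ ‖(ℓ : PadicAlgCl ℓ)‖ ^ N * C` (`H.comp`), which tends to `0`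
(`‖(ℓ : PadicAlgCl ℓ)‖ = ℓ⁻¹ < 1`, `PadicAlgCl.norm_extends`). So `ι (H.s τ a)` is in the closure of
`E`. -/
theorem exists_field_s (H : HatData F ℓ ι) (τ : F →+* ℂ) :
    ∃ E : IntermediateField ℚ_[ℓ] (PadicAlgCl ℓ), FiniteDimensional ℚ_[ℓ] E ∧
      ∀ a, ι (H.s τ a) ∈ E := by
  obtain ⟨E, hE, hEm⟩ := exists_finite_ext (ℓ := ℓ) ((ι : ℂ →+* PadicAlgCl ℓ).comp τ)
  refine ⟨E, hE, fun a => ?_⟩
  have hclosed : IsClosed ((Subalgebra.toSubmodule E.toSubalgebra :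
      Submodule ℚ_[ℓ] (PadicAlgCl ℓ)) : Set (PadicAlgCl ℓ)) := by
    have hfd : FiniteDimensional ℚ_[ℓ] (Subalgebra.toSubmodule E.toSubalgebra) := hE
    exact Submodule.closed_of_finiteDimensional _
  obtain ⟨C, hC⟩ := (isCompact_Ohat F).exists_bound_of_continuousOn (H.cont τ).continuousOn
  have hℓ : 0 < ℓ := (Fact.out : ℓ.Prime).pos
  choose x b hb hxb using fun N : ℕ => exists_sub_mem (F := F) a (ℓ ^ N) (Nat.pow_pos hℓ)
  have hkey : ∀ N, ι (τ (x N)) - ι (H.s τ a) = (ℓ : PadicAlgCl ℓ) ^ N * ι (H.s τ (b N)) := by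
    intro N
    have h1 : H.s τ (algebraMap F (FiniteAdeleRing (𝓞 F) F) (x N)) = τ (x N) :=
      DFunLike.congr_fun (H.comp τ) (x N)
    have h2 := congrArg (fun z => ι (H.s τ z)) (hxb N)
    simp only [map_sub, map_mul, map_natCast] at h2
    rw [h1] at h2
    rw [h2, Nat.cast_pow]
  have hnorm : ‖(ℓ : PadicAlgCl ℓ)‖ < 1 := by
    have h1 : (ℓ : PadicAlgCl ℓ) = ((ℓ : ℚ_[ℓ]) : PadicAlgCl ℓ) := by
      exact (map_natCast (algebraMap ℚ_[ℓ] (PadicAlgCl ℓ)) ℓ).symm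
    rw [h1, PadicAlgCl.norm_extends]
    exact Padic.norm_p_lt_one
  have hlim : Filter.Tendsto (fun N => ι (τ (x N))) Filter.atTop (nhds (ι (H.s τ a))) := by
    rw [tendsto_iff_norm_sub_tendsto_zero]
    have h1 : Filter.Tendsto (fun N : ℕ => ‖(ℓ : PadicAlgCl ℓ)‖ ^ N * C) Filter.atTop (nhds 0) := by
      have := (tendsto_pow_atTop_nhds_zero_of_lt_one (norm_nonneg _) hnorm).mul_const C
      rwa [zero_mul] at this
    refine squeeze_zero (fun N => norm_nonneg _) (fun N => ?_) h1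
    rw [hkey, norm_mul, norm_pow]
    exact mul_le_mul_of_nonneg_left (hC _ (hb N)) (pow_nonneg (norm_nonneg _) _)
  exact hclosed.mem_of_tendsto hlim (Filter.Eventually.of_forall fun N => hEm (x N))

/-- Proof: the supremum of the `E i` (`IntermediateField.finiteDimensional_iSup_of_finite`). -/
theorem exists_field_sup {I : Type} [Finite I] (E : I → IntermediateField ℚ_[ℓ] (PadicAlgCl ℓ))
    (hE : ∀ i, FiniteDimensional ℚ_[ℓ] (E i)) :
    ∃ E' : IntermediateField ℚ_[ℓ] (PadicAlgCl ℓ), FiniteDimensional ℚ_[ℓ] E' ∧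
      ∀ i, E i ≤ E' := by
  have := hE
  exact ⟨⨆ i, E i, IntermediateField.finiteDimensional_iSup_of_finite, fun i => le_iSup E i⟩

variable {n : ℕ} {D : Datum F n}

/-- Proof: `Algebra.adjoin_induction`. Coordinates: `HatData.coord_hat` and `exists_field_s`. A
constant `c`: `E = ℚ_[ℓ](ι c)` (`IntermediateField.adjoin.finiteDimensional`, all elements of
`PadicAlgCl ℓ` are integral over `ℚ_[ℓ]`: `Algebra.IsIntegral.isIntegral`). Sums and products: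
`E₁ ⊔ E₂` (`IntermediateField.finiteDimensional_sup`). -/
theorem exists_field_poly (H : HatData F ℓ ι) {p : D.Cpx → ℂ} (hp : p ∈ polyFun D) :
    ∃ E : IntermediateField ℚ_[ℓ] (PadicAlgCl ℓ), FiniteDimensional ℚ_[ℓ] E ∧
      ∀ g : D.Ad, ι (p (H.hat D g)) ∈ E := by
  have hp' : p ∈ Algebra.adjoin ℂ {p | ∃ τ i j, p = coord D τ i j} := hp
  clear hp
  induction hp' using Algebra.adjoin_induction with
  | mem p hq =>
    obtain ⟨τ, i, j, rfl⟩ := hq
    obtain ⟨E, hE, hEm⟩ := exists_field_s H τ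
    exact ⟨E, hE, fun g => hEm _⟩
  | algebraMap r =>
    refine ⟨IntermediateField.adjoin ℚ_[ℓ] {ι r}, IntermediateField.adjoin.finiteDimensional
      (Algebra.IsIntegral.isIntegral _), fun g => ?_⟩
    exact IntermediateField.mem_adjoin_simple_self _ _
  | add p q _ _ ihp ihq =>
    obtain ⟨E₁, hE₁, h₁⟩ := ihp
    obtain ⟨E₂, hE₂, h₂⟩ := ihq
    refine ⟨E₁ ⊔ E₂, inferInstance, fun g => ?_⟩
    rw [Pi.add_apply, map_add]
    exact add_mem ((le_sup_left : E₁ ≤ E₁ ⊔ E₂) (h₁ g)) ((le_sup_right : E₂ ≤ E₁ ⊔ E₂) (h₂ g))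
  | mul p q _ _ ihp ihq =>
    obtain ⟨E₁, hE₁, h₁⟩ := ihp
    obtain ⟨E₂, hE₂, h₂⟩ := ihq
    refine ⟨E₁ ⊔ E₂, inferInstance, fun g => ?_⟩
    rw [Pi.mul_apply, map_mul]
    exact mul_mem ((le_sup_left : E₁ ≤ E₁ ⊔ E₂) (h₁ g)) ((le_sup_right : E₂ ≤ E₁ ⊔ E₂) (h₂ g))

end Pool.Agent.Lib.MP_666dc0_nt.EP
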