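import Pool.Agent.Lib.MP_666dc0_nt.EP.T8
import Pool.Agent.Lib.MP_666dc0_nt.Mg.G097
import Pool.Agent.Lib.MP_666dc0_nt.Mg.G098

/-!
# EP, T9c: the eigenvalues are in a finite extension of `ℚ_ℓ`
-/

open NumberField IsDedekindDomain
open scoped NumberField

namespace Pool.Agent.Lib.MP_666dc0_nt.EP

open WL

variable {F : Type} [Field F] [NumberField F] {n : ℕ} {D : Datum F n} {ℓ : ℕ} [Fact ℓ.Prime]
  {L : Level D ℓ} {S : Finset (HeightOneSpectrum (𝓞 F))} {ι : ℂ ≃+* PadicAlgCl ℓ}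

/-- Proof: let `E₀` be as in `Coeff.exists_field`. By `Setup.exists_trace` all `ι (h.tau C t)` are in
`E₀` (`ι` of a rational number is rational). With `s`, `e` from `exists_homs` apply
`exists_finite_field` (Z1). -/
theorem Setup.exists_field (h : Setup L S) (H : HatData F ℓ ι) {C : Coeff L} {y : Idx L S → ℂ}
    (hy : C.euler S y ≠ 0) : ∃ E : IntermediateField ℚ_[ℓ] (PadicAlgCl ℓ),
      FiniteDimensional ℚ_[ℓ] E ∧ ∀ t, homOf ι y t ∈ E := by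
  obtain ⟨E₀, hE₀, hE⟩ := C.exists_field H
  obtain ⟨s, e, hs, he, -, hsum⟩ := h.exists_homs ι C
  obtain ⟨m, hm, hm'⟩ := h.exists_trace H
  have htau : ∀ t, ∑ χ ∈ s, e χ * χ t ∈ E₀ := by
    intro t
    rw [← hsum t]
    obtain ⟨ν, hν⟩ := hm' t
    have hm1 : ι (m : ℂ) = (m : PadicAlgCl ℓ) := map_natCast ι m
    have hm0 : (m : PadicAlgCl ℓ) ≠ 0 := Nat.cast_ne_zero.2 hm.ne'
    have h0 : ι (h.tau C t) = (m : PadicAlgCl ℓ)⁻¹ * ι ((m : ℂ) * h.tau C t) := by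
      rw [map_mul, hm1, inv_mul_cancel_left₀ hm0]
    rw [h0]
    refine mul_mem (inv_mem (natCast_mem E₀ m)) ?_
    rw [hν C, Finsupp.sum, map_sum]
    refine sum_mem fun k _ => ?_
    rw [map_mul]
    refine mul_mem ?_ (hE k)
    have h1 : ι (((ν k : ℚ) : ℂ)) = (((ν k : ℚ)) : PadicAlgCl ℓ) := map_ratCast ι _
    rw [h1]
    exact SubfieldClass.ratCast_mem E₀ _
  have hmem : homOf ι y ∈ s := (hs _).2 ⟨y, hy, rfl⟩
  obtain ⟨E, h1, -, h2⟩ := exists_finite_field s e he E₀ htau (homOf ι y) hmem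
  exact ⟨E, h1, h2⟩

end Pool.Agent.Lib.MP_666dc0_nt.EP
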