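import Pool.Agent.Lib.MP_666dc0_nt.WL.Base

/-!
# EP, BV0: the rational forms of a datum; bases of the lattices: definitions
-/

open NumberField IsDedekindDomain
open scoped NumberField

namespace Pool.Agent.Lib.MP_666dc0_nt.EP

open WL

section
variable {F : Type} [Field F] {n : ℕ}

/-- The degrees of the forms of the datum: the bilinear form and the tensors. -/
def fdeg (D : Datum F n) : Option (Fin D.m) → ℕ
  | none => 2
  | some s => D.deg s

/-- The forms of the datum: the bilinear form `q` and the multilinear forms given by the tensors. -/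
def fval (D : Datum F n) : ∀ s : Option (Fin D.m), (Fin (fdeg D s) → Fin n → F) → F
  | none => fun (y : Fin 2 → Fin n → F) => qf D (RingHom.id F) (y 0) (y 1)
  | some s => fun y => pairT D (RingHom.id F) s y

end

variable {F : Type} [Field F] [NumberField F] {n : ℕ}

/-- The index set of the rational forms `Tr (a_k q)`, `Tr (a_k w_s)`, where `(a_k)` is an integral
basis of `F`. -/
abbrev FI (D : Datum F n) : Type :=
  Module.Free.ChooseBasisIndex ℤ (𝓞 F) × Option (Fin D.m)

/-- The degrees of the rational forms. -/
abbrev fa (D : Datum F n) (i : FI D) : ℕ := fdeg D i.2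

/-- The values of the rational forms on a family of vectors. -/
noncomputable def fam (D : Datum F n) {N : ℕ} (b : Fin N → Fin n → F) :
    ∀ i : FI D, (Fin (fa D i) → Fin N) → ℚ :=
  fun i J => Algebra.trace ℚ F (integralBasis F i.1 * fval D i.2 fun t => b (J t))

theorem finrank_vec : Module.finrank ℚ (Fin n → F) = rk F n := by
  rw [Module.finrank_pi_fintype]
  simp [rk]

variable (F n) in
/-- A basis of `F^n` over `ℚ`. -/
noncomputable def stdB : Module.Basis (Fin (rk F n)) ℚ (Fin n → F) :=
  Module.finBasisOfFinrankEq ℚ (Fin n → F) finrank_vec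

/-- The matrix of the coordinates of a family of vectors. -/
noncomputable def cm (b : Fin (rk F n) → Fin n → F) : Matrix (Fin (rk F n)) (Fin (rk F n)) ℚ :=
  (stdB F n).toMatrix b

/-- The matrix over `ℚ` of the `F`-linear map with matrix `γ`. -/
noncomputable def gm (γ : Matrix (Fin n) (Fin n) F) : Matrix (Fin (rk F n)) (Fin (rk F n)) ℚ :=
  LinearMap.toMatrix (stdB F n) (stdB F n) ((Matrix.mulVecLin γ).restrictScalars ℚ)

/-- The right action of matrices on families of forms. -/
def fact {R : Type} [CommRing R] {I : Type} {a : I → ℕ} {N : ℕ}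
    (u : ∀ i : I, (Fin (a i) → Fin N) → R) (z : Matrix (Fin N) (Fin N) R) :
    ∀ i : I, (Fin (a i) → Fin N) → R :=
  fun i => tensAct z.transpose (u i)

/-- The rational forms in the coordinates of the basis `stdB`, over `ℝ`. -/
noncomputable def uR (D : Datum F n) : ∀ i : FI D, (Fin (fa D i) → Fin (rk F n)) → ℝ :=
  fun i J => ((fam D (stdB F n) i J : ℚ) : ℝ)

variable {D : Datum F n}

/-- `b` is a `ℤ`-basis of the lattice of `g`. -/
structure IsBas (g : D.Ad) (b : Fin (rk F n) → Fin n → F) : Prop where
  li : LinearIndependent ℚ b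
  gen : AddSubgroup.closure (Set.range b) = lat g

end Pool.Agent.Lib.MP_666dc0_nt.EP
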