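import Pool.Agent.Lib.MP_666dc0_nt.Mg.G060

/-!
# EP, BV3: coordinates and transition matrices
-/

open NumberField IsDedekindDomain
open scoped NumberField

namespace Pool.Agent.Lib.MP_666dc0_nt.EP

open WL

variable {F : Type} [Field F] [NumberField F] {n : ℕ} {D : Datum F n}

/-- The family `b h`, whose `j`-th member is `∑ h i j b i`. -/
noncomputable def bh (b : Fin (rk F n) → Fin n → F) (h : Matrix (Fin (rk F n)) (Fin (rk F n)) ℚ) :
    Fin (rk F n) → Fin n → F :=
  fun j => ∑ i, h i j • b i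

theorem cm_bh (b : Fin (rk F n) → Fin n → F) (h : Matrix (Fin (rk F n)) (Fin (rk F n)) ℚ) :
    cm (bh b h) = cm b * h := by
  ext k j
  rw [Matrix.mul_apply]
  unfold cm bh
  rw [Module.Basis.toMatrix_apply, map_sum, Finsupp.finsetSum_apply]
  refine Finset.sum_congr rfl fun i _ => ?_
  rw [map_smul, Finsupp.smul_apply, smul_eq_mul, Module.Basis.toMatrix_apply, mul_comm]

theorem cm_stdB : cm (stdB F n) = 1 :=
  Module.Basis.toMatrix_self _

theorem eq_bh (b : Fin (rk F n) → Fin n → F) : b = bh (stdB F n) (cm b) := by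
  funext j
  exact ((stdB F n).sum_repr (b j)).symm

theorem cm_injective {b b' : Fin (rk F n) → Fin n → F} (h : cm b = cm b') : b = b' := by
  rw [eq_bh b, h, ← eq_bh b']

private theorem bv3_span {b : Fin (rk F n) → Fin n → F} (hb : LinearIndependent ℚ b) :
    Submodule.span ℚ (Set.range b) = ⊤ := by
  apply hb.span_eq_top_of_card_eq_finrank'
  rw [Fintype.card_fin, finrank_vec]

private theorem bv3_li {b : Fin (rk F n) → Fin n → F} (hb : IsUnit (cm b).det) :
    LinearIndependent ℚ b := by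
  have h1 := (Module.Basis.is_basis_iff_det (stdB F n) (v := b)).2 (by
    rw [Module.Basis.det_apply]
    exact hb)
  exact h1.1

theorem isUnit_det_cm {b : Fin (rk F n) → Fin n → F} (hb : LinearIndependent ℚ b) :
    IsUnit (cm b).det := by
  have h1 := (Module.Basis.is_basis_iff_det (stdB F n) (v := b)).1 ⟨hb, bv3_span hb⟩
  rw [Module.Basis.det_apply] at h1
  exact h1

theorem cm_mulVec (γ : Matrix (Fin n) (Fin n) F) (b : Fin (rk F n) → Fin n → F) :
    cm (fun i => γ.mulVec (b i)) = gm γ * cm b := by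
  ext k i
  have h1 := congrFun (LinearMap.toMatrix_mulVec_repr (stdB F n) (stdB F n)
    ((Matrix.mulVecLin γ).restrictScalars ℚ) (b i)) k
  rw [Matrix.mul_apply]
  exact h1.symm

theorem gm_mul (γ γ' : Matrix (Fin n) (Fin n) F) :
    (gm (γ * γ') : Matrix (Fin (rk F n)) (Fin (rk F n)) ℚ) = gm γ * gm γ' := by
  unfold gm
  rw [← LinearMap.toMatrix_comp (stdB F n) (stdB F n) (stdB F n), Matrix.mulVecLin_mul]
  rfl

theorem gm_one : (gm (1 : Matrix (Fin n) (Fin n) F) : Matrix (Fin (rk F n)) (Fin (rk F n)) ℚ) = 1 := by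
  unfold gm
  rw [Matrix.mulVecLin_one]
  exact LinearMap.toMatrix_id (stdB F n)

/-- The transition matrix between bases. -/
theorem bh_inv_mul {b b' : Fin (rk F n) → Fin n → F} (hb : LinearIndependent ℚ b) :
    bh b ((cm b)⁻¹ * cm b') = b' := by
  apply cm_injective
  rw [cm_bh, Matrix.mul_nonsing_inv_cancel_left _ _ (isUnit_det_cm hb)]

private theorem bv3_bh_int (b : Fin (rk F n) → Fin n → F)
    (h : Matrix (Fin (rk F n)) (Fin (rk F n)) ℤ) (j : Fin (rk F n)) :
    bh b (h.map ((↑) : ℤ → ℚ)) j = ∑ i, h i j • b i := by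
  unfold bh
  refine Finset.sum_congr rfl fun i _ => ?_
  rw [Matrix.map_apply, Int.cast_smul_eq_zsmul]

/-- A unimodular transformation of a basis is a basis. -/
theorem IsBas.bh {g : D.Ad} {b : Fin (rk F n) → Fin n → F} (hb : IsBas g b)
    {h : Matrix (Fin (rk F n)) (Fin (rk F n)) ℤ} (hh : IsUnit h.det) :
    IsBas g (EP.bh b (h.map ((↑) : ℤ → ℚ))) := by
  have hmem : ∀ j, EP.bh b (h.map ((↑) : ℤ → ℚ)) j ∈ lat g := by
    intro j
    rw [bv3_bh_int]
    exact AddSubgroup.sum_mem _ fun i _ => AddSubgroup.zsmul_mem _ (hb.mem i) _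
  refine ⟨?_, ?_⟩
  · apply bv3_li
    rw [cm_bh, Matrix.det_mul]
    refine (isUnit_det_cm hb.li).mul ?_
    have h1 : (h.map ((↑) : ℤ → ℚ)).det = ((h.det : ℤ) : ℚ) := by
      have := (Int.castRingHom ℚ).map_det h
      exact this.symm
    rw [h1]
    exact hh.map (Int.castRingHom ℚ)
  · apply le_antisymm
    · rw [AddSubgroup.closure_le]
      rintro _ ⟨j, rfl⟩
      exact hmem j
    · conv_lhs => rw [← hb.gen]
      rw [AddSubgroup.closure_le]
      rintro _ ⟨i, rfl⟩
      have h1 : b i = ∑ j, (h⁻¹) j i • EP.bh b (h.map ((↑) : ℤ → ℚ)) j := by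
        have h2 : ∀ j, (h⁻¹) j i • EP.bh b (h.map ((↑) : ℤ → ℚ)) j =
            ∑ l, (h l j * (h⁻¹) j i) • b l := by
          intro j
          rw [bv3_bh_int, Finset.smul_sum]
          refine Finset.sum_congr rfl fun l _ => ?_
          rw [smul_smul, mul_comm]
        rw [Finset.sum_congr rfl fun j _ => h2 j, Finset.sum_comm]
        have h3 : ∀ l, ∑ j, (h l j * (h⁻¹) j i) • b l = (if l = i then (1 : ℤ) else 0) • b l := by
          intro l
          rw [← Finset.sum_smul]
          congr 1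
          have h4 := congrFun (congrFun (Matrix.mul_nonsing_inv h hh) l) i
          rw [Matrix.mul_apply, Matrix.one_apply] at h4
          exact h4
        rw [Finset.sum_congr rfl fun l _ => h3 l, Finset.sum_eq_single i]
        · rw [if_pos rfl, one_smul]
        · intro l _ hl
          rw [if_neg hl, zero_smul]
        · intro hi
          exact absurd (Finset.mem_univ i) hi
      show b i ∈ AddSubgroup.closure _
      rw [h1]
      exact AddSubgroup.sum_mem _ fun j _ => AddSubgroup.zsmul_mem _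
        (AddSubgroup.subset_closure (Set.mem_range_self j)) _

/-- The transition matrix between the bases of two lattices with `m (lat g') ⊆ lat g` has the
denominator `m`. -/
theorem IsBas.trans_int {g g' : D.Ad} {b b' : Fin (rk F n) → Fin n → F} (hb : IsBas g b)
    (hb' : IsBas g' b') {m : ℕ} (h : ∀ x ∈ lat g', (m : ℤ) • x ∈ lat g) (i j : Fin (rk F n)) :
    ∃ z : ℤ, (m : ℚ) * ((cm b)⁻¹ * cm b') i j = z := by
  obtain ⟨c, hc⟩ := (hb.mem_iff _).1 (h (b' j) (hb'.mem j))
  refine ⟨c i, ?_⟩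
  have h1 : b' j = ∑ l, ((cm b)⁻¹ * cm b') l j • b l := by
    have h2 := congrFun (bh_inv_mul (b := b) (b' := b') hb.li) j
    exact h2.symm
  have h3 := Fintype.linearIndependent_iff.1 hb.li
    (fun l => (m : ℚ) * ((cm b)⁻¹ * cm b') l j - (c l : ℚ)) (by
      have h4 : ∀ l, ((m : ℚ) * ((cm b)⁻¹ * cm b') l j - (c l : ℚ)) • b l =
          (m : ℚ) • (((cm b)⁻¹ * cm b') l j • b l) - c l • b l := by
        intro l
        rw [sub_smul, smul_smul, Int.cast_smul_eq_zsmul]
      rw [Finset.sum_congr rfl fun l _ => h4 l, Finset.sum_sub_distrib, ← Finset.smul_sum, ← h1,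
        ← hc, sub_eq_zero]
      have h5 : (m : ℚ) = ((m : ℤ) : ℚ) := by push_cast; rfl
      rw [h5, Int.cast_smul_eq_zsmul]) i
  exact sub_eq_zero.1 h3

end Pool.Agent.Lib.MP_666dc0_nt.EP
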