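import Pool.Agent.Lib.MP_666dc0_nt.EP.BV3
import Pool.Agent.Lib.MP_666dc0_nt.WL.A2d

/-!
# EP, BV4: the rational forms in coordinates
-/

open NumberField IsDedekindDomain
open scoped NumberField

namespace Pool.Agent.Lib.MP_666dc0_nt.EP

open WL

section fact
variable {R : Type} [CommRing R] {I : Type} {a : I → ℕ} {N : ℕ}

theorem fact_one (u : ∀ i : I, (Fin (a i) → Fin N) → R) : fact u 1 = u := by
  funext i
  unfold fact
  rw [Matrix.transpose_one, tensAct_one]

theorem fact_mul (u : ∀ i : I, (Fin (a i) → Fin N) → R) (z z' : Matrix (Fin N) (Fin N) R) :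
    fact u (z * z') = fact (fact u z) z' := by
  funext i
  unfold fact
  rw [Matrix.transpose_mul, tensAct_mul]

end fact

variable {F : Type} [Field F] [NumberField F] {n : ℕ} {D : Datum F n}

omit [NumberField F] in
private theorem bv4_mulVec_comb {N : ℕ} (M : Matrix (Fin n) (Fin n) F) (b : Fin N → Fin n → F)
    (c : Fin N → F) : M.mulVec (∑ i, c i • b i) = ∑ i, c i • M.mulVec (b i) := by
  rw [Matrix.mulVec_sum]
  exact Finset.sum_congr rfl fun i _ => Matrix.mulVec_smul _ _ _

omit [NumberField F] in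
private theorem bv4_pairT {N : ℕ} (b : Fin N → Fin n → F) (s : Fin D.m)
    (c : Fin (D.deg s) → Fin N → F) :
    pairT D (RingHom.id F) s (fun t => ∑ i, c t i • b i) =
      ∑ I : Fin (D.deg s) → Fin N, (∏ t, c t (I t)) *
        pairT D (RingHom.id F) s (fun t => b (I t)) := by
  unfold pairT
  have h1 : ∀ J : Fin (D.deg s) → Fin n,
      ∏ t, (D.q.map (RingHom.id F)).mulVec (∑ i, c t i • b i) (J t) =
      ∑ I : Fin (D.deg s) → Fin N, ∏ t, (c t (I t) *
        (D.q.map (RingHom.id F)).mulVec (b (I t)) (J t)) := by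
    intro J
    have h2 : ∀ t, (D.q.map (RingHom.id F)).mulVec (∑ i, c t i • b i) (J t) =
        ∑ i, c t i * (D.q.map (RingHom.id F)).mulVec (b i) (J t) := by
      intro t
      rw [bv4_mulVec_comb, Finset.sum_apply]
      rfl
    simp only [h2]
    rw [Finset.prod_univ_sum]
    simp only [Fintype.piFinset_univ]
  simp only [h1, Finset.mul_sum]
  rw [Finset.sum_comm]
  refine Finset.sum_congr rfl fun I _ => ?_
  refine Finset.sum_congr rfl fun J _ => ?_
  rw [Finset.prod_mul_distrib]
  ring

omit [NumberField F] in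
private theorem bv4_fval {N : ℕ} (b : Fin N → Fin n → F) (s : Option (Fin D.m))
    (c : Fin (fdeg D s) → Fin N → F) :
    fval D s (fun t => ∑ i, c t i • b i) =
      ∑ I : Fin (fdeg D s) → Fin N, (∏ t, c t (I t)) * fval D s (fun t => b (I t)) := by
  cases s with
  | none =>
    have hL : fval D none (fun t => ∑ i, c t i • b i) =
        ∑ i, ∑ j, (c (0 : Fin 2) i * c (1 : Fin 2) j) * qf D (RingHom.id F) (b i) (b j) := by
      show qf D (RingHom.id F) (∑ i, c (0 : Fin 2) i • b i) (∑ i, c (1 : Fin 2) i • b i) = _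
      unfold qf
      rw [bv4_mulVec_comb, sum_dotProduct]
      refine Finset.sum_congr rfl fun i _ => ?_
      rw [dotProduct_sum]
      refine Finset.sum_congr rfl fun j _ => ?_
      rw [smul_dotProduct, dotProduct_smul, smul_eq_mul, smul_eq_mul, mul_assoc]
    rw [hL, ← Fintype.sum_prod_type']
    symm
    refine Fintype.sum_equiv (finTwoArrowEquiv (Fin N)) _ _ fun I => ?_
    have h2 : ∏ t : Fin 2, c t (I t) = c (0 : Fin 2) (I 0) * c (1 : Fin 2) (I 1) :=
      Fin.prod_univ_two _
    exact congrArg (· * qf D (RingHom.id F) (b (I 0)) (b (I 1))) h2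
  | some s => exact bv4_pairT b s c

private theorem bv4_bh (b : Fin (rk F n) → Fin n → F)
    (h : Matrix (Fin (rk F n)) (Fin (rk F n)) ℚ) (j : Fin (rk F n)) :
    bh b h j = ∑ i, (algebraMap ℚ F (h i j)) • b i := by
  unfold bh
  refine Finset.sum_congr rfl fun i _ => ?_
  funext k
  simp only [Pi.smul_apply, smul_eq_mul]
  exact Algebra.smul_def (h i j) (b i k)

/-- Multilinearity: the values of the forms on the family `b h`.
Proof: `fval D s` is multilinear over `F`, hence over `ℚ` (for `none`: `qf` is bilinear; for `some s`: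
expand the products `∏ t, (q *ᵥ y_t)(J t)` with `Finset.prod_univ_sum`,
`Fintype.piFinset_univ`, `Finset.sum_comm` as in `a4_pairT_comb`, `a4_qf_comb` of WL/A4.lean), and the
trace is `ℚ`-linear. For `none` the sum over `Fin 2 → Fin N` is a double sum
(`Fin.consEquiv`/`finTwoArrowEquiv`). -/
theorem fam_bh (b : Fin (rk F n) → Fin n → F) (h : Matrix (Fin (rk F n)) (Fin (rk F n)) ℚ) :
    fam D (bh b h) = fact (fam D b) h := by
  funext i J
  show Algebra.trace ℚ F (integralBasis F i.1 * fval D i.2 fun t => bh b h (J t)) =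
    ∑ I : Fin (fdeg D i.2) → Fin (rk F n), (∏ t, h.transpose (J t) (I t)) *
      Algebra.trace ℚ F (integralBasis F i.1 * fval D i.2 fun t => b (I t))
  have h1 : (fun t => bh b h (J t)) = fun t : Fin (fdeg D i.2) =>
      ∑ l, (algebraMap ℚ F (h l (J t))) • b l := by
    funext t
    exact bv4_bh b h (J t)
  rw [h1, bv4_fval b i.2 (fun t l => algebraMap ℚ F (h l (J t))), Finset.mul_sum, map_sum]
  refine Finset.sum_congr rfl fun I _ => ?_
  rw [← map_prod, mul_left_comm, ← Algebra.smul_def, map_smul, smul_eq_mul]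
  rfl

theorem fam_eq (b : Fin (rk F n) → Fin n → F) : fam D b = fact (fam D (stdB F n)) (cm b) := by
  conv_lhs => rw [eq_bh b]
  exact fam_bh _ _

/-- Invariance under `G(F)`: `qf_mulVec`, `pairT_mulVec` (WL/A2d.lean). -/
theorem fam_mulVec (γ : D.Rat) {N : ℕ} (b : Fin N → Fin n → F) :
    fam D (fun i => γ.1.1.mulVec (b i)) = fam D b := by
  funext i J
  obtain ⟨k, s⟩ := i
  have h1 : ∀ s : Option (Fin D.m), ∀ J : Fin (fdeg D s) → Fin N,
      fval D s (fun t => γ.1.1.mulVec (b (J t))) = fval D s (fun t => b (J t)) := by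
    intro s J
    cases s with
    | none => exact qf_mulVec (D := D) (RingHom.id F) γ (b (J (0 : Fin 2))) (b (J (1 : Fin 2)))
    | some s => exact pairT_mulVec (D := D) (RingHom.id F) γ s (fun t => b (J t))
  show Algebra.trace ℚ F (integralBasis F k * fval D s fun t => γ.1.1.mulVec (b (J t))) = _
  rw [h1 s J]
  rfl

/-- The matrices of the elements of `G(F)` preserve the rational forms. -/
theorem fact_gm (γ : D.Rat) : fact (fam D (stdB F n)) (gm γ.1.1) = fam D (stdB F n) := by
  have h1 := fam_eq (D := D) fun i => γ.1.1.mulVec ((stdB F n) i)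
  rw [fam_mulVec, cm_mulVec, cm_stdB, mul_one] at h1
  exact h1.symm

/-- A rational matrix as a real matrix. -/
abbrev qR {N : ℕ} (M : Matrix (Fin N) (Fin N) ℚ) : Matrix (Fin N) (Fin N) ℝ :=
  M.map ((↑) : ℚ → ℝ)

theorem fact_qR (z : Matrix (Fin (rk F n)) (Fin (rk F n)) ℚ) :
    fact (uR D) (qR z) = fun i J => ((fact (fam D (stdB F n)) z i J : ℚ) : ℝ) := by
  funext i J
  have h1 := congrFun (tensAct_map (Rat.castHom ℝ) z.transpose (fam D (stdB F n) i)) J
  exact h1

theorem fact_uR_gm (γ : D.Rat) : fact (uR D) (qR (gm γ.1.1)) = uR D := by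
  rw [fact_qR, fact_gm]
  rfl

/-- The real forms of a family of vectors. -/
theorem fact_uR_cm (b : Fin (rk F n) → Fin n → F) :
    fact (uR D) (qR (cm b)) = fun i J => ((fam D b i J : ℚ) : ℝ) := by
  rw [fact_qR, ← fam_eq]

end Pool.Agent.Lib.MP_666dc0_nt.EP
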