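import Pool.Agent.Lib.MP_666dc0_nt.EP.BV1
import Pool.Agent.Lib.MP_666dc0_nt.EP.BV3

/-!
# EP, BV6: the volumes of the lattices are bounded
-/

open NumberField IsDedekindDomain
open scoped NumberField

namespace Pool.Agent.Lib.MP_666dc0_nt.EP

open WL

variable {F : Type} [Field F] [NumberField F] {n : ℕ} {D : Datum F n}

/-- The Gram matrix of a family of vectors for the form `Tr q`. -/
noncomputable def tg (D : Datum F n) (b : Fin (rk F n) → Fin n → F) :
    Matrix (Fin (rk F n)) (Fin (rk F n)) ℚ :=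
  fun i j => Algebra.trace ℚ F (qf D (RingHom.id F) (b i) (b j))

private theorem tq_sum_left {ι : Type} (s : Finset ι) (a : ι → ℚ) (e : ι → Fin n → F)
    (y : Fin n → F) :
    Algebra.trace ℚ F (qf D (RingHom.id F) (∑ i ∈ s, a i • e i) y)
      = ∑ i ∈ s, a i * Algebra.trace ℚ F (qf D (RingHom.id F) (e i) y) := by
  have h : qf D (RingHom.id F) (∑ i ∈ s, a i • e i) y
      = ∑ i ∈ s, a i • qf D (RingHom.id F) (e i) y := by
    simp only [qf, sum_dotProduct, smul_dotProduct]
  rw [h, map_sum]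
  refine Finset.sum_congr rfl fun i _ => ?_
  rw [map_smul, smul_eq_mul]

private theorem tq_sum_right {ι : Type} (s : Finset ι) (a : ι → ℚ) (e : ι → Fin n → F)
    (x : Fin n → F) :
    Algebra.trace ℚ F (qf D (RingHom.id F) x (∑ i ∈ s, a i • e i))
      = ∑ i ∈ s, a i * Algebra.trace ℚ F (qf D (RingHom.id F) x (e i)) := by
  have h : qf D (RingHom.id F) x (∑ i ∈ s, a i • e i)
      = ∑ i ∈ s, a i • qf D (RingHom.id F) x (e i) := by
    simp only [qf, Matrix.mulVec_sum, Matrix.mulVec_smul, dotProduct_sum, dotProduct_smul]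
  rw [h, map_sum]
  refine Finset.sum_congr rfl fun i _ => ?_
  rw [map_smul, smul_eq_mul]

/-- `Tr q` is `ℚ`-bilinear: `tg b = (cm b)ᵀ (tg e) (cm b)`, `e` the standard basis. -/
theorem tg_eq (b : Fin (rk F n) → Fin n → F) :
    tg D b = (cm b).transpose * tg D (stdB F n) * cm b := by
  ext i j
  conv_lhs => rw [eq_bh b]
  unfold tg bh
  rw [tq_sum_left]
  rw [Matrix.mul_apply]
  simp only [tq_sum_right, Matrix.mul_apply, Matrix.transpose_apply]
  simp only [Finset.mul_sum, Finset.sum_mul]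
  rw [Finset.sum_comm]
  refine Finset.sum_congr rfl fun k _ => Finset.sum_congr rfl fun l _ => ?_
  ring

/-- Proof: a vector in the kernel would give `z ≠ 0` with `Tr q(z, ·) = 0` (`trace_qf_nondeg`). -/
theorem det_tg_ne_zero (hd : D.q.det ≠ 0) : (tg D (stdB F n)).det ≠ 0 := by
  intro h0
  obtain ⟨v, hv, h⟩ := Matrix.exists_vecMul_eq_zero_iff.mpr h0
  apply hv
  have hz : (∑ i, v i • (stdB F n) i) = 0 := by
    refine trace_qf_nondeg hd _ fun x => ?_
    have hx : x = ∑ j, (stdB F n).repr x j • (stdB F n) j := ((stdB F n).sum_repr x).symm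
    rw [hx, tq_sum_right]
    refine Finset.sum_eq_zero fun j _ => ?_
    rw [tq_sum_left]
    have h1 := congrFun h j
    rw [Matrix.vecMul, dotProduct] at h1
    have h2 : ∑ i, v i * Algebra.trace ℚ F (qf D (RingHom.id F) ((stdB F n) i) ((stdB F n) j))
        = 0 := h1
    rw [h2, mul_zero]
  have hli := (stdB F n).linearIndependent
  rw [Fintype.linearIndependent_iff] at hli
  funext i
  exact hli v hz i

/-- Proof: let `c` be as in `exists_dual_den'`. Let `f_j : lat g → ℤ` be the `j`-th coordinate in the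
basis `b` (`IsBas.exists_basis`) and `z_j` the vector with `f_j x = Tr q(z_j, x)`
(`exists_functional_vec'`). Then `c z_j ∈ lat g` (`exists_dual_den'`), so `c z_j = ∑_k M_kj b_k` with
integers `M_kj` (`IsBas.mem_iff`), and `∑_k M_kj Tr q(b_k, b_i) = c δ_ij`, i.e. `Mᵀ (tg b) = c 1`. So
`det M det (tg b) = c ^ N`, `det M` is a non-zero integer, and `|det (tg b)| ≤ c ^ N`. -/
theorem exists_tg_bound (hd : D.q.det ≠ 0) : ∃ M : ℚ, ∀ (g : D.Ad) (b : Fin (rk F n) → Fin n → F),
    IsBas g b → |(tg D b).det| ≤ M := by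
  obtain ⟨c, hc, hden⟩ := exists_dual_den' hd
  refine ⟨(c : ℚ) ^ (rk F n), fun g b hb => ?_⟩
  obtain ⟨B, hB⟩ := hb.exists_basis
  have hz : ∀ j, ∃ z : Fin n → F, ∀ x : lat g,
      ((B.repr x j : ℤ) : ℚ) = Algebra.trace ℚ F (qf D (RingHom.id F) z x) := fun j =>
    exists_functional_vec' hd g (B.coord j).toAddMonoidHom
  choose z hz using hz
  have hcz : ∀ j, ∃ m : Fin (rk F n) → ℤ, (fun k => (c : F) * z j k) = ∑ i, m i • b i := by
    intro j
    refine (hb.mem_iff _).mp (hden g (z j) fun x hx => ⟨B.repr ⟨x, hx⟩ j, ?_⟩)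
    exact (hz j ⟨x, hx⟩).symm
  choose m hm using hcz
  let M : Matrix (Fin (rk F n)) (Fin (rk F n)) ℤ := fun j i => m j i
  have hprod : M.map ((↑) : ℤ → ℚ) * tg D b = (c : ℚ) • (1 : Matrix _ _ ℚ) := by
    ext j i
    rw [Matrix.mul_apply]
    have h1 : ∑ k, (m j k : ℚ) * Algebra.trace ℚ F (qf D (RingHom.id F) (b k) (b i))
        = Algebra.trace ℚ F (qf D (RingHom.id F) (∑ k, (m j k : ℚ) • b k) (b i)) :=
      (tq_sum_left _ _ _ _).symm
    have h2 : (∑ k, (m j k : ℚ) • b k) = (c : ℚ) • z j := by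
      have h3 : (∑ k, (m j k : ℚ) • b k) = ∑ k, m j k • b k :=
        Finset.sum_congr rfl fun k _ => by
          rw [Int.cast_smul_eq_zsmul]
      rw [h3, ← hm j]
      funext k
      rw [Pi.smul_apply, Algebra.smul_def, map_natCast]
    have h4 : Algebra.trace ℚ F (qf D (RingHom.id F) ((c : ℚ) • z j) (b i))
        = (c : ℚ) * Algebra.trace ℚ F (qf D (RingHom.id F) (z j) (b i)) := by
      have := tq_sum_left (D := D) (Finset.univ : Finset (Fin 1)) (fun _ => (c : ℚ))
        (fun _ => z j) (b i)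
      simpa using this
    have h5 : ((B.repr (B i) j : ℤ) : ℚ) = Algebra.trace ℚ F (qf D (RingHom.id F) (z j) (b i)) := by
      rw [hz j (B i), hB i]
    change ∑ k, (m j k : ℚ) * Algebra.trace ℚ F (qf D (RingHom.id F) (b k) (b i)) = _
    rw [h1, h2, h4, ← h5, B.repr_self, Finsupp.single_apply, Matrix.smul_apply, Matrix.one_apply,
      smul_eq_mul]
    congr 1
    by_cases hij : i = j
    · subst hij
      simp
    · rw [if_neg hij, if_neg (Ne.symm hij)]
      simp
  have hdet := congrArg Matrix.det hprod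
  rw [Matrix.det_mul, Matrix.det_smul, Matrix.det_one, mul_one, Fintype.card_fin] at hdet
  have hM : (M.map ((↑) : ℤ → ℚ)).det = ((M.det : ℤ) : ℚ) :=
    (Int.cast_det M).symm
  rw [hM] at hdet
  have hc0 : (c : ℚ) ^ (rk F n) ≠ 0 := pow_ne_zero _ (by exact_mod_cast hc.ne')
  have hMne : M.det ≠ 0 := by
    intro h0
    rw [h0, Int.cast_zero, zero_mul] at hdet
    exact hc0 hdet.symm
  have h1M : (1 : ℚ) ≤ |((M.det : ℤ) : ℚ)| := by
    rw [← Int.cast_abs]
    exact_mod_cast Int.one_le_abs hMne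
  have habs := congrArg abs hdet
  rw [abs_mul, abs_of_nonneg (by positivity : (0 : ℚ) ≤ (c : ℚ) ^ (rk F n))] at habs
  rw [← habs]
  exact le_mul_of_one_le_left (abs_nonneg _) h1M

/-- Proof: `det (tg b) = (det (cm b))² det (tg e)`. -/
theorem exists_det_bound (hd : D.q.det ≠ 0) : ∃ M : ℚ, ∀ (g : D.Ad)
    (b : Fin (rk F n) → Fin n → F), IsBas g b → |(cm b).det| ≤ M := by
  obtain ⟨M, hM⟩ := exists_tg_bound hd
  have ht := det_tg_ne_zero hd
  have ht' : 0 < |(tg D (stdB F n)).det| := abs_pos.mpr ht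
  refine ⟨1 + M / |(tg D (stdB F n)).det|, fun g b hb => ?_⟩
  have h1 := hM g b hb
  have h2 : (tg D b).det = (cm b).det ^ 2 * (tg D (stdB F n)).det := by
    rw [tg_eq b, Matrix.det_mul, Matrix.det_mul, Matrix.det_transpose]
    ring
  rw [h2, abs_mul, abs_pow] at h1
  have h3 : |(cm b).det| ^ 2 ≤ M / |(tg D (stdB F n)).det| := by
    rw [le_div_iff₀ ht']
    exact h1
  nlinarith [abs_nonneg (cm b).det, sq_nonneg (|(cm b).det| - 1)]

end Pool.Agent.Lib.MP_666dc0_nt.EP
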