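import Pool.Agent.Lib.MP_666dc0_nt.Mg.G060
import Pool.Agent.Lib.MP_666dc0_nt.Mg.G003

/-!
# EP, BV8: the lattices `lat (g k)`
-/

open NumberField IsDedekindDomain
open scoped NumberField

namespace Pool.Agent.Lib.MP_666dc0_nt.EP

open WL

variable {F : Type} [Field F] [NumberField F] {n : ℕ} {D : Datum F n}

private theorem bv8_mulVec {M : Matrix (Fin n) (Fin n) (FiniteAdeleRing (𝓞 F) F)}
    (hM : ∀ i j, M i j ∈ Ohat F)
    {y : Fin n → FiniteAdeleRing (𝓞 F) F} (hy : ∀ j, y j ∈ Ohat F) (i : Fin n) :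
    M.mulVec y i ∈ Ohat F :=
  sum_mem fun j _ => mul_mem (hM i j) (hy j)

private theorem bv8_le (g : D.Ad) {κ : D.Ad} (hκ : κ ∈ K0 D) : lat g ≤ lat (g * κ) := by
  intro x hx i
  rw [mul_inv_rev, mat_mul, ← Matrix.mulVec_mulVec]
  exact bv8_mulVec hκ.2 hx i

theorem lat_mul_K0 (g : D.Ad) {κ : D.Ad} (hκ : κ ∈ K0 D) : lat (g * κ) = lat g := by
  refine le_antisymm ?_ (bv8_le g hκ)
  have h := bv8_le (g * κ) ((K0 D).inv_mem hκ)
  rwa [mul_inv_cancel_right] at h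

private theorem bv8_av_mulVec (γ : D.Rat) (x : Fin n → F) :
    av (γ.1.1.mulVec x) = (mat (D.toAd γ)).mulVec (av x) := by
  rw [mat_toAd]
  funext k
  exact RingHom.map_mulVec _ _ _ _

theorem mem_lat_toAd (γ : D.Rat) (g : D.Ad) {x : Fin n → F} (hx : x ∈ lat g) :
    γ.1.1.mulVec x ∈ lat (D.toAd γ * g) := by
  intro i
  rw [bv8_av_mulVec, Matrix.mulVec_mulVec, mul_inv_rev, mat_mul, Matrix.mul_assoc, mat_inv_mul,
    Matrix.mul_one]
  exact hx i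

omit [NumberField F] in
private theorem bv8_inv_mul (γ : D.Rat) : (γ⁻¹).1.1 * γ.1.1 = 1 := by
  have h3 : (γ⁻¹ * γ).1.1 = 1 := by rw [inv_mul_cancel]; rfl
  exact h3

omit [NumberField F] in
private theorem bv8_mul_inv (γ : D.Rat) : γ.1.1 * (γ⁻¹).1.1 = 1 := by
  have h3 : (γ * γ⁻¹).1.1 = 1 := by rw [mul_inv_cancel]; rfl
  exact h3

theorem IsBas.toAd {g : D.Ad} {b : Fin (rk F n) → Fin n → F} (hb : IsBas g b) (γ : D.Rat) :
    IsBas (D.toAd γ * g) fun i => γ.1.1.mulVec (b i) := by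
  constructor
  · have hinj : Function.Injective ((Matrix.mulVecLin γ.1.1).restrictScalars ℚ) := by
      intro x y hxy
      have h1 : γ.1.1.mulVec x = γ.1.1.mulVec y := hxy
      have h2 := congrArg (fun v => (γ⁻¹).1.1.mulVec v) h1
      simp only [Matrix.mulVec_mulVec, bv8_inv_mul, Matrix.one_mulVec] at h2
      exact h2
    exact hb.li.map' _ (LinearMap.ker_eq_bot.2 hinj)
  · apply le_antisymm
    · rw [AddSubgroup.closure_le]
      rintro _ ⟨i, rfl⟩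
      exact mem_lat_toAd γ g (hb.mem i)
    · intro y hy
      have h1 : (γ⁻¹).1.1.mulVec y ∈ lat g := by
        have h2 := mem_lat_toAd γ⁻¹ (D.toAd γ * g) hy
        rwa [map_inv, inv_mul_cancel_left] at h2
      have h3 : lat g ≤ (AddSubgroup.closure
          (Set.range fun i => γ.1.1.mulVec (b i))).comap
            (Matrix.mulVecLin γ.1.1).toAddMonoidHom := by
        rw [← hb.gen, AddSubgroup.closure_le]
        rintro _ ⟨i, rfl⟩
        exact AddSubgroup.subset_closure ⟨i, rfl⟩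
      have h4 : γ.1.1.mulVec ((γ⁻¹).1.1.mulVec y) ∈ AddSubgroup.closure
          (Set.range fun i => γ.1.1.mulVec (b i)) := h3 h1
      rwa [Matrix.mulVec_mulVec, bv8_mul_inv, Matrix.one_mulVec] at h4

private theorem bv8_mulVec' {M : Matrix (Fin n) (Fin n) (FiniteAdeleRing (𝓞 F) F)}
    {c : FiniteAdeleRing (𝓞 F) F} (hM : ∀ i j, c * M i j ∈ Ohat F)
    {y : Fin n → FiniteAdeleRing (𝓞 F) F} (hy : ∀ j, y j ∈ Ohat F) (i : Fin n) :
    c * M.mulVec y i ∈ Ohat F := by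
  have e : c * M.mulVec y i = ∑ j, (c * M i j) * y j := by
    rw [Matrix.mulVec, dotProduct, Finset.mul_sum]
    refine Finset.sum_congr rfl fun j _ => ?_
    ring
  rw [e]
  exact sum_mem fun j _ => mul_mem (hM i j) (hy j)

private theorem bv8_av_smul (m : ℕ) (x : Fin n → F) :
    av ((m : ℤ) • x) = (m : FiniteAdeleRing (𝓞 F) F) • av x := by
  funext k
  change algebraMap F (FiniteAdeleRing (𝓞 F) F) (((m : ℤ) • x) k) =
    (m : FiniteAdeleRing (𝓞 F) F) * algebraMap F (FiniteAdeleRing (𝓞 F) F) (x k)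
  rw [Pi.smul_apply, zsmul_eq_mul, map_mul, Int.cast_natCast, map_natCast]

/-- Commensurability, uniform in `g`. Proof: `exists_den_of_isCompact` (WL/K0a.lean) for `C` and for
`C⁻¹`; `mat (g k)⁻¹ = mat k⁻¹ * mat g⁻¹`. -/
theorem exists_den_lat_mul (C : Set D.Ad) (hC : IsCompact C) : ∃ m : ℕ, 0 < m ∧
    ∀ (g : D.Ad), ∀ k ∈ C, (∀ x ∈ lat g, (m : ℤ) • x ∈ lat (g * k)) ∧
      ∀ x ∈ lat (g * k), (m : ℤ) • x ∈ lat g := by
  obtain ⟨m₁, hm₁, h₁⟩ := exists_den_of_isCompact C hC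
  obtain ⟨m₂, hm₂, h₂⟩ := exists_den_of_isCompact C⁻¹ hC.inv
  refine ⟨m₁ * m₂, Nat.mul_pos hm₁ hm₂, fun g k hk => ⟨fun x hx i => ?_, fun x hx i => ?_⟩⟩
  · have hk2 : ∀ i j, ((m₁ * m₂ : ℕ) : FiniteAdeleRing (𝓞 F) F) * mat k⁻¹ i j ∈ Ohat F := by
      intro i j
      rw [Nat.cast_mul, mul_assoc]
      exact mul_mem (natCast_mem _ _) (h₂ k⁻¹ (Set.inv_mem_inv.2 hk) i j)
    rw [bv8_av_smul, Matrix.mulVec_smul, mul_inv_rev, mat_mul, ← Matrix.mulVec_mulVec]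
    exact bv8_mulVec' hk2 hx i
  · have hk2 : ∀ i j, ((m₁ * m₂ : ℕ) : FiniteAdeleRing (𝓞 F) F) * mat k i j ∈ Ohat F := by
      intro i j
      rw [Nat.cast_mul, mul_comm (m₁ : FiniteAdeleRing (𝓞 F) F), mul_assoc]
      exact mul_mem (natCast_mem _ _) (h₁ k hk i j)
    have h3 : mat g⁻¹ = mat k * mat (g * k)⁻¹ := by
      rw [← mat_mul, mul_inv_rev, mul_inv_cancel_left]
    rw [bv8_av_smul, Matrix.mulVec_smul, h3, ← Matrix.mulVec_mulVec]
    exact bv8_mulVec' hk2 hx i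

/-- `K0 / (K0 ∩ M)` is finite for an open subgroup `M`. -/
theorem exists_finset_K0 (M : Subgroup D.Ad) (hM : IsOpen (M : Set D.Ad)) :
    ∃ s : Finset D.Ad, (∀ κ ∈ s, κ ∈ K0 D) ∧ ∀ κ ∈ K0 D, ∃ κ' ∈ s, κ'⁻¹ * κ ∈ M := by
  obtain ⟨t, ht, hcov⟩ := (isCompact_K0 (D := D)).elim_nhds_subcover
    (fun κ => {x : D.Ad | κ⁻¹ * x ∈ M}) (fun κ _ => by
      refine IsOpen.mem_nhds (hM.preimage (continuous_const.mul continuous_id)) ?_
      change κ⁻¹ * κ ∈ M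
      rw [inv_mul_cancel]
      exact M.one_mem)
  refine ⟨t, ht, fun κ hκ => ?_⟩
  obtain ⟨κ', hκ', hm⟩ := Set.mem_iUnion₂.1 (hcov hκ)
  exact ⟨κ', hκ', hm⟩

end Pool.Agent.Lib.MP_666dc0_nt.EP
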