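import Pool.Agent.Lib.MP_666dc0_nt.EP.SDefs
import Pool.Agent.Lib.MP_666dc0_nt.EP.BV4
import Pool.Agent.Lib.MP_666dc0_nt.EP.BV8
import Pool.Agent.Lib.MP_666dc0_nt.EP.RA0
import Pool.Agent.Lib.MP_666dc0_nt.RT.R3d
import Pool.Agent.Lib.MP_666dc0_nt.RT.R2b

/-!
# EP, BW0: the cover of the symmetric space given by the reduced bases: definitions
-/

open NumberField IsDedekindDomain Matrix
open scoped NumberField

namespace Pool.Agent.Lib.MP_666dc0_nt.EP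

open WL

variable {F : Type} [Field F] [NumberField F] {n : ℕ}

/-- The orbit of the rational forms `Tr (a_k q)`, `Tr (a_k w_s)` of the datum under `SL_N(ℝ)`,
`N = n [F : ℚ]`, is closed. -/
def ClosedOrbitQ (D : Datum F n) : Prop :=
  IsClosed {t : RT.Ten (rk F n) (fa D) |
    ∃ z : Matrix (Fin (rk F n)) (Fin (rk F n)) ℝ, z.det = 1 ∧ t = RT.act z (uR D)}

/-- Coordinates in which the forms of the datum have minimal length. -/
structure Frame (D : Datum F n) where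
  /-- the matrix of the coordinates -/
  z : Matrix (Fin (rk F n)) (Fin (rk F n)) ℝ
  /-- its inverse -/
  zi : Matrix (Fin (rk F n)) (Fin (rk F n)) ℝ
  z_zi : z * zi = 1
  zi_z : zi * z = 1
  red : RT.IsRed (RT.act z (uR D))
  min : RT.IsMin (RT.act z (uR D))

variable {D : Datum F n}

theorem exists_frame (h : RT.IsRed (uR D)) : Nonempty (Frame D) := by
  obtain ⟨z, hz, hm⟩ := h.exists_min
  have hu : IsUnit z.det := by rw [hz]; exact isUnit_one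
  exact ⟨⟨z, z⁻¹, mul_nonsing_inv _ hu, nonsing_inv_mul _ hu, h.act hz, hm⟩⟩

namespace Frame

variable (fr : Frame D)

/-- The forms in the coordinates. -/
noncomputable def v : RT.Ten (rk F n) (fa D) := RT.act fr.z (uR D)

theorem isRed : RT.IsRed fr.v := fr.red

theorem isMin : RT.IsMin fr.v := fr.min

/-- The matrix of `γ ∈ G(F)` in the coordinates. -/
noncomputable def gh (γ : D.Rat) : Matrix (Fin (rk F n)) (Fin (rk F n)) ℝ :=
  fr.zi * qR (gm γ.1.1) * fr.z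

/-- The matrix of a family of vectors in the coordinates. -/
noncomputable def sb (b : Fin (rk F n) → Fin n → F) : Matrix (Fin (rk F n)) (Fin (rk F n)) ℝ :=
  fr.zi * qR (cm b)

theorem qR_mul {N : ℕ} (A B : Matrix (Fin N) (Fin N) ℚ) : qR (A * B) = qR A * qR B := by
  unfold qR
  exact Matrix.map_mul (f := Rat.castHom ℝ)

theorem qR_one {N : ℕ} : qR (1 : Matrix (Fin N) (Fin N) ℚ) = 1 :=
  Matrix.map_one _ Rat.cast_zero Rat.cast_one

theorem gh_mul (γ γ' : D.Rat) : fr.gh (γ * γ') = fr.gh γ * fr.gh γ' := by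
  unfold gh
  have h1 : gm (γ * γ').1.1 = gm γ.1.1 * gm γ'.1.1 := gm_mul γ.1.1 γ'.1.1
  rw [h1, qR_mul]
  calc fr.zi * (qR (gm γ.1.1) * qR (gm γ'.1.1)) * fr.z
      = fr.zi * qR (gm γ.1.1) * (1 : Matrix (Fin (rk F n)) (Fin (rk F n)) ℝ) *
        (qR (gm γ'.1.1) * fr.z) := by simp only [Matrix.mul_assoc, Matrix.one_mul]
    _ = _ := by rw [← fr.z_zi]; simp only [Matrix.mul_assoc]

theorem gh_one : fr.gh 1 = 1 := by
  unfold gh
  have h1 : gm ((1 : D.Rat).1.1) = (1 : Matrix (Fin (rk F n)) (Fin (rk F n)) ℚ) := gm_one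
  rw [h1, qR_one, Matrix.mul_one, fr.zi_z]

theorem gh_mul_inv (γ : D.Rat) : fr.gh γ * fr.gh γ⁻¹ = 1 := by
  rw [← gh_mul, mul_inv_cancel, gh_one]

theorem gh_inv_mul (γ : D.Rat) : fr.gh γ⁻¹ * fr.gh γ = 1 := by
  rw [← gh_mul, inv_mul_cancel, gh_one]

theorem act_gh (γ : D.Rat) : RT.act (fr.gh γ) fr.v = fr.v := by
  unfold gh v
  rw [← RT.act_mul]
  have h1 : fr.z * (fr.zi * qR (gm γ.1.1) * fr.z) = qR (gm γ.1.1) * fr.z := by
    rw [← Matrix.mul_assoc, ← Matrix.mul_assoc, fr.z_zi, Matrix.one_mul]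
  rw [h1, RT.act_mul]
  have h2 : RT.act (qR (gm γ.1.1)) (uR D) = uR D := fact_uR_gm γ
  rw [h2]

theorem sb_mulVec (γ : D.Rat) (b : Fin (rk F n) → Fin n → F) :
    fr.sb (fun i => γ.1.1.mulVec (b i)) = fr.gh γ * fr.sb b := by
  unfold sb gh
  rw [cm_mulVec, qR_mul]
  calc fr.zi * (qR (gm γ.1.1) * qR (cm b))
      = fr.zi * qR (gm γ.1.1) * (1 : Matrix (Fin (rk F n)) (Fin (rk F n)) ℝ) * qR (cm b) := by
        simp only [Matrix.mul_assoc, Matrix.one_mul]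
    _ = _ := by rw [← fr.z_zi]; simp only [Matrix.mul_assoc]

theorem act_sb (b : Fin (rk F n) → Fin n → F) :
    RT.act (fr.sb b) fr.v = fun i J => ((fam D b i J : ℚ) : ℝ) := by
  unfold sb v
  rw [← RT.act_mul]
  have h1 : fr.z * (fr.zi * qR (cm b)) = qR (cm b) := by
    rw [← Matrix.mul_assoc, fr.z_zi, Matrix.one_mul]
  rw [h1]
  exact fact_uR_cm b

theorem isUnit_det_sb {b : Fin (rk F n) → Fin n → F} (hb : LinearIndependent ℚ b) :
    IsUnit (fr.sb b).det := by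
  unfold sb
  rw [Matrix.det_mul]
  refine IsUnit.mul ?_ ?_
  · have h1 := congrArg Matrix.det fr.zi_z
    rw [Matrix.det_mul, Matrix.det_one] at h1
    exact IsUnit.of_mul_eq_one _ h1
  · have h1 : (qR (cm b)).det = (((cm b).det : ℚ) : ℝ) := by
      have h2 := RingHom.map_det (Rat.castHom ℝ) (cm b)
      exact h2.symm
    rw [h1]
    exact (isUnit_det_cm hb).map (Rat.castHom ℝ)

variable {ℓ : ℕ} (L : Level D ℓ)

/-- The space of the real matrices with the action of `G(F) × K` through `G(F)`. -/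
def E (_fr : Frame D) (_L : Level D ℓ) : Type := Fin (rk F n) → Fin (rk F n) → ℝ

noncomputable instance : NormedAddCommGroup (fr.E L) :=
  inferInstanceAs (NormedAddCommGroup (Fin (rk F n) → Fin (rk F n) → ℝ))

noncomputable instance : NormedSpace ℝ (fr.E L) :=
  inferInstanceAs (NormedSpace ℝ (Fin (rk F n) → Fin (rk F n) → ℝ))

/-- An element of the space as a matrix. -/
def mt {fr : Frame D} {L : Level D ℓ} (P : fr.E L) : Matrix (Fin (rk F n)) (Fin (rk F n)) ℝ := P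

/-- A matrix as an element of the space. -/
def em (fr : Frame D) (L : Level D ℓ) (P : Matrix (Fin (rk F n)) (Fin (rk F n)) ℝ) : fr.E L := P

/-- The action `γ • P = (γ⁻¹)ᵀ P γ⁻¹`. -/
noncomputable instance : DistribMulAction (D.Rat × L.K) (fr.E L) where
  smul a P := em fr L ((fr.gh a.1⁻¹)ᵀ * mt P * fr.gh a.1⁻¹)
  one_smul P := by
    change em fr L ((fr.gh (1 : D.Rat)⁻¹)ᵀ * mt P * fr.gh (1 : D.Rat)⁻¹) = P
    rw [inv_one, gh_one, Matrix.transpose_one, Matrix.one_mul, Matrix.mul_one]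
    rfl
  mul_smul a a' P := by
    change em fr L ((fr.gh (a.1 * a'.1)⁻¹)ᵀ * mt P * fr.gh (a.1 * a'.1)⁻¹) =
      em fr L ((fr.gh a.1⁻¹)ᵀ * ((fr.gh a'.1⁻¹)ᵀ * mt P * fr.gh a'.1⁻¹) * fr.gh a.1⁻¹)
    rw [_root_.mul_inv_rev, gh_mul, Matrix.transpose_mul]
    simp only [Matrix.mul_assoc]
  smul_zero a := by
    change em fr L ((fr.gh a.1⁻¹)ᵀ * (0 : Matrix (Fin (rk F n)) (Fin (rk F n)) ℝ) *
      fr.gh a.1⁻¹) = 0
    rw [Matrix.mul_zero, Matrix.zero_mul]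
    rfl
  smul_add a P P' := by
    change em fr L ((fr.gh a.1⁻¹)ᵀ * (mt P + mt P') * fr.gh a.1⁻¹) =
      em fr L ((fr.gh a.1⁻¹)ᵀ * mt P * fr.gh a.1⁻¹ + (fr.gh a.1⁻¹)ᵀ * mt P' * fr.gh a.1⁻¹)
    rw [Matrix.mul_add, Matrix.add_mul]

theorem mt_smul (a : D.Rat × L.K) (P : fr.E L) :
    mt (a • P) = (fr.gh a.1⁻¹)ᵀ * mt P * fr.gh a.1⁻¹ := rfl

instance : SMulCommClass (D.Rat × L.K) ℝ (fr.E L) where
  smul_comm a r P := by
    change em fr L ((fr.gh a.1⁻¹)ᵀ * (r • mt P) * fr.gh a.1⁻¹) =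
      em fr L (r • ((fr.gh a.1⁻¹)ᵀ * mt P * fr.gh a.1⁻¹))
    rw [Matrix.mul_smul, Matrix.smul_mul]

/-- The positive definite matrices. -/
def PP : Set (fr.E L) := {P | (mt P).PosDef}

theorem mem_PP {P : fr.E L} : P ∈ fr.PP L ↔ (mt P).PosDef := Iff.rfl

/-- The reduced bases of the lattices over the points of `G(𝔸_f) / U`. -/
@[ext]
structure Ix (fr : Frame D) (L : Level D ℓ) : Type where
  /-- the point of `G(𝔸_f) / U` -/
  y : L.X
  /-- the basis -/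
  b : Fin (rk F n) → Fin n → F
  bas : ∃ g : D.Ad, (∃ k ∈ L.K, y = L.cls (g * k)) ∧ IsBas g b
  red : ∃ Z ∈ RT.XX fr.v, Red 3 ((fr.sb b)ᵀ * Z * fr.sb b)

theorem smul_cls (a : D.Rat × L.K) (g : D.Ad) :
    a • L.cls g = L.cls (D.toAd a.1 * g * (a.2 : D.Ad)⁻¹) := rfl

theorem conj_mem (γ : D.Rat) {Z : Matrix (Fin (rk F n)) (Fin (rk F n)) ℝ} (hZ : Z ∈ RT.XX fr.v) :
    (fr.gh γ)ᵀ * Z * fr.gh γ ∈ RT.XX fr.v :=
  RT.XX.conj fr.isRed fr.isMin hZ (fr.act_gh γ)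

theorem conj_sb (γ : D.Rat) (Z : Matrix (Fin (rk F n)) (Fin (rk F n)) ℝ)
    (b : Fin (rk F n) → Fin n → F) :
    (fr.sb fun i => γ.1.1.mulVec (b i))ᵀ * ((fr.gh γ⁻¹)ᵀ * Z * fr.gh γ⁻¹) *
      (fr.sb fun i => γ.1.1.mulVec (b i)) = (fr.sb b)ᵀ * Z * fr.sb b := by
  rw [sb_mulVec, Matrix.transpose_mul]
  calc (fr.sb b)ᵀ * (fr.gh γ)ᵀ * ((fr.gh γ⁻¹)ᵀ * Z * fr.gh γ⁻¹) * (fr.gh γ * fr.sb b)
      = (fr.sb b)ᵀ * ((fr.gh γ)ᵀ * (fr.gh γ⁻¹)ᵀ) * Z * (fr.gh γ⁻¹ * fr.gh γ) * fr.sb b := by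
        simp only [Matrix.mul_assoc]
    _ = _ := by
        rw [← Matrix.transpose_mul, gh_inv_mul, Matrix.transpose_one, Matrix.mul_one,
          Matrix.mul_one]

noncomputable instance : MulAction (D.Rat × L.K) (Ix fr L) where
  smul a i := ⟨a • i.y, fun j => a.1.1.1.mulVec (i.b j), by
    obtain ⟨g, ⟨k, hk, hy⟩, hb⟩ := i.bas
    refine ⟨D.toAd a.1 * g, ⟨k * (a.2 : D.Ad)⁻¹, mul_mem hk (inv_mem a.2.2), ?_⟩, hb.toAd a.1⟩
    rw [hy, smul_cls]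
    congr 1
    group, by
    obtain ⟨Z, hZ, hr⟩ := i.red
    refine ⟨(fr.gh a.1⁻¹)ᵀ * Z * fr.gh a.1⁻¹, fr.conj_mem a.1⁻¹ hZ, ?_⟩
    rw [conj_sb]
    exact hr⟩
  one_smul i := by
    refine Ix.ext (one_smul _ i.y) (funext fun j => ?_)
    exact Matrix.one_mulVec (i.b j)
  mul_smul a a' i := by
    refine Ix.ext (mul_smul a a' i.y) (funext fun j => ?_)
    exact (Matrix.mulVec_mulVec (i.b j) a.1.1.1 a'.1.1.1).symm

theorem smul_y (a : D.Rat × L.K) (i : Ix fr L) : (a • i).y = a • i.y := rfl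

theorem smul_b (a : D.Rat × L.K) (i : Ix fr L) (j : Fin (rk F n)) :
    (a • i).b j = a.1.1.1.mulVec (i.b j) := rfl

/-- The open sets of the cover. -/
def V (i : Ix fr L) : Set (fr.E L) :=
  {P | P ∈ fr.PP L ∧ RedS 3 ((fr.sb i.b)ᵀ * RT.proj fr.v (mt P) * fr.sb i.b)}

/-- The closed sets of the cover. -/
def V' (i : Ix fr L) : Set (fr.E L) :=
  {P | P ∈ fr.PP L ∧ Red 2 ((fr.sb i.b)ᵀ * RT.proj fr.v (mt P) * fr.sb i.b)}

end Frame

end Pool.Agent.Lib.MP_666dc0_nt.EP
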