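import Pool.Agent.Lib.MP_666dc0_nt.Mg.G061
import Pool.Agent.Lib.MP_666dc0_nt.Mg.G060

/-!
# EP, BW2: local finiteness of the cover
-/

open NumberField IsDedekindDomain Matrix
open scoped NumberField

namespace Pool.Agent.Lib.MP_666dc0_nt.EP

open WL

variable {F : Type} [Field F] [NumberField F] {n : ℕ} {D : Datum F n} {ℓ : ℕ}

theorem qR_injective {N : ℕ} : Function.Injective (qR : Matrix (Fin N) (Fin N) ℚ → _) := by
  intro A B h
  ext i j
  have h1 := congrFun (congrFun h i) j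
  exact Rat.cast_injective h1

theorem qR_inv {N : ℕ} {A : Matrix (Fin N) (Fin N) ℚ} (hA : IsUnit A.det) :
    (qR A)⁻¹ = qR A⁻¹ := by
  apply Matrix.inv_eq_right_inv
  rw [← Frame.qR_mul, Matrix.mul_nonsing_inv _ hA, Frame.qR_one]

theorem isUnit_det_qR {N : ℕ} {A : Matrix (Fin N) (Fin N) ℚ} (hA : IsUnit A.det) :
    IsUnit (qR A).det := by
  have h1 : (qR A).det = ((A.det : ℚ) : ℝ) := (RingHom.map_det (Rat.castHom ℝ) A).symm
  rw [h1]
  exact hA.map (Rat.castHom ℝ)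

/-- The points over the same point of `G(𝔸_f) / U` have commensurable lattices. -/
theorem exists_den_bas (L : Level D ℓ) : ∃ m : ℕ, 0 < m ∧ ∀ (y : L.X) (b b' : Fin (rk F n) → Fin n → F),
    (∃ g : D.Ad, (∃ k ∈ L.K, y = L.cls (g * k)) ∧ IsBas g b) →
    (∃ g : D.Ad, (∃ k ∈ L.K, y = L.cls (g * k)) ∧ IsBas g b') →
    ∀ i j, ∃ z : ℤ, (m : ℚ) * ((cm b)⁻¹ * cm b') i j = z := by
  obtain ⟨m, hm, hm'⟩ := exists_den_lat_mul (D := D) _ L.level.isCompact
  refine ⟨m, hm, ?_⟩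
  rintro y b b' ⟨g, ⟨k, hk, hy⟩, hb⟩ ⟨g', ⟨k', hk', hy'⟩, hb'⟩
  have h1 : (g * k)⁻¹ * (g' * k') ∈ L.U := by
    have h2 : L.cls (g * k) = L.cls (g' * k') := hy.symm.trans hy'
    exact QuotientGroup.eq.1 h2
  obtain ⟨κ, hκ, e⟩ : ∃ κ ∈ L.U ⊔ L.K, g' = g * κ := by
    refine ⟨k * ((g * k)⁻¹ * (g' * k')) * k'⁻¹, ?_, by group⟩
    exact mul_mem (mul_mem (Subgroup.mem_sup_right hk) (Subgroup.mem_sup_left h1))
      (inv_mem (Subgroup.mem_sup_right hk'))
  refine hb.trans_int hb' fun x hx => ?_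
  rw [e] at hx
  exact (hm' g κ hκ).2 x hx

namespace Frame

variable (fr : Frame D) (L : Level D ℓ)

/-- Local finiteness. -/
theorem finite_meet (i : Ix fr L) :
    {j : Ix fr L | j.y = i.y ∧ (fr.V L i ∩ fr.V L j).Nonempty}.Finite := by
  obtain ⟨m, hm, hm'⟩ := exists_den_bas L
  have hfin := siegel_finite (rk F n) 3 (by norm_num) m hm
  refine Set.Finite.of_finite_image (f := fun j : Ix fr L => qR ((cm i.b)⁻¹ * cm j.b))
    (hfin.subset ?_) ?_
  · rintro _ ⟨j, ⟨hy, P, hPi, hPj⟩, rfl⟩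
    have hui := isUnit_det_cm i.li
    have huj := isUnit_det_cm j.li
    have hdet : IsUnit ((cm i.b)⁻¹ * cm j.b).det := by
      rw [Matrix.det_mul]
      exact ((Matrix.isUnit_nonsing_inv_det_iff).2 hui).mul huj
    have hinv : ((cm i.b)⁻¹ * cm j.b)⁻¹ = (cm j.b)⁻¹ * cm i.b := by
      rw [Matrix.mul_inv_rev, Matrix.nonsing_inv_nonsing_inv _ hui]
    have hbj : ∃ g : D.Ad, (∃ k ∈ L.K, i.y = L.cls (g * k)) ∧ IsBas g j.b := by
      rw [← hy]
      exact j.bas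
    refine ⟨isUnit_det_qR hdet, fun k l => ?_, fun k l => ?_, ?_⟩
    · obtain ⟨z, hz⟩ := hm' i.y i.b j.b i.bas hbj k l
      refine ⟨z, ?_⟩
      have h1 := congrArg (fun q : ℚ => (q : ℝ)) hz
      simpa using h1
    · rw [qR_inv hdet, hinv]
      obtain ⟨z, hz⟩ := hm' i.y j.b i.b hbj i.bas k l
      refine ⟨z, ?_⟩
      have h1 := congrArg (fun q : ℚ => (q : ℝ)) hz
      simpa using h1
    · refine ⟨(fr.sb i.b)ᵀ * RT.proj fr.v (mt P) * fr.sb i.b, fr.posDef_form L i hPi.1,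
        hPi.2.red, ?_⟩
      have e : fr.sb i.b * qR ((cm i.b)⁻¹ * cm j.b) = fr.sb j.b := by
        unfold sb
        rw [Matrix.mul_assoc, ← qR_mul, Matrix.mul_nonsing_inv_cancel_left _ _ hui]
      have e2 : (qR ((cm i.b)⁻¹ * cm j.b))ᵀ * ((fr.sb i.b)ᵀ * RT.proj fr.v (mt P) * fr.sb i.b) *
          qR ((cm i.b)⁻¹ * cm j.b) = (fr.sb j.b)ᵀ * RT.proj fr.v (mt P) * fr.sb j.b := by
        rw [← e, Matrix.transpose_mul]
        simp only [Matrix.mul_assoc]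
      rw [e2]
      exact hPj.2.red
  · rintro j ⟨hj, -⟩ j' ⟨hj', -⟩ h
    refine Ix.ext (hj.trans hj'.symm) (cm_injective ?_)
    have h1 := qR_injective h
    have h2 := congrArg (fun A => cm i.b * A) h1
    have hui := isUnit_det_cm i.li
    simpa only [Matrix.mul_nonsing_inv_cancel_left _ _ hui] using h2

end Frame

end Pool.Agent.Lib.MP_666dc0_nt.EP
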