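import Pool.Agent.Lib.MP_666dc0_nt.EP.BV0

/-!
# EP, BX0: the real algebra `F ⊗ ℝ`, the real space `(F ⊗ ℝ)^n`: definitions
-/

open NumberField
open scoped NumberField

namespace Pool.Agent.Lib.MP_666dc0_nt.EP

open WL

variable {F : Type} [Field F] [NumberField F] {n : ℕ}

/-- The real algebra `F ⊗ ℝ = ℝ^r × ℂ^s`. -/
abbrev EE (F : Type) [Field F] [NumberField F] : Type := mixedEmbedding.mixedSpace F

/-- The embedding `F → F ⊗ ℝ`. -/
noncomputable abbrev mix (F : Type) [Field F] [NumberField F] : F →+* EE F := mixedEmbedding F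

/-- The `SL_n(F ⊗ ℝ)`-orbit of the form `q` and the tensors `w` is closed. -/
def ClosedOrbit (D : Datum F n) : Prop :=
  IsClosed {t : Matrix (Fin n) (Fin n) (EE F) × (∀ i, (Fin (D.deg i) → Fin n) → EE F) |
    ∃ h : Matrix (Fin n) (Fin n) (EE F), h.det = 1 ∧
      t.1 = h.transpose * D.q.map (mix F) * h ∧ ∀ i, tensAct h (t.2 i) = fun I => mix F (D.w i I)}

/-- The trace `F ⊗ ℝ → ℝ`. -/
noncomputable def lam (F : Type) [Field F] [NumberField F] : EE F →ₗ[ℝ] ℝ :=
  (mixedEmbedding.latticeBasis F).constr ℝ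
    (fun k => ((Algebra.trace ℚ F (integralBasis F k) : ℚ) : ℝ))

/-- The dual of the integral basis for the trace form. -/
noncomputable def dB (F : Type) [Field F] [NumberField F]
    (k : Module.Free.ChooseBasisIndex ℤ (𝓞 F)) : F :=
  letI := Classical.decEq (Module.Free.ChooseBasisIndex ℤ (𝓞 F))
  (Algebra.traceForm ℚ F).dualBasis (traceForm_nondegenerate ℚ F) (integralBasis F) k

/-- The image in `(F ⊗ ℝ)^n` of a vector in `F^n`. -/
noncomputable def vE (y : Fin n → F) : Fin n → EE F := fun m => mix F (y m)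

/-- The forms of the pair `(q, w)` of a bilinear form and a family of tensors over `F ⊗ ℝ`. -/
noncomputable def fE (D : Datum F n) (q : Matrix (Fin n) (Fin n) (EE F))
    (w : ∀ i, (Fin (D.deg i) → Fin n) → EE F) :
    ∀ s : Option (Fin D.m), (Fin (fdeg D s) → Fin n → EE F) → EE F
  | none => fun (y : Fin 2 → Fin n → EE F) => y 0 ⬝ᵥ q.mulVec (y 1)
  | some s => fun y => ∑ J, w s J * ∏ t, q.mulVec (y t) (J t)

/-- The form of the datum over `F ⊗ ℝ`. -/
noncomputable abbrev qE (D : Datum F n) : Matrix (Fin n) (Fin n) (EE F) := D.q.map (mix F)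

/-- The tensors of the datum over `F ⊗ ℝ`. -/
noncomputable abbrev wE (D : Datum F n) : ∀ i, (Fin (D.deg i) → Fin n) → EE F :=
  fun i I => mix F (D.w i I)

end Pool.Agent.Lib.MP_666dc0_nt.EP
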