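import Pool.Agent.Lib.MP_666dc0_nt.EP.BX0

/-!
# EP, BX1: the trace form, dual bases
-/

open NumberField
open scoped NumberField

namespace Pool.Agent.Lib.MP_666dc0_nt.EP

open WL

variable {F : Type} [Field F] [NumberField F] {n : ℕ}

/-- Proof: `Module.Basis.constr_apply_fintype`, `mixedEmbedding.latticeBasis_repr_apply`,
`(integralBasis F).sum_repr x` and the `ℚ`-linearity of the trace. -/
theorem lam_mix (x : F) : lam F (mix F x) = ((Algebra.trace ℚ F x : ℚ) : ℝ) := by
  unfold lam
  rw [Module.Basis.constr_apply_fintype]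
  have h : Algebra.trace ℚ F x
      = ∑ k, (integralBasis F).repr x k * Algebra.trace ℚ F (integralBasis F k) := by
    conv_lhs => rw [← (integralBasis F).sum_repr x, map_sum]
    refine Finset.sum_congr rfl fun k _ => ?_
    rw [map_smul, smul_eq_mul]
  rw [h, Rat.cast_sum]
  refine Finset.sum_congr rfl fun k _ => ?_
  rw [Module.Basis.equivFun_apply, mixedEmbedding.latticeBasis_repr_apply, Rat.cast_mul,
    smul_eq_mul]

/-- Two `ℝ`-linear maps that agree on `F` are equal. Proof: `Module.Basis.ext` for
`mixedEmbedding.latticeBasis F`, `mixedEmbedding.latticeBasis_apply`. -/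
theorem linE_ext {M : Type} [AddCommGroup M] [Module ℝ M] {f g : EE F →ₗ[ℝ] M}
    (h : ∀ x : F, f (mix F x) = g (mix F x)) : f = g := by
  refine Module.Basis.ext (mixedEmbedding.latticeBasis F) fun i => ?_
  rw [mixedEmbedding.latticeBasis_apply]
  exact h _

/-- Proof: expand `x` in the basis `dualBasis` and apply `Tr (a_k ·)`:
`LinearMap.BilinForm.apply_dualBasis_left` (the form is symmetric, `Algebra.traceForm_isSymm`). -/
theorem eq_sum_dB (x : F) :
    x = ∑ k, (Algebra.trace ℚ F (integralBasis F k * x)) • dB F k := by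
  let _ := Classical.decEq (Module.Free.ChooseBasisIndex ℤ (𝓞 F))
  have h := ((Algebra.traceForm ℚ F).dualBasis (traceForm_nondegenerate ℚ F)
    (integralBasis F)).sum_repr x
  conv_lhs => rw [← h]
  refine Finset.sum_congr rfl fun k _ => ?_
  rw [LinearMap.BilinForm.dualBasis_repr_apply, Algebra.traceForm_apply, mul_comm x]
  rfl

/-- Proof: expand `x` in `integralBasis F` and apply `Tr (d_k ·)`. -/
theorem eq_sum_integralBasis (x : F) :
    x = ∑ k, (Algebra.trace ℚ F (dB F k * x)) • integralBasis F k := by
  let _ := Classical.decEq (Module.Free.ChooseBasisIndex ℤ (𝓞 F))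
  have h := (integralBasis F).sum_repr x
  have h2 : ∀ k, Algebra.trace ℚ F (dB F k * x) = (integralBasis F).repr x k := by
    intro k
    conv_lhs => rw [← h, Finset.mul_sum, map_sum]
    rw [Finset.sum_eq_single k]
    · rw [mul_smul_comm, map_smul]
      have h3 := LinearMap.BilinForm.apply_dualBasis_left (B := Algebra.traceForm ℚ F)
        (traceForm_nondegenerate ℚ F) (integralBasis F) k k
      rw [Algebra.traceForm_apply, if_pos rfl] at h3
      have h4 : Algebra.trace ℚ F (dB F k * integralBasis F k) = 1 := h3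
      rw [h4, smul_eq_mul, mul_one]
    · intro l _ hl
      rw [mul_smul_comm, map_smul]
      have h3 := LinearMap.BilinForm.apply_dualBasis_left (B := Algebra.traceForm ℚ F)
        (traceForm_nondegenerate ℚ F) (integralBasis F) k l
      rw [Algebra.traceForm_apply, if_neg hl] at h3
      have h4 : Algebra.trace ℚ F (dB F k * integralBasis F l) = 0 := h3
      rw [h4, smul_zero]
    · intro hk
      exact absurd (Finset.mem_univ k) hk
  conv_lhs => rw [← h]
  refine Finset.sum_congr rfl fun k _ => ?_
  rw [h2 k]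

/-- Proof: `Tr (x ∑ a_k d_k) = ∑ Tr (d_k x a_k)` is the trace of the multiplication by `x`
(`eq_sum_integralBasis` gives the matrix entries `(integralBasis F).repr (x a_l) k =
Tr (d_k x a_l)`, `Algebra.trace_eq_matrix_trace (integralBasis F)`, `Algebra.leftMulMatrix_eq_repr_mul`),
so `Tr (x (∑ a_k d_k - 1)) = 0` for all `x`, and the trace form is non-degenerate. -/
theorem sum_mul_dB : ∑ k, integralBasis F k * dB F k = 1 := by
  let _ := Classical.decEq (Module.Free.ChooseBasisIndex ℤ (𝓞 F))
  have hrepr : ∀ (x : F) k, (integralBasis F).repr x k = Algebra.trace ℚ F (dB F k * x) := by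
    intro x k
    conv_lhs => rw [eq_sum_integralBasis x, map_sum]
    rw [Finsupp.finsetSum_apply, Finset.sum_eq_single k]
    · rw [map_smul, Finsupp.smul_apply, Module.Basis.repr_self, Finsupp.single_eq_same,
        smul_eq_mul, mul_one]
    · intro l _ hl
      rw [map_smul, Finsupp.smul_apply, Module.Basis.repr_self, Finsupp.single_apply, if_neg hl,
        smul_zero]
    · intro hk
      exact absurd (Finset.mem_univ k) hk
  have htr : ∀ x : F, Algebra.trace ℚ F (x * ∑ k, integralBasis F k * dB F k)
      = Algebra.trace ℚ F x := by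
    intro x
    rw [Algebra.trace_eq_matrix_trace (integralBasis F) x, Matrix.trace, Finset.mul_sum, map_sum]
    refine Finset.sum_congr rfl fun k _ => ?_
    rw [Matrix.diag_apply, Algebra.leftMulMatrix_eq_repr_mul, hrepr]
    congr 1
    ring
  rw [eq_sum_dB (∑ k, integralBasis F k * dB F k)]
  conv_rhs => rw [eq_sum_dB (1 : F)]
  refine Finset.sum_congr rfl fun k _ => ?_
  rw [htr, mul_one]

/-- The elements `∑ a a_k ⊗ d_k` and `∑ a_k ⊗ a d_k` agree, in the following form. Proof: write
`a a_k = ∑_l Tr (d_l a a_k) a_l` (`eq_sum_integralBasis`), exchange the sums, and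
`∑_k Tr (a_k (a d_l)) d_k = a d_l` (`eq_sum_dB`). Additive maps between `ℚ`-vector spaces are
`ℚ`-linear (`map_rat_smul`). -/
theorem sum_swap {M : Type} [AddCommGroup M] [Module ℚ M] (f : F →+ F →+ M) (a : F) :
    ∑ k, f (a * integralBasis F k) (dB F k) = ∑ k, f (integralBasis F k) (a * dB F k) := by
  have hl : ∀ (r : ℚ) (x y : F), f (r • x) y = r • f x y := fun r x y =>
    map_rat_smul (f.flip y) r x
  have hr : ∀ (r : ℚ) (x y : F), f x (r • y) = r • f x y := fun r x y =>
    map_rat_smul (f x) r y
  have h1 : ∀ k, f (a * integralBasis F k) (dB F k)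
      = ∑ l, (Algebra.trace ℚ F (dB F l * (a * integralBasis F k))) •
          f (integralBasis F l) (dB F k) := by
    intro k
    conv_lhs => rw [eq_sum_integralBasis (a * integralBasis F k), map_sum]
    rw [AddMonoidHom.finsetSum_apply]
    exact Finset.sum_congr rfl fun l _ => hl _ _ _
  have h2 : ∀ l, f (integralBasis F l) (a * dB F l)
      = ∑ k, (Algebra.trace ℚ F (dB F l * (a * integralBasis F k))) •
          f (integralBasis F l) (dB F k) := by
    intro l
    conv_lhs => rw [eq_sum_dB (a * dB F l), map_sum]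
    refine Finset.sum_congr rfl fun k _ => ?_
    rw [hr]
    congr 2
    ring
  rw [Finset.sum_congr rfl fun k _ => h1 k, Finset.sum_comm]
  exact Finset.sum_congr rfl fun l _ => (h2 l).symm

/-- Proof: both sides are `ℝ`-linear in `x`; `linE_ext`, `eq_sum_dB`, `lam_mix`; for `x = mix y`:
`mix y = ∑ mix (Tr (a_k y) • d_k)` and `mix (r • d) = (r : ℝ) • mix d` for rational `r`. -/
theorem eq_sum_lam (x : EE F) :
    x = ∑ k, lam F (mix F (integralBasis F k) * x) • mix F (dB F k) := by
  have h : (LinearMap.id : EE F →ₗ[ℝ] EE F) = ∑ k,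
      ((lam F).comp (LinearMap.mulLeft ℝ (mix F (integralBasis F k)))).smulRight
        (mix F (dB F k)) := by
    refine linE_ext fun y => ?_
    rw [LinearMap.id_apply, LinearMap.sum_apply]
    conv_lhs => rw [eq_sum_dB y, map_sum]
    refine Finset.sum_congr rfl fun k _ => ?_
    rw [LinearMap.smulRight_apply, LinearMap.comp_apply, LinearMap.mulLeft_apply, ← map_mul,
      lam_mix, Rat.cast_smul_eq_qsmul]
    exact map_rat_smul (mix F) _ _
  have h2 := LinearMap.congr_fun h x
  rw [LinearMap.id_apply, LinearMap.sum_apply] at h2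
  exact h2

/-- Proof: `eq_sum_lam` for `x - y`. -/
theorem eq_of_lam {x y : EE F}
    (h : ∀ k, lam F (mix F (integralBasis F k) * x) = lam F (mix F (integralBasis F k) * y)) :
    x = y := by
  rw [eq_sum_lam x, eq_sum_lam y]
  exact Finset.sum_congr rfl fun k _ => by rw [h k]

end Pool.Agent.Lib.MP_666dc0_nt.EP
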