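import Pool.Agent.Lib.MP_666dc0_nt.EP.BX1
import Mathlib.RingTheory.Norm.Transitivity

/-!
# EP, BX2: the real space `(F ⊗ ℝ)^n`
-/

open NumberField
open scoped NumberField

namespace Pool.Agent.Lib.MP_666dc0_nt.EP

open WL

variable {F : Type} [Field F] [NumberField F] {n : ℕ}

/-- Proof: `Module.finrank_pi_fintype`, the rank of `F ⊗ ℝ` is the number of elements of
`Module.Free.ChooseBasisIndex ℤ (𝓞 F)` (`Module.finrank_eq_card_basis (latticeBasis F)`), which is the
rank of `F` over `ℚ` (`Module.finrank_eq_card_basis (integralBasis F)`). -/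
theorem finrank_EE : Module.finrank ℝ (Fin n → EE F) = rk F n := by
  have h1 : Module.finrank ℝ (EE F) = Module.finrank ℚ F := mixedEmbedding.finrank F
  rw [Module.finrank_pi_fintype, h1]
  simp [rk]

private theorem BX2_vE_smul (q : ℚ) (y : Fin n → F) : vE (q • y) = (q : ℝ) • vE y := by
  funext m
  show mix F (q • y m) = (q : ℝ) • mix F (y m)
  rw [map_rat_smul (mix F) q (y m)]
  exact (Rat.cast_smul_eq_qsmul ℝ q (mix F (y m))).symm

private theorem BX2_vE_add (y y' : Fin n → F) : vE (y + y') = vE y + vE y' := by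
  funext m
  exact map_add (mix F) _ _

private theorem BX2_vE_mem (y : Fin n → F) :
    vE y ∈ Submodule.span ℝ (Set.range fun i => vE (stdB F n i)) := by
  have hy : y ∈ Submodule.span ℚ (Set.range (stdB F n)) := by
    rw [(stdB F n).span_eq]
    trivial
  induction hy using Submodule.span_induction with
  | mem x hx =>
    obtain ⟨i, rfl⟩ := hx
    exact Submodule.subset_span ⟨i, rfl⟩
  | zero =>
    have h0 : vE (0 : Fin n → F) = 0 := by
      funext m
      exact map_zero (mix F)
    rw [h0]
    exact Submodule.zero_mem _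
  | add x y _ _ hx hy =>
    rw [BX2_vE_add]
    exact Submodule.add_mem _ hx hy
  | smul q x _ hx =>
    rw [BX2_vE_smul]
    exact Submodule.smul_mem _ _ hx

/-- Proof: the span contains `vE y` for all `y ∈ F^n` (write `y = ∑ c_i stdB_i`, `c_i ∈ ℚ`), in
particular the vectors `mix (a_k) e_m`, and those span `(F ⊗ ℝ)^n` over `ℝ` because
`mixedEmbedding.latticeBasis F` is a basis of `F ⊗ ℝ` with elements `mix (a_k)`. -/
theorem span_vE : ⊤ ≤ Submodule.span ℝ (Set.range fun i => vE (stdB F n i)) := by
  intro x _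
  have hx : x = ∑ m, Pi.single m (x m) := (Finset.univ_sum_single x).symm
  rw [hx]
  refine Submodule.sum_mem _ fun m _ => ?_
  have h1 := (mixedEmbedding.latticeBasis F).sum_repr (x m)
  rw [← h1]
  have h2 : (Pi.single m (∑ k, (mixedEmbedding.latticeBasis F).repr (x m) k •
      mixedEmbedding.latticeBasis F k) : Fin n → EE F) =
      ∑ k, (mixedEmbedding.latticeBasis F).repr (x m) k •
        vE (Pi.single m (integralBasis F k)) := by
    funext m'
    rw [Finset.sum_apply]
    rcases eq_or_ne m' m with h | h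
    · subst h
      rw [Pi.single_eq_same]
      refine Finset.sum_congr rfl fun k _ => ?_
      rw [Pi.smul_apply, mixedEmbedding.latticeBasis_apply]
      unfold vE
      rw [Pi.single_eq_same]
    · rw [Pi.single_eq_of_ne h]
      refine (Finset.sum_eq_zero fun k _ => ?_).symm
      rw [Pi.smul_apply]
      unfold vE
      rw [Pi.single_eq_of_ne h, map_zero, smul_zero]
  rw [h2]
  exact Submodule.sum_mem _ fun k _ => Submodule.smul_mem _ _ (BX2_vE_mem _)

variable (F n) in
/-- The real basis of `(F ⊗ ℝ)^n` given by the basis `stdB` of `F^n`. -/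
noncomputable def eB : Module.Basis (Fin (rk F n)) ℝ (Fin n → EE F) :=
  basisOfTopLeSpanOfCardEqFinrank (fun i => vE (stdB F n i)) span_vE
    (by rw [Fintype.card_fin, finrank_EE])

theorem eB_apply (i : Fin (rk F n)) : eB F n i = vE (stdB F n i) := by
  unfold eB
  rw [coe_basisOfTopLeSpanOfCardEqFinrank]

/-- The real matrix of a matrix over `F ⊗ ℝ`. -/
noncomputable def rm (H : Matrix (Fin n) (Fin n) (EE F)) :
    Matrix (Fin (rk F n)) (Fin (rk F n)) ℝ :=
  LinearMap.toMatrix (eB F n) (eB F n) ((Matrix.mulVecLin H).restrictScalars ℝ)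

theorem rm_spec (H : Matrix (Fin n) (Fin n) (EE F)) (i : Fin (rk F n)) :
    H.mulVec (eB F n i) = ∑ j, rm H j i • eB F n j := by
  have h1 := (eB F n).sum_repr (H.mulVec (eB F n i))
  rw [← h1]
  refine Finset.sum_congr rfl fun j _ => ?_
  unfold rm
  rw [LinearMap.toMatrix_apply]
  rfl

theorem rm_mul (H H' : Matrix (Fin n) (Fin n) (EE F)) : rm (H * H') = rm H * rm H' := by
  unfold rm
  rw [← LinearMap.toMatrix_comp, Matrix.mulVecLin_mul]
  rfl

theorem rm_one : rm (1 : Matrix (Fin n) (Fin n) (EE F)) = 1 := by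
  unfold rm
  rw [Matrix.mulVecLin_one]
  exact LinearMap.toMatrix_id _

/-- Proof: `rm` is `ℝ`-linear on a finite-dimensional space (`LinearMap.continuous_of_finiteDimensional`);
or: the entries are coordinates (linear forms on a finite-dimensional space) of `H.mulVec (eB i)`. -/
theorem continuous_rm : Continuous (rm : Matrix (Fin n) (Fin n) (EE F) → _) := by
  refine continuous_matrix fun j i => ?_
  have h1 : (fun H : Matrix (Fin n) (Fin n) (EE F) => rm H j i) =
      fun H => (eB F n).coord j (H.mulVec (eB F n i)) := by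
    funext H
    unfold rm
    rw [LinearMap.toMatrix_apply]
    rfl
  rw [h1]
  exact (LinearMap.continuous_of_finiteDimensional ((eB F n).coord j)).comp
    (continuous_id.matrix_mulVec continuous_const)

/-- Proof: `LinearMap.det_restrictScalars`, `LinearMap.det_toMatrix`, `LinearMap.det_toLin'`. -/
theorem det_rm_of_det_one {H : Matrix (Fin n) (Fin n) (EE F)} (h : H.det = 1) :
    (rm H).det = 1 := by
  unfold rm
  rw [LinearMap.det_toMatrix, LinearMap.det_restrictScalars]
  have h1 : LinearMap.det (Matrix.mulVecLin H) = 1 := by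
    rw [← Matrix.toLin'_apply', LinearMap.det_toLin', h]
  rw [h1, map_one]

/-- A matrix over `F ⊗ ℝ` without kernel is invertible. Proof: `H.mulVec` is an injective `ℝ`-linear
endomorphism of a finite-dimensional space, so surjective (`LinearMap.injective_iff_surjective`), so
`H` has a right inverse (`Matrix.mulVec_surjective_iff_exists_right_inverse`), and `det H` is a unit
(`Matrix.det_mul`, `IsUnit.of_mul_eq_one`). -/
theorem isUnit_det_of_injective {H : Matrix (Fin n) (Fin n) (EE F)}
    (h : ∀ x, H.mulVec x = 0 → x = 0) : IsUnit H.det := by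
  set f : (Fin n → EE F) →ₗ[ℝ] (Fin n → EE F) := (Matrix.mulVecLin H).restrictScalars ℝ with hf
  have hinj : Function.Injective f := by
    rw [← LinearMap.ker_eq_bot, LinearMap.ker_eq_bot']
    exact h
  have hsurj : Function.Surjective H.mulVec := LinearMap.injective_iff_surjective.1 hinj
  obtain ⟨B, hB⟩ := Matrix.mulVec_surjective_iff_exists_right_inverse.1 hsurj
  have h1 : H.det * B.det = 1 := by
    rw [← Matrix.det_mul, hB, Matrix.det_one]
  exact IsUnit.of_mul_eq_one _ h1

/-- Proof: if `H x = 0`, write `x = ∑ r_i eB_i`; then `rm H *ᵥ r = 0`, so `r = 0`. -/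
theorem isUnit_det_of_rm {H : Matrix (Fin n) (Fin n) (EE F)} (h : (rm H).det ≠ 0) :
    IsUnit H.det := by
  refine isUnit_det_of_injective fun x hx => ?_
  have h1 := LinearMap.toMatrix_mulVec_repr (eB F n) (eB F n)
    ((Matrix.mulVecLin H).restrictScalars ℝ) x
  have h2 : ((Matrix.mulVecLin H).restrictScalars ℝ) x = 0 := hx
  rw [h2, map_zero] at h1
  have h3 : (eB F n).repr x = 0 := by
    apply DFunLike.coe_injective
    exact Matrix.eq_zero_of_mulVec_eq_zero h h1
  exact (eB F n).repr.map_eq_zero_iff.1 h3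

/-- The real matrix of the multiplication by `a ∈ F`. -/
noncomputable def ca (n : ℕ) (a : F) : Matrix (Fin (rk F n)) (Fin (rk F n)) ℝ :=
  rm (Matrix.scalar (Fin n) (mix F a))

theorem ca_spec (a : F) (i : Fin (rk F n)) :
    mix F a • eB F n i = ∑ j, ca n a j i • eB F n j := by
  have h1 := rm_spec (Matrix.scalar (Fin n) (mix F a)) i
  have h2 : (Matrix.scalar (Fin n) (mix F a)).mulVec (eB F n i) = mix F a • eB F n i := by
    rw [Matrix.scalar_apply]
    funext m
    rw [Matrix.mulVec_diagonal]
    rfl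
  rw [h2] at h1
  exact h1

/-- A real matrix that commutes with the multiplication by all elements of `F` comes from a matrix
over `F ⊗ ℝ`. Proof: let `f : (F ⊗ ℝ)^n → (F ⊗ ℝ)^n` be the `ℝ`-linear map with the matrix `h`. Then
`f (mix a • x) = mix a • f x` for all `a ∈ F` (check on the basis) and so `f (e • x) = e • f x` for all
`e ∈ F ⊗ ℝ` (`linE_ext`: both sides are `ℝ`-linear in `e`). So `f` is `F ⊗ ℝ`-linear, and is
`H.mulVec` for `H = LinearMap.toMatrix'`. -/
theorem exists_rm {h : Matrix (Fin (rk F n)) (Fin (rk F n)) ℝ}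
    (hc : ∀ a : F, ca n a * h = h * ca n a) : ∃ H : Matrix (Fin n) (Fin n) (EE F), rm H = h := by
  set f : (Fin n → EE F) →ₗ[ℝ] (Fin n → EE F) := Matrix.toLin (eB F n) (eB F n) h with hf
  have hcaf : ∀ (a : F) (x : Fin n → EE F), f (mix F a • x) = mix F a • f x := by
    intro a x
    have e1 : ∀ x : Fin n → EE F, ((Matrix.mulVecLin (Matrix.scalar (Fin n) (mix F a))).restrictScalars
        ℝ) x = mix F a • x := by
      intro x
      show (Matrix.scalar (Fin n) (mix F a)).mulVec x = mix F a • x
      rw [Matrix.scalar_apply]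
      funext m
      rw [Matrix.mulVec_diagonal]
      rfl
    have e2 : Matrix.toLin (eB F n) (eB F n) (ca n a) =
        (Matrix.mulVecLin (Matrix.scalar (Fin n) (mix F a))).restrictScalars ℝ := by
      unfold ca rm
      rw [Matrix.toLin_toMatrix]
    have e3 := congrArg (Matrix.toLin (eB F n) (eB F n)) (hc a)
    rw [Matrix.toLin_mul (eB F n) (eB F n) (eB F n), Matrix.toLin_mul (eB F n) (eB F n) (eB F n),
      e2] at e3
    have e4 := LinearMap.congr_fun e3 x
    rw [LinearMap.comp_apply, LinearMap.comp_apply, e1, e1] at e4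
    exact e4.symm
  have hE : ∀ (e : EE F) (x : Fin n → EE F), f (e • x) = e • f x := by
    intro e x
    have h1 : (f ∘ₗ (LinearMap.toSpanSingleton (EE F) (Fin n → EE F) x).restrictScalars ℝ) =
        (LinearMap.toSpanSingleton (EE F) (Fin n → EE F) (f x)).restrictScalars ℝ :=
      linE_ext fun a => hcaf a x
    exact LinearMap.congr_fun h1 e
  set g : (Fin n → EE F) →ₗ[EE F] (Fin n → EE F) :=
    { toFun := f
      map_add' := map_add f
      map_smul' := hE } with hg
  refine ⟨LinearMap.toMatrix' g, ?_⟩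
  have h2 : (Matrix.mulVecLin (LinearMap.toMatrix' g)).restrictScalars ℝ = f := by
    apply LinearMap.ext
    intro x
    show (LinearMap.toMatrix' g).mulVec x = f x
    rw [← Matrix.toLin'_apply, Matrix.toLin'_toMatrix']
    rfl
  unfold rm
  rw [h2, hf, LinearMap.toMatrix_toLin]

/-- The family of vectors `∑ z_ji ε_j`, `ε` the basis `eB`. -/
noncomputable def bz (z : Matrix (Fin (rk F n)) (Fin (rk F n)) ℝ) (i : Fin (rk F n)) :
    Fin n → EE F := ∑ j, z j i • eB F n j

theorem bz_one (i : Fin (rk F n)) : bz (F := F) (n := n) 1 i = eB F n i := by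
  unfold bz
  rw [Finset.sum_eq_single i]
  · rw [Matrix.one_apply_eq, one_smul]
  · intro j _ hj
    rw [Matrix.one_apply_ne hj, zero_smul]
  · intro h
    exact absurd (Finset.mem_univ _) h

theorem bz_mul (z z' : Matrix (Fin (rk F n)) (Fin (rk F n)) ℝ) (i : Fin (rk F n)) :
    bz (F := F) (n := n) (z * z') i = ∑ j, z' j i • bz (F := F) (n := n) z j := by
  unfold bz
  simp only [Matrix.mul_apply, Finset.sum_smul, Finset.smul_sum, smul_smul]
  rw [Finset.sum_comm]
  refine Finset.sum_congr rfl fun k _ => Finset.sum_congr rfl fun j _ => ?_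
  rw [mul_comm]

/-- Proof: `mulVec` is `ℝ`-linear, `rm_spec`. -/
theorem mulVec_bz (H : Matrix (Fin n) (Fin n) (EE F))
    (z : Matrix (Fin (rk F n)) (Fin (rk F n)) ℝ) (i : Fin (rk F n)) :
    H.mulVec (bz z i) = bz (rm H * z) i := by
  have h1 : H.mulVec (bz z i) = ∑ j, z j i • H.mulVec (eB F n j) := by
    show ((Matrix.mulVecLin H).restrictScalars ℝ) (∑ j, z j i • eB F n j) = _
    rw [map_sum]
    refine Finset.sum_congr rfl fun j _ => ?_
    rw [map_smul]
    rfl
  rw [h1]
  unfold bz
  simp only [rm_spec, Matrix.mul_apply, Finset.sum_smul, Finset.smul_sum, smul_smul]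
  rw [Finset.sum_comm]
  refine Finset.sum_congr rfl fun k _ => Finset.sum_congr rfl fun j _ => ?_
  rw [mul_comm]

/-- Proof: `mulVec_bz` for the scalar matrix. -/
theorem smul_bz (a : F) (z : Matrix (Fin (rk F n)) (Fin (rk F n)) ℝ) (i : Fin (rk F n)) :
    mix F a • bz (F := F) (n := n) z i = bz (F := F) (n := n) (ca n a * z) i := by
  unfold ca
  rw [← mulVec_bz, Matrix.scalar_apply]
  funext m
  rw [Matrix.mulVec_diagonal]
  rfl

/-- If `det z ≠ 0` every vector is a real combination of the vectors `bz z i`. Proof: take the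
coordinates of `x` in `eB` and multiply by `z⁻¹`. -/
theorem exists_bz {z : Matrix (Fin (rk F n)) (Fin (rk F n)) ℝ} (hz : z.det ≠ 0)
    (x : Fin n → EE F) : ∃ r : Fin (rk F n) → ℝ, x = ∑ i, r i • bz (F := F) (n := n) z i := by
  have hu : IsUnit z.det := isUnit_iff_ne_zero.2 hz
  refine ⟨z⁻¹.mulVec ((eB F n).repr x), ?_⟩
  set r := z⁻¹.mulVec ((eB F n).repr x) with hr
  have h1 : z.mulVec r = (eB F n).repr x := by
    rw [hr, Matrix.mulVec_mulVec, Matrix.mul_nonsing_inv _ hu, Matrix.one_mulVec]
  have h2 := (eB F n).sum_repr x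
  conv_lhs => rw [← h2]
  rw [← h1]
  unfold bz
  simp only [Matrix.mulVec, dotProduct, Finset.sum_smul, Finset.smul_sum, smul_smul]
  rw [Finset.sum_comm]
  refine Finset.sum_congr rfl fun k _ => Finset.sum_congr rfl fun j _ => ?_
  rw [mul_comm]

end Pool.Agent.Lib.MP_666dc0_nt.EP
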