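import Pool.Agent.Lib.MP_666dc0_nt.Mg.G058
import Pool.Agent.Lib.MP_666dc0_nt.Mg.G062

/-!
# EP, C2e: exactness of the standard resolution
-/

namespace Pool.Agent.Lib.MP_666dc0_nt.EP

variable {R : Type} {A : Type} [CommRing R] [Group A] {E X : Type} [MulAction A E] [MulAction A X]

theorem ker_aug [Nonempty E] : LinearMap.ker (aug R E X) = LinearMap.range (bd R E X 0) := by
  apply le_antisymm
  · intro m hm
    have e₀ : E := Classical.arbitrary E
    have h := LinearMap.congr_fun (bd_cone_zero (R := R) (X := X) e₀) m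
    rw [LinearMap.mem_ker] at hm
    simp only [LinearMap.add_apply, LinearMap.comp_apply, hm, map_zero, add_zero,
      LinearMap.id_apply] at h
    exact ⟨_, h⟩
  · rintro _ ⟨m, rfl⟩
    rw [LinearMap.mem_ker]
    exact LinearMap.congr_fun (aug_comp_bd (R := R) (E := E) (X := X)) m

theorem ker_bd [Nonempty E] (n : ℕ) :
    LinearMap.ker (bd R E X n) = LinearMap.range (bd R E X (n + 1)) := by
  apply le_antisymm
  · intro m hm
    have e₀ : E := Classical.arbitrary E
    have h := LinearMap.congr_fun (bd_cone (R := R) (X := X) e₀ n) m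
    rw [LinearMap.mem_ker] at hm
    simp only [LinearMap.add_apply, LinearMap.comp_apply, hm, map_zero, add_zero,
      LinearMap.id_apply] at h
    exact ⟨_, h⟩
  · rintro _ ⟨m, rfl⟩
    rw [LinearMap.mem_ker]
    exact LinearMap.congr_fun (bd_comp_bd (R := R) (E := E) (X := X) n) m

end Pool.Agent.Lib.MP_666dc0_nt.EP
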