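import Mathlib

/-!
# EP, D2a: separation
-/

namespace Pool.Agent.Lib.MP_666dc0_nt.EP

variable {T L : Type} [CommRing T] [NormedField L] [IsUltrametricDist L]

/-- The values of the homomorphism `χ` are controlled by the values of finitely many members of the
family `Ω`. -/
def Controlled (Ω : Set (T →+* L)) (χ : T →+* L) : Prop :=
  ∀ ε : ℝ, 0 < ε → ∃ I : Finset (T →+* L), (∀ ψ ∈ I, ψ ∈ Ω) ∧ ∃ δ : ℝ, 0 < δ ∧
    ∀ t : T, (∀ ψ ∈ I, ‖ψ t‖ ≤ δ) → ‖χ t‖ ≤ ε

/-- Separation of distinct homomorphisms `T → L`: for `χ ∈ s` there are `t j ∈ T` and `a j ∈ L` such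
that `∑ a j χ'(t j) = 1` for `χ' = χ` and `= 0` for the other `χ' ∈ s`
(`linearIndependent_monoidHom`). -/
theorem exists_separating (s : Finset (T →+* L)) (χ : T →+* L) (hχ : χ ∈ s) :
    ∃ (m : ℕ) (t : Fin m → T) (a : Fin m → L), (∑ j, a j * χ (t j) = 1) ∧
      ∀ ψ ∈ s, ψ ≠ χ → ∑ j, a j * ψ (t j) = 0 := by
  classical
  let v : T → (s → L) := fun t ψ => ψ.1 t
  have hspan : Submodule.span L (Set.range v) = ⊤ := by
    by_contra hne
    obtain ⟨f, hf, hle⟩ := Submodule.exists_le_ker_of_lt_top _ (lt_top_iff_ne_top.2 hne)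
    apply hf
    have hlin : LinearIndependent L (fun ψ : s => (fun t : T => ψ.1 t)) := by
      have h1 := linearIndependent_monoidHom T L
      have h2 : Function.Injective (fun ψ : s => ((ψ.1 : T →+* L) : T →* L)) := by
        intro ψ ψ' h
        apply Subtype.ext
        apply RingHom.ext
        intro t
        exact DFunLike.congr_fun h t
      exact h1.comp _ h2
    rw [Fintype.linearIndependent_iff] at hlin
    have h3 := hlin (fun ψ => f (Pi.single ψ 1)) (by
      funext t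
      have h4 : f (v t) = 0 := hle (Submodule.subset_span ⟨t, rfl⟩)
      have h5 : v t = ∑ ψ, v t ψ • (Pi.single ψ (1 : L) : s → L) := by
        funext ψ
        simp [Finset.sum_apply, Pi.single_apply]
      rw [h5, map_sum] at h4
      rw [Finset.sum_apply, Pi.zero_apply, ← h4]
      refine Finset.sum_congr rfl fun ψ _ => ?_
      rw [map_smul, Pi.smul_apply, smul_eq_mul, smul_eq_mul, mul_comm])
    apply LinearMap.pi_ext'
    intro ψ
    apply LinearMap.ext_ring
    simpa using h3 ψ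
  have hmem : (Pi.single ⟨χ, hχ⟩ (1 : L) : s → L) ∈ Submodule.span L (Set.range v) := by
    rw [hspan]
    exact Submodule.mem_top
  rw [Finsupp.mem_span_range_iff_exists_finsupp] at hmem
  obtain ⟨c, hc⟩ := hmem
  have hval : ∀ ψ (hψ : ψ ∈ s), ∑ t ∈ c.support, c t * ψ t =
      (Pi.single ⟨χ, hχ⟩ (1 : L) : s → L) ⟨ψ, hψ⟩ := by
    intro ψ hψ
    rw [← hc, Finsupp.sum, Finset.sum_apply]
    rfl
  let e := c.support.equivFin
  have hsum : ∀ ψ : T →+* L, ∑ j, c (e.symm j).1 * ψ (e.symm j).1 = ∑ t ∈ c.support, c t * ψ t := by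
    intro ψ
    rw [← Finset.sum_coe_sort c.support (fun t => c t * ψ t)]
    exact Equiv.sum_comp e.symm (fun t : c.support => c t.1 * ψ t.1)
  refine ⟨c.support.card, fun j => (e.symm j).1, fun j => c (e.symm j).1, ?_, ?_⟩
  · rw [hsum, hval χ hχ, Pi.single_eq_same]
  · intro ψ hψ hne
    rw [hsum, hval ψ hψ, Pi.single_eq_of_ne]
    intro h
    exact hne (congrArg Subtype.val h)

end Pool.Agent.Lib.MP_666dc0_nt.EP
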