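import Pool.Agent.Lib.MP_666dc0_nt.EP.D2a

/-!
# EP, D2b: controlled systems
-/

namespace Pool.Agent.Lib.MP_666dc0_nt.EP

variable {T L : Type} [CommRing T] [NormedField L] [IsUltrametricDist L]

/-- Let `s` be a finite set of homomorphisms `T → L` and `e` non-zero coefficients, such that for every
`ε > 0` the function `t ↦ ∑_{χ ∈ s} e χ * χ t` is approximated, uniformly up to `ε`, by a linear
combination of members of `Ω`. If all members of `Ω` have values of norm `≤ 1`, then every `χ ∈ s` is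
controlled by `Ω`.
Proof: let `t j`, `a j` be as in `exists_separating`. Then
`e χ * χ t = ∑_j a j * (∑_{χ'} e χ' * χ' (t * t j))`. Take the approximation `∑_ψ b ψ * ψ` for
`ε' = ε ‖e χ‖ / (1 + max ‖a j‖)`; then `‖∑_ψ b ψ * ψ (t * t j)‖ ≤ max ‖b ψ‖ * max ‖ψ t‖`. -/
theorem controlled_of_approx (Ω : Set (T →+* L)) (hΩ : ∀ ψ ∈ Ω, ∀ t, ‖ψ t‖ ≤ 1)
    (s : Finset (T →+* L)) (e : (T →+* L) → L) (he : ∀ χ ∈ s, e χ ≠ 0)
    (h : ∀ ε : ℝ, 0 < ε → ∃ (I : Finset (T →+* L)) (b : (T →+* L) → L), (∀ ψ ∈ I, ψ ∈ Ω) ∧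
      ∀ t, ‖∑ χ ∈ s, e χ * χ t - ∑ ψ ∈ I, b ψ * ψ t‖ ≤ ε) (χ : T →+* L) (hχ : χ ∈ s) :
    Controlled Ω χ := by
  obtain ⟨m, u, a, h1, h0⟩ := exists_separating s χ hχ
  intro ε hε
  have he' : 0 < ‖e χ‖ := norm_pos_iff.2 (he χ hχ)
  have key : ∀ t : T, e χ * χ t = ∑ j, a j * ∑ ψ ∈ s, e ψ * ψ (t * u j) := by
    intro t
    have h2 : ∑ j, a j * ∑ ψ ∈ s, e ψ * ψ (t * u j) =
        ∑ ψ ∈ s, e ψ * ψ t * ∑ j, a j * ψ (u j) := by
      simp only [Finset.mul_sum]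
      rw [Finset.sum_comm]
      refine Finset.sum_congr rfl fun ψ _ => Finset.sum_congr rfl fun j _ => ?_
      rw [map_mul]
      ring
    rw [h2, Finset.sum_eq_single_of_mem χ hχ, h1, mul_one]
    intro ψ hψ hne
    rw [h0 ψ hψ hne, mul_zero]
  set S : ℝ := ∑ j, ‖a j‖ with hS
  have hS0 : 0 ≤ S := Finset.sum_nonneg fun j _ => norm_nonneg _
  set ε' : ℝ := ε * ‖e χ‖ / (2 * (1 + S)) with hε'
  have hε'0 : 0 < ε' := by positivity
  obtain ⟨I, b, hI, hb⟩ := h ε' hε'0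
  set B : ℝ := ∑ ψ ∈ I, ‖b ψ‖ with hB
  have hB0 : 0 ≤ B := Finset.sum_nonneg fun ψ _ => norm_nonneg _
  refine ⟨I, hI, ε' / (1 + B), by positivity, fun t ht => ?_⟩
  have h3 : ∀ j, ‖∑ ψ ∈ s, e ψ * ψ (t * u j)‖ ≤ 2 * ε' := by
    intro j
    have h4 : ‖∑ ψ ∈ I, b ψ * ψ (t * u j)‖ ≤ ε' := by
      refine (norm_sum_le _ _).trans ?_
      have h5 : ∀ ψ ∈ I, ‖b ψ * ψ (t * u j)‖ ≤ ‖b ψ‖ * (ε' / (1 + B)) := by
        intro ψ hψ
        rw [norm_mul, map_mul, norm_mul]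
        refine mul_le_mul_of_nonneg_left ?_ (norm_nonneg _)
        calc ‖ψ t‖ * ‖ψ (u j)‖ ≤ (ε' / (1 + B)) * 1 :=
              mul_le_mul (ht ψ hψ) (hΩ ψ (hI ψ hψ) _) (norm_nonneg _) (by positivity)
          _ = _ := mul_one _
      refine (Finset.sum_le_sum h5).trans ?_
      rw [← Finset.sum_mul, ← hB, mul_div_assoc', div_le_iff₀ (by positivity)]
      nlinarith
    have h6 := hb (t * u j)
    calc ‖∑ ψ ∈ s, e ψ * ψ (t * u j)‖
        = ‖(∑ ψ ∈ s, e ψ * ψ (t * u j) - ∑ ψ ∈ I, b ψ * ψ (t * u j)) +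
            ∑ ψ ∈ I, b ψ * ψ (t * u j)‖ := by rw [sub_add_cancel]
      _ ≤ _ := norm_add_le _ _
      _ ≤ ε' + ε' := add_le_add h6 h4
      _ = 2 * ε' := by ring
  have h7 : ‖e χ‖ * ‖χ t‖ ≤ S * (2 * ε') := by
    rw [← norm_mul, key t, hS, Finset.sum_mul]
    refine (norm_sum_le _ _).trans (Finset.sum_le_sum fun j _ => ?_)
    rw [norm_mul]
    exact mul_le_mul_of_nonneg_left (h3 j) (norm_nonneg _)
  have h8 : S * (2 * ε') ≤ ε * ‖e χ‖ := by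
    rw [hε']
    have : S * (2 * (ε * ‖e χ‖ / (2 * (1 + S)))) = (S / (1 + S)) * (ε * ‖e χ‖) := by
      field_simp
    rw [this]
    have h9 : S / (1 + S) ≤ 1 := by
      rw [div_le_one (by positivity)]
      linarith
    calc (S / (1 + S)) * (ε * ‖e χ‖) ≤ 1 * (ε * ‖e χ‖) :=
          mul_le_mul_of_nonneg_right h9 (by positivity)
      _ = _ := one_mul _
  have h9 : ‖e χ‖ * ‖χ t‖ ≤ ‖e χ‖ * ε := by linarith [mul_comm ε ‖e χ‖]
  exact le_of_mul_le_mul_left h9 he'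

end Pool.Agent.Lib.MP_666dc0_nt.EP
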