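import Pool.Agent.Lib.MP_666dc0_nt.EP.FD5
import Pool.Agent.Lib.MP_666dc0_nt.Mg.G072
import Pool.Agent.Lib.MP_666dc0_nt.EP.G3a

/-!
# EP, FD7: the trace formula for finitely dominated sets
-/

namespace Pool.Agent.Lib.MP_666dc0_nt.EP

variable {R : Type} {A : Type} [CommRing R] [Group A] {E X : Type} [MulAction A E] [MulAction A X]
  [Nonempty E] {I : Type} {L : Type} [Field L] [Algebra R L] [IsAlgClosed L]
  [CharZero L]

/-- The eigensystems with non-zero Euler characteristic form a finite set. -/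
theorem finite_euler_fd (hfree : ∀ (a : A) (e : E) (x : X), a • e = e → a • x = x → a = 1)
    (hFD : IsFD R A X) (c : I → Module.End R (X →₀ R)) (hc : ∀ i, Equi A (c i))
    (hcomm : ∀ i j, Commute (c i) (c j)) {V : Type} [AddCommGroup V] [Module L V]
    [FiniteDimensional L V] (ρ : Representation L A V) :
    {y : I → L | eulerMult ρ E c y ≠ 0}.Finite := by
  obtain ⟨θ, hθ1, hθ⟩ := exists_action c hc hcomm
  obtain ⟨N, m, -, hN, -⟩ := exists_lefschetz_fd (L := L) hFD
  obtain ⟨s, hs, -⟩ := exists_trace_euler_fd θ hθ ρ hfree (Res.std R A E X hfree)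
    (fun P' n => hN P' V ρ n)
  have h1 : (fun i => θ (MvPolynomial.X i)) = c := funext hθ1
  rw [h1] at hs
  exact s.finite_toSet.subset fun y hy => (hs y).2 hy

/-- **Trace formula.** There is a positive integer `m`, and for every polynomial `t` in the operators
`c i` there is a finitely supported function `ν : A → R` such that for every finite-dimensional
representation `ρ` of `A`, `m` times the sum of `e(y) t(y)` over the eigensystems `y` with Euler
characteristic `e(y) ≠ 0` is `∑ ν(a) tr ρ(a)`. -/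
theorem exists_trace_fd (hfree : ∀ (a : A) (e : E) (x : X), a • e = e → a • x = x → a = 1)
    (hFD : IsFD R A X) (c : I → Module.End R (X →₀ R)) (hc : ∀ i, Equi A (c i))
    (hcomm : ∀ i j, Commute (c i) (c j)) : ∃ m : ℕ, 0 < m ∧ ∀ t : MvPolynomial I R,
    ∃ ν : A →₀ R, ∀ (V : Type) [AddCommGroup V] [Module L V] [FiniteDimensional L V]
      (ρ : Representation L A V),
        (m : L) * ∑ y ∈ (finite_euler_fd (E := E) (L := L) hfree hFD c hc hcomm ρ).toFinset,
          (eulerMult ρ E c y : L) * MvPolynomial.aeval y t =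
            ν.sum fun a x => algebraMap R L x * LinearMap.trace L V (ρ a) := by
  obtain ⟨θ, hθ1, hθ⟩ := exists_action c hc hcomm
  obtain ⟨N, m, hm, hN, hN'⟩ := exists_lefschetz_fd (L := L) hFD
  refine ⟨m, hm, fun t => ?_⟩
  obtain ⟨ν, hν⟩ := hN' (Res.std R A E X hfree) (hθ t)
  refine ⟨ν, fun V _ _ _ ρ => ?_⟩
  obtain ⟨s, hs, hs'⟩ := exists_trace_euler_fd θ hθ ρ hfree (Res.std R A E X hfree)
    (fun P' n => hN P' V ρ n)
  have h1 : (fun i => θ (MvPolynomial.X i)) = c := funext hθ1
  rw [h1] at hs hs'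
  rw [← hν V ρ, hs' t]
  refine congrArg _ (Finset.sum_congr ?_ fun _ _ => rfl)
  ext y
  rw [Set.Finite.mem_toFinset, Set.mem_setOf_eq, hs]

end Pool.Agent.Lib.MP_666dc0_nt.EP
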