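import Pool.Agent.Lib.MP_666dc0_nt.EP.D2a

/-!
# EP, J: integrality
-/

namespace Pool.Agent.Lib.MP_666dc0_nt.EP

/-- If `∑_{χ ∈ s} e χ * χ t` is bounded, uniformly in `t`, then the values of all `χ ∈ s` have norm `≤ 1`.
Proof: with `t j`, `a j` as in `exists_separating`, for all `n`,
`e χ * χ(t)^n = ∑_j a j * (∑_{χ'} e χ' * χ' (t^n * t j))` is bounded by `C * max ‖a j‖`. If `‖χ t‖ > 1`
the left hand side is unbounded. -/
theorem norm_le_one_of_sum_bounded {T L : Type} [CommRing T] [NormedField L] [IsUltrametricDist L]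
    (s : Finset (T →+* L)) (e : (T →+* L) → L) (he : ∀ χ ∈ s, e χ ≠ 0) (C : ℝ)
    (h : ∀ t, ‖∑ χ ∈ s, e χ * χ t‖ ≤ C) (χ : T →+* L) (hχ : χ ∈ s) (t : T) : ‖χ t‖ ≤ 1 := by
  obtain ⟨m, u, a, h1, h0⟩ := exists_separating s χ hχ
  by_contra hlt
  push Not at hlt
  have key : ∀ n : ℕ, e χ * χ t ^ n = ∑ j, a j * ∑ ψ ∈ s, e ψ * ψ (t ^ n * u j) := by
    intro n
    have h2 : ∑ j, a j * ∑ ψ ∈ s, e ψ * ψ (t ^ n * u j) =
        ∑ ψ ∈ s, e ψ * ψ t ^ n * ∑ j, a j * ψ (u j) := by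
      simp only [Finset.mul_sum]
      rw [Finset.sum_comm]
      refine Finset.sum_congr rfl fun ψ _ => Finset.sum_congr rfl fun j _ => ?_
      rw [map_mul, map_pow]
      ring
    rw [h2, Finset.sum_eq_single_of_mem χ hχ, h1, mul_one]
    intro ψ hψ hne
    rw [h0 ψ hψ hne, mul_zero]
  have hb : ∀ n : ℕ, ‖e χ‖ * ‖χ t‖ ^ n ≤ ∑ j, ‖a j‖ * C := by
    intro n
    rw [← norm_pow, ← norm_mul, key n]
    refine (norm_sum_le _ _).trans (Finset.sum_le_sum fun j _ => ?_)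
    rw [norm_mul]
    exact mul_le_mul_of_nonneg_left (h _) (norm_nonneg _)
  have he' : 0 < ‖e χ‖ := norm_pos_iff.2 (he χ hχ)
  have ht : Filter.Tendsto (fun n : ℕ => ‖e χ‖ * ‖χ t‖ ^ n) Filter.atTop Filter.atTop :=
    (tendsto_pow_atTop_atTop_of_one_lt hlt).const_mul_atTop he'
  obtain ⟨n, hn⟩ := (ht.eventually (Filter.eventually_gt_atTop (∑ j, ‖a j‖ * C))).exists
  exact absurd (hb n) (not_le.2 hn)

end Pool.Agent.Lib.MP_666dc0_nt.EP
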