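import Mathlib

/-!
# EP, PA0: covers of a convex set; the nerve: definitions
-/

namespace Pool.Agent.Lib.MP_666dc0_nt.EP

/-- A family of open sets `V i ⊆ PP` (with closed sets `V' i ⊆ V i`) of the convex set `PP ⊆ E`,
indexed by an `A`-set `I` over the `A`-set `Y`: for every `y ∈ Y` the `V' i`, `i` over `y`, cover `PP`;
the family is locally finite over each `y`, equivariant, and `I` is a free `A`-set with finitely many
orbits. -/
structure Cover (A Y E : Type) [Group A] [MulAction A Y] [NormedAddCommGroup E]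
    [NormedSpace ℝ E] [DistribMulAction A E] (PP : Set E) where
  /-- the index set -/
  I : Type
  /-- the action -/
  act : MulAction A I
  /-- the map to `Y` -/
  y : I → Y
  /-- the open sets -/
  V : I → Set E
  /-- the closed sets -/
  V' : I → Set E
  y_smul : ∀ (a : A) (i : I), y (a • i) = a • y i
  V_smul : ∀ (a : A) (i : I) (p : E), a • p ∈ V (a • i) ↔ p ∈ V i
  V'_smul : ∀ (a : A) (i : I) (p : E), a • p ∈ V' (a • i) ↔ p ∈ V' i
  V'_sub : ∀ i, V' i ⊆ V i
  V_sub : ∀ i, V i ⊆ PP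
  isOpen : ∀ i, ∃ O, IsOpen O ∧ V i = O ∩ PP
  isClosed : ∀ i, ∃ C, IsClosed C ∧ V' i = C ∩ PP
  cover : ∀ (y₀ : Y) (p : E), p ∈ PP → ∃ i, y i = y₀ ∧ p ∈ V' i
  locFin : ∀ i, {j | y j = y i ∧ (V i ∩ V j).Nonempty}.Finite
  orbits : ∃ s : Finset I, ∀ i, ∃ a : A, ∃ j ∈ s, i = a • j
  free : ∀ (a : A) (i : I), a • i = i → a = 1

attribute [instance] Cover.act

namespace Cover

variable {A Y E : Type} [Group A] [MulAction A Y] [NormedAddCommGroup E] [NormedSpace ℝ E]
  [DistribMulAction A E] {PP : Set E} (c : Cover A Y E PP)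

/-- The translate of a finite set of indices. -/
def sm (a : A) (s : Finset c.I) : Finset c.I :=
  s.map ⟨fun i => a • i, MulAction.injective a⟩

theorem mem_sm (a : A) (s : Finset c.I) (i : c.I) : i ∈ c.sm a s ↔ a⁻¹ • i ∈ s := by
  unfold sm
  rw [Finset.mem_map]
  constructor
  · rintro ⟨j, hj, rfl⟩
    change a⁻¹ • a • j ∈ s
    rwa [inv_smul_smul]
  · intro h
    exact ⟨a⁻¹ • i, h, smul_inv_smul a i⟩

theorem sm_one (s : Finset c.I) : c.sm 1 s = s := by
  ext i
  rw [mem_sm, inv_one, one_smul]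

theorem sm_mul (a b : A) (s : Finset c.I) : c.sm (a * b) s = c.sm a (c.sm b s) := by
  ext i
  rw [mem_sm, mem_sm, mem_sm, mul_inv_rev, mul_smul]

theorem sm_subset_iff (a : A) (s t : Finset c.I) : c.sm a s ⊆ c.sm a t ↔ s ⊆ t := by
  constructor
  · intro h i hi
    have h1 : a • i ∈ c.sm a s := by rw [mem_sm, inv_smul_smul]; exact hi
    have h2 := h h1
    rwa [mem_sm, inv_smul_smul] at h2
  · intro h i hi
    rw [mem_sm] at hi ⊢
    exact h hi

theorem sm_ssubset_iff (a : A) (s t : Finset c.I) : c.sm a s ⊂ c.sm a t ↔ s ⊂ t := by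
  rw [Finset.ssubset_def, Finset.ssubset_def, sm_subset_iff, sm_subset_iff]

theorem sm_nonempty (a : A) {s : Finset c.I} (h : s.Nonempty) : (c.sm a s).Nonempty := by
  obtain ⟨i, hi⟩ := h
  exact ⟨a • i, by rw [mem_sm, inv_smul_smul]; exact hi⟩

/-- The simplices of the nerve: finite non-empty sets of indices over the same point of `Y` such that
the open sets have a common point. -/
def NS (s : Finset c.I) : Prop :=
  s.Nonempty ∧ (∀ i ∈ s, ∀ j ∈ s, c.y i = c.y j) ∧ ∃ p, ∀ i ∈ s, p ∈ c.V i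

variable {c} in
theorem NS.mono {s t : Finset c.I} (h : c.NS s) (hts : t ⊆ s) (ht : t.Nonempty) : c.NS t :=
  ⟨ht, fun i hi j hj => h.2.1 i (hts hi) j (hts hj),
    h.2.2.imp fun _ hp i hi => hp i (hts hi)⟩

theorem NS_sm (a : A) {s : Finset c.I} (h : c.NS s) : c.NS (c.sm a s) := by
  refine ⟨c.sm_nonempty a h.1, fun i hi j hj => ?_, ?_⟩
  · rw [mem_sm] at hi hj
    have h1 := h.2.1 _ hi _ hj
    rw [c.y_smul, c.y_smul] at h1
    exact MulAction.injective a⁻¹ h1
  · obtain ⟨p, hp⟩ := h.2.2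
    refine ⟨a • p, fun i hi => ?_⟩
    rw [mem_sm] at hi
    have h1 := (c.V_smul a (a⁻¹ • i) p).2 (hp _ hi)
    rwa [smul_inv_smul] at h1

/-- The chains `t_0 ⊋ t_1 ⊋ … ⊋ t_n` of simplices of the nerve. -/
def Ch (n : ℕ) : Type :=
  {t : Fin (n + 1) → Finset c.I // StrictAnti t ∧ c.NS (t 0) ∧ (t (Fin.last n)).Nonempty}

variable {c} in
theorem Ch.nonempty {n : ℕ} (t : c.Ch n) (k : Fin (n + 1)) : (t.1 k).Nonempty :=
  t.2.2.2.mono (t.2.1.antitone (Fin.le_last k))

variable {c} in
theorem Ch.ns {n : ℕ} (t : c.Ch n) (k : Fin (n + 1)) : c.NS (t.1 k) :=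
  t.2.2.1.mono (t.2.1.antitone (Fin.zero_le k)) (t.nonempty k)

instance (n : ℕ) : MulAction A (c.Ch n) where
  smul a t := ⟨fun k => c.sm a (t.1 k),
    fun _ _ h => (c.sm_ssubset_iff a _ _).2 (t.2.1 h), c.NS_sm a t.2.2.1,
    c.sm_nonempty a t.2.2.2⟩
  one_smul t := Subtype.ext (funext fun k => c.sm_one (t.1 k))
  mul_smul a b t := Subtype.ext (funext fun k => c.sm_mul a b (t.1 k))

/-- The point of `Y` under a chain. -/
noncomputable def ys {n : ℕ} (t : c.Ch n) : Y := c.y (t.nonempty 0).choose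

/-- The faces of a chain. -/
def face {n : ℕ} (t : c.Ch (n + 1)) (j : Fin (n + 2)) : c.Ch n :=
  ⟨fun k => t.1 (j.succAbove k), fun _ _ h => t.2.1 (Fin.strictMono_succAbove j h),
    t.ns _, t.nonempty _⟩

/-- The boundary of a chain. -/
noncomputable def dC (R : Type) [CommRing R] (n : ℕ) :
    (c.Ch (n + 1) →₀ R) →ₗ[R] (c.Ch n →₀ R) :=
  Finsupp.linearCombination R fun t =>
    ∑ j : Fin (n + 2), Finsupp.single (c.face t j) ((-1) ^ (j : ℕ))

/-- The augmentation. -/
noncomputable def εC (R : Type) [CommRing R] : (c.Ch 0 →₀ R) →ₗ[R] (Y →₀ R) :=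
  Finsupp.lmapDomain R R c.ys

open Classical in
/-- The cone over the chains below `v`, with vertex `v`; chains starting with `v` go to `0`. -/
noncomputable def coneC (R : Type) [CommRing R] (v : Finset c.I) (n : ℕ) :
    (c.Ch n →₀ R) →ₗ[R] (c.Ch (n + 1) →₀ R) :=
  Finsupp.linearCombination R fun t =>
    if h : t.1 0 ⊂ v ∧ c.NS v then
      Finsupp.single ⟨Fin.cons v t.1, by
        refine ⟨?_, by rw [Fin.cons_zero]; exact h.2, ?_⟩
        · intro i j hij
          induction j using Fin.cases with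
          | zero => exact absurd hij (Fin.not_lt_zero i)
          | succ j =>
            induction i using Fin.cases with
            | zero =>
              rw [Fin.cons_zero, Fin.cons_succ]
              exact lt_of_le_of_lt (t.2.1.antitone (Fin.zero_le j)) h.1
            | succ i =>
              rw [Fin.cons_succ, Fin.cons_succ]
              exact t.2.1 (Fin.succ_lt_succ_iff.1 hij)
        · rw [← Fin.succ_last, Fin.cons_succ]
          exact t.2.2.2⟩ 1
    else 0

open Classical in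
/-- The subdivision of the tuple `(s_0, …, s_n)` of finite sets of indices (if their union is a
simplex of the nerve). -/
noncomputable def SdI (R : Type) [CommRing R] : ∀ n : ℕ, (Fin (n + 1) → Finset c.I) →
    (c.Ch n →₀ R)
  | 0, s => if h : c.NS (s 0) then
      Finsupp.single ⟨fun _ => s 0, fun k l hkl => absurd hkl (by
        have h1 := k.2
        have h2 := l.2
        rw [Fin.lt_def]
        omega), h, h.1⟩ 1 else 0
  | n + 1, s => c.coneC R (Finset.univ.biUnion s) n
      (∑ j : Fin (n + 2), ((-1 : R) ^ (j : ℕ)) • SdI R n fun k => s (j.succAbove k))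

end Cover

end Pool.Agent.Lib.MP_666dc0_nt.EP
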