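import Pool.Agent.Lib.MP_666dc0_nt.EP.FD1
import Pool.Agent.Lib.MP_666dc0_nt.EP.PA0

/-!
# EP, PA1: the complex of the nerve
-/

namespace Pool.Agent.Lib.MP_666dc0_nt.EP

namespace Cover

variable {A Y E : Type} [Group A] [MulAction A Y] [NormedAddCommGroup E] [NormedSpace ℝ E]
  [DistribMulAction A E] {PP : Set E} (c : Cover A Y E PP) {R : Type} [CommRing R]

theorem y_eq_ys {n : ℕ} (t : c.Ch n) (k : Fin (n + 1)) (i : c.I) (hi : i ∈ t.1 k) :
    c.y i = c.ys t :=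
  (t.ns 0).2.1 i (t.2.1.antitone (Fin.zero_le k) hi) _ (t.nonempty 0).choose_spec

theorem ys_smul {n : ℕ} (a : A) (t : c.Ch n) : c.ys (a • t) = a • c.ys t := by
  obtain ⟨i, hi⟩ := t.nonempty 0
  have h1 : a • i ∈ (a • t).1 0 := by
    change a • i ∈ c.sm a (t.1 0)
    rw [mem_sm, inv_smul_smul]
    exact hi
  rw [← c.y_eq_ys (a • t) 0 _ h1, c.y_smul, c.y_eq_ys t 0 i hi]

theorem ys_face {n : ℕ} (t : c.Ch (n + 1)) (j : Fin (n + 2)) : c.ys (c.face t j) = c.ys t := by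
  obtain ⟨i, hi⟩ := (c.face t j).nonempty 0
  rw [← c.y_eq_ys (c.face t j) 0 i hi]
  exact c.y_eq_ys t (j.succAbove 0) i hi

theorem face_smul {n : ℕ} (a : A) (t : c.Ch (n + 1)) (j : Fin (n + 2)) :
    c.face (a • t) j = a • c.face t j := rfl

theorem dC_single (n : ℕ) (t : c.Ch (n + 1)) : c.dC R n (Finsupp.single t 1) =
    ∑ j : Fin (n + 2), Finsupp.single (c.face t j) ((-1) ^ (j : ℕ)) := by
  unfold dC
  rw [Finsupp.linearCombination_single, one_smul]

theorem equi_dC (n : ℕ) : Equi A (c.dC R n) := by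
  apply Equi.of_single
  intro a t
  rw [dC_single, dC_single]
  have h : Finsupp.mapDomain (fun z : c.Ch n => a • z) (∑ j : Fin (n + 2),
      Finsupp.single (c.face t j) ((-1 : R) ^ (j : ℕ))) =
      ∑ j : Fin (n + 2), Finsupp.mapDomain (fun z : c.Ch n => a • z)
        (Finsupp.single (c.face t j) ((-1 : R) ^ (j : ℕ))) :=
    map_sum (Finsupp.lmapDomain R R (fun z : c.Ch n => a • z)) _ _
  rw [h]
  refine Finset.sum_congr rfl fun j _ => ?_
  rw [Finsupp.mapDomain_single, face_smul]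

theorem equi_εC : Equi A (c.εC R) := by
  apply Equi.of_single
  intro a t
  unfold εC
  rw [Finsupp.lmapDomain_apply, Finsupp.lmapDomain_apply, Finsupp.mapDomain_single,
    Finsupp.mapDomain_single, Finsupp.mapDomain_single, ys_smul]

theorem εC_comp_dC : c.εC R ∘ₗ c.dC R 0 = 0 := by
  apply Finsupp.lhom_ext'
  intro t
  apply LinearMap.ext_ring
  change c.εC R (c.dC R 0 (Finsupp.single t 1)) = 0
  rw [dC_single, map_sum]
  unfold εC
  simp only [Finsupp.lmapDomain_apply, Finsupp.mapDomain_single, ys_face]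
  rw [Fin.sum_univ_two, ← Finsupp.single_add]
  simp

private theorem PA1_face (n : ℕ) (i : Fin (n + 3)) (j : Fin (n + 2)) (h : (j : ℕ) < (i : ℕ))
    (h0 : i ≠ 0) (k : Fin (n + 1)) : i.succAbove (j.succAbove k) =
      (j.castSucc).succAbove ((i.pred h0).succAbove k) := by
  apply Fin.ext
  simp only [Fin.succAbove, Fin.lt_def]
  split_ifs <;> simp_all <;> omega

private theorem PA1_ne {n : ℕ} {i : Fin (n + 3)} {j : Fin (n + 2)} (h : (j : ℕ) < (i : ℕ)) :
    i ≠ 0 := by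
  intro h0
  rw [h0] at h
  exact absurd h (by simp)

/-- The summand of the double boundary. -/
private noncomputable def PA1_F (R : Type) [CommRing R] (n : ℕ)
    (t : c.Ch (n + 2)) (p : Fin (n + 3) × Fin (n + 2)) : c.Ch n →₀ R :=
  Finsupp.single (c.face (c.face t p.1) p.2) ((-1) ^ (p.1 : ℕ) * (-1) ^ (p.2 : ℕ))

private theorem PA1_add (R : Type) [CommRing R] (n : ℕ) (t : c.Ch (n + 2))
    (i : Fin (n + 3)) (j : Fin (n + 2)) (h : (j : ℕ) < (i : ℕ)) :
    c.PA1_F R n t (i, j) + c.PA1_F R n t (j.castSucc, i.pred (PA1_ne h)) = 0 := by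
  unfold PA1_F
  have h2 : c.face (c.face t i) j = c.face (c.face t j.castSucc) (i.pred (PA1_ne h)) := by
    apply Subtype.ext
    funext k
    change t.1 (i.succAbove (j.succAbove k)) =
      t.1 ((j.castSucc).succAbove ((i.pred (PA1_ne h)).succAbove k))
    rw [PA1_face n i j h (PA1_ne h) k]
  change Finsupp.single (c.face (c.face t i) j)
    ((-1 : R) ^ (i : ℕ) * (-1) ^ (j : ℕ)) + Finsupp.single
      (c.face (c.face t j.castSucc) (i.pred (PA1_ne h)))
        ((-1 : R) ^ (j : ℕ) * (-1) ^ ((i.pred (PA1_ne h) : Fin (n + 2)) : ℕ)) = 0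
  rw [h2, ← Finsupp.single_add]
  have h3 : (i : ℕ) = ((i.pred (PA1_ne h) : Fin (n + 2)) : ℕ) + 1 := by
    rw [Fin.val_pred]
    omega
  rw [h3, pow_succ]
  have h4 : (-1 : R) ^ ((i.pred (PA1_ne h) : Fin (n + 2)) : ℕ) * -1 * (-1) ^ (j : ℕ) +
      (-1) ^ (j : ℕ) * (-1) ^ ((i.pred (PA1_ne h) : Fin (n + 2)) : ℕ) = 0 := by ring
  rw [h4, Finsupp.single_zero]

open Classical in
/-- The involution. -/
private noncomputable def PA1_g (n : ℕ) (p : Fin (n + 3) × Fin (n + 2)) :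
    Fin (n + 3) × Fin (n + 2) :=
  if h : (p.2 : ℕ) < (p.1 : ℕ) then (p.2.castSucc, p.1.pred (PA1_ne h))
  else (p.2.succ, ⟨(p.1 : ℕ), by have := p.2.2; omega⟩)

private theorem PA1_g_pos {n : ℕ} (i : Fin (n + 3)) (j : Fin (n + 2)) (h : (j : ℕ) < (i : ℕ)) :
    PA1_g n (i, j) = (j.castSucc, i.pred (PA1_ne h)) := dif_pos h

private theorem PA1_g_neg {n : ℕ} (i : Fin (n + 3)) (j : Fin (n + 2)) (h : ¬ (j : ℕ) < (i : ℕ)) :
    PA1_g n (i, j) = (j.succ, ⟨(i : ℕ), by have := j.2; omega⟩) := dif_neg h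

private theorem PA1_gg (n : ℕ) (p : Fin (n + 3) × Fin (n + 2)) : PA1_g n (PA1_g n p) = p := by
  obtain ⟨i, j⟩ := p
  by_cases h : (j : ℕ) < (i : ℕ)
  · rw [PA1_g_pos i j h, PA1_g_neg _ _ (by
      rw [Fin.val_pred]
      change ¬ (i : ℕ) - 1 < (j : ℕ)
      omega)]
    apply Prod.ext
    · exact Fin.succ_pred i (PA1_ne h)
    · rfl
  · rw [PA1_g_neg i j h, PA1_g_pos _ _ (by
      change (i : ℕ) < (j : ℕ) + 1
      omega)]
    apply Prod.ext
    · rfl
    · rfl

private theorem PA1_g_ne (n : ℕ) (p : Fin (n + 3) × Fin (n + 2)) : PA1_g n p ≠ p := by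
  obtain ⟨i, j⟩ := p
  intro h0
  by_cases h : (j : ℕ) < (i : ℕ)
  · rw [PA1_g_pos i j h] at h0
    have h1 := congrArg (fun q : Fin (n + 3) × Fin (n + 2) => (q.1 : ℕ)) h0
    change (j : ℕ) = (i : ℕ) at h1
    omega
  · rw [PA1_g_neg i j h] at h0
    have h1 := congrArg (fun q : Fin (n + 3) × Fin (n + 2) => (q.1 : ℕ)) h0
    change (j : ℕ) + 1 = (i : ℕ) at h1
    omega

private theorem PA1_add' (R : Type) [CommRing R] (n : ℕ) (t : c.Ch (n + 2))
    (p : Fin (n + 3) × Fin (n + 2)) : c.PA1_F R n t p + c.PA1_F R n t (PA1_g n p) = 0 := by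
  obtain ⟨i, j⟩ := p
  by_cases h : (j : ℕ) < (i : ℕ)
  · rw [PA1_g_pos i j h]
    exact c.PA1_add R n t i j h
  · have h1 := PA1_gg n (i, j)
    rw [PA1_g_neg i j h] at h1 ⊢
    have h2 : (((⟨(i : ℕ), by have := j.2; omega⟩ : Fin (n + 2)) : ℕ) : ℕ) <
        ((j.succ : Fin (n + 3)) : ℕ) := by
      change (i : ℕ) < (j : ℕ) + 1
      omega
    have h3 := c.PA1_add R n t j.succ ⟨(i : ℕ), by have := j.2; omega⟩ h2
    rw [PA1_g_pos _ _ h2] at h1
    rw [h1] at h3
    rw [add_comm]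
    exact h3

/-- `d² = 0`, as in EP/C2c.lean. -/
theorem dC_comp_dC (n : ℕ) : c.dC R n ∘ₗ c.dC R (n + 1) = 0 := by
  apply Finsupp.lhom_ext'
  intro t
  apply LinearMap.ext_ring
  change c.dC R n (c.dC R (n + 1) (Finsupp.single t 1)) = 0
  have h1 : ∀ (t : c.Ch (n + 1)) (r : R), c.dC R n (Finsupp.single t r) =
      ∑ j : Fin (n + 2), Finsupp.single (c.face t j) (r * (-1) ^ (j : ℕ)) := by
    intro t r
    have : (Finsupp.single t r : c.Ch (n + 1) →₀ R) = r • Finsupp.single t 1 := by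
      rw [Finsupp.smul_single, smul_eq_mul, mul_one]
    rw [this, map_smul, dC_single, Finset.smul_sum]
    refine Finset.sum_congr rfl fun j _ => ?_
    rw [Finsupp.smul_single, smul_eq_mul]
  rw [dC_single, map_sum]
  simp only [h1]
  rw [← Finset.sum_product', Finset.univ_product_univ]
  change ∑ p : Fin (n + 3) × Fin (n + 2), c.PA1_F R n t p = 0
  exact Finset.sum_involution (fun p _ => PA1_g n p) (fun p _ => c.PA1_add' R n t p)
    (fun p _ _ => PA1_g_ne n p) (fun p _ => Finset.mem_univ _) (fun p _ => PA1_gg n p)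

/-- The complex of the nerve. -/
noncomputable def toCx (R : Type) [CommRing R] : Cx R A Y where
  Y n := c.Ch n
  act n := inferInstance
  ε := c.εC R
  d := c.dC R
  equi_ε := c.equi_εC
  equi_d := c.equi_dC
  ε_comp_d := c.εC_comp_dC
  d_comp_d := c.dC_comp_dC

end Cover

end Pool.Agent.Lib.MP_666dc0_nt.EP
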