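import Pool.Agent.Lib.MP_666dc0_nt.EP.PA0

/-!
# EP, PA5: the sets of indices of the points
-/

namespace Pool.Agent.Lib.MP_666dc0_nt.EP

namespace Cover

variable {A Y E : Type} [Group A] [MulAction A Y] [NormedAddCommGroup E] [NormedSpace ℝ E]
  [DistribMulAction A E] {PP : Set E} (c : Cover A Y E PP)

theorem finite_indices {p : E} (hp : p ∈ PP) (y : Y) : {i | c.y i = y ∧ p ∈ c.V' i}.Finite := by
  obtain ⟨i₀, hi₀, hpi₀⟩ := c.cover y p hp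
  refine (c.locFin i₀).subset ?_
  rintro j ⟨h1, h2⟩
  exact ⟨h1.trans hi₀.symm, p, c.V'_sub _ hpi₀, c.V'_sub _ h2⟩

/-- The finite set of the indices over `y` of the closed sets that contain the point, as an
equivariant function of the point and of `y`. -/
theorem exists_index (hPP : ∀ (a : A) (p : E), a • p ∈ PP ↔ p ∈ PP) :
    ∃ ι : E → Y → Finset c.I,
      (∀ p ∈ PP, ∀ y, (ι p y).Nonempty ∧ ∀ i ∈ ι p y, c.y i = y ∧ p ∈ c.V' i) ∧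
      ∀ p ∈ PP, ∀ (y : Y) (a : A), ι (a • p) (a • y) = c.sm a (ι p y) := by
  classical
  have h0 : ∀ (p : E) (y : Y), ∃ s : Finset c.I, p ∈ PP → ∀ i, i ∈ s ↔ c.y i = y ∧ p ∈ c.V' i := by
    intro p y
    by_cases hp : p ∈ PP
    · refine ⟨(c.finite_indices hp y).toFinset, fun _ i => ?_⟩
      rw [Set.Finite.mem_toFinset]
      rfl
    · exact ⟨∅, fun h => (hp h).elim⟩
  choose ι hι using h0
  refine ⟨ι, fun p hp y => ⟨?_, fun i hi => (hι p y hp i).1 hi⟩, fun p hp y a => ?_⟩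
  · obtain ⟨i, hi⟩ := c.cover y p hp
    exact ⟨i, (hι p y hp i).2 hi⟩
  · ext i
    rw [c.mem_sm, hι p y hp, hι _ _ ((hPP a p).2 hp), c.y_smul, inv_smul_eq_iff]
    have h1 := c.V'_smul a (a⁻¹ • i) p
    rw [smul_inv_smul] at h1
    rw [h1]

/-- Every point has a neighbourhood `O` such that `O ∩ PP ⊆ V i` for all `q ∈ O ∩ PP` and
`i ∈ ι q y`.
Proof: choose `j₀` over `y` with `p₀ ∈ V' j₀`. Let `J = {j | y j = y, V j₀ ∩ V j ≠ ∅}`, a finite set.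
`O` is the intersection of an open set cutting out `V j₀`, of open sets cutting out the `V j`, `j ∈ J`,
`p₀ ∈ V' j`, and of the complements of closed sets cutting out the `V' j`, `j ∈ J`, `p₀ ∉ V' j`. Let
`q ∈ O ∩ PP`, `j ∈ ι q y`: `q ∈ V' j ⊆ V j` and `q ∈ V j₀`, so `j ∈ J`; if `p₀ ∉ V' j` then
`q ∉ V' j`, a contradiction; so `p₀ ∈ V' j` and `O ∩ PP ⊆ V j`. -/
theorem exists_nhd {ι : E → Y → Finset c.I}
    (hι : ∀ p ∈ PP, ∀ y, (ι p y).Nonempty ∧ ∀ i ∈ ι p y, c.y i = y ∧ p ∈ c.V' i)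
    (p₀ : E) (hp₀ : p₀ ∈ PP) (y : Y) :
    ∃ O : Set E, IsOpen O ∧ p₀ ∈ O ∧ ∀ q ∈ O ∩ PP, ∀ i ∈ ι q y, O ∩ PP ⊆ c.V i := by
  classical
  obtain ⟨j₀, hj₀, hpj₀⟩ := c.cover y p₀ hp₀
  have hJ := c.locFin j₀
  have hO : ∀ j : c.I, ∃ O : Set E, IsOpen O ∧ p₀ ∈ O ∧ (p₀ ∈ c.V' j → O ∩ PP ⊆ c.V j) ∧
      (p₀ ∉ c.V' j → ∀ q ∈ O ∩ PP, q ∉ c.V' j) := by
    intro j
    by_cases h : p₀ ∈ c.V' j
    · obtain ⟨O, h1, h2⟩ := c.isOpen j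
      have h3 : p₀ ∈ O ∩ PP := h2 ▸ c.V'_sub j h
      exact ⟨O, h1, h3.1, fun _ => h2.symm.subset, fun h' => (h' h).elim⟩
    · obtain ⟨C, h1, h2⟩ := c.isClosed j
      refine ⟨Cᶜ, h1.isOpen_compl, ?_, fun h' => (h h').elim, fun _ q hq hq' => ?_⟩
      · intro h3
        exact h (h2 ▸ ⟨h3, hp₀⟩)
      · rw [h2] at hq'
        exact hq.1 hq'.1
  choose O hO1 hO2 hO3 hO4 using hO
  refine ⟨O j₀ ∩ ⋂ j ∈ hJ.toFinset, O j, ?_, ?_, ?_⟩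
  · exact (hO1 j₀).inter (isOpen_biInter_finset fun j _ => hO1 j)
  · exact ⟨hO2 j₀, Set.mem_iInter₂.2 fun j _ => hO2 j⟩
  · rintro q ⟨⟨hq1, hq2⟩, hqP⟩ i hi
    rw [Set.mem_iInter₂] at hq2
    obtain ⟨hy, hV'⟩ := (hι q hqP y).2 i hi
    have hqV : q ∈ c.V j₀ := hO3 j₀ hpj₀ ⟨hq1, hqP⟩
    have hmem : i ∈ hJ.toFinset := by
      rw [Set.Finite.mem_toFinset]
      exact ⟨hy.trans hj₀.symm, q, hqV, c.V'_sub _ hV'⟩
    have hp : p₀ ∈ c.V' i := by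
      by_contra h
      exact hO4 _ h q ⟨hq2 _ hmem, hqP⟩ hV'
    rintro r ⟨⟨-, hr2⟩, hrP⟩
    rw [Set.mem_iInter₂] at hr2
    exact hO3 _ hp ⟨hr2 _ hmem, hrP⟩

end Cover

end Pool.Agent.Lib.MP_666dc0_nt.EP
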