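import Pool.Agent.Lib.MP_666dc0_nt.EP.SDefs

/-!
# EP, T1: the action of `G(F) × K` on `G(𝔸_f) / U`
-/

open NumberField IsDedekindDomain
open scoped NumberField

namespace Pool.Agent.Lib.MP_666dc0_nt.EP

open WL

variable {F : Type} [Field F] [NumberField F] {n : ℕ} {D : Datum F n} {ℓ : ℕ} (L : Level D ℓ)

theorem Level.smul_cls (a : D.Rat × L.K) (g : D.Ad) :
    a • L.cls g = L.cls (D.toAd a.1 * g * (a.2 : D.Ad)⁻¹) := rfl

theorem Level.smul_E (a : D.Rat × L.K) (e : L.E) : a • e = HMul.hMul (α := D.Rat) (β := D.Rat) a.1 e :=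
  rfl

/-- Proof: `QuotientGroup.eq`. -/
theorem Level.cls_eq_iff {g h : D.Ad} : L.cls g = L.cls h ↔ g⁻¹ * h ∈ L.U :=
  QuotientGroup.eq

theorem Level.exists_cls (x : L.X) : ∃ g : D.Ad, L.cls g = x :=
  QuotientGroup.mk_surjective x

theorem Level.cls_out (x : L.X) : L.cls (Quotient.out x : D.Ad) = x :=
  QuotientGroup.out_eq' (s := L.U) x

/-- Proof: an element of `U` and `K` is trivial at all places (`L.tame`, `L.level.supp`), so it is `1`
(`eq_one_of_trivialAt`, WL/C5a). -/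
theorem Level.eq_one_of_mem {g : D.Ad} (hU : g ∈ L.U) (hK : g ∈ L.K) : g = 1 := by
  refine eq_one_of_trivialAt fun v => ?_
  by_cases hv : (ℓ : 𝓞 F) ∈ v.asIdeal
  · exact L.tame g hU v hv
  · exact L.level.supp g hK v hv

/-- `K` acts freely on `G(𝔸_f) / U`. -/
theorem Level.cls_mul_eq {g : D.Ad} {k : D.Ad} (hk : k ∈ L.K) (h : L.cls (g * k) = L.cls g) :
    k = 1 := by
  have h1 := (L.cls_eq_iff).1 h.symm
  rw [inv_mul_cancel_left] at h1
  exact L.eq_one_of_mem h1 hk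

/-- The action of `G(F) × K` on `E × X` is free.
Proof: `a • e = e` gives `a.1 = 1`; then `a • x = x`, `x = cls g`, gives `cls (g * a.2⁻¹) = cls g`, so
`a.2⁻¹ ∈ U ∩ K`, and `a.2 = 1`. -/
theorem Level.free (a : D.Rat × L.K) (e : L.E) (x : L.X) (h1 : a • e = e) (h2 : a • x = x) :
    a = 1 := by
  have h3 : a.1 = 1 := by
    have h4 : a.1 * (show D.Rat from e) = (show D.Rat from e) := h1
    exact mul_eq_right.1 h4
  obtain ⟨g, rfl⟩ := L.exists_cls x
  rw [L.smul_cls, h3, map_one, one_mul] at h2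
  have h4 : (a.2 : D.Ad)⁻¹ = 1 := L.cls_mul_eq (L.K.inv_mem a.2.2) h2
  have h5 : a.2 = 1 := Subtype.ext (inv_eq_one.1 h4)
  exact Prod.ext h3 h5

instance : Nonempty L.E := ⟨(1 : D.Rat)⟩

end Pool.Agent.Lib.MP_666dc0_nt.EP
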