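import Pool.Agent.Lib.MP_666dc0_nt.EP.D2a
import Pool.Agent.Lib.MP_666dc0_nt.EP.SDefs
import Pool.Agent.Lib.MP_666dc0_nt.IG.Kj
import Pool.Agent.Lib.MP_666dc0_nt.IG.Kl
import Pool.Agent.Lib.MP_666dc0_nt.WL.G1
import Pool.Agent.Lib.MP_666dc0_nt.WL.G2

/-!
# EP, T10: transfer of Galois representations along control
-/

open NumberField IsDedekindDomain TensorProduct
open scoped NumberField TensorProduct

namespace Pool.Agent.Lib.MP_666dc0_nt.EP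

open WL

variable {F : Type} [Field F] [NumberField F] {n : ℕ} {D : Datum F n} {ℓ : ℕ} [Fact ℓ.Prime]
  {L : Level D ℓ} {S : Finset (HeightOneSpectrum (𝓞 F))} {B : Type} [CommRing B]

/-- There is a homomorphism attached to the values `χ (X (sat v f))`. -/
def Att [Algebra B (PadicAlgCl ℓ)] {O : Type} [CommRing O] [HopfAlgebra B O]
    (A : OverB.HopfAction B Gal(AlgebraicClosure F/F) O)
    (φ : HeightOneSpectrum (𝓞 F) → Gal(AlgebraicClosure F/F))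
    (sat : ∀ v, A.inv (φ v) → L.Hecke v)
    (χ : MvPolynomial (Idx L S) (Zl ℓ) →+* PadicAlgCl ℓ) : Prop :=
  ∃ (w : ∀ v, A.inv (φ v) → PadicAlgCl ℓ)
    (r : Gal(AlgebraicClosure F/F) →* A.LGroup (PadicAlgCl ℓ)),
    (∀ v (hv : v ∉ S) f, w v f = χ (MvPolynomial.X ⟨⟨v, hv⟩, sat v f⟩)) ∧
      OverB.IsAttachedTo A S φ w r

/-- Proof: as `exists_attached_of_controlled` in WL/G4: `exists_compact_ring` (WL/G2) with
`P = MvPolynomial (Idx L S) (Zl ℓ)`, `Z = Ω` (as a type), `K = PadicAlgCl ℓ`, `e₀ ψ = ψ`, `y₀ = χ`; the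
compact sets are `{z | z ∈ E ∧ ‖z‖ ≤ 1}` (`isCompact_ball`, WL/G1). Put
`x' v f = x (X ⟨⟨v, hv⟩, sat v f⟩)` for `v ∉ S` and `0` otherwise, and apply `IG.interpolation_Z` with
`ρ` from `IG.exists_faithful_Z hA`. -/
theorem att_of_controlled [IsDomain B] [IsPrincipalIdealRing B] [Algebra B ℚ]
    [IsFractionRing B ℚ] [Algebra B (PadicAlgCl ℓ)]
    {O : Type} [CommRing O] [HopfAlgebra B O] [Algebra.FiniteType B O] [Module.Free B O]
    (hO : LinearlyReductive (ℚ ⊗[B] O)) (A : OverB.HopfAction B Gal(AlgebraicClosure F/F) O)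
    (hA : IsOpen (A.act.ker : Set Gal(AlgebraicClosure F/F)))
    (hS : ∀ v, v ∉ S → ∀ P u, IsInertiaAt v P u → A.act u = 1)
    (φ : HeightOneSpectrum (𝓞 F) → Gal(AlgebraicClosure F/F))
    (hφ : ∀ v, v ∉ S → ∃ P : Ideal (𝓞 (AlgebraicClosure F)), IsOver v P ∧
      (IsFrob v P (φ v) ∨ IsFrob v P (φ v)⁻¹))
    (sat : ∀ v, A.inv (φ v) → L.Hecke v)
    (Ω : Set (MvPolynomial (Idx L S) (Zl ℓ) →+* PadicAlgCl ℓ))
    (χ : MvPolynomial (Idx L S) (Zl ℓ) →+* PadicAlgCl ℓ) (hc : Controlled Ω χ)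
    (hfield : ∀ ψ ∈ insert χ Ω, ∃ E : IntermediateField ℚ_[ℓ] (PadicAlgCl ℓ),
      FiniteDimensional ℚ_[ℓ] E ∧ ∀ t, ψ t ∈ E)
    (hint : ∀ ψ ∈ insert χ Ω, ∀ t, ‖ψ t‖ ≤ 1)
    (hatt : ∀ ψ ∈ Ω, Att A φ sat ψ) : Att A φ sat χ := by
  classical
  have hcomp : ∀ ψ ∈ insert χ Ω, ∃ C : Set (PadicAlgCl ℓ), IsCompact C ∧ ∀ t, ψ t ∈ C := by
    intro ψ hψ
    obtain ⟨E, hEf, hE⟩ := hfield ψ hψ
    exact ⟨{z | z ∈ E ∧ ‖z‖ ≤ 1}, isCompact_ball ℓ E, fun t => ⟨hE t, hint ψ hψ t⟩⟩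
  obtain ⟨T, i1, i2, i3, x, e, y, he, hy, hex, hyx, hinj⟩ :=
    exists_compact_ring (P := MvPolynomial (Idx L S) (Zl ℓ)) (Z := Ω) (K := PadicAlgCl ℓ)
      (fun z => z.1) χ (fun z => hcomp z.1 (Set.mem_insert_of_mem _ z.2))
      (hcomp χ (Set.mem_insert _ _))
      (fun ε hε => by
        obtain ⟨I, hIΩ, δ, hδ, hP⟩ := hc ε hε
        refine ⟨Subtype.val ⁻¹' (I : Set (MvPolynomial (Idx L S) (Zl ℓ) →+* PadicAlgCl ℓ)),
          I.finite_toSet.preimage Subtype.val_injective.injOn, δ, hδ, fun p hp =>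
          hP p fun m hm => ?_⟩
        exact hp ⟨m, hIΩ m hm⟩ hm)
  obtain ⟨N, ρ, hρ⟩ := IG.exists_faithful_Z (A := A) hA
  let x' : ∀ v, A.inv (φ v) → T := fun v f =>
    if hv : v ∉ S then x (MvPolynomial.X ⟨⟨v, hv⟩, sat v f⟩) else 0
  have hx' : ∀ v (hv : v ∉ S) (f : A.inv (φ v)), x' v f =
      x (MvPolynomial.X ⟨⟨v, hv⟩, sat v f⟩) := fun v hv f => by
    simp only [x', dif_pos hv]
  obtain ⟨r, hr, -⟩ := IG.interpolation_Z hO hA hS hφ ρ hρ x' (Z := Ω)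
    (R := fun _ => PadicAlgCl ℓ) e he hinj
    (fun z => by
      obtain ⟨w, r, hw, hr⟩ := hatt z.1 z.2
      refine ⟨r, hr.proj, hr.cont, hr.unram, fun v hv f => ?_⟩
      rw [hr.value v hv f, hw v hv f, hx' v hv f, hex]) y hy
  refine ⟨fun v f => y (x' v f), r, fun v hv f => ?_, hr⟩
  change y (x' v f) = _
  rw [hx' v hv f, hyx]

end Pool.Agent.Lib.MP_666dc0_nt.EP
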