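import Pool.Agent.Lib.MP_666dc0_nt.Mg.G047
import Pool.Agent.Lib.MP_666dc0_nt.InterpZDefs
import Pool.Agent.Lib.MP_666dc0_nt.Mg.G099

/-!
# EP, T11: the number field
-/

open TensorProduct Coalgebra Topology NumberField IsDedekindDomain
open scoped TensorProduct Matrix Pointwise NumberField

namespace Pool.Agent.Lib.MP_666dc0_nt.EP

section OnePrime

variable {F : Type} [Field F] [NumberField F] {O : Type} [CommRing O] [HopfAlgebra ℚ O]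
  [Algebra.FiniteType ℚ O] (A : HopfAction Gal(AlgebraicClosure F/F) O)

variable (S₀ : Finset (HeightOneSpectrum (𝓞 F)))
  (φ : HeightOneSpectrum (𝓞 F) → Gal(AlgebraicClosure F/F))

private theorem T11_aux (hred : LinearlyReductive O)
    (hker : IsOpen (A.act.ker : Set Gal(AlgebraicClosure F/F)))
    (hunr : ∀ v, v ∉ S₀ → ∀ P u, IsInertiaAt v P u → A.act u = 1)
    (hφ : ∀ v, v ∉ S₀ → ∃ P : Ideal (𝓞 (AlgebraicClosure F)), IsOver v P ∧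
      (IsFrob v P (φ v) ∨ IsFrob v P (φ v)⁻¹))
    (s : ∀ v, A.inv (φ v) → ℂ) (ℓ : ℕ) [Fact ℓ.Prime]
    (h : ∀ ι : ℂ ≃+* PadicAlgCl ℓ, ∃ r : Gal(AlgebraicClosure F/F) →* A.LGroup (PadicAlgCl ℓ),
      IsAdmissible A r ∧ ∀ v, v ∉ S₀ → (ℓ : 𝓞 F) ∉ v.asIdeal →
        (∀ P u, IsInertiaAt v P u → (r u).left = 1) ∧
          ∀ f : A.inv (φ v), (r (φ v)).left.hom (f : O) = ι (s v f))
    {𝔸 : Type} [Field 𝔸] [Algebra ℚ 𝔸] [IsGalois ℚ 𝔸] (h𝔸 : Countable 𝔸) (e : 𝔸 →ₐ[ℚ] ℂ)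
    (he : ∀ x : ℂ, IsAlgebraic ℚ x → ∃ y, e y = x) :
    ∃ M : IntermediateField ℚ 𝔸, FiniteDimensional ℚ M ∧
      ∀ v, v ∉ S₀ → (ℓ : 𝓞 F) ∉ v.asIdeal → ∀ f, ∃ y ∈ M, e y = s v f := by
  classical
  obtain ⟨I, hI1, hI⟩ := hred
  have hℓ0 : (ℓ : 𝓞 F) ≠ 0 := by exact_mod_cast (Fact.out : ℓ.Prime).ne_zero
  have hfin : {v : HeightOneSpectrum (𝓞 F) | (ℓ : 𝓞 F) ∈ v.asIdeal}.Finite := finite_mem hℓ0
  let S : Finset (HeightOneSpectrum (𝓞 F)) := S₀ ∪ hfin.toFinset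
  have hS : ∀ v, v ∉ S ↔ v ∉ S₀ ∧ (ℓ : 𝓞 F) ∉ v.asIdeal := by
    intro v
    simp only [S, Finset.mem_union, Set.Finite.mem_toFinset, Set.mem_ofPred_eq, not_or]
  -- the values are algebraic
  have halg : ∀ v, v ∉ S → ∀ f, IsAlgebraic ℚ (s v f) := by
    intro v hv f
    obtain ⟨hv1, hv2⟩ := (hS v).mp hv
    obtain ⟨C, hC⟩ := exists_bound (A := A) (PadicAlgCl ℓ) hker I hI1 hI f.2
    by_contra hx
    obtain ⟨ι, hι⟩ := exists_iso_norm_gt ℓ hx C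
    obtain ⟨r, hr1, hr2⟩ := h ι
    have h1 := hC r hr1.proj hr1.cont
    rw [(hr2 v hv1 hv2).2 f] at h1
    exact absurd hι (not_lt.mpr h1)
  -- the isomorphisms attached to elements of the Galois group
  have h𝔸c : Cardinal.mk 𝔸 ≤ Cardinal.aleph0 := Cardinal.mk_le_aleph0
  obtain ⟨ι₀, -⟩ := exists_iso_extending (k := ℚ) ℓ Cardinal.mk_le_aleph0 (algebraMap ℚ ℂ)
    (algebraMap ℚ (PadicAlgCl ℓ))
  have hι : ∀ τ : Gal(𝔸/ℚ), ∃ ι : ℂ ≃+* PadicAlgCl ℓ, ∀ x : 𝔸, ι (e x) = ι₀ (e (τ x)) := by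
    intro τ
    obtain ⟨ι, hι⟩ := exists_iso_extending ℓ h𝔸c (e : 𝔸 →+* ℂ)
      (((ι₀ : ℂ →+* PadicAlgCl ℓ).comp (e : 𝔸 →+* ℂ)).comp (τ : 𝔸 →+* 𝔸))
    exact ⟨ι, hι⟩
  choose ι hι using hι
  choose r hr1 hr2 using fun τ => h (ι τ)
  have hval : ∀ τ v, v ∉ S → ∀ (f : A.inv (φ v)) (y : 𝔸), e y = s v f →
      (r τ (φ v)).left.hom (f : O) = ι₀ (e (τ y)) := by
    intro τ v hv f y hy
    obtain ⟨hv1, hv2⟩ := (hS v).mp hv
    rw [(hr2 τ v hv1 hv2).2 f, ← hι, hy]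
  have hur : ∀ τ, UnramOutside S (r τ) := by
    intro τ v hv P hP u hu
    obtain ⟨hv1, hv2⟩ := (hS v).mp hv
    exact (hr2 τ v hv1 hv2).1 P u ⟨hP, hu⟩
  choose d hd using fun τ => exists_defDeg A ℓ (r τ) (hr1 τ)
  have hdmono : ∀ τ n, d τ ≤ n → DefDeg (r τ) n := by
    intro τ n hn
    obtain ⟨L, hL1, hL2, hL3⟩ := hd τ
    exact ⟨L, hL1, hL2.trans hn, hL3⟩
  let Y : Set 𝔸 := {y | ∃ v, v ∉ S ∧ ∃ f : A.inv (φ v), e y = s v f}
  have hmain := baire_descent (k := ℚ) (A := 𝔸) (fun n => {τ | d τ ≤ n})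
    (fun τ => ⟨d τ, le_refl (d τ)⟩) Y ?_
  · obtain ⟨M, hM1, hM2⟩ := hmain
    refine ⟨M, hM1, fun v hv1 hv2 f => ?_⟩
    have hv : v ∉ S := (hS v).mpr ⟨hv1, hv2⟩
    obtain ⟨y, hy⟩ := he _ (halg v hv f)
    exact ⟨y, hM2 ⟨v, hv, f, hy⟩, hy⟩
  · intro n
    obtain ⟨T, hT1, hT2⟩ := exists_finset_matched A hker S
      (fun v hv P hP u hu => hunr v ((hS v).mp hv).1 P u ⟨hP, hu⟩) φ
      (fun v hv => hφ v ((hS v).mp hv).1) ℓ n
    -- finitely many functions decide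
    choose Φ hΦ1 hΦ2 using fun v : HeightOneSpectrum (𝓞 F) =>
      exists_finset_decide (A.inv (φ v) : Set O)
    have hpre : ∀ v, v ∉ S → ∀ f : O, ∃ y : 𝔸, ∀ hf : f ∈ A.inv (φ v), e y = s v ⟨f, hf⟩ := by
      intro v hv f
      by_cases hf : f ∈ A.inv (φ v)
      · obtain ⟨y, hy⟩ := he _ (halg v hv ⟨f, hf⟩)
        exact ⟨y, fun _ => hy⟩
      · exact ⟨0, fun hf' => absurd hf' hf⟩
    choose! y hy using hpre
    refine ⟨T.biUnion fun v => (Φ v).image (y v), fun τ₁ hτ₁ τ₂ hτ₂ hΨ => ?_⟩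
    have hmatch := hT2 (r τ₁) (r τ₂) (hr1 τ₁).proj (hr1 τ₂).proj (hr1 τ₁).cont (hr1 τ₂).cont
      (hur τ₁) (hur τ₂) (hdmono τ₁ n hτ₁) (hdmono τ₂ n hτ₂) (fun v hv => by
        refine hΦ2 v _ (r τ₁ (φ v)).left.hom (r τ₂ (φ v)).left.hom fun f hf => ?_
        have hfm : f ∈ A.inv (φ v) := hΦ1 v hf
        have hvS := hT1 v hv
        rw [hval τ₁ v hvS ⟨f, hfm⟩ (y v f) (hy v hvS f hfm),
          hval τ₂ v hvS ⟨f, hfm⟩ (y v f) (hy v hvS f hfm),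
          hΨ (y v f) (Finset.mem_biUnion.mpr ⟨v, hv, Finset.mem_image_of_mem _ hf⟩)])
    rintro z ⟨v, hv, f, hz⟩
    have h2 := hmatch (φ v) f f.2
    rw [hval τ₁ v hv f z hz, hval τ₂ v hv f z hz] at h2
    exact e.injective (ι₀.injective h2)

/-- The one-prime theorem without semisimplicity. -/
theorem exists_numberField_weak (hred : LinearlyReductive O)
    (hker : IsOpen (A.act.ker : Set Gal(AlgebraicClosure F/F)))
    (hunr : ∀ v, v ∉ S₀ → ∀ P u, IsInertiaAt v P u → A.act u = 1)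
    (hφ : ∀ v, v ∉ S₀ → ∃ P : Ideal (𝓞 (AlgebraicClosure F)), IsOver v P ∧
      (IsFrob v P (φ v) ∨ IsFrob v P (φ v)⁻¹))
    (s : ∀ v, A.inv (φ v) → ℂ) (ℓ : ℕ) [Fact ℓ.Prime]
    (h : ∀ ι : ℂ ≃+* PadicAlgCl ℓ, ∃ r : Gal(AlgebraicClosure F/F) →* A.LGroup (PadicAlgCl ℓ),
      IsAdmissible A r ∧ ∀ v, v ∉ S₀ → (ℓ : 𝓞 F) ∉ v.asIdeal →
        (∀ P u, IsInertiaAt v P u → (r u).left = 1) ∧
          ∀ f : A.inv (φ v), (r (φ v)).left.hom (f : O) = ι (s v f)) :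
    ∃ E : IntermediateField ℚ ℂ, FiniteDimensional ℚ E ∧
      ∀ v, v ∉ S₀ → (ℓ : 𝓞 F) ∉ v.asIdeal → ∀ f, s v f ∈ E := by
  classical
  let 𝔸 := algebraicClosure ℚ ℂ
  let i𝔸 : Algebra ℚ 𝔸 := IntermediateField.algebra' 𝔸
  have hal : Algebra.IsAlgebraic ℚ 𝔸 := algebraicClosure.isAlgebraic ℚ ℂ
  have hcl : IsAlgClosure ℚ 𝔸 := algebraicClosure.isAlgClosure ℚ ℂ
  have hgal : IsGalois ℚ 𝔸 := by
    have h1 : Algebra.IsSeparable ℚ 𝔸 := inferInstance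
    have h2 : Normal ℚ 𝔸 := IsAlgClosure.normal ℚ 𝔸
    exact ⟨⟩
  have hcount : Countable 𝔸 := by
    have h1 := Algebra.IsAlgebraic.cardinalMk_le_max ℚ 𝔸
    rw [← Cardinal.mk_le_aleph0_iff]
    simpa using h1
  have he : ∀ x : ℂ, IsAlgebraic ℚ x → ∃ y : 𝔸, 𝔸.val y = x := fun x hx =>
    ⟨⟨x, mem_algebraicClosure_iff.mpr hx⟩, rfl⟩
  obtain ⟨M, hM1, hM2⟩ := T11_aux A S₀ φ hred hker hunr hφ s ℓ h hcount 𝔸.val he
  have hM3 : FiniteDimensional ℚ (M.map 𝔸.val) :=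
    (IntermediateField.equivMap M 𝔸.val).toLinearEquiv.finiteDimensional
  refine ⟨M.map 𝔸.val, hM3, fun v hv1 hv2 f => ?_⟩
  obtain ⟨y, hy1, hy2⟩ := hM2 v hv1 hv2 f
  rw [← hy2]
  exact ⟨y, hy1, rfl⟩


end OnePrime

/-- The number field, for an L-group over `B`.
Proof: apply `exists_numberField_weak` to the generic fibre `IG.baseA A` (on `ℚ ⊗[B] O`). -/
theorem exists_numberField_B {F : Type} [Field F] [NumberField F] {B : Type} [CommRing B]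
    [IsDomain B] [IsPrincipalIdealRing B] [Algebra B ℚ] [IsFractionRing B ℚ]
    (ℓ : ℕ) [Fact ℓ.Prime] [Algebra B (PadicAlgCl ℓ)]
    {O : Type} [CommRing O] [HopfAlgebra B O] [Algebra.FiniteType B O] [Module.Free B O]
    (hO : LinearlyReductive (ℚ ⊗[B] O)) (A : OverB.HopfAction B Gal(AlgebraicClosure F/F) O)
    (hA : IsOpen (A.act.ker : Set Gal(AlgebraicClosure F/F)))
    (S : Finset (HeightOneSpectrum (𝓞 F)))
    (hSl : ∀ v : HeightOneSpectrum (𝓞 F), (ℓ : 𝓞 F) ∈ v.asIdeal → v ∈ S)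
    (hS : ∀ v, v ∉ S → ∀ P u, IsInertiaAt v P u → A.act u = 1)
    (φ : HeightOneSpectrum (𝓞 F) → Gal(AlgebraicClosure F/F))
    (hφ : ∀ v, v ∉ S → ∃ P : Ideal (𝓞 (AlgebraicClosure F)), IsOver v P ∧
      (IsFrob v P (φ v) ∨ IsFrob v P (φ v)⁻¹))
    (x : ∀ v, A.inv (φ v) → ℂ)
    (h : ∀ ι : ℂ ≃+* PadicAlgCl ℓ, ∃ r : Gal(AlgebraicClosure F/F) →* A.LGroup (PadicAlgCl ℓ),
      OverB.IsAttachedTo A S φ (fun v f => ι (x v f)) r) :
    ∃ E : IntermediateField ℚ ℂ, FiniteDimensional ℚ E ∧ ∀ v, v ∉ S → ∀ f, x v f ∈ E := by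
  classical
  have hsc : IsScalarTower B ℚ (PadicAlgCl ℓ) := IG.isScalarTower_frac (PadicAlgCl ℓ)
  obtain ⟨LE, hLE1, hLE2⟩ := IG.exists_LE A (PadicAlgCl ℓ)
  have hLE1' : ∀ y, (LE.symm y).right = y.right := by
    intro y
    have h1 := hLE1 (LE.symm y)
    rw [MulEquiv.apply_symm_apply] at h1
    exact h1.symm
  have hLE2' : ∀ y (f : O), (LE.symm y).left.hom (1 ⊗ₜ[B] f) = y.left.hom f := by
    intro y f
    have h1 := hLE2 (LE.symm y) f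
    rw [MulEquiv.apply_symm_apply] at h1
    exact h1.symm
  -- the values of the invariant functions of the generic fibre
  have hq : ∀ v (g : (IG.baseA A).inv (φ v)), ∃ N : ℕ, N ≠ 0 ∧ ∃ f ∈ A.inv (φ v),
      (N : ℚ ⊗[B] O) * (g : ℚ ⊗[B] O) = 1 ⊗ₜ[B] f := fun v g => IG.exists_inv A g.2
  choose N hN f hf hNf using hq
  let s : ∀ v, (IG.baseA A).inv (φ v) → ℂ := fun v g => (N v g : ℂ)⁻¹ * x v ⟨f v g, hf v g⟩
  have hft : Algebra.FiniteType ℚ (ℚ ⊗[B] O) := inferInstance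
  obtain ⟨E, hEf, hE⟩ := exists_numberField_weak (IG.baseA A) S φ hO (IG.isOpen_ker_baseA A hA)
    (fun v hv P u hu => by
      have h2 : (IG.baseA A).act u = (IG.baseA A).act 1 :=
        IG.baseA_act_eq A (by rw [hS v hv P u hu, map_one])
      rw [h2, map_one]) hφ s ℓ (fun ι => by
      obtain ⟨r, hr⟩ := h ι
      have hval : ∀ γ (g : ℚ ⊗[B] O) (M : ℕ) (_ : M ≠ 0) (f : O)
          (_ : (M : ℚ ⊗[B] O) * g = 1 ⊗ₜ[B] f),
          ((LE.symm (r γ)).left).hom g = (M : PadicAlgCl ℓ)⁻¹ * (r γ).left.hom f := by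
        intro γ g M hM f hg
        have h3 := congrArg ((LE.symm (r γ)).left).hom hg
        rw [map_mul, map_natCast, hLE2'] at h3
        rw [← h3, inv_mul_cancel_left₀ (Nat.cast_ne_zero.2 hM)]
      refine ⟨LE.symm.toMonoidHom.comp r, ⟨fun γ => ?_, fun g => ?_⟩, fun v hv _ => ⟨?_, fun g => ?_⟩⟩
      · exact (hLE1' (r γ)).trans (hr.proj γ)
      · obtain ⟨M, hM, f, hg⟩ := IG.exists_mul_tmul g
        have h4 : (fun γ => ((LE.symm (r γ)).left).hom g) =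
            fun γ => (M : PadicAlgCl ℓ)⁻¹ * (r γ).left.hom f := by
          funext γ
          exact hval γ g M hM f hg
        change Continuous fun γ => ((LE.symm (r γ)).left).hom g
        rw [h4]
        exact continuous_const.mul (hr.cont f)
      · intro P u hu
        have h5 : (r u).left = 1 := hr.unram v hv P u hu
        change (LE.symm (r u)).left = 1
        refine IG.kb_ext fun f => ?_
        rw [hLE2', h5]
        have h8 := hLE2' 1 f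
        rw [map_one] at h8
        exact h8.symm
      · change ((LE.symm (r (φ v))).left).hom (g : ℚ ⊗[B] O) = ι ((N v g : ℂ)⁻¹ * x v ⟨f v g, hf v g⟩)
        rw [hval (φ v) g (N v g) (hN v g) (f v g) (hNf v g), map_mul, map_inv₀, map_natCast,
          ← hr.value v hv ⟨f v g, hf v g⟩])
  refine ⟨E, hEf, fun v hv f₀ => ?_⟩
  -- the value of an invariant function over `B`
  obtain ⟨ι, -⟩ := exists_iso_extending (k := ℚ) ℓ Cardinal.mk_le_aleph0 (algebraMap ℚ ℂ)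
    (algebraMap ℚ (PadicAlgCl ℓ))
  obtain ⟨r, hr⟩ := h ι
  let g : (IG.baseA A).inv (φ v) := ⟨1 ⊗ₜ[B] (f₀ : O), IG.inv_tmul A f₀.2⟩
  have h6 : s v g = x v f₀ := by
    apply ι.injective
    rw [← hr.value v hv f₀]
    change ι ((N v g : ℂ)⁻¹ * x v ⟨f v g, hf v g⟩) = _
    rw [map_mul, map_inv₀, map_natCast, ← hr.value v hv ⟨f v g, hf v g⟩]
    have h7 := congrArg ((LE.symm (r (φ v))).left).hom (hNf v g)
    rw [map_mul, map_natCast, hLE2', hLE2'] at h7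
    rw [← h7, inv_mul_cancel_left₀ (Nat.cast_ne_zero.2 (hN v g))]
  have hvl : (ℓ : 𝓞 F) ∉ v.asIdeal := fun h8 => hv (hSl v h8)
  rw [← h6]
  exact hE v hv hvl g

end Pool.Agent.Lib.MP_666dc0_nt.EP
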