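import Pool.Agent.Lib.MP_666dc0_nt.EP.T10
import Pool.Agent.Lib.MP_666dc0_nt.EP.T11
import Pool.Agent.Lib.MP_666dc0_nt.EP.T9c
import Pool.Agent.Lib.MP_666dc0_nt.Mg.G009

/-!
# EP, T12: the main theorem
-/

open NumberField IsDedekindDomain TensorProduct
open scoped NumberField TensorProduct

namespace Pool.Agent.Lib.MP_666dc0_nt.EP

open WL

section

variable {F : Type} [Field F] [NumberField F] {n : ℕ} {D : Datum F n}
    {ℓ : ℕ} [Fact ℓ.Prime] {L : Level D ℓ} {S : Finset (HeightOneSpectrum (𝓞 F))}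
    {B : Type} [CommRing B] [Algebra B (PadicAlgCl ℓ)] {O : Type} [CommRing O]
    [HopfAlgebra B O] {A : OverB.HopfAction B Gal(AlgebraicClosure F/F) O}
    {φ : HeightOneSpectrum (𝓞 F) → Gal(AlgebraicClosure F/F)}
    {sat : ∀ v, A.inv (φ v) → L.Hecke v}

/-- `Q1` gives a representation for every isomorphism `ℂ ≅ ℚ̄_ℓ`. -/
theorem Q1.att {lam : Idx L S → ℂ} (h : Q1 S A φ sat lam) (ι : ℂ ≃+* PadicAlgCl ℓ) :
    Att A φ sat (homOf ι lam) := by
  obtain ⟨E, μ, _, hμ, hr⟩ := h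
  obtain ⟨r, hr⟩ := hr ((ι : ℂ →+* PadicAlgCl ℓ).comp (algebraMap E ℂ))
  refine ⟨_, r, fun v hv f => ?_, hr⟩
  rw [homOf_X]
  exact congrArg ι (hμ v hv f)

end

theorem main_EP {F : Type} [Field F] [NumberField F] {n : ℕ} {D : Datum F n}
    {ℓ : ℕ} [Fact ℓ.Prime] (L : Level D ℓ) (hfd : IsFD (Zl ℓ) (D.Rat × L.K) L.X)
    (S : Finset (HeightOneSpectrum (𝓞 F)))
    (hSl : ∀ v : HeightOneSpectrum (𝓞 F), (ℓ : 𝓞 F) ∈ v.asIdeal → v ∈ S)
    (hgood : ∀ v, v ∉ S → L.IsGoodAt v)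
    {B : Type} [CommRing B] [IsDomain B] [IsPrincipalIdealRing B] [Algebra B ℚ]
    [IsFractionRing B ℚ] [Algebra B (PadicAlgCl ℓ)]
    {O : Type} [CommRing O] [HopfAlgebra B O] [Algebra.FiniteType B O] [Module.Free B O]
    (hO : LinearlyReductive (ℚ ⊗[B] O)) (A : OverB.HopfAction B Gal(AlgebraicClosure F/F) O)
    (hA : IsOpen (A.act.ker : Set Gal(AlgebraicClosure F/F)))
    (hS : ∀ v, v ∉ S → ∀ P u, IsInertiaAt v P u → A.act u = 1)
    (φ : HeightOneSpectrum (𝓞 F) → Gal(AlgebraicClosure F/F))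
    (hφ : ∀ v, v ∉ S → ∃ P : Ideal (𝓞 (AlgebraicClosure F)), IsOver v P ∧
      (IsFrob v P (φ v) ∨ IsFrob v P (φ v)⁻¹))
    (sat : ∀ v, A.inv (φ v) → L.Hecke v) :
    (∀ (C : Coeff L) (lam : Idx L S → ℂ), C.euler S lam ≠ 0 → Q1 S A φ sat lam) ↔
      ∀ (C : Coeff L) (lam : Idx L S → ℂ), C.rho = 1 → C.euler S lam ≠ 0 → Q1 S A φ sat lam := by
  classical
  refine ⟨fun h C lam _ h1 => h C lam h1, fun h C lam hlam => ?_⟩
  have hs : Setup L S := ⟨hSl, hgood, hfd⟩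
  -- a representation for every isomorphism
  have hatt : ∀ ι : ℂ ≃+* PadicAlgCl ℓ, Att A φ sat (homOf ι lam) := by
    intro ι
    obtain ⟨H⟩ := exists_hatData F ℓ ι
    refine att_of_controlled hO A hA hS φ hφ sat (famZ ι L S) (homOf ι lam)
      (hs.controlled H hlam) ?_ ?_ ?_
    · rintro ψ hψ
      rcases Set.mem_insert_iff.1 hψ with rfl | ⟨C', y', _, hy', rfl⟩
      · exact hs.exists_field H hlam
      · exact hs.exists_field H hy'
    · rintro ψ hψ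
      rcases Set.mem_insert_iff.1 hψ with rfl | ⟨C', y', _, hy', rfl⟩
      · exact hs.norm_le_one H hlam
      · exact hs.norm_le_one H hy'
    · rintro ψ ⟨C', y', hC', hy', rfl⟩
      exact (h C' y' hC' hy').att ι
  -- the number field
  let x : ∀ v, A.inv (φ v) → ℂ := fun v f =>
    if hv : v ∉ S then lam ⟨⟨v, hv⟩, sat v f⟩ else 0
  have hx : ∀ v (hv : v ∉ S) f, x v f = lam ⟨⟨v, hv⟩, sat v f⟩ := fun v hv f => by
    simp only [x, dif_pos hv]
  have hatt' : ∀ ι : ℂ ≃+* PadicAlgCl ℓ,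
      ∃ r : Gal(AlgebraicClosure F/F) →* A.LGroup (PadicAlgCl ℓ),
        OverB.IsAttachedTo A S φ (fun v f => ι (x v f)) r := by
    intro ι
    obtain ⟨w, r, hw, hr⟩ := hatt ι
    refine ⟨r, hr.proj, hr.cont, hr.unram, fun v hv f => ?_⟩
    rw [hr.value v hv f, hw v hv f, homOf_X, hx v hv]
  obtain ⟨E, hEf, hE⟩ := exists_numberField_B ℓ hO A hA S hSl hS φ hφ x hatt'
  refine ⟨E, fun v f => if hv : v ∉ S then ⟨x v f, hE v hv f⟩ else 0, hEf, ?_, ?_⟩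
  · intro v hv f
    simp only [dif_pos hv, hx v hv]
  · intro j
    have hcount : Cardinal.mk E ≤ Cardinal.aleph0 := by
      have h1 := Algebra.IsAlgebraic.cardinalMk_le_max ℚ E
      simpa using h1
    obtain ⟨ι, hι⟩ := exists_iso_extending ℓ hcount (algebraMap E ℂ) j
    obtain ⟨r, hr⟩ := hatt' ι
    refine ⟨r, hr.proj, hr.cont, hr.unram, fun v hv f => ?_⟩
    rw [hr.value v hv f]
    have h2 := hι ⟨x v f, hE v hv f⟩
    simp only [dif_pos hv]
    exact h2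

end Pool.Agent.Lib.MP_666dc0_nt.EP
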