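import Pool.Agent.Lib.MP_666dc0_nt.EP.Defs

/-!
# EP, T3a: twisting the coefficients
-/

namespace Pool.Agent.Lib.MP_666dc0_nt.EP

variable {R A L V : Type} [CommRing R] [Group A] [Field L] [Algebra R L] [AddCommGroup V]
  [Module L V] {E X : Type} [MulAction A E] [MulAction A X] {ρ ρ' : Representation L A V}

/-- The twist of functions on `E^{n+1} × X` by the automorphisms `Φ x` of `V`, `x ∈ X`. -/
def twist (E : Type) (Φ : X → V ≃ₗ[L] V) (n : ℕ) : (Simp E X n → V) ≃ₗ[L] (Simp E X n → V) :=
  LinearEquiv.piCongrRight fun s => Φ s.2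

private theorem T3a_pull {Y Z : Type} (c : (Y →₀ R) →ₗ[R] (Z →₀ R)) (Ψ : Z → V ≃ₗ[L] V)
    (Ψ' : V ≃ₗ[L] V) (y : Y) (h : ∀ z ∈ (c (Finsupp.single y 1)).support, Ψ z = Ψ') (f : Z → V) :
    pull L V c (fun z => Ψ z (f z)) y = Ψ' (pull L V c f y) := by
  change ((c (Finsupp.single y 1)).sum fun z r => algebraMap R L r • Ψ z (f z)) =
    Ψ' ((c (Finsupp.single y 1)).sum fun z r => algebraMap R L r • f z)
  unfold Finsupp.sum
  rw [map_sum]
  refine Finset.sum_congr rfl fun z hz => ?_
  change algebraMap R L (c (Finsupp.single y 1) z) • Ψ z (f z) =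
    Ψ' (algebraMap R L (c (Finsupp.single y 1) z) • f z)
  rw [map_smul, h z hz]

/-- Proof: `(e, a • x)`: `Φ (a • x) (f (a • s)) = Φ (a • x) (ρ a (f s)) = ρ' a (Φ x (f s))`; for the
converse use that `Φ (a • x)` is injective. -/
theorem twist_mem_Fun {Φ : X → V ≃ₗ[L] V} (hΦ : ∀ a x v, Φ (a • x) (ρ a v) = ρ' a (Φ x v)) {n : ℕ}
    {f : Simp E X n → V} : twist E Φ n f ∈ Fun ρ' (Simp E X n) ↔ f ∈ Fun ρ (Simp E X n) := by
  have h1 : ∀ (a : A) (s : Simp E X n), (twist E Φ n f (a • s) = ρ' a (twist E Φ n f s)) ↔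
      f (a • s) = ρ a (f s) := by
    intro a s
    change Φ (a • s.2) (f (a • s)) = ρ' a (Φ s.2 (f s)) ↔ _
    rw [← hΦ]
    exact (Φ (a • s.2)).injective.eq_iff
  constructor
  · intro h a s
    exact (h1 a s).1 (h a s)
  · intro h a s
    exact (h1 a s).2 (h a s)

/-- Proof: all simplices in the boundary of `s` have the same `x`. -/
theorem twist_pull_bd (Φ : X → V ≃ₗ[L] V) (n : ℕ) (f : Simp E X n → V) :
    pull L V (bd R E X n) (twist E Φ n f) = twist E Φ (n + 1) (pull L V (bd R E X n) f) := by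
  classical
  funext s
  refine T3a_pull (bd R E X n) (fun z => Φ z.2) (Φ s.2) s (fun z hz => ?_) f
  unfold bd at hz
  rw [Finsupp.linearCombination_single, one_smul] at hz
  obtain ⟨i, -, hi⟩ := Finset.mem_biUnion.1 (Finsupp.support_finsetSum hz)
  rw [Finsupp.mem_support_single] at hi
  rw [hi.1]

/-- Proof: the points `x'` in the support of `c x` have `Φ x' = Φ x`. -/
theorem twist_pull_ext {Φ : X → V ≃ₗ[L] V} {c : (X →₀ R) →ₗ[R] (X →₀ R)}
    (hc : ∀ x, ∀ x' ∈ (c (Finsupp.single x 1)).support, Φ x' = Φ x) (n : ℕ)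
    (f : Simp E X n → V) :
    pull L V (ext n c) (twist E Φ n f) = twist E Φ n (pull L V (ext n c) f) := by
  classical
  funext s
  refine T3a_pull (ext n c) (fun z => Φ z.2) (Φ s.2) s (fun z hz => ?_) f
  unfold ext at hz
  rw [Finsupp.linearCombination_single, one_smul] at hz
  obtain ⟨x', hx', rfl⟩ := Finset.mem_image.1 (Finsupp.mapDomain_support hz)
  exact hc s.2 x' hx'

/-- The Euler characteristics of the eigensystems do not change under a twist.
Proof: `twist E Φ n` maps the cocycles for `ρ` onto the cocycles for `ρ'`, the coboundaries onto the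
coboundaries, and commutes with the operators `pull (ext (c i))`, so it maps `genCocyc` onto
`genCocyc`, and induces an isomorphism of the quotients; hence `mult ρ E c y n = mult ρ' E c y n` for
all `n`. -/
theorem eulerMult_twist {Φ : X → V ≃ₗ[L] V} (hΦ : ∀ a x v, Φ (a • x) (ρ a v) = ρ' a (Φ x v))
    {I : Type} (c : I → (X →₀ R) →ₗ[R] (X →₀ R))
    (hc : ∀ i x, ∀ x' ∈ (c i (Finsupp.single x 1)).support, Φ x' = Φ x) (y : I → L) :
    eulerMult ρ E c y = eulerMult ρ' E c y := by
  have hcobd : ∀ n, cobd R ρ E X n = (cobd R ρ' E X n).comap (twist E Φ n).toLinearMap := by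
    intro n
    ext f
    rw [Submodule.mem_comap]
    cases n with
    | zero =>
      change f = 0 ↔ twist E Φ 0 f = 0
      rw [LinearEquiv.map_eq_zero_iff]
    | succ n =>
      change f ∈ (Fun ρ (Simp E X n)).map (pull L V (bd R E X n)) ↔
        twist E Φ (n + 1) f ∈ (Fun ρ' (Simp E X n)).map (pull L V (bd R E X n))
      constructor
      · rintro ⟨g, hg, rfl⟩
        exact ⟨twist E Φ n g, (twist_mem_Fun hΦ).2 hg, twist_pull_bd Φ n g⟩
      · rintro ⟨g', hg', h⟩
        obtain ⟨g, rfl⟩ := (twist E Φ n).surjective g'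
        rw [twist_pull_bd] at h
        exact ⟨g, (twist_mem_Fun hΦ).1 hg', (twist E Φ (n + 1)).injective h⟩
  have hcocyc : ∀ n, cocyc R ρ E X n = (cocyc R ρ' E X n).comap (twist E Φ n).toLinearMap := by
    intro n
    ext f
    rw [Submodule.mem_comap]
    change (f ∈ Fun ρ (Simp E X n) ∧ pull L V (bd R E X n) f = 0) ↔
      (twist E Φ n f ∈ Fun ρ' (Simp E X n) ∧ pull L V (bd R E X n) (twist E Φ n f) = 0)
    rw [twist_mem_Fun hΦ, twist_pull_bd, LinearEquiv.map_eq_zero_iff]
  have hpow : ∀ (n : ℕ) (i : I) (N : ℕ) (f : Simp E X n → V),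
      ((pull L V (ext (E := E) n (c i)) - y i • LinearMap.id) ^ N :
        Module.End L (Simp E X n → V)) (twist E Φ n f) =
      twist E Φ n (((pull L V (ext (E := E) n (c i)) - y i • LinearMap.id) ^ N :
        Module.End L (Simp E X n → V)) f) := by
    intro n i N
    induction N with
    | zero => intro f; rfl
    | succ N ih =>
      intro f
      rw [pow_succ, Module.End.mul_apply, Module.End.mul_apply, ← ih]
      congr 1
      rw [LinearMap.sub_apply, LinearMap.sub_apply, LinearMap.smul_apply, LinearMap.smul_apply,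
        LinearMap.id_apply, LinearMap.id_apply, twist_pull_ext (hc i), map_sub, map_smul]
  have hgen : ∀ n, genCocyc ρ E c y n =
      (genCocyc ρ' E c y n).comap (twist E Φ n).toLinearMap := by
    intro n
    unfold genCocyc
    rw [Submodule.comap_inf, ← hcocyc n, Submodule.comap_iInf]
    congr 1
    refine iInf_congr fun i => ?_
    have h1 : ∀ p : Submodule L (Simp E X n → V),
        p.comap (twist E Φ n).toLinearMap = p.map (twist E Φ n).symm.toLinearMap := fun p =>
      Submodule.comap_equiv_eq_map_symm (twist E Φ n) p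
    rw [h1, Submodule.map_iSup]
    refine iSup_congr fun N => ?_
    rw [← h1]
    ext f
    rw [Submodule.mem_comap, Submodule.mem_comap, Submodule.mem_comap, hcobd n,
      Submodule.mem_comap]
    change _ ↔ ((pull L V (ext (E := E) n (c i)) - y i • LinearMap.id) ^ N :
        Module.End L (Simp E X n → V)) (twist E Φ n f) ∈ _
    rw [hpow]
    rfl
  have hmult : ∀ n, mult ρ E c y n = mult ρ' E c y n := by
    intro n
    unfold mult
    have hmap : (genCocyc ρ E c y n).map (twist E Φ n).toLinearMap = genCocyc ρ' E c y n := by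
      rw [hgen n]
      exact Submodule.map_comap_eq_of_surjective (twist E Φ n).surjective _
    let T : genCocyc ρ E c y n ≃ₗ[L] genCocyc ρ' E c y n :=
      LinearEquiv.ofSubmodules (twist E Φ n) _ _ hmap
    have hT : ∀ w : genCocyc ρ E c y n, (T w : Simp E X n → V) = twist E Φ n w := fun _ => rfl
    refine LinearEquiv.finrank_eq (Submodule.Quotient.equiv _ _ T ?_)
    ext w'
    rw [Submodule.mem_map]
    constructor
    · rintro ⟨w, hw, rfl⟩
      change (T w : Simp E X n → V) ∈ cobd R ρ' E X n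
      rw [hT]
      have h2 : (w : Simp E X n → V) ∈ cobd R ρ E X n := hw
      rw [hcobd n] at h2
      exact h2
    · intro hw'
      obtain ⟨w, rfl⟩ := T.surjective w'
      refine ⟨w, ?_, rfl⟩
      change (w : Simp E X n → V) ∈ cobd R ρ E X n
      rw [hcobd n]
      exact hw'
  unfold eulerMult
  refine finsum_congr fun n => ?_
  rw [hmult n]

end Pool.Agent.Lib.MP_666dc0_nt.EP
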