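import Pool.Agent.Lib.MP_666dc0_nt.EP.T3a
import Pool.Agent.Lib.MP_666dc0_nt.EP.T2a
import Pool.Agent.Lib.MP_666dc0_nt.WL.D1

/-!
# EP, T3b: the `ℓ`-adic twist
-/

open NumberField IsDedekindDomain
open scoped NumberField

namespace Pool.Agent.Lib.MP_666dc0_nt.EP

open WL

variable {F : Type} [Field F] [NumberField F] {n : ℕ} {D : Datum F n} {ℓ : ℕ} [Fact ℓ.Prime]
  {L : Level D ℓ} {ι : ℂ ≃+* PadicAlgCl ℓ}

/-- The representation `(γ, k) ↦ rho(hat k) sig(k)` of `G(F) × K`, trivial on `G(F)`. -/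
noncomputable def Coeff.hrep (C : Coeff L) (H : HatData F ℓ ι) :
    Representation ℂ (D.Rat × L.K) C.W where
  toFun a := C.rho (H.hat D a.2) * C.sig a.2
  map_one' := by
    rw [Prod.snd_one, Subgroup.coe_one, map_one, map_one, map_one, mul_one]
  map_mul' a b := by
    rw [Prod.snd_mul, Subgroup.coe_mul, map_mul, map_mul, map_mul]
    have h := C.comm (H.hat D b.2) a.2
    calc C.rho (H.hat D a.2) * C.rho (H.hat D b.2) * (C.sig a.2 * C.sig b.2)
        = C.rho (H.hat D a.2) * (C.rho (H.hat D b.2) * C.sig a.2) * C.sig b.2 := by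
          simp only [mul_assoc]
      _ = C.rho (H.hat D a.2) * (C.sig a.2 * C.rho (H.hat D b.2)) * C.sig b.2 := by rw [h.eq]
      _ = _ := by simp only [mul_assoc]

private theorem T3b_hat_loc (H : HatData F ℓ ι) {v : HeightOneSpectrum (𝓞 F)}
    (hvl : (ℓ : 𝓞 F) ∉ v.asIdeal) {x : D.Ad} (hx : x ∈ locSub D v) : H.hat D x = 1 :=
  hat_eq_one H fun w hw => hx w fun e => hvl (e ▸ hw)

/-- The twisting automorphisms `rho(hat g)⁻¹`. -/
private noncomputable def T3b_Phi (C : Coeff L) (H : HatData F ℓ ι) (x : L.X) : C.W ≃ₗ[ℂ] C.W :=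
  LinearEquiv.ofLinearMap (C.rho (H.hat D (Quotient.out x : D.Ad))⁻¹)
    (C.rho (H.hat D (Quotient.out x : D.Ad)))
    (by
      have h := map_mul C.rho (H.hat D (Quotient.out x : D.Ad))⁻¹ (H.hat D (Quotient.out x : D.Ad))
      rw [inv_mul_cancel, map_one] at h
      exact h.symm)
    (by
      have h := map_mul C.rho (H.hat D (Quotient.out x : D.Ad)) (H.hat D (Quotient.out x : D.Ad))⁻¹
      rw [mul_inv_cancel, map_one] at h
      exact h.symm)

private theorem T3b_Phi_cls (C : Coeff L) (H : HatData F ℓ ι) (g : D.Ad) (v : C.W) :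
    T3b_Phi C H (L.cls g) v = C.rho (H.hat D g)⁻¹ v := by
  change C.rho (H.hat D (Quotient.out (L.cls g) : D.Ad))⁻¹ v = _
  have h1 : L.cls (Quotient.out (L.cls g) : D.Ad) = L.cls g := L.cls_out _
  have h2 : (Quotient.out (L.cls g) : D.Ad)⁻¹ * g ∈ L.U := L.cls_eq_iff.1 h1
  have h3 : H.hat D ((Quotient.out (L.cls g) : D.Ad)⁻¹ * g) = 1 :=
    hat_eq_one H fun v hv => L.tame _ h2 v hv
  rw [map_mul, map_inv, inv_mul_eq_one] at h3
  rw [h3]

/-- Proof: `eulerMult_twist` for `Φ (g U) = rho(hat g)⁻¹`, well defined since `hat u = 1` for `u ∈ U`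
(`hat_eq_one`, `L.tame`). `hΦ`: with `a = (γ, k)`, `x = g U`:
`rho(hat (γ g k⁻¹))⁻¹ rho(γ) sig(k) = rho(hat k) rho(hat g)⁻¹ rho(γ)⁻¹ rho(γ) sig(k)
= rho(hat k) sig(k) rho(hat g)⁻¹` (`hat_toAd`, `C.comm`). `hc`: by `op_single` the support of
`op h (g U)` consists of classes `g x U`, `x ∈ G(F_v)`, `v` not above `ℓ`, and `hat x = 1`
(`hat_eq_one`). -/
theorem Coeff.euler_eq (C : Coeff L) (H : HatData F ℓ ι) (S : Finset (HeightOneSpectrum (𝓞 F)))
    (hSl : ∀ v : HeightOneSpectrum (𝓞 F), (ℓ : 𝓞 F) ∈ v.asIdeal → v ∈ S)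
    (hgood : ∀ v, v ∉ S → L.IsGoodAt v) (lam : Idx L S → ℂ) :
    C.euler S lam = eulerMult (C.hrep H) L.E (fun i : Idx L S => L.op i.2) lam := by
  refine eulerMult_twist (Φ := T3b_Phi C H) ?_ _ ?_ lam
  · intro a x v
    obtain ⟨g, rfl⟩ := L.exists_cls x
    rw [L.smul_cls, T3b_Phi_cls, T3b_Phi_cls]
    have e1 : H.hat D (D.toAd a.1 * g * (a.2 : D.Ad)⁻¹) =
        D.toCpx a.1 * H.hat D g * (H.hat D (a.2 : D.Ad))⁻¹ := by
      rw [map_mul, map_mul, map_inv, hat_toAd]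
    rw [e1]
    have e2 : (D.toCpx a.1 * H.hat D g * (H.hat D (a.2 : D.Ad))⁻¹)⁻¹ * D.toCpx a.1 =
        H.hat D (a.2 : D.Ad) * (H.hat D g)⁻¹ := by group
    change C.rho _ ((C.rho (D.toCpx a.1) * C.sig a.2) v) =
      (C.rho (H.hat D a.2) * C.sig a.2) (C.rho (H.hat D g)⁻¹ v)
    have e3 : C.rho (D.toCpx a.1 * H.hat D g * (H.hat D (a.2 : D.Ad))⁻¹)⁻¹ *
        (C.rho (D.toCpx a.1) * C.sig a.2) =
        C.rho (H.hat D a.2) * C.sig a.2 * C.rho (H.hat D g)⁻¹ := by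
      rw [← mul_assoc, ← map_mul, e2, map_mul, mul_assoc, mul_assoc, (C.comm _ _).eq]
    exact LinearMap.congr_fun e3 v
  · intro i x x' hx'
    obtain ⟨g, rfl⟩ := L.exists_cls x
    have hvS : i.1.1 ∉ S := i.1.2
    have hvl : (ℓ : 𝓞 F) ∉ i.1.1.asIdeal := fun h' => hvS (hSl _ h')
    change x' ∈ (L.op i.2 (Finsupp.single (L.cls g) 1)).support at hx'
    rw [L.op_single (hgood _ hvS)] at hx'
    obtain ⟨c, hc⟩ : ∃ c : locSub D i.1.1 ⧸ L.U.subgroupOf (locSub D i.1.1),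
        x' = L.cls (g * ((Quotient.out c : locSub D i.1.1) : D.Ad)) := by
      by_contra hcon
      push Not at hcon
      rw [Finsupp.mem_support_iff] at hx'
      refine hx' ?_
      rw [Finsupp.sum_apply]
      refine Finset.sum_eq_zero fun c _ => ?_
      exact Finsupp.single_eq_of_ne (hcon c)
    rw [hc]
    ext v
    rw [T3b_Phi_cls, T3b_Phi_cls, map_mul, T3b_hat_loc H hvl (Quotient.out c).2, mul_one]

end Pool.Agent.Lib.MP_666dc0_nt.EP
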