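import Pool.Agent.Lib.MP_666dc0_nt.EP.FD7
import Pool.Agent.Lib.MP_666dc0_nt.EP.T2b
import Pool.Agent.Lib.MP_666dc0_nt.EP.T2c
import Pool.Agent.Lib.MP_666dc0_nt.EP.T3b

/-!
# EP, T6: the trace formula for a level
-/

open NumberField IsDedekindDomain
open scoped NumberField

namespace Pool.Agent.Lib.MP_666dc0_nt.EP

open WL

variable {F : Type} [Field F] [NumberField F] {n : ℕ} {D : Datum F n} {ℓ : ℕ} [Fact ℓ.Prime]

/-- The hypotheses on the level `L` and the set of places `S`. -/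
structure Setup (L : Level D ℓ) (S : Finset (HeightOneSpectrum (𝓞 F))) : Prop where
  sl : ∀ v : HeightOneSpectrum (𝓞 F), (ℓ : 𝓞 F) ∈ v.asIdeal → v ∈ S
  good : ∀ v, v ∉ S → L.IsGoodAt v
  fd : IsFD (Zl ℓ) (D.Rat × L.K) L.X

variable {L : Level D ℓ} {S : Finset (HeightOneSpectrum (𝓞 F))} {ι : ℂ ≃+* PadicAlgCl ℓ}

theorem Setup.equi (h : Setup L S) (i : Idx L S) : Equi (D.Rat × L.K) (L.op i.2) :=
  L.equi_op (h.good i.1.1 i.1.2) (fun h' => i.1.2 (h.sl i.1.1 h')) i.2

/-- Proof: `finite_euler_fd`. -/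
theorem Setup.finite (h : Setup L S) (C : Coeff L) : {y : Idx L S → ℂ | C.euler S y ≠ 0}.Finite :=
  finite_euler_fd (E := L.E) L.free h.fd (fun i : Idx L S => L.op i.2) h.equi
    (L.commute_idx S h.good) C.rep

/-- The eigensystems with non-zero Euler characteristic in the cohomology with coefficients in
`C`. -/
noncomputable def Setup.sys (h : Setup L S) (C : Coeff L) : Finset (Idx L S → ℂ) :=
  (h.finite C).toFinset

theorem Setup.mem_sys (h : Setup L S) {C : Coeff L} {y : Idx L S → ℂ} :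
    y ∈ h.sys C ↔ C.euler S y ≠ 0 := by
  rw [Setup.sys, Set.Finite.mem_toFinset, Set.mem_setOf_eq]

/-- The Euler characteristic of the polynomial `t` in the Hecke operators on the cohomology with
coefficients in `C`. -/
noncomputable def Setup.tau (h : Setup L S) (C : Coeff L) (t : MvPolynomial (Idx L S) (Zl ℓ)) : ℂ :=
  ∑ y ∈ h.sys C, (C.euler S y : ℂ) * MvPolynomial.aeval y t

/-- The trace formula.
Proof: `exists_trace_fd` (FD7) gives `ν₀` on `D.Rat × L.K`; take its push-forward `ν` to `L.K`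
(`Finsupp.mapDomain Prod.snd`, `Finsupp.sum_mapDomain_index`). Apply `exists_trace` to
`C.hrep H`; by `Coeff.euler_eq` the set of the `y` with `eulerMult (C.hrep H) .. y ≠ 0` is
`h.sys C` and the coefficients are `C.euler S y`; `C.hrep H (γ, k) = rho(hat k) sig(k)`; the
algebra map `Zl ℓ → ℂ` is the inclusion. -/
theorem Setup.exists_trace (h : Setup L S) (H : HatData F ℓ ι) : ∃ m : ℕ, 0 < m ∧
    ∀ t : MvPolynomial (Idx L S) (Zl ℓ), ∃ ν : L.K →₀ Zl ℓ, ∀ C : Coeff L,
      (m : ℂ) * h.tau C t = ν.sum fun k x => ((x : ℚ) : ℂ) *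
        LinearMap.trace ℂ C.W (C.rho (H.hat D k) * C.sig k) := by
  obtain ⟨m, hm, hm'⟩ := EP.exists_trace_fd (L := ℂ) (E := L.E) L.free h.fd
    (fun i : Idx L S => L.op i.2) h.equi (L.commute_idx S h.good)
  refine ⟨m, hm, fun t => ?_⟩
  obtain ⟨ν₀, h₀⟩ := hm' t
  refine ⟨ν₀.mapDomain Prod.snd, fun C => ?_⟩
  have h1 := h₀ C.W (C.hrep H)
  have h2 : ∀ y : Idx L S → ℂ, C.euler S y =
      eulerMult (C.hrep H) L.E (fun i : Idx L S => L.op i.2) y :=
    fun y => C.euler_eq H S h.sl h.good y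
  have h3 : h.tau C t = ∑ y ∈ (finite_euler_fd (E := L.E) (L := ℂ) L.free h.fd
      (fun i : Idx L S => L.op i.2) h.equi (L.commute_idx S h.good) (C.hrep H)).toFinset,
      (eulerMult (C.hrep H) L.E (fun i : Idx L S => L.op i.2) y : ℂ) *
        MvPolynomial.aeval y t := by
    refine Finset.sum_congr ?_ fun y _ => by rw [h2]
    ext y
    rw [h.mem_sys, Set.Finite.mem_toFinset, Set.mem_setOf_eq, h2]
  rw [h3, h1, Finsupp.sum_mapDomain_index]
  · rfl
  · intro k
    rw [ZeroMemClass.coe_zero, Rat.cast_zero, zero_mul]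
  · intro k x y
    rw [AddMemClass.coe_add, Rat.cast_add, add_mul]

end Pool.Agent.Lib.MP_666dc0_nt.EP
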