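import Pool.Agent.Lib.MP_666dc0_nt.EP.T4
import Pool.Agent.Lib.MP_666dc0_nt.Mg.G068
import Pool.Agent.Lib.MP_666dc0_nt.EP.T6
import Pool.Agent.Lib.MP_666dc0_nt.Mg.G060

/-!
# EP, T7: approximation of the Euler characteristics by those of weight zero
-/

open NumberField IsDedekindDomain
open scoped NumberField

namespace Pool.Agent.Lib.MP_666dc0_nt.EP

open WL

variable {F : Type} [Field F] [NumberField F] {n : ℕ} {D : Datum F n} {ℓ : ℕ} [Fact ℓ.Prime]
  {L : Level D ℓ} {S : Finset (HeightOneSpectrum (𝓞 F))} {ι : ℂ ≃+* PadicAlgCl ℓ}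

/-- Proof: `ι` of a rational number is this number, and `PadicAlgCl.norm_extends`
(see `norm_actK_le` in WL/D2b). -/
theorem norm_Zl_le_one (x : Zl ℓ) : ‖ι ((x : ℚ) : ℂ)‖ ≤ 1 := by
  have h1 : ι ((x : ℚ) : ℂ) = algebraMap ℚ_[ℓ] (PadicAlgCl ℓ) ((x : ℚ) : ℚ_[ℓ]) := by
    rw [map_ratCast, map_ratCast]
  rw [h1, PadicAlgCl.norm_extends]
  exact x.2

/-- Ultrametric estimate. Proof: `IsUltrametricDist.norm_sum_le_of_forall_le_of_nonneg`,
`norm_Zl_le_one`. -/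
theorem norm_sum_le {K : Type} (ν : K →₀ Zl ℓ) (f : K → ℂ) {M : ℝ} (hM : 0 ≤ M)
    (hf : ∀ k, ‖ι (f k)‖ ≤ M) : ‖ι (ν.sum fun k x => ((x : ℚ) : ℂ) * f k)‖ ≤ M := by
  rw [Finsupp.sum, map_sum]
  refine IsUltrametricDist.norm_sum_le_of_forall_le_of_nonneg hM fun k _ => ?_
  rw [map_mul, norm_mul]
  calc ‖ι ((ν k : ℚ) : ℂ)‖ * ‖ι (f k)‖ ≤ 1 * M :=
        mul_le_mul (norm_Zl_le_one _) (hf k) (norm_nonneg _) zero_le_one
    _ = M := one_mul M

theorem norm_natCast_pos {m : ℕ} (hm : 0 < m) : 0 < ‖ι (m : ℂ)‖ := by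
  rw [norm_pos_iff, map_natCast]
  exact Nat.cast_ne_zero.2 hm.ne'

/-- Boundedness.
Proof: by `exists_padic_rep` the function `k ↦ ι (tr (rho(hat k) sig(k)))` is continuous on the
compact space `K` (`compactSpace_K`), so it is bounded by some `M`; then `Setup.exists_trace` and
`norm_sum_le`. -/
theorem Setup.exists_bound (h : Setup L S) (H : HatData F ℓ ι) (C : Coeff L) :
    ∃ M : ℝ, ∀ t, ‖ι (h.tau C t)‖ ≤ M := by
  obtain ⟨d, τ, hτ, htr⟩ := C.exists_padic_rep H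
  have := L.compactSpace_K
  have hc : Continuous fun k : L.K => (τ k : Matrix (Fin d) (Fin d) (PadicAlgCl ℓ)).trace :=
    (Units.continuous_val.comp hτ).matrix_trace
  obtain ⟨M, hM⟩ := (isCompact_univ (X := L.K)).exists_bound_of_continuousOn hc.continuousOn
  obtain ⟨m, hm, hm'⟩ := h.exists_trace H
  have hm0 : 0 < ‖ι (m : ℂ)‖ := norm_natCast_pos hm
  refine ⟨max M 0 / ‖ι (m : ℂ)‖, fun t => ?_⟩
  obtain ⟨ν, hν⟩ := hm' t
  rw [le_div_iff₀' hm0, ← norm_mul, ← map_mul, hν C]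
  refine norm_sum_le ν _ (le_max_right _ _) fun k => ?_
  rw [← htr k]
  exact (hM k (Set.mem_univ _)).trans (le_max_left _ _)

/-- Approximation.
Proof: `exists_padic_rep` gives the continuous representation `τ` of the compact group `K`;
`exists_approx_characters` (N1e) gives `σ j` with open kernels and `b j`; `exists_coeff` gives `C' j` of
weight zero, with `tr (rho(hat k) sig(k)) = tr (sig k) = ι⁻¹ (tr (σ j k))` for `C' j` (`rho = 1`). For
every `t` take `ν` from `Setup.exists_trace`: then, up to the constant,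
`tau C t - ∑ j, ι⁻¹ (b j) * tau (C' j) t = ν.sum (k, x ↦ x * (χ_C(k) - ∑ j, ι⁻¹ (b j) * χ_j(k)))`, and
`norm_sum_le`. -/
theorem Setup.exists_approx (h : Setup L S) (H : HatData F ℓ ι) (C : Coeff L) {ε : ℝ}
    (hε : 0 < ε) : ∃ (m : ℕ) (C' : Fin m → Coeff L) (b : Fin m → ℂ), (∀ j, (C' j).rho = 1) ∧
      ∀ t, ‖ι (h.tau C t - ∑ j, b j * h.tau (C' j) t)‖ ≤ ε := by
  obtain ⟨d, τ, hτ, htr⟩ := C.exists_padic_rep H
  have := L.compactSpace_K
  obtain ⟨m₀, hm₀, hm₀'⟩ := h.exists_trace H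
  have hm0 : 0 < ‖ι (m₀ : ℂ)‖ := norm_natCast_pos hm₀
  obtain ⟨m, e, σ, b, hopen, happ⟩ := exists_approx_characters τ hτ (mul_pos hm0 hε)
  have hex : ∀ j, ∃ C' : Coeff L, C'.rho = 1 ∧ ∀ k, LinearMap.trace ℂ C'.W (C'.sig k) =
      ι.symm ((σ j k : Matrix (Fin (e j)) (Fin (e j)) (PadicAlgCl ℓ)).trace) :=
    fun j => exists_coeff (σ j) (hopen j)
  choose C' hrho hC' using hex
  refine ⟨m, C', fun j => ι.symm (b j), hrho, fun t => ?_⟩
  obtain ⟨ν, hν⟩ := hm₀' t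
  have hj : ∀ (j : Fin m) (k : L.K), LinearMap.trace ℂ (C' j).W ((C' j).rho (H.hat D k) * (C' j).sig k) =
      ι.symm ((σ j k : Matrix (Fin (e j)) (Fin (e j)) (PadicAlgCl ℓ)).trace) := by
    intro j k
    rw [hrho j, MonoidHom.one_apply, one_mul, hC' j k]
  have heq : (m₀ : ℂ) * (h.tau C t - ∑ j, ι.symm (b j) * h.tau (C' j) t) =
      ν.sum fun k x => ((x : ℚ) : ℂ) *
      (LinearMap.trace ℂ C.W (C.rho (H.hat D k) * C.sig k) - ∑ j, ι.symm (b j) *
        ι.symm ((σ j k : Matrix (Fin (e j)) (Fin (e j)) (PadicAlgCl ℓ)).trace)) := by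
    rw [mul_sub, Finset.mul_sum, hν C]
    simp only [mul_left_comm (m₀ : ℂ)]
    simp only [hν (C' _), hj]
    simp only [Finsupp.sum, Finset.mul_sum]
    rw [Finset.sum_comm, ← Finset.sum_sub_distrib]
    refine Finset.sum_congr rfl fun k _ => ?_
    rw [mul_sub, Finset.mul_sum]
    congr 1
    refine Finset.sum_congr rfl fun j _ => ?_
    ring
  rw [← mul_le_mul_iff_right₀ hm0, ← norm_mul, ← map_mul, heq]
  refine norm_sum_le ν _ (mul_pos hm0 hε).le fun k => ?_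
  rw [map_sub, map_sum, ← htr k]
  simp only [map_mul, RingEquiv.apply_symm_apply]
  exact happ k

end Pool.Agent.Lib.MP_666dc0_nt.EP
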