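import Pool.Agent.Lib.MP_666dc0_nt.EP.T7
import Pool.Agent.Lib.MP_666dc0_nt.EP.J
import Pool.Agent.Lib.MP_666dc0_nt.EP.D2b

/-!
# EP, T8: the homomorphisms given by the eigensystems
-/

open NumberField IsDedekindDomain
open scoped NumberField

namespace Pool.Agent.Lib.MP_666dc0_nt.EP

open WL

variable {F : Type} [Field F] [NumberField F] {n : ℕ} {D : Datum F n} {ℓ : ℕ} [Fact ℓ.Prime]
  {L : Level D ℓ} {S : Finset (HeightOneSpectrum (𝓞 F))}

/-- The homomorphism `t ↦ ι (t(y))` given by the eigensystem `y`. -/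
noncomputable def homOf (ι : ℂ ≃+* PadicAlgCl ℓ) (y : Idx L S → ℂ) :
    MvPolynomial (Idx L S) (Zl ℓ) →+* PadicAlgCl ℓ :=
  (ι : ℂ →+* PadicAlgCl ℓ).comp (MvPolynomial.aeval y : MvPolynomial (Idx L S) (Zl ℓ) →ₐ[Zl ℓ] ℂ)

theorem homOf_apply (ι : ℂ ≃+* PadicAlgCl ℓ) (y : Idx L S → ℂ)
    (t : MvPolynomial (Idx L S) (Zl ℓ)) : homOf ι y t = ι (MvPolynomial.aeval y t) := rfl

theorem homOf_X (ι : ℂ ≃+* PadicAlgCl ℓ) (y : Idx L S → ℂ) (i : Idx L S) :
    homOf ι y (MvPolynomial.X i) = ι (y i) := by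
  rw [homOf_apply, MvPolynomial.aeval_X]

/-- Proof: `homOf_X`, `ι` is injective. -/
theorem homOf_injective (ι : ℂ ≃+* PadicAlgCl ℓ) :
    Function.Injective (homOf (L := L) (S := S) ι) := by
  intro y y' h
  funext i
  have h1 : homOf ι y (MvPolynomial.X i) = homOf ι y' (MvPolynomial.X i) := by rw [h]
  rw [homOf_X, homOf_X] at h1
  exact ι.injective h1

variable {ι : ℂ ≃+* PadicAlgCl ℓ}

/-- The function `t ↦ ι (tau C t)` as a combination of homomorphisms.
Proof: `s` is the image of `h.sys C` under the injective map `homOf ι`, and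
`e χ = ι (C.euler S y)` for `χ = homOf ι y` (for example with `Function.invFun (homOf ι)`), a non-zero
integer; `Finset.sum_image`. -/
theorem Setup.exists_homs (h : Setup L S) (ι : ℂ ≃+* PadicAlgCl ℓ) (C : Coeff L) :
    ∃ (s : Finset (MvPolynomial (Idx L S) (Zl ℓ) →+* PadicAlgCl ℓ))
      (e : (MvPolynomial (Idx L S) (Zl ℓ) →+* PadicAlgCl ℓ) → PadicAlgCl ℓ),
      (∀ χ, χ ∈ s ↔ ∃ y, C.euler S y ≠ 0 ∧ χ = homOf ι y) ∧ (∀ χ ∈ s, e χ ≠ 0) ∧
      (∀ χ ∈ s, ∃ z : ℤ, e χ = z) ∧ ∀ t, ι (h.tau C t) = ∑ χ ∈ s, e χ * χ t := by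
  classical
  have hinj := homOf_injective (L := L) (S := S) ι
  have hleft : ∀ y, Function.invFun (homOf (L := L) (S := S) ι) (homOf ι y) = y :=
    Function.leftInverse_invFun hinj
  refine ⟨(h.sys C).image (homOf ι),
    fun χ => ι ((C.euler S (Function.invFun (homOf ι) χ) : ℤ) : ℂ), ?_, ?_, ?_, ?_⟩
  · intro χ
    rw [Finset.mem_image]
    constructor
    · rintro ⟨y, hy, rfl⟩
      exact ⟨y, h.mem_sys.1 hy, rfl⟩
    · rintro ⟨y, hy, rfl⟩
      exact ⟨y, h.mem_sys.2 hy, rfl⟩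
  · intro χ hχ
    obtain ⟨y, hy, rfl⟩ := Finset.mem_image.1 hχ
    beta_reduce
    rw [hleft, map_ne_zero_iff ι ι.injective]
    exact_mod_cast h.mem_sys.1 hy
  · intro χ _
    exact ⟨_, map_intCast ι _⟩
  · intro t
    rw [Setup.tau, map_sum, Finset.sum_image (fun a _ b _ hab => hinj hab)]
    refine Finset.sum_congr rfl fun y _ => ?_
    beta_reduce
    rw [hleft, map_mul, homOf_apply]

/-- Integrality. Proof: `norm_le_one_of_sum_bounded` (J), `exists_homs`, `Setup.exists_bound`. -/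
theorem Setup.norm_le_one (h : Setup L S) (H : HatData F ℓ ι) {C : Coeff L} {y : Idx L S → ℂ}
    (hy : C.euler S y ≠ 0) (t : MvPolynomial (Idx L S) (Zl ℓ)) : ‖homOf ι y t‖ ≤ 1 := by
  obtain ⟨M, hM⟩ := h.exists_bound H C
  obtain ⟨s, e, h1, h2, -, h4⟩ := h.exists_homs ι C
  refine norm_le_one_of_sum_bounded s e h2 M (fun t => ?_) (homOf ι y) ((h1 _).2 ⟨y, hy, rfl⟩) t
  rw [← h4 t]
  exact hM t

/-- The eigensystems of weight zero with non-zero Euler characteristic. -/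
def famZ (ι : ℂ ≃+* PadicAlgCl ℓ) (L : Level D ℓ) (S : Finset (HeightOneSpectrum (𝓞 F))) :
    Set (MvPolynomial (Idx L S) (Zl ℓ) →+* PadicAlgCl ℓ) :=
  {χ | ∃ (C : Coeff L) (y : Idx L S → ℂ), C.rho = 1 ∧ C.euler S y ≠ 0 ∧ χ = homOf ι y}

/-- Proof: `controlled_of_approx` (D2b) for `Ω = famZ`, with `s`, `e` from `exists_homs` for `C`;
`hΩ` is `norm_le_one`; the approximation for `ε`: `Setup.exists_approx` gives `C' j`, `b j`; let `s j`,
`e j` be as in `exists_homs` for `C' j`, `I = ⋃ j, s j` and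
`b' χ = ∑ j, if χ ∈ s j then ι (b j) * e j χ else 0`. -/
theorem Setup.controlled (h : Setup L S) (H : HatData F ℓ ι) {C : Coeff L} {y : Idx L S → ℂ}
    (hy : C.euler S y ≠ 0) : Controlled (famZ ι L S) (homOf ι y) := by
  classical
  obtain ⟨s, e, h1, h2, -, h4⟩ := h.exists_homs ι C
  refine controlled_of_approx (famZ ι L S) ?_ s e h2 ?_ (homOf ι y) ((h1 _).2 ⟨y, hy, rfl⟩)
  · rintro ψ ⟨C₁, y₁, -, hy₁, rfl⟩ t
    exact h.norm_le_one H hy₁ t
  · intro ε hε
    obtain ⟨m, C', b, hrho, happ⟩ := h.exists_approx H C hε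
    have hex := fun j => h.exists_homs ι (C' j)
    choose s' e' g1 g2 g3 g4 using hex
    refine ⟨Finset.univ.biUnion s', fun χ => ∑ j, if χ ∈ s' j then ι (b j) * e' j χ else 0,
      ?_, ?_⟩
    · intro ψ hψ
      obtain ⟨j, -, hj⟩ := Finset.mem_biUnion.1 hψ
      obtain ⟨y₁, hy₁, rfl⟩ := (g1 j ψ).1 hj
      exact ⟨C' j, y₁, hrho j, hy₁, rfl⟩
    · intro t
      have h5 : ∑ ψ ∈ Finset.univ.biUnion s',
          (∑ j, if ψ ∈ s' j then ι (b j) * e' j ψ else 0) * ψ t =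
          ∑ j, ι (b j) * ι (h.tau (C' j) t) := by
        simp only [Finset.sum_mul, ite_mul, zero_mul]
        rw [Finset.sum_comm]
        refine Finset.sum_congr rfl fun j _ => ?_
        rw [Finset.sum_ite_mem, Finset.inter_eq_right.2
          (Finset.subset_biUnion_of_mem s' (Finset.mem_univ j)), g4 j t, Finset.mul_sum]
        refine Finset.sum_congr rfl fun ψ _ => ?_
        ring
      rw [h5, ← h4 t]
      have h6 := happ t
      rw [map_sub, map_sum] at h6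
      simp only [map_mul] at h6
      exact h6

end Pool.Agent.Lib.MP_666dc0_nt.EP
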